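import Pool.Agent.CRR.Targets

set_option autoImplicit false

/-!
# CRR: target ACR (across the windows)
-/

namespace Pool.Agent.CRR

open MeasureTheory FourierTransform Set Filter Topology
open scoped ENNReal NNReal ComplexConjugate
open Pool.Agent.CAR (e1)
open Pool.Agent.CRN (T_CARLS)

namespace ACR_

theorem norm_e1 (x : ℝ) : ‖e1 x‖ = 1 := by
  unfold e1
  rw [show (2 * Real.pi * Complex.I * (x : ℂ)) = ((2 * Real.pi * x : ℝ) : ℂ) * Complex.I by
    push_cast; ring]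
  exact Complex.norm_exp_ofReal_mul_I _

theorem enorm_e1 (x : ℝ) : ‖e1 x‖ₑ = 1 := by
  rw [← ofReal_norm, norm_e1, ENNReal.ofReal_one]

theorem e1_add (x y : ℝ) : e1 (x + y) = e1 x * e1 y := by
  unfold e1
  rw [← Complex.exp_add]
  congr 1
  push_cast
  ring

theorem conj_e1 (x : ℝ) : conj (e1 x) = e1 (-x) := by
  unfold e1
  rw [← Complex.exp_conj]
  congr 1
  have h2 : conj (2 : ℂ) = 2 := Complex.conj_eq_iff_real.mpr ⟨2, by norm_num⟩
  simp only [map_mul, Complex.conj_ofReal, Complex.conj_I, h2]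
  push_cast
  ring

theorem e1_lip (x y : ℝ) : ‖e1 x - e1 y‖ ≤ 2 * Real.pi * |x - y| := by
  have h : e1 x - e1 y = e1 y * (e1 (x - y) - 1) := by
    have : e1 x = e1 y * e1 (x - y) := by rw [← e1_add]; congr 1; ring
    rw [this]; ring
  rw [h, norm_mul, norm_e1, one_mul]
  have h2 : e1 (x - y) = Complex.exp (Complex.I * ((2 * Real.pi * (x - y) : ℝ) : ℂ)) := by
    unfold e1; congr 1; push_cast; ring
  rw [h2]
  refine Real.norm_exp_I_mul_ofReal_sub_one_le.trans (le_of_eq ?_)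
  rw [Real.norm_eq_abs, abs_mul, abs_of_pos (by positivity : (0 : ℝ) < 2 * Real.pi)]

theorem abel_id (b φ : ℕ → ℂ) (j : ℕ) :
    ∑ i ∈ Finset.range j, b i * φ i = (∑ i ∈ Finset.range j, b i) * φ j -
      ∑ i ∈ Finset.range j, (∑ l ∈ Finset.range (i + 1), b l) * (φ (i + 1) - φ i) := by
  induction j with
  | zero => simp
  | succ j ih =>
    rw [Finset.sum_range_succ, ih, Finset.sum_range_succ
      (fun i => (∑ l ∈ Finset.range (i + 1), b l) * (φ (i + 1) - φ i)),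
      Finset.sum_range_succ b j]
    ring

theorem abel (b φ : ℕ → ℂ) (N : ℕ) (κ : ℝ) (hκ : 0 ≤ κ) (hφ : ∀ i, ‖φ i‖ₑ ≤ 1)
    (hv : ∀ i, ‖φ (i + 1) - φ i‖ ≤ κ) :
    (⨆ (j : ℕ) (_ : j ≤ N), ‖∑ i ∈ Finset.range j, b i * φ i‖ₑ) ≤
      ENNReal.ofReal (1 + N * κ) * ⨆ (j : ℕ) (_ : j ≤ N), ‖∑ i ∈ Finset.range j, b i‖ₑ := by
  set S : ℝ≥0∞ := ⨆ (j : ℕ) (_ : j ≤ N), ‖∑ i ∈ Finset.range j, b i‖ₑ with hS
  have hB : ∀ j ≤ N, ‖∑ i ∈ Finset.range j, b i‖ₑ ≤ S :=
    fun j hj => le_iSup₂_of_le (f := fun (j : ℕ) (_ : j ≤ N) => ‖∑ i ∈ Finset.range j, b i‖ₑ)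
      j hj le_rfl
  refine iSup₂_le fun j hj => ?_
  have hK : ENNReal.ofReal (1 + N * κ) = 1 + N * ENNReal.ofReal κ := by
    rw [ENNReal.ofReal_add zero_le_one (by positivity), ENNReal.ofReal_one,
      ENNReal.ofReal_mul (by positivity), ENNReal.ofReal_natCast]
  rw [abel_id, hK]
  refine enorm_sub_le.trans ?_
  rw [add_mul, one_mul]
  refine add_le_add ?_ ?_
  · rw [enorm_mul]
    calc ‖∑ i ∈ Finset.range j, b i‖ₑ * ‖φ j‖ₑ ≤ S * 1 := mul_le_mul' (hB j hj) (hφ j)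
      _ = S := mul_one S
  · refine (enorm_sum_le _ _).trans ?_
    calc ∑ i ∈ Finset.range j, ‖(∑ l ∈ Finset.range (i + 1), b l) * (φ (i + 1) - φ i)‖ₑ
        ≤ ∑ _i ∈ Finset.range j, ENNReal.ofReal κ * S := by
          refine Finset.sum_le_sum fun i hi => ?_
          have hi' : i + 1 ≤ N := (Finset.mem_range.mp hi).trans_le hj
          rw [enorm_mul, mul_comm]
          refine mul_le_mul' ?_ (hB _ hi')
          rw [← ofReal_norm]
          exact ENNReal.ofReal_le_ofReal (hv i)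
      _ = j * (ENNReal.ofReal κ * S) := by
          rw [Finset.sum_const, Finset.card_range, nsmul_eq_mul]
      _ ≤ N * (ENNReal.ofReal κ * S) := by
          refine mul_le_mul' ?_ le_rfl
          exact_mod_cast hj
      _ = N * ENNReal.ofReal κ * S := by rw [mul_assoc]

theorem dE {A lam d : ℝ} {Θ Θ1 Θ2 : ℝ → ℝ} (h : Ph A lam d Θ Θ1 Θ2) (hK : 0 ≤ A * lam / d)
    (z z' t : ℝ) (ht : 0 ≤ t) :
    |(Θ (z' + t) - Θ z' - t * Θ1 z') - (Θ (z + t) - Θ z - t * Θ1 z)| ≤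
      A * lam / d * |z' - z| * t * t := by
  have hg : ∀ τ ∈ Icc (0 : ℝ) t,
      ‖(Θ1 (z' + τ) - Θ1 z') - (Θ1 (z + τ) - Θ1 z)‖ ≤ A * lam / d * |z' - z| * t := by
    intro τ hτ
    have := norm_image_sub_le_of_norm_deriv_le_segment'
      (f := fun τ => (Θ1 (z' + τ) - Θ1 z') - (Θ1 (z + τ) - Θ1 z))
      (f' := fun τ => Θ2 (z' + τ) - Θ2 (z + τ)) (a := 0) (b := t)
      (C := A * lam / d * |z' - z|)
      (fun u _ => by
        have e1 : HasDerivAt (fun τ => Θ1 (z' + τ)) (Θ2 (z' + u)) u := by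
          simpa using (h.d2 (z' + u)).comp_const_add z' u
        have e2 : HasDerivAt (fun τ => Θ1 (z + τ)) (Θ2 (z + u)) u := by
          simpa using (h.d2 (z + u)).comp_const_add z u
        exact ((e1.sub_const _).sub (e2.sub_const _)).hasDerivWithinAt)
      (fun u _ => by
        rw [Real.norm_eq_abs]
        refine (h.lip _ _).trans (le_of_eq ?_)
        congr 2
        ring) τ hτ
    simp only [add_zero, sub_self, sub_zero] at this
    refine this.trans ?_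
    exact mul_le_mul_of_nonneg_left hτ.2 (by positivity)
  have := norm_image_sub_le_of_norm_deriv_le_segment'
      (f := fun τ => (Θ (z' + τ) - Θ z' - τ * Θ1 z') - (Θ (z + τ) - Θ z - τ * Θ1 z))
      (f' := fun τ => (Θ1 (z' + τ) - Θ1 z') - (Θ1 (z + τ) - Θ1 z)) (a := 0) (b := t)
      (C := A * lam / d * |z' - z| * t)
      (fun u _ => by
        have e1 : HasDerivAt (fun τ => Θ (z' + τ)) (Θ1 (z' + u)) u := by
          simpa using (h.d1 (z' + u)).comp_const_add z' u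
        have e2 : HasDerivAt (fun τ => Θ (z + τ)) (Θ1 (z + u)) u := by
          simpa using (h.d1 (z + u)).comp_const_add z u
        have e3 : HasDerivAt (fun τ : ℝ => τ * Θ1 z') (Θ1 z') u := by
          simpa using (hasDerivAt_id u).mul_const (Θ1 z')
        have e4 : HasDerivAt (fun τ : ℝ => τ * Θ1 z) (Θ1 z) u := by
          simpa using (hasDerivAt_id u).mul_const (Θ1 z)
        exact (((e1.sub_const _).sub e3).sub ((e2.sub_const _).sub e4)).hasDerivWithinAt)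
      (fun u hu => hg u (Ico_subset_Icc_self hu)) t (right_mem_Icc.mpr ht)
  simp only [add_zero, zero_mul, sub_self, sub_zero] at this
  rw [← Real.norm_eq_abs]
  exact this

theorem gap {A lam d : ℝ} {Θ Θ1 Θ2 : ℝ → ℝ} (h : Ph A lam d Θ Θ1 Θ2) (z w : ℝ) (hw : 0 ≤ w) :
    Θ1 z + w * lam / A ≤ Θ1 (z + w) := by
  have hm : Monotone (fun τ => Θ1 τ - lam / A * τ) := by
    have hd : ∀ τ, HasDerivAt (fun τ => Θ1 τ - lam / A * τ) (Θ2 τ - lam / A) τ := fun τ => by
      have e2 : HasDerivAt (fun τ : ℝ => lam / A * τ) (lam / A) τ := by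
        simpa using (hasDerivAt_id τ).const_mul (lam / A)
      exact (h.d2 τ).sub e2
    refine monotone_of_deriv_nonneg (fun τ => (hd τ).differentiableAt) fun τ => ?_
    rw [(hd τ).deriv]
    have := h.lo τ
    linarith
  have h1 := hm (show z ≤ z + w by linarith)
  simp only at h1
  have h2 : lam / A * (z + w) - lam / A * z = w * lam / A := by ring
  linarith

end ACR_

open ACR_ in
theorem p_ACR (h1 : T_DCAR) : T_ACR := by
  intro hC A hA
  have hA0 : 0 < A := by linarith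
  have hA2 : 1 ≤ A ^ 2 := one_le_pow₀ hA
  obtain ⟨C, hC⟩ := h1 hC (A ^ 2) hA2
  set K : ℝ := 1 + 4 * Real.pi * A with hKdef
  have hK0 : 0 ≤ K := by positivity
  refine ⟨(K.toNNReal) ^ 2 * C, ?_⟩
  intro lam d w Θ Θ1 Θ2 s x y N a hPh hlam hd hw hlo hhi hN hs
  set z : ℕ → ℝ := fun i => x + (y + i * w) with hz
  set Er : ℕ → ℝ → ℝ := fun i t => Θ (z i + t) - Θ (z i) - t * Θ1 (z i) with hEr
  have hzs : ∀ i, z (i + 1) = z i + w := fun i => by simp only [hz]; push_cast; ring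
  set κ : ℝ := 2 * Real.pi * (A * lam / d * w * w * w) with hκ
  have hκ0 : 0 ≤ κ := by positivity
  have hNκ : 1 + N * κ ≤ K := by
    have e : N * κ = (2 * Real.pi * A / d) * ((N * w) * (w ^ 2 * lam)) := by
      rw [hκ]; field_simp
    have h3 : (N * w) * (w ^ 2 * lam) ≤ (2 * d) * 1 :=
      mul_le_mul hN hhi (by positivity) (by positivity)
    have h4 : (2 * Real.pi * A / d) * ((N * w) * (w ^ 2 * lam)) ≤
        (2 * Real.pi * A / d) * ((2 * d) * 1) :=
      mul_le_mul_of_nonneg_left h3 (by positivity)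
    have h5 : (2 * Real.pi * A / d) * ((2 * d) * 1) = 4 * Real.pi * A := by
      field_simp; ring
    rw [hKdef, e]
    linarith
  have hlipE : ∀ i t, 0 ≤ t → t ≤ w → |Er (i + 1) t - Er i t| ≤ A * lam / d * w * w * w := by
    intro i t ht htw
    have h2 := dE hPh (by positivity) (z i) (z (i + 1)) t ht
    have h3 : |z (i + 1) - z i| = w := by rw [hzs, add_sub_cancel_left, abs_of_pos hw]
    rw [h3] at h2
    refine h2.trans ?_
    gcongr
  -- the reduction to `DCAR`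
  have red : ∃ c : ℕ → ℂ, (∀ i, ‖c i‖ₑ = ‖a i‖ₑ) ∧ ∀ t, 0 ≤ t → t ≤ w →
      (⨆ (j : ℕ) (_ : j ≤ N), ‖∑ i ∈ Finset.range j, a i * e1 (s * Θ (x + t + (y + i * w)))‖ₑ) ≤
      ENNReal.ofReal K * ⨆ (j : ℕ) (_ : j ≤ N),
        ‖∑ i ∈ Finset.range j, c i * e1 (t * Θ1 (z i))‖ₑ := by
    have harg : ∀ (i : ℕ) (t : ℝ), Θ (x + t + (y + i * w)) = Θ (z i) + t * Θ1 (z i) + Er i t := by
      intro i t
      have : x + t + (y + i * w) = z i + t := by simp only [hz]; ring
      rw [this]; simp only [hEr]; ring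
    have step : ∀ σ : ℝ, |σ| = 1 → ∀ t, 0 ≤ t → t ≤ w →
      (⨆ (j : ℕ) (_ : j ≤ N), ‖∑ i ∈ Finset.range j, a i * e1 (σ * Θ (x + t + (y + i * w)))‖ₑ) ≤
      ENNReal.ofReal K * ⨆ (j : ℕ) (_ : j ≤ N),
        ‖∑ i ∈ Finset.range j, a i * e1 (σ * Θ (z i)) * e1 (σ * (t * Θ1 (z i)))‖ₑ := by
      intro σ hσ t ht htw
      have hterm : ∀ i : ℕ, a i * e1 (σ * Θ (x + t + (y + i * w))) =
          (a i * e1 (σ * Θ (z i)) * e1 (σ * (t * Θ1 (z i)))) * e1 (σ * Er i t) := by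
        intro i
        rw [harg, show σ * (Θ (z i) + t * Θ1 (z i) + Er i t) =
          σ * Θ (z i) + σ * (t * Θ1 (z i)) + σ * Er i t by ring, e1_add, e1_add]
        ring
      simp only [hterm]
      refine (abel _ (fun i => e1 (σ * Er i t)) N κ hκ0 (fun i => (enorm_e1 _).le)
        (fun i => ?_)).trans ?_
      · refine (e1_lip _ _).trans ?_
        rw [← mul_sub, abs_mul, hσ, one_mul]
        exact mul_le_mul_of_nonneg_left (hlipE i t ht htw) (by positivity)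
      · exact mul_le_mul' (ENNReal.ofReal_le_ofReal hNκ) le_rfl
    rcases hs with rfl | rfl
    · refine ⟨fun i => a i * e1 (1 * Θ (z i)), fun i => ?_, fun t ht htw => ?_⟩
      · rw [enorm_mul, enorm_e1, mul_one]
      · have := step 1 (by simp) t ht htw
        simpa only [one_mul] using this
    · refine ⟨fun i => conj (a i * e1 ((-1) * Θ (z i))), fun i => ?_, fun t ht htw => ?_⟩
      · rw [RCLike.enorm_conj, enorm_mul, enorm_e1, mul_one]
      · have h3 := step (-1) (by simp) t ht htw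
        refine h3.trans (le_of_eq ?_)
        congr 1
        refine iSup_congr fun j => iSup_congr fun _ => ?_
        rw [← RCLike.enorm_conj (∑ i ∈ Finset.range j,
          a i * e1 (-1 * Θ (z i)) * e1 (-1 * (t * Θ1 (z i)))), map_sum]
        congr 1
        refine Finset.sum_congr rfl fun i _ => ?_
        rw [map_mul, conj_e1]
        congr 2
        ring
  obtain ⟨c, hc, hred⟩ := red
  have htr : ∀ F : ℝ → ℝ≥0∞, ∫⁻ u in Icc x (x + w), F u = ∫⁻ t in Icc 0 w, F (x + t) := by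
    intro F
    have := (measurePreserving_add_left (volume : Measure ℝ) x).setLIntegral_comp_preimage_emb
      (measurableEmbedding_addLeft x) F (Icc x (x + w))
    rw [← this]
    congr 2
    ext t
    simp
  rw [htr]
  have hgap : ∀ i, Θ1 (z i) + w * lam / A ≤ Θ1 (z (i + 1)) := fun i => by
    rw [hzs]; exact gap hPh (z i) w hw.le
  have hwg : 1 / A ^ 2 ≤ w * (w * lam / A) := by
    have e : w * (w * lam / A) = (w ^ 2 * lam) / A := by ring
    rw [e, div_le_div_iff₀ (by positivity) hA0]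
    have h3 : 1 ≤ w ^ 2 * lam * A := by
      rw [div_le_iff₀ hA0] at hlo
      linarith
    nlinarith
  have hD := hC w (w * lam / A) N (fun i => Θ1 (z i)) c hw (by positivity) hwg hgap
  have hsum : ∑ i ∈ Finset.range N, ‖c i‖ₑ ^ 2 = ∑ i ∈ Finset.range N, ‖a i‖ₑ ^ 2 :=
    Finset.sum_congr rfl fun i _ => by rw [hc i]
  rw [hsum] at hD
  calc ∫⁻ t in Icc 0 w, (⨆ (j : ℕ) (_ : j ≤ N),
        ‖∑ i ∈ Finset.range j, a i * e1 (s * Θ (x + t + (y + i * w)))‖ₑ) ^ 2
      ≤ ∫⁻ t in Icc 0 w, (ENNReal.ofReal K) ^ 2 * (⨆ (j : ℕ) (_ : j ≤ N),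
        ‖∑ i ∈ Finset.range j, c i * e1 (t * Θ1 (z i))‖ₑ) ^ 2 := by
        refine setLIntegral_mono' measurableSet_Icc fun t ht => ?_
        rw [← mul_pow]
        exact pow_le_pow_left' (hred t ht.1 ht.2) 2
    _ = (ENNReal.ofReal K) ^ 2 * ∫⁻ t in Icc 0 w, (⨆ (j : ℕ) (_ : j ≤ N),
        ‖∑ i ∈ Finset.range j, c i * e1 (t * Θ1 (z i))‖ₑ) ^ 2 :=
        lintegral_const_mul' _ _ (by finiteness)
    _ ≤ (ENNReal.ofReal K) ^ 2 * ∫⁻ t in Icc (-w) w, (⨆ (j : ℕ) (_ : j ≤ N),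
        ‖∑ i ∈ Finset.range j, c i * e1 (t * Θ1 (z i))‖ₑ) ^ 2 := by
        refine mul_le_mul' le_rfl (lintegral_mono_set ?_)
        exact Icc_subset_Icc_left (by linarith)
    _ ≤ (ENNReal.ofReal K) ^ 2 * (C * ENNReal.ofReal w * ∑ i ∈ Finset.range N, ‖a i‖ₑ ^ 2) :=
        mul_le_mul' le_rfl hD
    _ = _ := by
        rw [ENNReal.coe_mul, ENNReal.coe_pow]
        change _ = (ENNReal.ofReal K) ^ 2 * (C : ℝ≥0∞) * ENNReal.ofReal w * _
        ring

end Pool.Agent.CRR
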