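import Pool.Agent.CRR.Targets

set_option autoImplicit false

/-!
# CRR: AHT, the local extension estimate in balls of radius `T`
-/

namespace Pool.Agent.CRR

open MeasureTheory FourierTransform Set Filter Topology
open scoped ENNReal NNReal ComplexConjugate
open Pool.Agent.MBS (E ex S Sstar)
open Pool.Agent.CAR (e1)
open Pool.Agent.CRN (IN sg rt Lam SH S1 Nice T_CARLS T_RAYN T_POLN T_AHN T_DSN T_HELN)

namespace AHT_

/-- change of scale in a Lebesgue integral -/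
theorem lint_smul {F : Type*} [NormedAddCommGroup F] [NormedSpace ℝ F] [MeasurableSpace F]
    [BorelSpace F] [FiniteDimensional ℝ F] (μ : Measure F) [μ.IsAddHaarMeasure] {c : ℝ}
    (hc : c ≠ 0) (G : F → ℝ≥0∞) :
    ∫⁻ x, G (c • x) ∂μ = ENNReal.ofReal |(c ^ Module.finrank ℝ F)⁻¹| * ∫⁻ x, G x ∂μ := by
  have h1 := (Homeomorph.smulOfNeZero c hc).measurableEmbedding.lintegral_map (μ := μ) G
  have h2 : Measure.map (Homeomorph.smulOfNeZero c hc) μ =
      ENNReal.ofReal |(c ^ Module.finrank ℝ F)⁻¹| • μ := Measure.map_addHaar_smul μ hc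
  rw [h2, lintegral_smul_measure] at h1
  rw [smul_eq_mul] at h1
  exact h1.symm

theorem enorm_ofReal (c : ℝ) (hc : 0 ≤ c) : ‖(c : ℂ)‖ₑ = ENNReal.ofReal c := by
  rw [← ofReal_norm, Complex.norm_real, Real.norm_of_nonneg hc]

theorem SH_scale {n : ℕ} {s : ℝ} (hs : 0 < s) (h : E n → ℂ) (R : ℝ) (y : E n) :
    SH h R (s • y) = (((s ^ (n - 1))⁻¹ : ℝ) : ℂ) * SH (fun ξ => h (s⁻¹ • ξ)) (s * R) y := by
  unfold SH
  have e1 : ∀ ω : Metric.sphere (0 : E n) 1, h (s⁻¹ • (s * R) • (ω : E n)) *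
      ex y ((s * R) • (ω : E n)) = h (R • (ω : E n)) * ex (s • y) (R • (ω : E n)) := by
    intro ω
    have e2 : s⁻¹ • (s * R) • (ω : E n) = R • (ω : E n) := by
      rw [smul_smul, inv_mul_cancel_left₀ hs.ne']
    rw [e2]
    unfold ex
    rw [inner_smul_right, inner_smul_left, inner_smul_right]
    congr 3
    simp only [conj_trivial]
    push_cast
    ring
  simp only [e1]
  rw [← mul_assoc, ← Complex.ofReal_mul, mul_pow]
  congr 2
  have : s ^ (n - 1) ≠ 0 := pow_ne_zero _ hs.ne'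
  field_simp

theorem enorm_SH {n : ℕ} {s : ℝ} (hs : 0 < s) (h : E n → ℂ) (R : ℝ) (y : E n) :
    ‖SH h R (s • y)‖ₑ ^ 2 = ENNReal.ofReal ((s ^ (n - 1))⁻¹ ^ 2) *
      ‖SH (fun ξ => h (s⁻¹ • ξ)) (s * R) y‖ₑ ^ 2 := by
  rw [SH_scale hs, enorm_mul, mul_pow, enorm_ofReal _ (by positivity),
    ENNReal.ofReal_pow (by positivity)]

end AHT_

open AHT_ in
theorem p_AHT (h1 : T_AHN) : T_AHT := by
  intro n hn
  obtain ⟨C, hC⟩ := h1 n hn
  refine ⟨C, fun T h hT hh => ?_⟩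
  set s : ℝ := T / 2 with hs
  have hs0 : 0 < s := by positivity
  set h' : E n → ℂ := fun ξ => h (s⁻¹ • ξ) with hh'
  have hm' : Measurable h' := hh.comp (measurable_const_smul _)
  have key := hC h' hm'
  have hfin : Module.finrank ℝ (E n) = n := finrank_euclideanSpace_fin
  -- the ball
  have hball : ∀ R : ℝ, ∫⁻ x in Metric.closedBall (0 : E n) T, ‖SH h R x‖ₑ ^ 2 =
      ENNReal.ofReal (s ^ n * (s ^ (n - 1))⁻¹ ^ 2) *
        ∫⁻ y in Metric.closedBall (0 : E n) 2, ‖SH h' (s * R) y‖ₑ ^ 2 := by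
    intro R
    have e1 := lint_smul (volume : Measure (E n)) hs0.ne'
      ((Metric.closedBall (0 : E n) T).indicator fun x => ‖SH h R x‖ₑ ^ 2)
    rw [hfin, lintegral_indicator Metric.isClosed_closedBall.measurableSet] at e1
    have e2 : ∀ y : E n, (Metric.closedBall (0 : E n) T).indicator
        (fun x => ‖SH h R x‖ₑ ^ 2) (s • y) = ENNReal.ofReal ((s ^ (n - 1))⁻¹ ^ 2) *
        (Metric.closedBall (0 : E n) 2).indicator (fun y => ‖SH h' (s * R) y‖ₑ ^ 2) y := by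
      intro y
      have e3 : s • y ∈ Metric.closedBall (0 : E n) T ↔ y ∈ Metric.closedBall (0 : E n) 2 := by
        rw [mem_closedBall_zero_iff, mem_closedBall_zero_iff, norm_smul,
          Real.norm_of_nonneg hs0.le, hs]
        constructor
        · intro h5
          nlinarith
        · intro h5
          nlinarith
      by_cases hy : y ∈ Metric.closedBall (0 : E n) 2
      · rw [indicator_of_mem (e3.2 hy), indicator_of_mem hy, enorm_SH hs0]
      · rw [indicator_of_notMem (fun h5 => hy (e3.1 h5)), indicator_of_notMem hy, mul_zero]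
    simp only [e2] at e1
    rw [lintegral_const_mul' _ _ ENNReal.ofReal_ne_top,
      lintegral_indicator Metric.isClosed_closedBall.measurableSet] at e1
    have e4 : ENNReal.ofReal (s ^ n) * ENNReal.ofReal |(s ^ n)⁻¹| = 1 := by
      rw [abs_of_pos (by positivity), ← ENNReal.ofReal_mul (by positivity),
        mul_inv_cancel₀ (by positivity), ENNReal.ofReal_one]
    rw [ENNReal.ofReal_mul (by positivity), mul_assoc, e1, ← mul_assoc, e4, one_mul]
  simp only [hball]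
  rw [lintegral_const_mul' _ _ ENNReal.ofReal_ne_top]
  -- the radius
  have hrad : ∫⁻ R in Ioi (0 : ℝ), ∫⁻ y in Metric.closedBall (0 : E n) 2,
      ‖SH h' (s * R) y‖ₑ ^ 2 = ENNReal.ofReal s⁻¹ *
      ∫⁻ R in Ioi (0 : ℝ), ∫⁻ y in Metric.closedBall (0 : E n) 2, ‖SH h' R y‖ₑ ^ 2 := by
    have e1 := lint_smul (volume : Measure ℝ) hs0.ne'
      ((Ioi (0 : ℝ)).indicator fun R => ∫⁻ y in Metric.closedBall (0 : E n) 2,
        ‖SH h' R y‖ₑ ^ 2)
    have e2 : ∀ R : ℝ, (Ioi (0 : ℝ)).indicator (fun R => ∫⁻ y in Metric.closedBall (0 : E n) 2,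
        ‖SH h' R y‖ₑ ^ 2) (s • R) = (Ioi (0 : ℝ)).indicator
        (fun R => ∫⁻ y in Metric.closedBall (0 : E n) 2, ‖SH h' (s * R) y‖ₑ ^ 2) R := by
      intro R
      have e3 : s • R ∈ Ioi (0 : ℝ) ↔ R ∈ Ioi (0 : ℝ) := by
        rw [smul_eq_mul, mem_Ioi, mem_Ioi]
        exact ⟨fun h5 => (pos_iff_pos_of_mul_pos h5).1 hs0, fun h5 => mul_pos hs0 h5⟩
      by_cases hR : R ∈ Ioi (0 : ℝ)
      · rw [indicator_of_mem (e3.2 hR), indicator_of_mem hR, smul_eq_mul]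
      · rw [indicator_of_notMem (fun h5 => hR (e3.1 h5)), indicator_of_notMem hR]
    simp only [e2] at e1
    rw [lintegral_indicator measurableSet_Ioi, lintegral_indicator measurableSet_Ioi,
      Module.finrank_self, pow_one, abs_of_pos (by positivity)] at e1
    exact e1
  rw [hrad]
  have hnorm : ∫⁻ ξ, ‖h' ξ‖ₑ ^ 2 = ENNReal.ofReal (s ^ n) * ∫⁻ ξ, ‖h ξ‖ₑ ^ 2 := by
    have e1 := lint_smul (volume : Measure (E n)) (inv_ne_zero hs0.ne')
      (fun ξ => ‖h ξ‖ₑ ^ 2)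
    rw [hfin, inv_pow, inv_inv, abs_of_pos (by positivity)] at e1
    exact e1
  rw [hnorm] at key
  calc ENNReal.ofReal (s ^ n * (s ^ (n - 1))⁻¹ ^ 2) * (ENNReal.ofReal s⁻¹ *
        ∫⁻ R in Ioi (0 : ℝ), ∫⁻ y in Metric.closedBall (0 : E n) 2, ‖SH h' R y‖ₑ ^ 2) ≤
      ENNReal.ofReal (s ^ n * (s ^ (n - 1))⁻¹ ^ 2) * (ENNReal.ofReal s⁻¹ *
        (C * (ENNReal.ofReal (s ^ n) * ∫⁻ ξ, ‖h ξ‖ₑ ^ 2))) := by gcongr
    _ = C * (ENNReal.ofReal (s ^ n * (s ^ (n - 1))⁻¹ ^ 2) * ENNReal.ofReal s⁻¹ *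
        ENNReal.ofReal (s ^ n)) * ∫⁻ ξ, ‖h ξ‖ₑ ^ 2 := by ring
    _ = C * ENNReal.ofReal s * ∫⁻ ξ, ‖h ξ‖ₑ ^ 2 := by
      rw [← ENNReal.ofReal_mul (by positivity), ← ENNReal.ofReal_mul (by positivity)]
      congr 3
      obtain ⟨m, rfl⟩ : ∃ m, n = m + 1 := ⟨n - 1, by omega⟩
      simp only [Nat.add_sub_cancel]
      field_simp
      ring
    _ ≤ C * ENNReal.ofReal T * ∫⁻ ξ, ‖h ξ‖ₑ ^ 2 := by
      gcongr
      rw [hs]
      linarith

end Pool.Agent.CRR
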