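import Pool.Agent.CRR.Targets

set_option autoImplicit false

/-!
# Block DCAR: discrete frequencies with gaps
-/

namespace Pool.Agent.CRR

open MeasureTheory FourierTransform Set Filter Topology
open scoped ENNReal NNReal ComplexConjugate
open Pool.Agent.CAR (e1)
open Pool.Agent.CRN (T_CARLS T_RAYN)

namespace DCAR_

theorem e1_norm (x : ℝ) : ‖e1 x‖ = 1 := by
  unfold e1
  rw [show (2 * Real.pi * Complex.I * (x : ℂ) : ℂ) = ((2 * Real.pi * x : ℝ) : ℂ) * Complex.I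
    from by push_cast; ring]
  exact Complex.norm_exp_ofReal_mul_I _

theorem e1_add (x y : ℝ) : e1 (x + y) = e1 x * e1 y := by
  unfold e1
  rw [← Complex.exp_add]
  congr 1
  push_cast
  ring

theorem e1_continuous : Continuous e1 := by
  unfold e1
  fun_prop

theorem e1_re (x : ℝ) : (e1 x).re = Real.cos (2 * Real.pi * x) := by
  unfold e1
  rw [show (2 * Real.pi * Complex.I * (x : ℂ) : ℂ) = ((2 * Real.pi * x : ℝ) : ℂ) * Complex.I
    from by push_cast; ring]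
  exact Complex.exp_ofReal_mul_I_re _

/-- the mean value of `e1 (t τ)` over `[0, γ]` -/
noncomputable def kk (γ t : ℝ) : ℂ := ((γ⁻¹ : ℝ) : ℂ) * ∫ τ in (0 : ℝ)..γ, e1 (t * τ)

theorem kk_lower {γ t w : ℝ} (hγ : 0 < γ) (hw : γ * w ≤ 1 / 8) (ht : |t| ≤ w) :
    1 / 2 ≤ ‖kk γ t‖ := by
  have hcont : Continuous (fun τ : ℝ => e1 (t * τ)) :=
    e1_continuous.comp (continuous_const.mul continuous_id)
  have h1 : (kk γ t).re = γ⁻¹ * ∫ τ in (0 : ℝ)..γ, Real.cos (2 * Real.pi * (t * τ)) := by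
    unfold kk
    rw [Complex.re_ofReal_mul]
    congr 1
    have h2 := Complex.reCLM.intervalIntegral_comp_comm (μ := volume)
      (hcont.intervalIntegrable (0 : ℝ) γ)
    have h3 : Complex.reCLM (∫ τ in (0 : ℝ)..γ, e1 (t * τ)) =
        (∫ τ in (0 : ℝ)..γ, e1 (t * τ)).re := rfl
    rw [← h3, ← h2]
    refine intervalIntegral.integral_congr fun τ _ => ?_
    change (e1 (t * τ)).re = _
    rw [e1_re]
  have h4 : ∫ τ in (0 : ℝ)..γ, (1 / 2 : ℝ) ≤
      ∫ τ in (0 : ℝ)..γ, Real.cos (2 * Real.pi * (t * τ)) := by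
    refine intervalIntegral.integral_mono_on hγ.le
      (intervalIntegrable_const) ?_ ?_
    · exact (Continuous.intervalIntegrable (by fun_prop) _ _)
    · intro τ hτ
      have h5 : |t * τ| ≤ 1 / 8 := by
        rw [abs_mul, abs_of_nonneg hτ.1]
        calc |t| * τ ≤ w * γ := mul_le_mul ht hτ.2 hτ.1 ((abs_nonneg t).trans ht)
          _ = γ * w := mul_comm _ _
          _ ≤ 1 / 8 := hw
      have h6 := Real.one_sub_sq_div_two_le_cos (x := 2 * Real.pi * (t * τ))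
      have h7 : (2 * Real.pi * (t * τ)) ^ 2 ≤ 1 := by
        rw [show (2 * Real.pi * (t * τ)) ^ 2 = (2 * Real.pi) ^ 2 * |t * τ| ^ 2 by
          rw [sq_abs]; ring]
        have h8 : |t * τ| ^ 2 ≤ (1 / 8) ^ 2 := pow_le_pow_left₀ (abs_nonneg _) h5 2
        have h9 : (2 * Real.pi) ^ 2 ≤ 8 ^ 2 :=
          pow_le_pow_left₀ (by positivity) (by linarith [Real.pi_le_four]) 2
        calc (2 * Real.pi) ^ 2 * |t * τ| ^ 2 ≤ 8 ^ 2 * (1 / 8) ^ 2 :=
              mul_le_mul h9 h8 (by positivity) (by positivity)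
          _ = 1 := by norm_num
      linarith
  rw [intervalIntegral.integral_const, smul_eq_mul, sub_zero] at h4
  have h10 : 1 / 2 ≤ (kk γ t).re := by
    rw [h1]
    calc (1 / 2 : ℝ) = γ⁻¹ * (γ * (1 / 2)) := by field_simp
      _ ≤ _ := mul_le_mul_of_nonneg_left h4 (inv_nonneg.2 hγ.le)
  exact h10.trans ((le_abs_self _).trans (Complex.abs_re_le_norm _))

theorem int_shift (γ t η : ℝ) (hγ : 0 < γ) :
    ∫ r in Ioc η (η + γ), e1 (1 * (r * t)) = e1 (t * η) * ∫ τ in (0 : ℝ)..γ, e1 (t * τ) := by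
  rw [← intervalIntegral.integral_of_le (by linarith)]
  have h1 := intervalIntegral.integral_comp_add_left (a := 0) (b := γ)
    (fun r => e1 (1 * (r * t))) η
  rw [add_zero] at h1
  rw [← h1, ← intervalIntegral.integral_const_mul]
  refine intervalIntegral.integral_congr fun τ _ => ?_
  change e1 (1 * ((η + τ) * t)) = e1 (t * η) * e1 (t * τ)
  rw [← e1_add]
  congr 1
  ring

/-- the auxiliary function -/
noncomputable def hh (γ : ℝ) (N : ℕ) (η : ℕ → ℝ) (a : ℕ → ℂ) (v : ℝ) : ℂ :=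
  ∑ i ∈ Finset.range N, (Ioc (η i) (η i + γ)).indicator (fun _ => a i * ((γ⁻¹ : ℝ) : ℂ)) v

theorem hh_meas (γ : ℝ) (N : ℕ) (η : ℕ → ℝ) (a : ℕ → ℂ) : Measurable (hh γ N η a) := by
  unfold hh
  exact Finset.measurable_sum _ fun i _ => measurable_const.indicator measurableSet_Ioc

theorem eta_mono {γ : ℝ} {η : ℕ → ℝ} (hγ : 0 ≤ γ) (hη : ∀ i, η i + γ ≤ η (i + 1)) {i j : ℕ}
    (h : i < j) : η i + γ ≤ η j := by
  have hm : Monotone η := monotone_nat_of_le_succ fun n => by linarith [hη n]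
  exact (hη i).trans (hm h)

theorem hh_norm {γ : ℝ} (hγ : 0 < γ) (N : ℕ) {η : ℕ → ℝ} (a : ℕ → ℂ)
    (hη : ∀ i, η i + γ ≤ η (i + 1)) (v : ℝ) :
    ‖hh γ N η a v‖ₑ ^ 2 ≤ ∑ i ∈ Finset.range N, (Ioc (η i) (η i + γ)).indicator
      (fun _ => ‖a i * ((γ⁻¹ : ℝ) : ℂ)‖ₑ ^ 2) v := by
  by_cases h : ∃ i ∈ Finset.range N, v ∈ Ioc (η i) (η i + γ)
  · obtain ⟨i, hi, hv⟩ := h
    have h1 : hh γ N η a v = a i * ((γ⁻¹ : ℝ) : ℂ) := by
      unfold hh
      rw [Finset.sum_eq_single i]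
      · rw [indicator_of_mem hv]
      · intro k _ hk
        rw [indicator_of_notMem]
        intro hv2
        rcases lt_or_gt_of_ne hk with h2 | h2
        · have := eta_mono hγ.le hη h2
          linarith [hv.1, hv2.2]
        · have := eta_mono hγ.le hη h2
          linarith [hv.2, hv2.1]
      · intro h2
        exact absurd hi h2
    rw [h1]
    calc ‖a i * ((γ⁻¹ : ℝ) : ℂ)‖ₑ ^ 2 = (Ioc (η i) (η i + γ)).indicator
          (fun _ => ‖a i * ((γ⁻¹ : ℝ) : ℂ)‖ₑ ^ 2) v := by rw [indicator_of_mem hv]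
      _ ≤ _ := Finset.single_le_sum (f := fun i => (Ioc (η i) (η i + γ)).indicator
          (fun _ => ‖a i * ((γ⁻¹ : ℝ) : ℂ)‖ₑ ^ 2) v) (fun _ _ => bot_le) hi
  · have h1 : hh γ N η a v = 0 := by
      unfold hh
      refine Finset.sum_eq_zero fun i hi => ?_
      rw [indicator_of_notMem]
      intro hv
      exact h ⟨i, hi, hv⟩
    rw [h1]
    simp

theorem hh_sq {γ : ℝ} (hγ : 0 < γ) (N : ℕ) {η : ℕ → ℝ} (a : ℕ → ℂ)
    (hη : ∀ i, η i + γ ≤ η (i + 1)) (s : Set ℝ) :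
    ∫⁻ v in s, ‖hh γ N η a v‖ₑ ^ 2 ≤
      ENNReal.ofReal γ⁻¹ * ∑ i ∈ Finset.range N, ‖a i‖ₑ ^ 2 := by
  calc ∫⁻ v in s, ‖hh γ N η a v‖ₑ ^ 2 ≤ ∫⁻ v, ‖hh γ N η a v‖ₑ ^ 2 :=
        lintegral_mono' Measure.restrict_le_self le_rfl
    _ ≤ ∫⁻ v, ∑ i ∈ Finset.range N, (Ioc (η i) (η i + γ)).indicator
        (fun _ => ‖a i * ((γ⁻¹ : ℝ) : ℂ)‖ₑ ^ 2) v := lintegral_mono fun v => hh_norm hγ N a hη v
    _ = ∑ i ∈ Finset.range N, ∫⁻ v, (Ioc (η i) (η i + γ)).indicator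
        (fun _ => ‖a i * ((γ⁻¹ : ℝ) : ℂ)‖ₑ ^ 2) v := by
        rw [lintegral_finsetSum]
        intro i _
        exact measurable_const.indicator measurableSet_Ioc
    _ = ENNReal.ofReal γ⁻¹ * ∑ i ∈ Finset.range N, ‖a i‖ₑ ^ 2 := by
        rw [Finset.mul_sum]
        refine Finset.sum_congr rfl fun i _ => ?_
        rw [lintegral_indicator measurableSet_Ioc, setLIntegral_const, Real.volume_Ioc,
          add_sub_cancel_left, enorm_mul, mul_pow]
        have h1 : ‖((γ⁻¹ : ℝ) : ℂ)‖ₑ = ENNReal.ofReal γ⁻¹ := by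
          rw [← ofReal_norm, Complex.norm_real, Real.norm_eq_abs,
            abs_of_pos (inv_pos.2 hγ)]
        rw [h1, mul_assoc, mul_comm]
        congr 1
        rw [pow_two, mul_assoc, ← ENNReal.ofReal_mul (inv_nonneg.2 hγ.le), inv_mul_cancel₀ hγ.ne',
          ENNReal.ofReal_one, mul_one]

theorem hh_int {γ : ℝ} (hγ : 0 < γ) (N : ℕ) {η : ℕ → ℝ} (a : ℕ → ℂ)
    (hη : ∀ i, η i + γ ≤ η (i + 1)) (t : ℝ) (j : ℕ) (hj : j + 1 ≤ N) :
    ∫ r in Ioc (η 0) (η j + γ), hh γ N η a r * e1 (1 * (r * t)) =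
      kk γ t * ∑ i ∈ Finset.range (j + 1), a i * e1 (t * η i) := by
  have hm : Monotone η := monotone_nat_of_le_succ fun n => by linarith [hη n]
  have hcont : Continuous (fun r : ℝ => e1 (1 * (r * t))) :=
    e1_continuous.comp (by fun_prop)
  have h0 : ∀ r : ℝ, hh γ N η a r * e1 (1 * (r * t)) = ∑ i ∈ Finset.range N,
      (Ioc (η i) (η i + γ)).indicator (fun r => (a i * ((γ⁻¹ : ℝ) : ℂ)) * e1 (1 * (r * t))) r := by
    intro r
    unfold hh
    rw [Finset.sum_mul]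
    refine Finset.sum_congr rfl fun i _ => ?_
    by_cases h : r ∈ Ioc (η i) (η i + γ)
    · rw [indicator_of_mem h, indicator_of_mem h]
    · rw [indicator_of_notMem h, indicator_of_notMem h, zero_mul]
  have hI : ∀ i, IntegrableOn (fun r : ℝ => (a i * ((γ⁻¹ : ℝ) : ℂ)) * e1 (1 * (r * t)))
      (Ioc (η i) (η i + γ)) := fun i =>
    ((continuous_const.mul hcont).integrableOn_Icc).mono_set Ioc_subset_Icc_self
  rw [show (∫ r in Ioc (η 0) (η j + γ), hh γ N η a r * e1 (1 * (r * t))) =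
      ∫ r in Ioc (η 0) (η j + γ), ∑ i ∈ Finset.range N,
      (Ioc (η i) (η i + γ)).indicator (fun r => (a i * ((γ⁻¹ : ℝ) : ℂ)) * e1 (1 * (r * t))) r from
    integral_congr_ae (ae_of_all _ h0)]
  rw [integral_finsetSum _ fun i _ =>
    ((integrable_indicator_iff measurableSet_Ioc).2 (hI i)).integrableOn]
  have h1 : ∀ i, ∫ r in Ioc (η 0) (η j + γ), (Ioc (η i) (η i + γ)).indicator
      (fun r => (a i * ((γ⁻¹ : ℝ) : ℂ)) * e1 (1 * (r * t))) r =
      if i < j + 1 then kk γ t * (a i * e1 (t * η i)) else 0 := by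
    intro i
    rw [setIntegral_indicator measurableSet_Ioc]
    split_ifs with hi
    · have h2 : Ioc (η 0) (η j + γ) ∩ Ioc (η i) (η i + γ) = Ioc (η i) (η i + γ) := by
        refine inter_eq_self_of_subset_right fun r hr => ⟨?_, ?_⟩
        · exact lt_of_le_of_lt (hm (Nat.zero_le i)) hr.1
        · have : η i ≤ η j := hm (by omega)
          linarith [hr.2]
      rw [h2, integral_const_mul, int_shift γ t (η i) hγ]
      unfold kk
      ring
    · have h2 : Ioc (η 0) (η j + γ) ∩ Ioc (η i) (η i + γ) = ∅ := by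
        rw [Ioc_inter_Ioc, Ioc_eq_empty]
        rw [not_lt]
        have h3 : η j + γ ≤ η i := eta_mono hγ.le hη (by omega)
        calc min (η j + γ) (η i + γ) ≤ η j + γ := min_le_left _ _
          _ ≤ η i := h3
          _ ≤ max (η 0) (η i) := le_max_right _ _
      rw [h2]
      simp
  rw [Finset.sum_congr rfl fun i _ => h1 i, ← Finset.sum_filter, Finset.mul_sum]
  refine Finset.sum_congr ?_ fun _ _ => rfl
  ext i
  simp only [Finset.mem_filter, Finset.mem_range]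
  omega

end DCAR_

open DCAR_ in
/-- Discrete frequencies with gaps. -/
theorem p_DCAR (h1 : T_RAYN) : T_DCAR := by
  intro hC A hA
  obtain ⟨C₀, hC₀⟩ := h1 hC
  refine ⟨4 * C₀ * (A.toNNReal + 8), fun w g N η a hw hg hwg hη => ?_⟩
  set γ : ℝ := min g (1 / (8 * w)) with hγdef
  have hγ : 0 < γ := lt_min hg (by positivity)
  have hγg : γ ≤ g := min_le_left _ _
  have hγw : γ * w ≤ 1 / 8 := by
    have : γ ≤ 1 / (8 * w) := min_le_right _ _
    calc γ * w ≤ 1 / (8 * w) * w := mul_le_mul_of_nonneg_right this hw.le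
      _ = 1 / 8 := by field_simp
  have hη' : ∀ i, η i + γ ≤ η (i + 1) := fun i => by linarith [hη i]
  have hinv : γ⁻¹ ≤ (A + 8) * w := by
    rw [inv_le_iff_one_le_mul₀ hγ, hγdef]
    rcases le_total g (1 / (8 * w)) with h | h
    · rw [min_eq_left h]
      have h2 : 1 ≤ A * (w * g) := by
        have := mul_le_mul_of_nonneg_left hwg (by linarith : (0 : ℝ) ≤ A)
        rwa [mul_one_div_cancel (by linarith)] at this
      nlinarith [mul_pos hw hg]
    · rw [min_eq_right h]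
      have h2 : (A + 8) * w * (1 / (8 * w)) = (A + 8) / 8 := by
        field_simp
      rw [h2]
      linarith
  have hb : ∀ t ∈ Icc (-w) w,
      (⨆ (j : ℕ) (_ : j ≤ N), ‖∑ i ∈ Finset.range j, a i * e1 (t * η i)‖ₑ) ^ 2 ≤
      4 * (⨆ R : ℝ, ‖∫ r in Ioc (η 0) R, hh γ N η a r * e1 (1 * (r * t))‖ₑ) ^ 2 := by
    intro t ht
    have hk := kk_lower hγ hγw (abs_le.2 ⟨ht.1, ht.2⟩)
    have h3 : (⨆ (j : ℕ) (_ : j ≤ N), ‖∑ i ∈ Finset.range j, a i * e1 (t * η i)‖ₑ) ≤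
        2 * ⨆ R : ℝ, ‖∫ r in Ioc (η 0) R, hh γ N η a r * e1 (1 * (r * t))‖ₑ := by
      refine iSup₂_le fun j hj => ?_
      rcases Nat.eq_zero_or_pos j with h0 | h0
      · subst h0
        simp
      · obtain ⟨k, rfl⟩ : ∃ k, j = k + 1 := ⟨j - 1, by omega⟩
        have h4 := hh_int hγ N a hη' t k hj
        have h5 : ‖∑ i ∈ Finset.range (k + 1), a i * e1 (t * η i)‖ₑ ≤
            2 * ‖∫ r in Ioc (η 0) (η k + γ), hh γ N η a r * e1 (1 * (r * t))‖ₑ := by
          rw [h4]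
          rw [← ofReal_norm, ← ofReal_norm, norm_mul,
            show (2 : ℝ≥0∞) = ENNReal.ofReal 2 by simp, ← ENNReal.ofReal_mul (by norm_num)]
          refine ENNReal.ofReal_le_ofReal ?_
          nlinarith [norm_nonneg (∑ i ∈ Finset.range (k + 1), a i * e1 (t * η i))]
        refine h5.trans ?_
        gcongr
        exact le_iSup (fun R : ℝ =>
          ‖∫ r in Ioc (η 0) R, hh γ N η a r * e1 (1 * (r * t))‖ₑ) (η k + γ)
    calc _ ≤ (2 * ⨆ R : ℝ, ‖∫ r in Ioc (η 0) R, hh γ N η a r * e1 (1 * (r * t))‖ₑ) ^ 2 := by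
          gcongr
      _ = _ := by
          rw [mul_pow]
          norm_num
  calc ∫⁻ t in Icc (-w) w,
        (⨆ (j : ℕ) (_ : j ≤ N), ‖∑ i ∈ Finset.range j, a i * e1 (t * η i)‖ₑ) ^ 2
      ≤ ∫⁻ t in Icc (-w) w,
        4 * (⨆ R : ℝ, ‖∫ r in Ioc (η 0) R, hh γ N η a r * e1 (1 * (r * t))‖ₑ) ^ 2 :=
        setLIntegral_mono' measurableSet_Icc hb
    _ ≤ ∫⁻ t, 4 * (⨆ R : ℝ, ‖∫ r in Ioc (η 0) R, hh γ N η a r * e1 (1 * (r * t))‖ₑ) ^ 2 :=
        lintegral_mono' Measure.restrict_le_self le_rfl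
    _ = 4 * ∫⁻ t, (⨆ R : ℝ, ‖∫ r in Ioc (η 0) R, hh γ N η a r * e1 (1 * (r * t))‖ₑ) ^ 2 :=
        lintegral_const_mul' _ _ (by norm_num)
    _ ≤ 4 * (C₀ * ∫⁻ r in Ioi (η 0), ‖hh γ N η a r‖ₑ ^ 2) := by
        gcongr
        exact hC₀ (hh γ N η a) (η 0) 1 (hh_meas γ N η a) (Or.inl rfl)
    _ ≤ 4 * (C₀ * (ENNReal.ofReal γ⁻¹ * ∑ i ∈ Finset.range N, ‖a i‖ₑ ^ 2)) := by
        gcongr
        exact hh_sq hγ N a hη' _
    _ ≤ 4 * (C₀ * (ENNReal.ofReal ((A + 8) * w) * ∑ i ∈ Finset.range N, ‖a i‖ₑ ^ 2)) := by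
        gcongr
    _ = _ := by
        rw [ENNReal.ofReal_mul (by linarith), ENNReal.ofReal_add (by linarith) (by norm_num)]
        push_cast
        rw [show ENNReal.ofReal A = (A.toNNReal : ℝ≥0∞) from rfl,
          show ENNReal.ofReal 8 = 8 by simp]
        ring

end Pool.Agent.CRR
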