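import Pool.Agent.CRR.Targets

set_option autoImplicit false

/-!
# CRR: DEC, decay between strip and band
-/

namespace Pool.Agent.CRR

open MeasureTheory FourierTransform Set Filter Topology
open scoped ENNReal NNReal ComplexConjugate
open Pool.Agent.MBS (E ex S Sstar)
open Pool.Agent.CAR (e1)
open Pool.Agent.CRN (IN sg rt Lam SH S1 Nice T_CARLS T_RAYN T_POLN T_AHN T_DSN T_HELN)

namespace DEC_

/-- geometric growth -/
theorem grow (x : ℕ → ℝ) (c : ℝ) (hc : 0 ≤ c) (h : ∀ k, c * x k ≤ x (k + 1)) (k n : ℕ) :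
    c ^ n * x k ≤ x (k + n) := by
  induction n with
  | zero => simp
  | succ n ih =>
    calc c ^ (n + 1) * x k = c * (c ^ n * x k) := by ring
      _ ≤ c * x (k + n) := mul_le_mul_of_nonneg_left ih hc
      _ ≤ x (k + n + 1) := h _
      _ = x (k + (n + 1)) := by rw [add_assoc]

/-- the frequency region of a strip -/
def Om (A σ : ℝ) : Set ℝ := {X : ℝ | σ / A ≤ |X| ∧ |X| ≤ A * σ}

theorem meas_Om (A σ : ℝ) : MeasurableSet (Om A σ) :=
  (measurableSet_le measurable_const continuous_abs.measurable).inter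
    (measurableSet_le continuous_abs.measurable measurable_const)

theorem vol_Om (A σ : ℝ) : volume (Om A σ) ≤ ENNReal.ofReal (2 * A * σ) := by
  have h : Om A σ ⊆ Icc (-(A * σ)) (A * σ) := fun X hX => abs_le.1 hX.2
  refine (measure_mono h).trans ?_
  rw [Real.volume_Icc]
  exact le_of_eq (by congr 1; ring)

/-- application of OFD -/
theorem far (C : ℝ≥0) (hC : ∀ (w D G : ℝ) (Om : Set ℝ) (H : ℝ → ℂ), 0 < w → 0 < D → 0 ≤ G →
      MeasurableSet Om → HH H → (∀ X ∈ Om, ∀ s, H s ≠ 0 → D ≤ |s + X| ∧ |s| ≤ G * |s + X|) →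
      ∑' i : ℤ, ∫⁻ X in Om, NN w (fh H) i X ^ 2 ≤
        C * volume Om * ENNReal.ofReal ((w * D ^ 2)⁻¹ + G * D⁻¹) * ∫⁻ s, ‖H s‖ₑ ^ 2)
    (A σ w D G K q : ℝ) (H : ℝ → ℂ) (hw : 0 < w) (hD : 0 < D) (hG : 0 ≤ G)
    (hA : 0 < A) (hσ : 0 < σ) (hH : HH H) (hK : 0 ≤ K)
    (h : ∀ X ∈ Om A σ, ∀ s, H s ≠ 0 → D ≤ |s + X| ∧ |s| ≤ G * |s + X|)
    (hb : 2 * A * σ * ((w * D ^ 2)⁻¹ + G * D⁻¹) ≤ K * q) :
    ∑' i : ℤ, ∫⁻ X in Om A σ, NN w (fh H) i X ^ 2 ≤
      C * ENNReal.ofReal K * ENNReal.ofReal q * ∫⁻ s, ‖H s‖ₑ ^ 2 := by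
  refine (hC w D G (Om A σ) H hw hD hG (meas_Om A σ) hH h).trans ?_
  gcongr ?_ * _
  calc (C : ℝ≥0∞) * volume (Om A σ) * ENNReal.ofReal ((w * D ^ 2)⁻¹ + G * D⁻¹) ≤
      C * ENNReal.ofReal (2 * A * σ) * ENNReal.ofReal ((w * D ^ 2)⁻¹ + G * D⁻¹) := by
        gcongr
        exact vol_Om A σ
    _ = C * ENNReal.ofReal (2 * A * σ * ((w * D ^ 2)⁻¹ + G * D⁻¹)) := by
        rw [mul_assoc, ← ENNReal.ofReal_mul (by positivity)]
    _ ≤ C * ENNReal.ofReal (K * q) := by
        gcongr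
    _ = C * ENNReal.ofReal K * ENNReal.ofReal q := by
        rw [ENNReal.ofReal_mul hK, mul_assoc]

/-- first bound -/
theorem bd1 (A L δ σ τ q : ℝ) (hA : 1 ≤ A) (hL : 0 < L) (hδ : 0 < δ) (hσ : σ = L ^ 2 * δ)
    (hτ : 0 < τ) (h1 : 1 ≤ q * (L * δ)) (h2 : τ ≤ q * σ) :
    2 * A * σ * (((L⁻¹ / 4) * (σ / (2 * A)) ^ 2)⁻¹ + 2 * A * τ / σ * (σ / (2 * A))⁻¹) ≤
      50 * A ^ 3 * q := by
  have hA0 : 0 < A := by linarith
  have hσ0 : 0 < σ := by rw [hσ]; positivity
  have e1 : 2 * A * σ * (((L⁻¹ / 4) * (σ / (2 * A)) ^ 2)⁻¹ + 2 * A * τ / σ * (σ / (2 * A))⁻¹) =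
      32 * A ^ 3 * (L / σ) + 8 * A ^ 3 * (τ / σ) := by
    field_simp
    ring
  rw [e1]
  have e2 : L / σ ≤ q := by
    rw [div_le_iff₀ hσ0, hσ]
    nlinarith
  have e3 : τ / σ ≤ q := by
    rw [div_le_iff₀ hσ0]
    exact h2
  have hA3 : 0 < A ^ 3 := by positivity
  have hq : 0 ≤ q := le_trans (by positivity) e3
  nlinarith [mul_le_mul_of_nonneg_left e2 hA3.le, mul_le_mul_of_nonneg_left e3 hA3.le,
    mul_nonneg hA3.le hq]

/-- second bound -/
theorem bd2 (A L δ σ τ q : ℝ) (hA : 1 ≤ A) (hL : 0 < L) (hδ : 0 < δ) (hσ : σ = L ^ 2 * δ)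
    (hτ : 0 < τ) (h1 : 1 ≤ L * δ) (h2 : σ ≤ q * τ) (h3 : σ ≤ τ) :
    2 * A * σ * (((L⁻¹ / 4) * (τ / 2) ^ 2)⁻¹ + 2 * (τ / 2)⁻¹) ≤ 40 * A ^ 3 * q := by
  have hA0 : 0 < A := by linarith
  have hσ0 : 0 < σ := by rw [hσ]; positivity
  have e1 : 2 * A * σ * (((L⁻¹ / 4) * (τ / 2) ^ 2)⁻¹ + 2 * (τ / 2)⁻¹) =
      32 * A * (L / τ * (σ / τ)) + 8 * A * (σ / τ) := by
    field_simp
    ring
  rw [e1]
  have e2 : L / τ ≤ 1 := by
    rw [div_le_one hτ]
    refine le_trans ?_ h3
    rw [hσ]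
    nlinarith
  have e3 : σ / τ ≤ q := by
    rw [div_le_iff₀ hτ]
    exact h2
  have e4 : 0 < σ / τ := by positivity
  have e5 : L / τ * (σ / τ) ≤ q := by
    calc L / τ * (σ / τ) ≤ 1 * (σ / τ) := mul_le_mul_of_nonneg_right e2 e4.le
      _ ≤ q := by rw [one_mul]; exact e3
  have hq : 0 ≤ q := e4.le.trans e3
  have hA3 : A ≤ A ^ 3 := by
    nlinarith [sq_nonneg (A - 1), mul_nonneg hA0.le (sub_nonneg.2 hA)]
  nlinarith [mul_le_mul_of_nonneg_left e5 hA0.le, mul_le_mul_of_nonneg_left e3 hA0.le,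
    mul_nonneg (sub_nonneg.2 hA3) hq]

end DEC_

open DEC_ in
theorem p_DEC (h1 : T_SEQ) (h2 : T_OFD) (h3 : T_DIA) : T_DEC := by
  intro hcar A hA
  obtain ⟨C1, hC1⟩ := h2
  obtain ⟨C3, hC3⟩ := h3 hcar
  obtain ⟨N, hN⟩ := pow_unbounded_of_one_lt (2 * A) (by norm_num : (1 : ℝ) < 7 / 5)
  have hA0 : 0 < A := by linarith
  refine ⟨C1 * Real.toNNReal (50 * A ^ 3) + C3 * Real.toNNReal ((10 / 9) ^ (N + 1)), ?_⟩
  intro ν k j H hν hH hb
  obtain ⟨-, -, hs⟩ := h1 ν hν
  have hde : ∀ k, 0 < de ν k := fun k => (hs k).2.1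
  have hla : ∀ k, 0 < la ν k := fun k => (hs k).2.2.2.2.1
  have hsg : ∀ k, 7 / 5 * si ν k ≤ si ν (k + 1) := fun k => (hs k).2.2.2.2.2.2.1
  have hM0 : ∀ k, 250 ≤ la ν k * de ν k ^ 2 := fun k => (hs k).2.2.2.2.2.2.2.2.1
  have hMg : ∀ k, 5 / 4 * (la ν k * de ν k ^ 2) ≤ la ν (k + 1) * de ν (k + 1) ^ 2 :=
    fun k => (hs k).2.2.2.2.2.2.2.2.2.1
  have hsi : ∀ k, 0 < si ν k := fun k => mul_pos (hla k) (hde k)
  have hL : ∀ k, 0 < Real.sqrt (la ν k) := fun k => Real.sqrt_pos.2 (hla k)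
  have hLs : ∀ k, Real.sqrt (la ν k) ^ 2 = la ν k := fun k => Real.sq_sqrt (hla k).le
  have hσL : ∀ k, si ν k = Real.sqrt (la ν k) ^ 2 * de ν k := fun k => by rw [hLs]; rfl
  have hw : 0 < ww ν k := by
    have := hL k
    unfold ww
    positivity
  have hC : ((C1 * Real.toNNReal (50 * A ^ 3) + C3 * Real.toNNReal ((10 / 9) ^ (N + 1)) : ℝ≥0) :
      ℝ≥0∞) = C1 * ENNReal.ofReal (50 * A ^ 3) + C3 * ENNReal.ofReal ((10 / 9) ^ (N + 1)) := by
    push_cast
    rfl
  rw [hC]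
  set q : ℝ := (9 / 10) ^ (k - j + (j - k)) with hq
  have hq0 : 0 < q := by positivity
  have first : ∀ x : ℝ≥0∞, x ≤ C1 * ENNReal.ofReal (50 * A ^ 3) * ENNReal.ofReal q *
      ∫⁻ s, ‖H s‖ₑ ^ 2 → x ≤ (C1 * ENNReal.ofReal (50 * A ^ 3) +
        C3 * ENNReal.ofReal ((10 / 9) ^ (N + 1))) * ENNReal.ofReal q * ∫⁻ s, ‖H s‖ₑ ^ 2 := by
    intro x hx
    refine hx.trans ?_
    gcongr
    exact le_self_add
  have third : k - j + (j - k) ≤ N + 1 →
      ∑' i : ℤ, ∫⁻ X in {X : ℝ | si ν k / A ≤ |X| ∧ |X| ≤ A * si ν k},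
        NN (ww ν k) (fh H) i X ^ 2 ≤ (C1 * ENNReal.ofReal (50 * A ^ 3) +
        C3 * ENNReal.ofReal ((10 / 9) ^ (N + 1))) * ENNReal.ofReal q * ∫⁻ s, ‖H s‖ₑ ^ 2 := by
    intro hkj
    have e1 : ∑' i : ℤ, ∫⁻ X in {X : ℝ | si ν k / A ≤ |X| ∧ |X| ≤ A * si ν k},
        NN (ww ν k) (fh H) i X ^ 2 ≤ C3 * ∫⁻ s, ‖H s‖ₑ ^ 2 :=
      (ENNReal.tsum_le_tsum fun i => setLIntegral_le_lintegral _ _).trans
        (hC3 (ww ν k) H hw hH)
    refine e1.trans ?_
    gcongr ?_ * _
    have e2 : (1 : ℝ) ≤ (10 / 9) ^ (N + 1) * q := by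
      have e3 : (9 / 10 : ℝ) ^ (N + 1) ≤ q :=
        pow_le_pow_of_le_one (by norm_num) (by norm_num) hkj
      calc (1 : ℝ) = (10 / 9) ^ (N + 1) * (9 / 10) ^ (N + 1) := by
            rw [← mul_pow]
            norm_num
        _ ≤ (10 / 9) ^ (N + 1) * q := mul_le_mul_of_nonneg_left e3 (by positivity)
    calc (C3 : ℝ≥0∞) = C3 * ENNReal.ofReal 1 := by rw [ENNReal.ofReal_one, mul_one]
      _ ≤ C3 * ENNReal.ofReal ((10 / 9) ^ (N + 1) * q) := by gcongr
      _ = C3 * ENNReal.ofReal ((10 / 9) ^ (N + 1)) * ENNReal.ofReal q := by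
          rw [ENNReal.ofReal_mul (by positivity), mul_assoc]
      _ ≤ _ := by
          gcongr
          exact le_add_self
  rcases lt_trichotomy j k with hjk | hjk | hjk
  · -- low frequencies
    obtain ⟨n, rfl⟩ := Nat.exists_eq_add_of_lt hjk
    have hg := grow (si ν) (7 / 5) (by norm_num) hsg j (n + 1)
    have hgM := grow (fun k => la ν k * de ν k ^ 2) (5 / 4) (by norm_num) hMg j (n + 1)
    rw [← add_assoc] at hg hgM
    have en : j + n + 1 - j + (j - (j + n + 1)) = n + 1 := by omega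
    rw [en] at hq
    by_cases hc : si ν j ≤ si ν (j + n + 1) / (2 * A)
    · apply first
      refine far C1 hC1 A (si ν (j + n + 1)) (ww ν (j + n + 1)) (si ν (j + n + 1) / (2 * A))
        (2 * A * si ν j / si ν (j + n + 1)) (50 * A ^ 3) q H hw ?_ ?_ hA0 (hsi _) hH
        (by positivity) ?_ ?_
      · have := hsi (j + n + 1)
        positivity
      · have := hsi (j + n + 1)
        have := hsi j
        positivity
      · intro X hX s hs0
        have hs1 : |s| < si ν j := (hb s hs0).2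
        have hX1 : si ν (j + n + 1) / A ≤ |X| := hX.1
        have e1 : si ν (j + n + 1) / A = 2 * (si ν (j + n + 1) / (2 * A)) := by
          field_simp
        have e2 : |X| ≤ |s + X| + |s| := by
          calc |X| = |(s + X) - s| := by congr 1; ring
            _ ≤ |s + X| + |s| := abs_sub _ _
        have e3 : si ν (j + n + 1) / (2 * A) ≤ |s + X| := by linarith
        refine ⟨e3, ?_⟩
        have hσ := hsi (j + n + 1)
        calc |s| ≤ si ν j := hs1.le
          _ = 2 * A * si ν j / si ν (j + n + 1) * (si ν (j + n + 1) / (2 * A)) := by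
              field_simp
          _ ≤ _ := mul_le_mul_of_nonneg_left e3 (by have := hsi j; positivity)
      · refine bd1 A (Real.sqrt (la ν (j + n + 1))) (de ν (j + n + 1)) (si ν (j + n + 1))
          (si ν j) q hA (hL _) (hde _) (hσL _) (hsi j) ?_ ?_
        · have e1 : (5 / 4 : ℝ) ^ (n + 1) ≤
              (Real.sqrt (la ν (j + n + 1)) * de ν (j + n + 1)) ^ 2 := by
            rw [mul_pow, hLs]
            refine le_trans ?_ hgM
            have := hM0 j
            have h5 : (0 : ℝ) < (5 / 4) ^ (n + 1) := by positivity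
            nlinarith
          have e2 : 1 ≤ (q * (Real.sqrt (la ν (j + n + 1)) * de ν (j + n + 1))) ^ 2 := by
            rw [mul_pow, hq]
            calc (1 : ℝ) ≤ ((9 / 10) ^ 2 * (5 / 4)) ^ (n + 1) :=
                  one_le_pow₀ (by norm_num)
              _ = ((9 / 10) ^ (n + 1)) ^ 2 * (5 / 4) ^ (n + 1) := by
                  rw [mul_pow, ← pow_mul, ← pow_mul, mul_comm 2 (n + 1)]
              _ ≤ _ := mul_le_mul_of_nonneg_left e1 (by positivity)
          have e3 : 0 ≤ q * (Real.sqrt (la ν (j + n + 1)) * de ν (j + n + 1)) := by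
            have := hL (j + n + 1)
            have := hde (j + n + 1)
            positivity
          nlinarith
        · have e1 : (1 : ℝ) ≤ q * (7 / 5) ^ (n + 1) := by
            rw [hq, ← mul_pow]
            exact one_le_pow₀ (by norm_num)
          calc si ν j ≤ q * (7 / 5) ^ (n + 1) * si ν j := by
                have := hsi j
                nlinarith
            _ = q * ((7 / 5) ^ (n + 1) * si ν j) := by ring
            _ ≤ q * si ν (j + n + 1) := mul_le_mul_of_nonneg_left hg hq0.le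
    · apply third
      rw [en]
      by_contra hcon
      apply hc
      rw [le_div_iff₀ (by positivity)]
      have e1 : (7 / 5 : ℝ) ^ N ≤ (7 / 5) ^ (n + 1) :=
        pow_le_pow_right₀ (by norm_num) (by omega)
      have := hsi j
      nlinarith
  · apply third
    subst hjk
    simp
  · -- high frequencies
    obtain ⟨n, rfl⟩ := Nat.exists_eq_add_of_lt hjk
    have hg := grow (si ν) (7 / 5) (by norm_num) hsg k n
    have en : k - (k + n + 1) + (k + n + 1 - k) = n + 1 := by omega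
    rw [en] at hq
    have hone : (1 : ℝ) ≤ (7 / 5) ^ n := one_le_pow₀ (by norm_num)
    by_cases hc : 2 * A * si ν k ≤ si ν (k + n)
    · apply first
      refine far C1 hC1 A (si ν k) (ww ν k) (si ν (k + n) / 2)
        2 (50 * A ^ 3) q H hw ?_ (by norm_num) hA0 (hsi _) hH (by positivity) ?_ ?_
      · have := hsi (k + n)
        positivity
      · intro X hX s hs0
        have hs1 : si ν (k + n) ≤ |s| := by
          rcases (hb s hs0).1 with h0 | h0
          · omega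
          · simpa using h0
        have hX1 : |X| ≤ A * si ν k := hX.2
        have e2 : |s| ≤ |s + X| + |X| := by
          calc |s| = |(s + X) - X| := by congr 1; ring
            _ ≤ |s + X| + |X| := abs_sub _ _
        constructor
        · linarith
        · linarith
      · have e0 : 40 * A ^ 3 * (5 / 7 : ℝ) ^ n ≤ 50 * A ^ 3 * q := by
          have e1 : (5 / 7 : ℝ) ^ n ≤ (9 / 10) ^ n :=
            pow_le_pow_left₀ (by norm_num) (by norm_num) n
          have e2 : q = (9 / 10) ^ n * (9 / 10) := by rw [hq, pow_succ]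
          have hA3 : 0 < A ^ 3 := by positivity
          have h9 : (0 : ℝ) < (9 / 10) ^ n := by positivity
          rw [e2]
          nlinarith [mul_le_mul_of_nonneg_left e1 hA3.le, mul_pos hA3 h9]
        refine le_trans ?_ e0
        refine bd2 A (Real.sqrt (la ν k)) (de ν k) (si ν k)
          (si ν (k + n)) ((5 / 7) ^ n) hA (hL _) (hde _) (hσL _) (hsi _) ?_ ?_ ?_
        · have e1 : 1 ≤ (Real.sqrt (la ν k) * de ν k) ^ 2 := by
            rw [mul_pow, hLs]
            have := hM0 k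
            linarith
          have e3 : 0 ≤ Real.sqrt (la ν k) * de ν k := by
            have := hL k
            have := hde k
            positivity
          nlinarith
        · calc si ν k = (5 / 7) ^ n * ((7 / 5) ^ n * si ν k) := by
                rw [← mul_assoc, ← mul_pow]
                norm_num
            _ ≤ (5 / 7) ^ n * si ν (k + n) := mul_le_mul_of_nonneg_left hg (by positivity)
        · have := hsi k
          nlinarith
    · apply third
      rw [en]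
      by_contra hcon
      apply hc
      have e1 : (7 / 5 : ℝ) ^ N ≤ (7 / 5) ^ n :=
        pow_le_pow_right₀ (by norm_num) (by omega)
      have := hsi k
      nlinarith

end Pool.Agent.CRR
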