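import Pool.Agent.CRR.P_MUL

set_option autoImplicit false

/-!
# CRR, target DIA: the diagonal case
-/

namespace Pool.Agent.CRR

open MeasureTheory FourierTransform Set Filter Topology
open scoped ENNReal NNReal ComplexConjugate
open Pool.Agent.CAR (e1)
open Pool.Agent.CRN (T_CARLS T_RAYN)

namespace DIA_

theorem fh_cont {H : ℝ → ℂ} (hH : Integrable H) : Continuous (fh H) := by
  unfold fh
  refine continuous_of_dominated (bound := fun s => ‖H s‖) ?_ ?_ hH.norm ?_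
  · intro v
    exact hH.aestronglyMeasurable.mul
      (MUL_.e1_cont.comp (continuous_const.mul continuous_id)).aestronglyMeasurable
  · intro v
    refine ae_of_all _ fun s => ?_
    rw [norm_mul, MUL_.e1_norm, mul_one]
  · refine ae_of_all _ fun s => ?_
    exact continuous_const.mul (MUL_.e1_cont.comp (continuous_id.mul continuous_const))

theorem memLp {H : ℝ → ℂ} (hH : HH H) : MemLp H 2 := by
  rw [memLp_two_iff_integrable_sq_norm hH.meas.aestronglyMeasurable]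
  exact hH.sq

theorem fh_planch {H : ℝ → ℂ} (hH : HH H) : ∫⁻ v, ‖fh H v‖ₑ ^ 2 = ∫⁻ s, ‖H s‖ₑ ^ 2 := by
  rw [← MUL_.planch hH.int (memLp hH)]
  calc ∫⁻ v, ‖fh H v‖ₑ ^ 2 = ∫⁻ v, ‖fh H (-v)‖ₑ ^ 2 :=
        (lintegral_neg_eq_self (fun v => ‖fh H v‖ₑ ^ 2)).symm
    _ = _ := by
        refine lintegral_congr fun v => ?_
        unfold fh
        simp only [neg_mul]

theorem NN_eq (w : ℝ) (h : ℝ → ℂ) (i : ℤ) (X : ℝ) :
    NN w h i X = ⨆ R : ℝ, ‖∫ r in Ioc (i * w) R,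
      (Ioc (i * w) ((i + 1) * w)).indicator h r * e1 (1 * (r * X))‖ₑ := by
  unfold NN
  congr 1
  funext V
  congr 1
  have h1 : (fun r => (Ioc (i * w) ((i + 1) * w)).indicator h r * e1 (1 * (r * X))) =
      (Ioc (i * w) ((i + 1) * w)).indicator (fun r => h r * e1 (X * r)) := by
    funext r
    by_cases hr : r ∈ Ioc (i * w) ((i + 1) * w)
    · rw [indicator_of_mem hr, indicator_of_mem hr, one_mul, mul_comm r X]
    · rw [indicator_of_notMem hr, indicator_of_notMem hr, zero_mul]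
  rw [h1, setIntegral_indicator measurableSet_Ioc, Ioc_inter_Ioc, max_self]

end DIA_

open DIA_ in
theorem p_DIA (h1 : T_RAYN) : T_DIA := by
  intro hC
  obtain ⟨C, hR⟩ := h1 hC
  refine ⟨C, ?_⟩
  intro w H hw hH
  have hfc : Continuous (fh H) := fh_cont hH.int
  have hwin : ∀ i : ℤ, ∫⁻ X : ℝ, NN w (fh H) i X ^ 2 ≤
      C * ∫⁻ v in Ioc (i • w) ((i + 1) • w), ‖fh H v‖ₑ ^ 2 := by
    intro i
    have h2 := hR ((Ioc (i * w) ((i + 1) * w)).indicator (fh H)) (i * w) 1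
      (hfc.measurable.indicator measurableSet_Ioc) (Or.inl rfl)
    simp only [← NN_eq] at h2
    refine h2.trans (mul_le_mul_right ?_ _)
    have h3 : (fun r => ‖(Ioc (i * w) ((i + 1) * w)).indicator (fh H) r‖ₑ ^ 2) =
        (Ioc (i * w) ((i + 1) * w)).indicator (fun r => ‖fh H r‖ₑ ^ 2) := by
      funext r
      by_cases hr : r ∈ Ioc (i * w) ((i + 1) * w)
      · rw [indicator_of_mem hr, indicator_of_mem hr]
      · rw [indicator_of_notMem hr, indicator_of_notMem hr]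
        simp
    have h4 : Ioc (i • w) ((i + 1) • w) = Ioc (i * w) ((i + 1) * w) := by
      rw [zsmul_eq_mul, zsmul_eq_mul]
      push_cast
      rfl
    rw [h3, h4, ← lintegral_indicator measurableSet_Ioc]
    exact setLIntegral_le_lintegral _ _
  calc ∑' i : ℤ, ∫⁻ X : ℝ, NN w (fh H) i X ^ 2
      ≤ ∑' i : ℤ, C * ∫⁻ v in Ioc (i • w) ((i + 1) • w), ‖fh H v‖ₑ ^ 2 :=
        ENNReal.tsum_le_tsum hwin
    _ = C * ∑' i : ℤ, ∫⁻ v in Ioc (i • w) ((i + 1) • w), ‖fh H v‖ₑ ^ 2 :=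
        ENNReal.tsum_mul_left
    _ = C * ∫⁻ v in ⋃ i : ℤ, Ioc (i • w) ((i + 1) • w), ‖fh H v‖ₑ ^ 2 := by
        rw [lintegral_iUnion (fun i => measurableSet_Ioc) (pairwise_disjoint_Ioc_zsmul w)]
    _ ≤ C * ∫⁻ v, ‖fh H v‖ₑ ^ 2 := by
        gcongr
        exact Measure.restrict_le_self
    _ = C * ∫⁻ s, ‖H s‖ₑ ^ 2 := by rw [fh_planch hH]

end Pool.Agent.CRR
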