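import Pool.Agent.CRR.Targets

set_option autoImplicit false

/-!
# CRR: EIG, eigenfunctions of the angular Laplacian
-/

namespace Pool.Agent.CRR

open MeasureTheory FourierTransform Set Filter Topology
open scoped ENNReal NNReal ComplexConjugate
open Pool.Agent.MBS (E ex S Sstar)
open Pool.Agent.CAR (e1)
open Pool.Agent.CRN (IN sg rt Lam L2 SH S1 Nice)

namespace EIG_

variable {n : ℕ}

abbrev MP (n : ℕ) := MvPolynomial (Fin n) ℂ

/-- polynomial functions -/
noncomputable def ev (p : MP n) (x : E n) : ℂ := MvPolynomial.eval (fun i => ((x i : ℝ) : ℂ)) p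

theorem ev_C (a : ℂ) (x : E n) : ev (MvPolynomial.C a) x = a := by simp [ev]

theorem ev_X (i : Fin n) (x : E n) : ev (MvPolynomial.X i) x = ((x i : ℝ) : ℂ) := by simp [ev]

theorem ev_add (p q : MP n) (x : E n) : ev (p + q) x = ev p x + ev q x := by simp [ev]

theorem ev_mul (p q : MP n) (x : E n) : ev (p * q) x = ev p x * ev q x := by simp [ev]

theorem ev_neg (p : MP n) (x : E n) : ev (-p) x = -ev p x := by simp [ev]

theorem ev_zero (x : E n) : ev (0 : MP n) x = 0 := by simp [ev]

theorem ev_sum {ι : Type*} (s : Finset ι) (f : ι → MP n) (x : E n) :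
    ev (∑ i ∈ s, f i) x = ∑ i ∈ s, ev (f i) x := by simp [ev]

theorem ev_contDiff (p : MP n) : ContDiff ℝ 2 (ev p) := by
  induction p using MvPolynomial.induction_on with
  | C a =>
    have h : ev (MvPolynomial.C a : MP n) = fun _ => a := by
      funext x
      exact ev_C a x
    rw [h]
    exact contDiff_const
  | add p q hp hq =>
    have h : ev (p + q) = fun x => ev p x + ev q x := by
      funext x
      exact ev_add p q x
    rw [h]
    exact hp.add hq
  | mul_X p i hp =>
    have h : ev (p * MvPolynomial.X i) = fun x => ev p x * ((x i : ℝ) : ℂ) := by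
      funext x
      rw [ev_mul, ev_X]
    rw [h]
    refine hp.mul ?_
    have h2 : ContDiff ℝ 2 (fun x : E n => x i) := by
      exact (EuclideanSpace.proj (𝕜 := ℝ) i).contDiff
    exact Complex.ofRealCLM.contDiff.comp h2

/-- the derivation of the rotations of the plane `(i, j)` -/
noncomputable def D (i j : Fin n) : Derivation ℂ (MP n) (MP n) :=
  MvPolynomial.mkDerivation ℂ (fun k => if k = i then -MvPolynomial.X j
    else if k = j then MvPolynomial.X i else 0)

theorem D_hasDeriv (i j : Fin n) (hij : i ≠ j) (p : MP n) (x : E n) (φ : ℝ) :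
    HasDerivAt (fun t : ℝ => ev p (rt i j t x)) (ev (D i j p) (rt i j φ x)) φ := by
  induction p using MvPolynomial.induction_on with
  | C a =>
    have h : (fun t : ℝ => ev (MvPolynomial.C a : MP n) (rt i j t x)) = fun _ => a := by
      funext t
      exact ev_C a _
    rw [h]
    have h2 : D i j (MvPolynomial.C a : MP n) = 0 := by
      simp [D]
    rw [h2, ev_zero]
    exact hasDerivAt_const _ _
  | add p q hp hq =>
    have h : (fun t : ℝ => ev (p + q) (rt i j t x)) =
        fun t => ev p (rt i j t x) + ev q (rt i j t x) := by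
      funext t
      exact ev_add p q _
    rw [h, map_add, ev_add]
    exact hp.add hq
  | mul_X p k hp =>
    have h : (fun t : ℝ => ev (p * MvPolynomial.X k) (rt i j t x)) =
        fun t => ev p (rt i j t x) * ((rt i j t x k : ℝ) : ℂ) := by
      funext t
      rw [ev_mul, ev_X]
    rw [h]
    have h2 : D i j (p * MvPolynomial.X k) =
        p * D i j (MvPolynomial.X k) + D i j p * MvPolynomial.X k := by
      rw [Derivation.leibniz, smul_eq_mul, smul_eq_mul]
      ring
    rw [h2, ev_add, ev_mul, ev_mul, ev_X, add_comm]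
    have h3 : HasDerivAt (fun t : ℝ => ((rt i j t x k : ℝ) : ℂ))
        (ev (D i j (MvPolynomial.X k)) (rt i j φ x)) φ := by
      have h4 : D i j (MvPolynomial.X k : MP n) = if k = i then -MvPolynomial.X j
          else if k = j then MvPolynomial.X i else 0 := by
        rw [D, MvPolynomial.mkDerivation_X]
      rw [h4]
      by_cases hk : k = i
      · subst hk
        have h5 : HasDerivAt (fun t : ℝ => Real.cos t * x k - Real.sin t * x j)
            (-Real.sin φ * x k - Real.cos φ * x j) φ :=
          ((Real.hasDerivAt_cos φ).mul_const _).sub ((Real.hasDerivAt_sin φ).mul_const _)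
        have h6 := h5.ofReal_comp
        rw [if_pos rfl, ev_neg, ev_X]
        have h7 : (fun t : ℝ => ((rt k j t x k : ℝ) : ℂ)) =
            fun t : ℝ => ((Real.cos t * x k - Real.sin t * x j : ℝ) : ℂ) := by
          funext t
          simp [rt]
        rw [h7]
        convert h6 using 1
        have h8 : rt k j φ x j = Real.sin φ * x k + Real.cos φ * x j := by
          simp [rt, hij.symm]
        rw [h8]
        push_cast
        ring
      · rw [if_neg hk]
        by_cases hk2 : k = j
        · subst hk2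
          have h5 : HasDerivAt (fun t : ℝ => Real.sin t * x i + Real.cos t * x k)
              (Real.cos φ * x i + -Real.sin φ * x k) φ :=
            ((Real.hasDerivAt_sin φ).mul_const _).add ((Real.hasDerivAt_cos φ).mul_const _)
          have h6 := h5.ofReal_comp
          rw [if_pos rfl, ev_X]
          have h7 : (fun t : ℝ => ((rt i k t x k : ℝ) : ℂ)) =
              fun t : ℝ => ((Real.sin t * x i + Real.cos t * x k : ℝ) : ℂ) := by
            funext t
            simp [rt, hk]
          rw [h7]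
          convert h6 using 1
          have h8 : rt i k φ x i = Real.cos φ * x i - Real.sin φ * x k := by
            simp [rt]
          rw [h8]
          push_cast
          ring
        · rw [if_neg hk2, ev_zero]
          have h7 : (fun t : ℝ => ((rt i j t x k : ℝ) : ℂ)) = fun _ : ℝ => ((x k : ℝ) : ℂ) := by
            funext t
            simp [rt, hk, hk2]
          rw [h7]
          exact hasDerivAt_const _ _
    exact hp.mul h3

/-- the angular Laplacian on polynomials -/
noncomputable def La : MP n →ₗ[ℂ] MP n :=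
  ∑ i : Fin n, ∑ j : Fin n, if i < j then (D i j).toLinearMap ∘ₗ (D i j).toLinearMap else 0

theorem rt_zero (i j : Fin n) (x : E n) : rt i j 0 x = x := by
  ext k
  simp only [rt, Real.cos_zero, Real.sin_zero]
  by_cases hk : k = i
  · subst hk
    simp
  · by_cases hk2 : k = j
    · subst hk2
      simp [hk]
    · simp [hk, hk2]

theorem L2_ev (i j : Fin n) (hij : i ≠ j) (p : MP n) (x : E n) :
    L2 i j (ev p) x = ev (D i j (D i j p)) x := by
  unfold L2
  have h : deriv (fun t : ℝ => ev p (rt i j t x)) = fun t => ev (D i j p) (rt i j t x) := by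
    funext t
    exact (D_hasDeriv i j hij p x t).deriv
  rw [h, (D_hasDeriv i j hij (D i j p) x 0).deriv, rt_zero]

theorem Lam_ev (p : MP n) (x : E n) : Lam (ev p) x = ev (La p) x := by
  unfold Lam La
  rw [LinearMap.sum_apply, ev_sum]
  refine Finset.sum_congr rfl fun i _ => ?_
  rw [LinearMap.sum_apply, ev_sum]
  refine Finset.sum_congr rfl fun j _ => ?_
  by_cases hij : i < j
  · rw [if_pos hij, if_pos hij, L2_ev i j hij.ne]
    rfl
  · rw [if_neg hij, if_neg hij, LinearMap.zero_apply, ev_zero]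

/-- polynomials of degree at most one -/
noncomputable def M1 (n : ℕ) : Submodule ℂ (MP n) :=
  Submodule.span ℂ (insert 1 (Set.range (MvPolynomial.X : Fin n → MP n)))

theorem one_mem_M1 : (1 : MP n) ∈ M1 n := Submodule.subset_span (Set.mem_insert _ _)

theorem X_mem_M1 (i : Fin n) : (MvPolynomial.X i : MP n) ∈ M1 n :=
  Submodule.subset_span (Set.mem_insert_of_mem _ ⟨i, rfl⟩)

theorem M1_fg : (M1 n).FG := by
  refine Submodule.fg_span ?_
  exact (Set.finite_range _).insert _

theorem D_M1 (i j : Fin n) (p : MP n) (hp : p ∈ M1 n) : D i j p ∈ M1 n := by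
  unfold M1 at hp
  induction hp using Submodule.span_induction with
  | mem x hx =>
    rcases hx with rfl | ⟨k, rfl⟩
    · rw [Derivation.map_one_eq_zero]
      exact zero_mem _
    · rw [D, MvPolynomial.mkDerivation_X]
      by_cases hk : k = i
      · rw [if_pos hk]
        exact neg_mem (X_mem_M1 j)
      · rw [if_neg hk]
        by_cases hk2 : k = j
        · rw [if_pos hk2]
          exact X_mem_M1 i
        · rw [if_neg hk2]
          exact zero_mem _
  | zero =>
    rw [map_zero]
    exact zero_mem _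
  | add x y _ _ hx hy =>
    rw [map_add]
    exact add_mem hx hy
  | smul a x _ hx =>
    rw [Derivation.map_smul]
    exact Submodule.smul_mem _ a hx

theorem D_pow (i j : Fin n) (K : ℕ) : ∀ p : MP n, p ∈ M1 n ^ K → D i j p ∈ M1 n ^ K := by
  induction K with
  | zero =>
    intro p hp
    rw [pow_zero, Submodule.mem_one] at hp
    obtain ⟨a, rfl⟩ := hp
    rw [Derivation.map_algebraMap]
    exact zero_mem _
  | succ K ih =>
    intro p hp
    rw [pow_succ] at hp ⊢
    refine Submodule.mul_induction_on hp ?_ ?_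
    · intro a ha b hb
      rw [Derivation.leibniz, smul_eq_mul, smul_eq_mul, mul_comm b]
      exact add_mem (Submodule.mul_mem_mul ha (D_M1 i j b hb)) (Submodule.mul_mem_mul (ih a ha) hb)
    · intro a b ha hb
      rw [map_add]
      exact add_mem ha hb

theorem La_pow (K : ℕ) (p : MP n) (hp : p ∈ M1 n ^ K) : La p ∈ M1 n ^ K := by
  unfold La
  rw [LinearMap.sum_apply]
  refine sum_mem fun i _ => ?_
  rw [LinearMap.sum_apply]
  refine sum_mem fun j _ => ?_
  by_cases hij : i < j
  · rw [if_pos hij]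
    exact D_pow i j K _ (D_pow i j K p hp)
  · rw [if_neg hij]
    exact zero_mem _

theorem pow_mono (K : ℕ) : M1 n ^ K ≤ M1 n ^ (K + 1) := by
  intro p hp
  rw [pow_succ]
  have h := Submodule.mul_mem_mul hp (one_mem_M1 (n := n))
  rwa [mul_one] at h

theorem pow_mono' {K L : ℕ} (h : K ≤ L) : M1 n ^ K ≤ M1 n ^ L := by
  induction h with
  | refl => exact le_refl _
  | step _ ih => exact ih.trans (pow_mono _)

theorem mem_pow (p : MP n) : ∃ K, p ∈ M1 n ^ K := by
  induction p using MvPolynomial.induction_on with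
  | C a =>
    refine ⟨0, ?_⟩
    rw [pow_zero, Submodule.mem_one]
    exact ⟨a, rfl⟩
  | add p q hp hq =>
    obtain ⟨K, hK⟩ := hp
    obtain ⟨L, hL⟩ := hq
    exact ⟨max K L, add_mem (pow_mono' (le_max_left _ _) hK) (pow_mono' (le_max_right _ _) hL)⟩
  | mul_X p i hp =>
    obtain ⟨K, hK⟩ := hp
    refine ⟨K + 1, ?_⟩
    rw [pow_succ]
    exact Submodule.mul_mem_mul hK (X_mem_M1 i)

/-! ### the Hilbert space -/

abbrev Sp (n : ℕ) := Metric.sphere (0 : E n) 1

instance finSg : IsFiniteMeasure (sg n) := by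
  unfold sg
  infer_instance

/-- the coordinate functions on the sphere -/
noncomputable def cf (i : Fin n) : C(Sp n, ℂ) :=
  ⟨fun θ => (((θ : E n) i : ℝ) : ℂ), by fun_prop⟩

/-- polynomials as functions on the sphere -/
noncomputable def rho (n : ℕ) : MP n →ₐ[ℂ] C(Sp n, ℂ) := MvPolynomial.aeval cf

theorem rho_apply (p : MP n) (θ : Sp n) : rho n p θ = ev p (θ : E n) := by
  induction p using MvPolynomial.induction_on with
  | C a =>
    rw [ev_C]
    simp [rho]
  | add p q hp hq =>
    rw [map_add, ev_add, ContinuousMap.add_apply, hp, hq]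
  | mul_X p i hp =>
    rw [map_mul, ev_mul, ContinuousMap.mul_apply, hp, ev_X]
    simp [rho, cf]

theorem dense_rho (f : C(Sp n, ℂ)) : f ∈ closure (Set.range (rho n)) := by
  have h1 : (StarAlgebra.adjoin ℂ
      (Set.range (cf : Fin n → C(Sp n, ℂ)))).topologicalClosure = ⊤ := by
    refine ContinuousMap.starSubalgebra_topologicalClosure_eq_top_of_separatesPoints _ ?_
    intro x y hxy
    have h2 : ∃ i, (x : E n) i ≠ (y : E n) i := by
      by_contra hcon
      push Not at hcon
      apply hxy
      ext i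
      exact hcon i
    obtain ⟨i, hi⟩ := h2
    refine ⟨cf i, ⟨cf i, StarAlgebra.subset_adjoin ℂ _ ⟨i, rfl⟩, rfl⟩, ?_⟩
    simp only [cf, ContinuousMap.coe_mk]
    exact fun h => hi (Complex.ofReal_injective h)
  have h3 : f ∈ (StarAlgebra.adjoin ℂ
      (Set.range (cf : Fin n → C(Sp n, ℂ)))).topologicalClosure := by
    rw [h1]
    trivial
  have h4 : f ∈ closure ((StarAlgebra.adjoin ℂ
      (Set.range (cf : Fin n → C(Sp n, ℂ))) : StarSubalgebra ℂ C(Sp n, ℂ)) :
        Set C(Sp n, ℂ)) := h3
  refine closure_mono ?_ h4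
  intro g hg
  have h5 : g ∈ (StarAlgebra.adjoin ℂ
      (Set.range (cf : Fin n → C(Sp n, ℂ)))).toSubalgebra := hg
  rw [StarAlgebra.adjoin_toSubalgebra] at h5
  have h6 : star (Set.range (cf : Fin n → C(Sp n, ℂ))) = Set.range cf := by
    have h7 : ∀ i : Fin n, star (cf i) = cf i := by
      intro i
      ext θ
      simp [cf]
    ext g
    rw [Set.mem_star]
    constructor
    · rintro ⟨i, hi⟩
      refine ⟨i, ?_⟩
      rw [← star_star g, ← hi, h7]
    · rintro ⟨i, rfl⟩
      exact ⟨i, (h7 i).symm⟩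
  rw [h6, Set.union_self, Algebra.adjoin_range_eq_range_aeval] at h5
  obtain ⟨p, hp⟩ := h5
  exact ⟨p, hp⟩

noncomputable abbrev HS (n : ℕ) := Lp ℂ 2 (sg n)

noncomputable def tl (f : C(Sp n, ℂ)) : HS n := ContinuousMap.toLp 2 (sg n) ℂ f

/-- polynomials in the Hilbert space -/
noncomputable def RR (n : ℕ) : MP n →ₗ[ℂ] HS n :=
  (ContinuousMap.toLp 2 (sg n) ℂ : C(Sp n, ℂ) →L[ℂ] HS n).toLinearMap ∘ₗ (rho n).toLinearMap

theorem RR_apply (p : MP n) : RR n p = tl (rho n p) := rfl

theorem inner_tl (f g : C(Sp n, ℂ)) : inner ℂ (tl f) (tl g) = ∫ θ, g θ * conj (f θ) ∂(sg n) :=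
  ContinuousMap.inner_toLp (𝕜 := ℂ) (sg n) f g

/-- the polynomials of degree at most `K` -/
noncomputable def V (n K : ℕ) : Submodule ℂ (HS n) := (M1 n ^ K).map (RR n)

instance V_fin (K : ℕ) : FiniteDimensional ℂ (V n K) := by
  have h : (V n K).FG := (M1_fg.pow K).map _
  exact Module.Finite.iff_fg.2 h

theorem V_mono : Monotone (V n) := fun _ _ h => Submodule.map_mono (pow_mono' h)

theorem exists_sec (K : ℕ) : ∃ s : V n K →ₗ[ℂ] (M1 n ^ K : Submodule ℂ (MP n)),
    ∀ x : V n K, RR n (s x : MP n) = (x : HS n) := by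
  obtain ⟨s, hs⟩ := ((RR n).submoduleMap (M1 n ^ K)).exists_rightInverse_of_surjective
    (LinearMap.range_eq_top.2 (LinearMap.submoduleMap_surjective _ _))
  refine ⟨s, fun x => ?_⟩
  have h : (RR n).submoduleMap (M1 n ^ K) (s x) = x := LinearMap.congr_fun hs x
  exact congrArg (fun z : V n K => (z : HS n)) h

/-- the chosen representatives -/
noncomputable def sec (n K : ℕ) : V n K →ₗ[ℂ] (M1 n ^ K : Submodule ℂ (MP n)) :=
  Classical.choose (exists_sec K)

theorem sec_spec (K : ℕ) (x : V n K) : RR n (sec n K x : MP n) = (x : HS n) :=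
  Classical.choose_spec (exists_sec K) x

/-- the operator on `V n K` -/
noncomputable def TT (n K : ℕ) : V n K →ₗ[ℂ] V n K :=
  (RR n).submoduleMap (M1 n ^ K) ∘ₗ (La.restrict (La_pow K)) ∘ₗ sec n K

theorem TT_spec (K : ℕ) (x : V n K) :
    ((TT n K x : V n K) : HS n) = RR n (La (sec n K x : MP n)) := rfl

theorem inner_RR (h1 : T_SYM) (hn : 2 ≤ n) (p q : MP n) :
    inner ℂ (RR n (La p)) (RR n q) = inner ℂ (RR n p) (RR n (La q)) := by
  rw [RR_apply, RR_apply, RR_apply, RR_apply, inner_tl, inner_tl]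
  have h := (h1 n (ev q) (ev p) hn (ev_contDiff q) (ev_contDiff p)).1
  simp only [Lam_ev] at h
  simp only [rho_apply]
  exact h.symm

theorem TT_symm (h1 : T_SYM) (hn : 2 ≤ n) (K : ℕ) : (TT n K).IsSymmetric := by
  intro x y
  rw [Submodule.coe_inner, Submodule.coe_inner, TT_spec, TT_spec, ← sec_spec K y,
    inner_RR h1 hn, sec_spec K x]


/-- restriction to the sphere -/
def rs (F : E n → ℂ) (hF : Continuous F) : C(Sp n, ℂ) :=
  ⟨fun θ => F (θ : E n), hF.comp continuous_subtype_val⟩

theorem int_ev (F : E n → ℂ) (hF : Continuous F) (p : MP n) :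
    ∫ θ, F (θ : E n) * conj (ev p (θ : E n)) ∂(sg n) = inner ℂ (RR n p) (tl (rs F hF)) := by
  rw [RR_apply, inner_tl]
  simp only [rho_apply]
  rfl

theorem norm_tl (f : C(Sp n, ℂ)) : ENNReal.ofReal (‖tl f‖ ^ 2) = ∫⁻ θ, ‖f θ‖ₑ ^ 2 ∂(sg n) := by
  have h1 : (inner ℂ (tl f) (tl f) : ℂ) = ((‖tl f‖ ^ 2 : ℝ) : ℂ) := by
    rw [inner_self_eq_norm_sq_to_K]
    push_cast
    rfl
  rw [inner_tl] at h1
  have h2 : ∫ θ, f θ * conj (f θ) ∂(sg n) = ((∫ θ, ‖f θ‖ ^ 2 ∂(sg n) : ℝ) : ℂ) := by
    rw [← integral_complex_ofReal]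
    refine integral_congr_ae (Eventually.of_forall fun θ => ?_)
    simp only
    rw [Complex.mul_conj']
    push_cast
    rfl
  rw [h2] at h1
  have h3 : ∫ θ, ‖f θ‖ ^ 2 ∂(sg n) = ‖tl f‖ ^ 2 := by exact_mod_cast h1
  rw [← h3]
  have h4 : Integrable (fun θ => ‖f θ‖ ^ 2) (sg n) := by
    have h5 : Continuous (fun θ : Sp n => ‖f θ‖ ^ 2) := by fun_prop
    exact h5.integrable_of_hasCompactSupport (HasCompactSupport.of_compactSpace _)
  rw [ofReal_integral_eq_lintegral_ofReal h4 (Eventually.of_forall fun θ => by positivity)]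
  refine lintegral_congr fun θ => ?_
  rw [ENNReal.ofReal_pow (norm_nonneg _), ofReal_norm]

theorem mem_cl (f : C(Sp n, ℂ)) : tl f ∈ (⨆ K, V n K).topologicalClosure := by
  have h1 : tl f ∈ closure (tl '' Set.range (rho n)) := by
    have hc : Continuous (tl : C(Sp n, ℂ) → HS n) :=
      (ContinuousMap.toLp 2 (sg n) ℂ : C(Sp n, ℂ) →L[ℂ] HS n).continuous
    exact image_closure_subset_closure_image hc ⟨f, dense_rho f, rfl⟩
  refine closure_mono ?_ h1
  rintro _ ⟨_, ⟨p, rfl⟩, rfl⟩
  obtain ⟨K, hK⟩ := mem_pow p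
  have h2 : RR n p ∈ V n K := Submodule.mem_map_of_mem hK
  exact (le_iSup (V n) K) h2

theorem proj_tendsto (x : HS n) (hx : x ∈ (⨆ K, V n K).topologicalClosure) :
    Tendsto (fun K => ‖(V n K).orthogonalProjectionOnto x‖) atTop (𝓝 ‖x‖) := by
  have h1 := Submodule.starProjection_tendsto_closure_iSup (V n) V_mono x
  rw [Submodule.starProjection_eq_self_iff.2 hx] at h1
  have h2 := h1.norm
  refine h2.congr fun K => ?_
  rw [Submodule.starProjection_apply, Submodule.coe_norm]

theorem proj_mono (x : HS n) (K : ℕ) :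
    ‖(V n K).orthogonalProjectionOnto x‖ ≤ ‖(V n (K + 1)).orthogonalProjectionOnto x‖ := by
  rw [← Submodule.orthogonalProjectionOnto_starProjection_of_le (V_mono (Nat.le_succ K)) x]
  refine (Submodule.norm_orthogonalProjectionOnto_apply_le _ _).trans ?_
  rw [Submodule.starProjection_apply, Submodule.coe_norm]


end EIG_

open EIG_ in
/-- **EIG**. -/
theorem p_EIG (h1 : T_SYM) : T_EIG := by
  intro n hn
  set eb : (K : ℕ) → OrthonormalBasis (Fin (Module.finrank ℂ (V n K))) ℂ (V n K) := fun K =>
    (TT_symm h1 hn K).eigenvectorBasis rfl with heb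
  set mu : (K : ℕ) → Fin (Module.finrank ℂ (V n K)) → ℝ := fun K =>
    (TT_symm h1 hn K).eigenvalues rfl with hmu
  have hT : ∀ K m, TT n K (eb K m) = (mu K m : ℂ) • eb K m := fun K m =>
    (TT_symm h1 hn K).apply_eigenvectorBasis rfl m
  have hY : ∀ K m, RR n (sec n K (eb K m) : MP n) = (eb K m : HS n) := fun K m => sec_spec K _
  have hL : ∀ K m, RR n (La (sec n K (eb K m) : MP n)) = (mu K m : ℂ) • (eb K m : HS n) := by
    intro K m
    rw [← TT_spec, hT]
    rfl
  have hpn : ∀ (K : ℕ) (F : E n → ℂ) (hF : Continuous F),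
      pn (fun m => ev (sec n K (eb K m) : MP n)) F =
        ENNReal.ofReal (‖(V n K).orthogonalProjectionOnto (tl (rs F hF))‖ ^ 2) := by
    intro K F hF
    unfold pn
    rw [← (eb K).sum_sq_norm_inner_right, ENNReal.ofReal_sum_of_nonneg fun _ _ => by positivity]
    refine Finset.sum_congr rfl fun m _ => ?_
    rw [int_ev F hF, hY, ENNReal.ofReal_pow (norm_nonneg _), ofReal_norm,
      Submodule.inner_orthogonalProjectionOnto_eq_of_mem_left]
  refine ⟨fun K => Module.finrank ℂ (V n K), fun K m => ev (sec n K (eb K m) : MP n),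
    fun K m => -mu K m, fun K => ⟨fun m => (ev_contDiff _).continuous, ?_, ?_, ?_⟩, ?_⟩
  · intro m m'
    rw [int_ev _ (ev_contDiff _).continuous]
    have h2 : tl (rs (ev (sec n K (eb K m) : MP n)) (ev_contDiff _).continuous) =
        (eb K m : HS n) := by
      rw [← hY K m, RR_apply]
      congr 1
      ext θ
      rw [rho_apply]
      rfl
    rw [h2, hY, ← Submodule.coe_inner, orthonormal_iff_ite.1 (eb K).orthonormal m' m]
    simp only [eq_comm]
  · intro m
    have h2 := (h1 n (ev (sec n K (eb K m) : MP n)) (ev (sec n K (eb K m) : MP n)) hn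
      (ev_contDiff _) (ev_contDiff _)).2
    simp only [Lam_ev] at h2
    rw [int_ev _ (ev_contDiff _).continuous] at h2
    have h3 : tl (rs (ev (La (sec n K (eb K m) : MP n))) (ev_contDiff _).continuous) =
        (mu K m : ℂ) • (eb K m : HS n) := by
      rw [← hL K m, RR_apply]
      congr 1
      ext θ
      rw [rho_apply]
      rfl
    rw [h3, hY, inner_smul_right, ← Submodule.coe_inner,
      orthonormal_iff_ite.1 (eb K).orthonormal m m, if_pos rfl, mul_one, Complex.ofReal_re] at h2
    linarith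
  · intro m F hF
    rw [(h1 n F (ev (sec n K (eb K m) : MP n)) hn hF (ev_contDiff _)).1]
    simp only [Lam_ev]
    rw [int_ev F hF.continuous, int_ev F hF.continuous, hL, hY, inner_smul_left,
      Complex.conj_ofReal]
    push_cast
    ring
  · intro F hF
    have hm : ∀ K, pn (fun m => ev (sec n K (eb K m) : MP n)) F ≤
        pn (fun m => ev (sec n (K + 1) (eb (K + 1) m) : MP n)) F := by
      intro K
      rw [hpn K F hF, hpn (K + 1) F hF]
      refine ENNReal.ofReal_le_ofReal ?_
      exact pow_le_pow_left₀ (norm_nonneg _) (proj_mono _ _) 2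
    refine ⟨hm, ?_⟩
    refine iSup_eq_of_tendsto (monotone_nat_of_le_succ hm) ?_
    have h2 : Tendsto (fun K => ENNReal.ofReal
        (‖(V n K).orthogonalProjectionOnto (tl (rs F hF))‖ ^ 2)) atTop
        (𝓝 (ENNReal.ofReal (‖tl (rs F hF)‖ ^ 2))) :=
      (ENNReal.continuous_ofReal.tendsto _).comp ((proj_tendsto _ (mem_cl _)).pow 2)
    rw [norm_tl] at h2
    refine h2.congr fun K => ?_
    exact (hpn K F hF).symm

end Pool.Agent.CRR
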