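import Pool.Agent.CRR.Targets

set_option autoImplicit false

namespace Pool.Agent.CRR

open MeasureTheory FourierTransform Set Filter Topology
open scoped ENNReal NNReal ComplexConjugate

namespace ENR_

/-- square root of the potential -/
noncomputable def p (ν x : ℝ) : ℝ := Real.sqrt (PP ν x)

/-- correction factor -/
noncomputable def g (ν x : ℝ) : ℝ := Real.exp (2 * x) / p ν x ^ 3

/-- derivative of the correction factor -/
noncomputable def g1 (ν x : ℝ) : ℝ :=
  (2 * Real.exp (2 * x) * p ν x ^ 3 - Real.exp (2 * x) * (3 * p ν x ^ 2 *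
    (Real.exp (2 * x) / p ν x))) / (p ν x ^ 3) ^ 2

/-- corrected energy -/
noncomputable def E3 (ν : ℝ) (J J' : ℝ → ℝ) (x : ℝ) : ℝ :=
  J' x ^ 2 / p ν x + p ν x * J x ^ 2 + g ν x * (J x * J' x)

theorem exp2 (x : ℝ) : HasDerivAt (fun y => Real.exp (2 * y)) (2 * Real.exp (2 * x)) x := by
  have h : HasDerivAt (fun y : ℝ => 2 * y) 2 x := by
    simpa using (hasDerivAt_id x).const_mul (2 : ℝ)
  have h2 := h.exp
  rw [mul_comm] at h2
  exact h2

theorem psq {ν x : ℝ} (h : 0 < PP ν x) : p ν x ^ 2 = PP ν x := Real.sq_sqrt h.le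

theorem ppos {ν x : ℝ} (h : 0 < PP ν x) : 0 < p ν x := Real.sqrt_pos.2 h

theorem dp {ν x : ℝ} (h : 0 < PP ν x) :
    HasDerivAt (p ν) (Real.exp (2 * x) / p ν x) x := by
  have h1 : HasDerivAt (PP ν) (2 * Real.exp (2 * x)) x := by
    have := (exp2 x).sub_const (ν ^ 2)
    exact this
  have h2 := h1.sqrt h.ne'
  have h3 : 2 * Real.exp (2 * x) / (2 * Real.sqrt (PP ν x)) = Real.exp (2 * x) / p ν x := by
    have := ppos h
    unfold p at this ⊢
    field_simp
  rw [h3] at h2
  exact h2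

theorem dg {ν x : ℝ} (h : 0 < PP ν x) : HasDerivAt (g ν) (g1 ν x) x := by
  have h1 := (dp h).pow 3
  have h2 := (exp2 x).div h1 (pow_ne_zero 3 (ppos h).ne')
  have h3 : g1 ν x = (2 * Real.exp (2 * x) * p ν x ^ 3 - Real.exp (2 * x) *
      ((3 : ℕ) * p ν x ^ (3 - 1) * (Real.exp (2 * x) / p ν x))) / (p ν x ^ 3) ^ 2 := by
    unfold g1
    norm_num
  rw [h3]
  exact h2

theorem dE {ν x : ℝ} {J J' : ℝ → ℝ} (hs : Sol ν J J') (h : 0 < PP ν x) :
    HasDerivAt (E3 ν J J') (g1 ν x * (J x * J' x)) x := by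
  have hp := ppos h
  have hsq := psq h
  have h1 := ((hs.d2 x).pow 2).div (dp h) hp.ne'
  have h2 := (dp h).mul ((hs.d1 x).pow 2)
  have h3 := (dg h).mul ((hs.d1 x).mul (hs.d2 x))
  have h4 := (h1.add h2).add h3
  refine HasDerivAt.congr_deriv h4 ?_
  rw [← hsq]
  unfold g
  norm_num
  field_simp
  ring

theorem key {ν x : ℝ} (h : 0 < PP ν x) (h1 : 100 * Real.exp (4 * x / 3) ≤ PP ν x) :
    0 < g ν x ∧ g ν x ≤ 1 / 1000 ∧ g1 ν x ≤ 0 := by
  have hp := ppos h
  have hsq := psq h
  have he := Real.exp_pos (2 * x)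
  have hq := Real.exp_pos (2 * x / 3)
  have hq2 : Real.exp (4 * x / 3) = Real.exp (2 * x / 3) ^ 2 := by
    rw [← Real.exp_nat_mul]
    congr 1
    push_cast
    ring
  have hq3 : Real.exp (2 * x) = Real.exp (2 * x / 3) ^ 3 := by
    rw [← Real.exp_nat_mul]
    congr 1
    push_cast
    ring
  have h10 : 10 * Real.exp (2 * x / 3) ≤ p ν x := by
    apply le_of_sq_le_sq _ hp.le
    rw [hsq]
    rw [hq2] at h1
    nlinarith
  refine ⟨div_pos he (pow_pos hp 3), ?_, ?_⟩
  · unfold g
    rw [div_le_div_iff₀ (pow_pos hp 3) (by norm_num), hq3]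
    have := pow_le_pow_left₀ (by positivity) h10 3
    nlinarith
  · unfold g1
    apply div_nonpos_of_nonpos_of_nonneg _ (by positivity)
    have h5 : 2 * Real.exp (2 * x) * p ν x ^ 3 - Real.exp (2 * x) * (3 * p ν x ^ 2 *
        (Real.exp (2 * x) / p ν x)) = Real.exp (2 * x) * p ν x *
          (2 * p ν x ^ 2 - 3 * Real.exp (2 * x)) := by
      field_simp
    rw [h5]
    apply mul_nonpos_of_nonneg_of_nonpos (by positivity)
    rw [hsq]
    unfold PP
    nlinarith [sq_nonneg ν]

end ENR_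

open ENR_ in
/-- **ENR**: the energy estimate. -/
theorem p_ENR (h1 : T_SEQ) : T_ENR := by
  intro ν J J' x y hν hs hx hy
  have hP : ∀ z, xc ν ≤ z → 0 < PP ν z := by
    intro z hz
    have := ((h1 ν hν).1 z hz).1
    have he := Real.exp_pos (4 * z / 3)
    linarith
  have hk : ∀ z, xc ν ≤ z → 0 < g ν z ∧ g ν z ≤ 1 / 1000 ∧ g1 ν z ≤ 0 := fun z hz =>
    key (hP z hz) ((h1 ν hν).1 z hz).1
  -- |J J'| is at most half of the energy
  have hJ : ∀ z, xc ν ≤ z → 2 * |J z * J' z| ≤ E2 ν J J' z := by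
    intro z hz
    have hp := ppos (hP z hz)
    have hE : E2 ν J J' z = J' z ^ 2 / p ν z + p ν z * J z ^ 2 := rfl
    have h3 : 0 ≤ (|J' z| - p ν z * |J z|) ^ 2 / p ν z := by positivity
    have h4 : (|J' z| - p ν z * |J z|) ^ 2 / p ν z =
        J' z ^ 2 / p ν z + p ν z * J z ^ 2 - 2 * |J z * J' z| := by
      rw [abs_mul]
      have a1 : |J' z| ^ 2 = J' z ^ 2 := sq_abs _
      have a2 : |J z| ^ 2 = J z ^ 2 := sq_abs _
      rw [← a1, ← a2]
      field_simp
      ring
    rw [hE]
    linarith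
  have hE0 : ∀ z, xc ν ≤ z → 0 ≤ E2 ν J J' z := fun z hz =>
    le_trans (by positivity) (hJ z hz)
  have hE3 : ∀ z, xc ν ≤ z → |E3 ν J J' z - E2 ν J J' z| ≤ 1 / 2000 * E2 ν J J' z := by
    intro z hz
    have h5 : E3 ν J J' z - E2 ν J J' z = g ν z * (J z * J' z) := by
      unfold E3 E2 p
      ring
    rw [h5, abs_mul, abs_of_pos (hk z hz).1]
    have := hJ z hz
    have h6 := (hk z hz).2.1
    have h7 := mul_le_mul h6 (le_refl |J z * J' z|) (abs_nonneg _) (by norm_num)
    linarith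
  have hdiff : ∀ z, xc ν ≤ z → HasDerivAt (E3 ν J J') (g1 ν z * (J z * J' z)) z :=
    fun z hz => dE hs (hP z hz)
  have hplus : ∀ z, xc ν ≤ z → HasDerivAt (fun z => E3 ν J J' z * (1 + g ν z))
      (g1 ν z * (E3 ν J J' z + (1 + g ν z) * (J z * J' z))) z := by
    intro z hz
    have := (hdiff z hz).mul ((dg (hP z hz)).const_add 1)
    refine HasDerivAt.congr_deriv this ?_
    ring
  have hminus : ∀ z, xc ν ≤ z → HasDerivAt (fun z => E3 ν J J' z * (1 - g ν z))
      (-(g1 ν z * (E3 ν J J' z - (1 - g ν z) * (J z * J' z)))) z := by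
    intro z hz
    have := (hdiff z hz).mul ((dg (hP z hz)).const_sub 1)
    refine HasDerivAt.congr_deriv this ?_
    ring
  have hanti : AntitoneOn (fun z => E3 ν J J' z * (1 + g ν z)) (Ici (xc ν)) := by
    apply antitoneOn_of_hasDerivWithinAt_nonpos (convex_Ici _)
      (f' := fun z => g1 ν z * (E3 ν J J' z + (1 + g ν z) * (J z * J' z)))
    · intro z hz
      exact (hplus z hz).continuousAt.continuousWithinAt
    · intro z hz
      rw [interior_Ici] at hz ⊢
      exact (hplus z (le_of_lt hz)).hasDerivWithinAt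
    · intro z hz
      rw [interior_Ici] at hz
      have hz' : xc ν ≤ z := le_of_lt hz
      obtain ⟨k1, k2, k3⟩ := hk z hz'
      have m1 := abs_le.1 (hE3 z hz')
      have m2 := hJ z hz'
      have m3 := neg_abs_le (J z * J' z)
      have m4 := hE0 z hz'
      have m5 := abs_nonneg (J z * J' z)
      apply mul_nonpos_of_nonpos_of_nonneg k3
      have m6 : -(1001 / 1000 * |J z * J' z|) ≤ (1 + g ν z) * (J z * J' z) := by
        nlinarith
      linarith [m1.1]
  have hmono : MonotoneOn (fun z => E3 ν J J' z * (1 - g ν z)) (Ici (xc ν)) := by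
    apply monotoneOn_of_hasDerivWithinAt_nonneg (convex_Ici _)
      (f' := fun z => -(g1 ν z * (E3 ν J J' z - (1 - g ν z) * (J z * J' z))))
    · intro z hz
      exact (hminus z hz).continuousAt.continuousWithinAt
    · intro z hz
      rw [interior_Ici] at hz ⊢
      exact (hminus z (le_of_lt hz)).hasDerivWithinAt
    · intro z hz
      rw [interior_Ici] at hz
      have hz' : xc ν ≤ z := le_of_lt hz
      obtain ⟨k1, k2, k3⟩ := hk z hz'
      have m1 := abs_le.1 (hE3 z hz')
      have m2 := hJ z hz'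
      have m3 := le_abs_self (J z * J' z)
      have m4 := hE0 z hz'
      have m5 := abs_nonneg (J z * J' z)
      have m6 : (1 - g ν z) * (J z * J' z) ≤ |J z * J' z| := by
        nlinarith
      have m7 : 0 ≤ E3 ν J J' z - (1 - g ν z) * (J z * J' z) := by linarith [m1.1]
      have := mul_nonpos_of_nonpos_of_nonneg k3 m7
      simp only [Left.nonneg_neg_iff]
      exact this
  have hposE : ∀ z, xc ν ≤ z → 0 ≤ E3 ν J J' z := by
    intro z hz
    have m1 := abs_le.1 (hE3 z hz)
    have m4 := hE0 z hz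
    linarith [m1.1]
  -- comparison of E3
  have hcomp : E3 ν J J' x ≤ 101 / 100 * E3 ν J J' y := by
    have kx := hk x hx
    have ky := hk y hy
    have ex := hposE x hx
    have ey := hposE y hy
    rcases le_total x y with hxy | hxy
    · have := hmono hx hy hxy
      simp only at this
      nlinarith
    · have := hanti hy hx hxy
      simp only at this
      nlinarith
  have m1 := abs_le.1 (hE3 x hx)
  have m2 := abs_le.1 (hE3 y hy)
  have m3 := hE0 x hx
  have m4 := hE0 y hy
  linarith [m1.1, m2.2]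

end Pool.Agent.CRR
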