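import Pool.Agent.CRR.Targets

set_option autoImplicit false

/-! CRR-FOR: the forbidden region. -/

namespace Pool.Agent.CRR

open MeasureTheory Set Filter Topology

namespace FOR_

theorem PP_cont (ν : ℝ) : Continuous (PP ν) := by
  unfold PP; fun_prop

theorem PP_mono (ν : ℝ) {s y : ℝ} (h : s ≤ y) : PP ν s ≤ PP ν y := by
  unfold PP
  have : Real.exp (2 * s) ≤ Real.exp (2 * y) := Real.exp_le_exp.2 (by linarith)
  linarith

/-- `(J J')' ≥ 0` where `P ≤ 0` -/
theorem JJ_deriv {ν : ℝ} {J J' : ℝ → ℝ} (hS : Sol ν J J') (s : ℝ) :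
    HasDerivAt (fun s => J s * J' s) (J' s * J' s + J s * (-(PP ν s) * J s)) s :=
  (hS.d1 s).mul (hS.d2 s)

end FOR_

open FOR_ in
theorem p_FOR (h1 : T_INF) (h2 : T_QID) : T_FOR := by
  intro ν J J' x y hν hS hxy hP
  have hPle : ∀ s ≤ y, PP ν s ≤ 0 := fun s hs => (PP_mono ν hs).trans hP
  obtain ⟨hJ'0, -⟩ := h1 ν J J' hν hS
  obtain ⟨B, hB⟩ := hS.bd
  have hlim : Tendsto (fun s => J s * J' s) atBot (𝓝 0) := by
    refine squeeze_zero_norm' (a := fun s => B * |J' s|) ?_ ?_
    · filter_upwards [eventually_le_atBot (0 : ℝ)] with s hs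
      rw [norm_mul, Real.norm_eq_abs, Real.norm_eq_abs]
      exact mul_le_mul_of_nonneg_right (hB s hs) (abs_nonneg _)
    · have := (hJ'0.abs).const_mul B
      simpa using this
  have hmono : MonotoneOn (fun s => J s * J' s) (Iic y) := by
    refine monotoneOn_of_deriv_nonneg (convex_Iic y)
      (fun s _ => (JJ_deriv hS s).continuousAt.continuousWithinAt)
      (fun s _ => (JJ_deriv hS s).differentiableAt.differentiableWithinAt) fun s hs => ?_
    rw [(JJ_deriv hS s).deriv]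
    have hs' : s ∈ Iic y := interior_subset hs
    have h3 := hPle s hs'
    nlinarith [mul_self_nonneg (J' s), mul_self_nonneg (J s),
      mul_nonneg (neg_nonneg.2 h3) (mul_self_nonneg (J s))]
  have hnn : ∀ s ≤ y, 0 ≤ J s * J' s := by
    intro s hs
    refine le_of_tendsto hlim ?_
    filter_upwards [eventually_le_atBot s] with t ht
    exact hmono (ht.trans hs) hs ht
  have hkey : ∀ s ≤ y, Real.sqrt (-(PP ν s)) * J s ^ 2 ≤ J s * J' s := by
    intro s hs
    refine (pow_le_pow_iff_left₀ (by positivity) (hnn s hs) two_ne_zero).1 ?_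
    rw [mul_pow, Real.sq_sqrt (neg_nonneg.2 (hPle s hs))]
    have h4 := (h2 ν J J' hν hS s).1
    nlinarith [mul_nonneg (sq_nonneg (J s)) h4]
  obtain ⟨Φ, hΦ⟩ : ∃ Φ : ℝ → ℝ, Φ = fun s => ∫ t in x..s, Real.sqrt (-(PP ν t)) := ⟨_, rfl⟩
  have hc : Continuous (fun t => Real.sqrt (-(PP ν t))) :=
    Real.continuous_sqrt.comp (PP_cont ν).neg
  have hΦd : ∀ s, HasDerivAt Φ (Real.sqrt (-(PP ν s))) s := by
    intro s
    rw [hΦ]
    exact (hc.integral_hasStrictDerivAt x s).hasDerivAt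
  have hF : ∀ s, HasDerivAt (fun s => J s ^ 2 * Real.exp (-2 * Φ s))
      (2 * J s * J' s * Real.exp (-2 * Φ s) +
        J s ^ 2 * (Real.exp (-2 * Φ s) * (-2 * Real.sqrt (-(PP ν s))))) s := by
    intro s
    have e1 : HasDerivAt (fun s => J s ^ 2) (2 * J s * J' s) s := by
      have h := (hS.d1 s).fun_pow 2
      simpa using h
    exact e1.mul (((hΦd s).const_mul (-2)).exp)
  have hFm : MonotoneOn (fun s => J s ^ 2 * Real.exp (-2 * Φ s)) (Icc x y) := by
    refine monotoneOn_of_deriv_nonneg (convex_Icc x y)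
      (fun s _ => (hF s).continuousAt.continuousWithinAt)
      (fun s _ => (hF s).differentiableAt.differentiableWithinAt) fun s hs => ?_
    rw [(hF s).deriv]
    have hs' : s ∈ Icc x y := interior_subset hs
    have h5 := hkey s hs'.2
    have h6 : 2 * J s * J' s * Real.exp (-2 * Φ s) +
        J s ^ 2 * (Real.exp (-2 * Φ s) * (-2 * Real.sqrt (-(PP ν s)))) =
        2 * (J s * J' s - Real.sqrt (-(PP ν s)) * J s ^ 2) * Real.exp (-2 * Φ s) := by ring
    rw [h6]
    have h7 : 0 ≤ J s * J' s - Real.sqrt (-(PP ν s)) * J s ^ 2 := by linarith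
    positivity
  have h8 := hFm (left_mem_Icc.2 hxy) (right_mem_Icc.2 hxy) hxy
  have h9 : Φ x = 0 := by rw [hΦ]; exact intervalIntegral.integral_same
  simp only [h9, mul_zero, Real.exp_zero, mul_one] at h8
  have h10 : Φ y = ∫ s in x..y, Real.sqrt (-(PP ν s)) := by rw [hΦ]
  rw [← h10]
  refine (pow_le_pow_iff_left₀ (abs_nonneg _) (by positivity) two_ne_zero).1 ?_
  rw [sq_abs, mul_pow, sq_abs]
  refine h8.trans_eq ?_
  congr 1
  rw [← Real.exp_nat_mul]
  congr 1
  push_cast
  ring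

end Pool.Agent.CRR
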