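import Pool.Agent.CRR.Targets
import Pool.Agent.CRN.P_HELN

set_option autoImplicit false

/-!
# CRR: separation of variables (target GM)
-/

namespace Pool.Agent.CRR

open MeasureTheory FourierTransform Set Filter Topology
open scoped ENNReal NNReal ComplexConjugate
open Pool.Agent.MBS (E ex S Sstar)
open Pool.Agent.CAR (e1)
open Pool.Agent.CRN (IN sg rt Lam SH S1 Nice T_CARLS T_RAYN T_POLN T_AHN T_DSN T_HELN)
open Pool.Agent.CRN.HELN_ (Sp int_of_cont cont_int fin_sg)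

namespace GM_

variable {n : ℕ}

lemma SH_cont {h : E n → ℂ} (hh : Continuous h) :
    Continuous (fun p : ℝ × E n => SH h p.1 p.2) := by
  unfold SH
  refine Continuous.mul ?_ ?_
  · exact Complex.continuous_ofReal.comp (continuous_fst.pow _)
  · have hw : Continuous fun q : (ℝ × E n) × Sp n => q.1.1 • (q.2 : E n) := by fun_prop
    have hx : Continuous fun q : (ℝ × E n) × Sp n => q.1.2 := by fun_prop
    refine cont_int (F := fun (p : ℝ × E n) (ω : Sp n) =>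
      h (p.1 • (ω : E n)) * ex p.2 (p.1 • (ω : E n))) ?_
    exact (hh.comp hw).mul (Pool.Agent.MBS.ex_continuous.comp (hx.prodMk hw))

lemma co_cont {Y h : E n → ℂ} (hY : Continuous Y) (hh : Continuous h) :
    Continuous (fun p : ℝ × ℝ => co Y h p.1 p.2) := by
  unfold co
  refine cont_int (F := fun (p : ℝ × ℝ) (θ : Sp n) =>
    SH h p.1 (p.2 • (θ : E n)) * conj (Y (θ : E n))) ?_
  have h1 : Continuous fun q : (ℝ × ℝ) × Sp n => (q.1.1, q.1.2 • (q.2 : E n)) := by fun_prop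
  have h2 : Continuous fun q : (ℝ × ℝ) × Sp n => Y (q.2 : E n) :=
    hY.comp (continuous_subtype_val.comp continuous_snd)
  exact ((SH_cont hh).comp h1).mul (Complex.continuous_conj.comp h2)

lemma memLp_of_cont {G : E n → ℂ} (hG : Continuous G) :
    MemLp (fun θ : Sp n => G (θ : E n)) 2 (sg n) :=
  (hG.comp continuous_subtype_val).memLp_of_hasCompactSupport
    (HasCompactSupport.of_compactSpace _)

lemma bessel {M : ℕ} {Y : Fin M → E n → ℂ} {lam : Fin M → ℝ} (hY : EB n Y lam)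
    {F : E n → ℂ} (hF : Continuous F) :
    ∑ m, ‖∫ θ, F (θ : E n) * conj (Y m (θ : E n)) ∂(sg n)‖ₑ ^ 2 ≤
      ∫⁻ θ, ‖F (θ : E n)‖ₑ ^ 2 ∂(sg n) := by
  set y : Fin M → Lp ℂ 2 (sg n) := fun m => (memLp_of_cont (hY.cont m)).toLp with hy
  set f : Lp ℂ 2 (sg n) := (memLp_of_cont hF).toLp with hf
  have hin : ∀ (G H : E n → ℂ) (hG : Continuous G) (hH : Continuous H),
      inner ℂ (memLp_of_cont hG).toLp (memLp_of_cont hH).toLp =
        ∫ θ, H (θ : E n) * conj (G (θ : E n)) ∂(sg n) := by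
    intro G H hG hH
    rw [L2.inner_def]
    refine integral_congr_ae ?_
    filter_upwards [(memLp_of_cont hG).coeFn_toLp, (memLp_of_cont hH).coeFn_toLp] with θ h1 h2
    rw [h1, h2, RCLike.inner_apply]
  have horth : Orthonormal ℂ y := by
    rw [orthonormal_iff_ite]
    intro i j
    rw [hy]
    simp only
    rw [hin _ _ (hY.cont i) (hY.cont j), hY.orth]
    simp only [eq_comm]
  have hb := horth.sum_inner_products_le f (s := Finset.univ)
  have h1 : ∀ m, inner ℂ (y m) f = ∫ θ, F (θ : E n) * conj (Y m (θ : E n)) ∂(sg n) :=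
    fun m => hin _ _ (hY.cont m) hF
  simp only [h1] at hb
  have h2 : ∑ m, ‖∫ θ, F (θ : E n) * conj (Y m (θ : E n)) ∂(sg n)‖ₑ ^ 2 =
      ENNReal.ofReal (∑ m, ‖∫ θ, F (θ : E n) * conj (Y m (θ : E n)) ∂(sg n)‖ ^ 2) := by
    rw [ENNReal.ofReal_sum_of_nonneg fun _ _ => by positivity]
    refine Finset.sum_congr rfl fun m _ => ?_
    rw [ENNReal.ofReal_pow (norm_nonneg _), ofReal_norm]
  rw [h2]
  refine (ENNReal.ofReal_le_ofReal hb).trans (le_of_eq ?_)
  rw [ENNReal.ofReal_pow (norm_nonneg _), ofReal_norm, hf, Lp.enorm_toLp]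
  have h3 := eLpNorm_nnreal_pow_eq_lintegral (f := fun θ : Sp n => F (θ : E n)) (μ := sg n)
    (p := 2) (by norm_num)
  have h4 : (((2 : ℝ≥0) : ℝ≥0∞)) = (2 : ℝ≥0∞) := by norm_num
  have h5 : (((2 : ℝ≥0) : ℝ)) = ((2 : ℕ) : ℝ) := by norm_num
  rw [h4, h5, ENNReal.rpow_natCast] at h3
  simp only [ENNReal.rpow_natCast] at h3
  exact h3

/-! ### the one-dimensional integral -/

lemma subst (J : ℝ → ℝ) {ρ T : ℝ} (hρ : 0 < ρ) (hT : 0 < T) :
    ∫⁻ r in Ioc 0 T, ENNReal.ofReal (r * J (Real.log (2 * Real.pi * r * ρ)) ^ 2) =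
      ∫⁻ x in Iic (Real.log (2 * Real.pi * T * ρ)),
        ENNReal.ofReal (((2 * Real.pi * ρ)⁻¹) ^ 2 * (Real.exp (2 * x) * J x ^ 2)) := by
  have hc : 0 < 2 * Real.pi * ρ := by positivity
  have himg : (fun x => Real.exp x / (2 * Real.pi * ρ)) ''
      Iic (Real.log (2 * Real.pi * T * ρ)) = Ioc 0 T := by
    ext y
    simp only [mem_image, mem_Iic, mem_Ioc]
    constructor
    · rintro ⟨x, hx, rfl⟩
      refine ⟨by positivity, ?_⟩
      rw [div_le_iff₀ hc]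
      rw [Real.le_log_iff_exp_le (by positivity)] at hx
      calc Real.exp x ≤ _ := hx
        _ = _ := by ring
    · rintro ⟨hy0, hyT⟩
      refine ⟨Real.log (2 * Real.pi * y * ρ), ?_, ?_⟩
      · apply Real.log_le_log (by positivity)
        gcongr
      · rw [Real.exp_log (by positivity)]
        field_simp
  rw [← himg, lintegral_image_eq_lintegral_abs_deriv_mul measurableSet_Iic
    (f' := fun x => Real.exp x / (2 * Real.pi * ρ))
    (fun x _ => ((Real.hasDerivAt_exp x).div_const _).hasDerivWithinAt)]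
  · refine lintegral_congr fun x => ?_
    have h1 : 2 * Real.pi * (Real.exp x / (2 * Real.pi * ρ)) * ρ = Real.exp x := by
      field_simp
    rw [h1, Real.log_exp, abs_of_pos (by positivity), ← ENNReal.ofReal_mul (by positivity)]
    congr 1
    rw [two_mul x, Real.exp_add]
    field_simp
  · intro x _ y _ hxy
    simp only at hxy
    have := (div_left_inj' hc.ne').mp hxy
    exact Real.exp_injective this

lemma lower (h1 : T_SEQ) (h4 : T_QID) (h5 : T_ENR) {ν : ℝ} {J J' : ℝ → ℝ} (hν : 0 ≤ ν)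
    (hJ : NSol ν J J') {ρ T : ℝ} (hρ : 0 < ρ) (hT : 0 < T)
    (hX : xc ν + 1 ≤ Real.log (2 * Real.pi * T * ρ)) :
    ENNReal.ofReal (T / (16 * Real.pi * ρ)) ≤
      ∫⁻ r in Ioc 0 T, ENNReal.ofReal (r * J (Real.log (2 * Real.pi * r * ρ)) ^ 2) := by
  rw [subst J hρ hT]
  set X := Real.log (2 * Real.pi * T * ρ) with hXd
  have hexpX : Real.exp X = 2 * Real.pi * T * ρ := Real.exp_log (by positivity)
  obtain ⟨_, hint, hQ⟩ := h4 ν J J' hν hJ.sol X
  have hxX : xc ν ≤ X := by linarith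
  have hE := h5 ν J J' (xc ν) X hν hJ.sol le_rfl hxX
  rw [hJ.nrm] at hE
  obtain ⟨hP1, _⟩ := (h1 ν hν).1 X hxX
  have hPpos : 0 < PP ν X := lt_of_lt_of_le (by positivity) hP1
  have hexc : Real.exp (xc ν) = ν + 3000 * (1 + ν) ^ (1 / 3 : ℝ) := by
    unfold xc
    exact Real.exp_log (by positivity)
  have hνX : 2 * ν ≤ Real.exp X := by
    have h6 : Real.exp (xc ν + 1) ≤ Real.exp X := Real.exp_le_exp.mpr hX
    rw [Real.exp_add] at h6
    have h7 : (2 : ℝ) ≤ Real.exp 1 := by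
      have := Real.add_one_le_exp (1 : ℝ)
      linarith
    have h8 : ν ≤ Real.exp (xc ν) := by
      rw [hexc]
      have : 0 ≤ 3000 * (1 + ν) ^ (1 / 3 : ℝ) := by positivity
      linarith
    nlinarith [Real.exp_pos (xc ν)]
  have hPlow : (Real.exp X / 2) ^ 2 ≤ PP ν X := by
    unfold PP
    rw [two_mul X, Real.exp_add]
    nlinarith
  have hsq : Real.exp X / 2 ≤ Real.sqrt (PP ν X) := Real.le_sqrt_of_sq_le hPlow
  have hsqpos : 0 < Real.sqrt (PP ν X) := Real.sqrt_pos.mpr hPpos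
  have hEQ : Real.sqrt (PP ν X) * E2 ν J J' X = J' X ^ 2 + PP ν X * J X ^ 2 := by
    unfold E2
    have h6 : Real.sqrt (PP ν X) * Real.sqrt (PP ν X) = PP ν X := Real.mul_self_sqrt hPpos.le
    have e : Real.sqrt (PP ν X) * (J' X ^ 2 / Real.sqrt (PP ν X)) = J' X ^ 2 := by
      field_simp
    rw [mul_add, e, ← mul_assoc, h6]
  have hI : Real.exp X / 8 ≤ ∫ y in Iic X, Real.exp (2 * y) * J y ^ 2 := by
    have h6 : Real.exp X / 2 * (1 / 2) ≤ Real.sqrt (PP ν X) * E2 ν J J' X := by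
      apply mul_le_mul hsq (by linarith) (by norm_num) hsqpos.le
    rw [hEQ, hQ] at h6
    linarith
  rw [← ofReal_integral_eq_lintegral_ofReal (hint.const_mul _)
    (ae_of_all _ fun x => by positivity), integral_const_mul]
  apply ENNReal.ofReal_le_ofReal
  calc T / (16 * Real.pi * ρ) = ((2 * Real.pi * ρ)⁻¹) ^ 2 * (Real.exp X / 8) := by
        rw [hexpX]
        field_simp
        ring
    _ ≤ _ := by gcongr

/-! ### polar coordinates -/

lemma partD (h8 : T_POLN) (hn : 2 ≤ n) {M : ℕ} {Y : Fin M → E n → ℂ} {lam : Fin M → ℝ}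
    (hY : EB n Y lam) {h : E n → ℂ} (hh : Continuous h) (ρ T : ℝ) :
    ∑ m, ∫⁻ r in Ioc 0 T, ENNReal.ofReal (r ^ (n - 1)) * ‖co (Y m) h ρ r‖ₑ ^ 2 ≤
      ∫⁻ x in Metric.closedBall (0 : E n) T, ‖SH h ρ x‖ₑ ^ 2 := by
  have hcoc : ∀ m, Continuous (fun r : ℝ => co (Y m) h ρ r) := fun m =>
    (co_cont (hY.cont m) hh).comp (continuous_const.prodMk continuous_id)
  have hSHc : Continuous (fun x : E n => SH h ρ x) :=
    (SH_cont hh).comp (continuous_const.prodMk continuous_id)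
  rw [← lintegral_finsetSum _ (fun m _ => by
    have := (hcoc m).measurable
    fun_prop)]
  have hF : Measurable ((Metric.closedBall (0 : E n) T).indicator
      (fun x => ‖SH h ρ x‖ₑ ^ 2)) :=
    (hSHc.measurable.enorm.pow_const 2).indicator measurableSet_closedBall
  rw [← lintegral_indicator measurableSet_closedBall, (h8 n (by omega)).1 _ hF]
  refine le_trans ?_ (lintegral_mono_set (fun x hx => hx.1 : Ioc (0 : ℝ) T ⊆ Ioi 0))
  refine setLIntegral_mono' measurableSet_Ioc fun r hr => ?_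
  rw [← Finset.mul_sum, lintegral_const_mul' _ _ ENNReal.ofReal_ne_top]
  gcongr
  have hb := bessel hY (F := fun x => SH h ρ (r • x)) (hSHc.comp (continuous_const_smul r))
  refine hb.trans (lintegral_mono fun θ => ?_)
  rw [indicator_of_mem]
  rw [mem_closedBall_zero_iff, norm_smul, Real.norm_of_nonneg hr.1.le]
  have : ‖(θ : E n)‖ = 1 := by
    have := θ.2
    rwa [mem_sphere_zero_iff_norm] at this
  rw [this, mul_one]
  exact hr.2

lemma sum_lintegral_le {α ι : Type} [MeasurableSpace α] (μ : Measure α) (s : Finset ι)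
    (f : ι → α → ℝ≥0∞) : ∑ i ∈ s, ∫⁻ x, f i x ∂μ ≤ ∫⁻ x, ∑ i ∈ s, f i x ∂μ := by
  classical
  induction s using Finset.induction_on with
  | empty => simp
  | insert a s ha ih =>
    rw [Finset.sum_insert ha]
    simp only [Finset.sum_insert ha]
    exact (add_le_add_right ih _).trans (le_lintegral_add _ _)

/-! ### one eigenfunction -/

lemma ZZ_log {Y h : E n → ℂ} {ρ r : ℝ} (hρ : 0 < ρ) (hr : 0 < r) :
    ZZ Y h ρ (Real.log (2 * Real.pi * r * ρ)) =
      ((r ^ (((n : ℝ) - 2) / 2) : ℝ) : ℂ) * co Y h ρ r := by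
  unfold ZZ
  have : Real.exp (Real.log (2 * Real.pi * r * ρ)) / (2 * Real.pi * ρ) = r := by
    rw [Real.exp_log (by positivity)]
    field_simp
  rw [this]

lemma ZZ_meas {Y h : E n → ℂ} (hY : Continuous Y) (hh : Continuous h) (x : ℝ) :
    Measurable (fun ρ : ℝ => ZZ Y h ρ x) := by
  unfold ZZ
  have h1 : Measurable (fun ρ : ℝ => Real.exp x / (2 * Real.pi * ρ)) := by fun_prop
  refine Measurable.mul ?_ ?_
  · exact Complex.measurable_ofReal.comp (h1.pow_const _)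
  · exact (co_cont hY hh).measurable.comp (measurable_id.prodMk h1)

lemma single (h1 : T_SEQ) (h2 : T_UNI) (h3 : T_NRM) (h6 : T_ODEN) (hn : 2 ≤ n) {M : ℕ}
    {Y : Fin M → E n → ℂ} {lam : Fin M → ℝ} (hY : EB n Y lam) {h : E n → ℂ}
    (hh : Continuous h) (m : Fin M) :
    ∃ (J J' : ℝ → ℝ) (G : ℝ → ℂ), Measurable G ∧
      ((∀ ρ, G ρ = 0) ∨ NSol (nu n (lam m)) J J') ∧
      ∀ ρ r, 0 < ρ → 0 < r → ((r ^ (((n : ℝ) - 2) / 2) : ℝ) : ℂ) * co (Y m) h ρ r =
        G ρ * J (Real.log (2 * Real.pi * r * ρ)) := by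
  by_cases hz : ∀ ρ, 0 < ρ → ∀ x, ZZ (Y m) h ρ x = 0
  · refine ⟨0, 0, 0, measurable_const, Or.inl fun _ => rfl, fun ρ r hρ hr => ?_⟩
    rw [← ZZ_log hρ hr, hz ρ hρ]
    simp
  · push Not at hz
    obtain ⟨ρ₀, hρ₀, x₀, hx₀⟩ := hz
    have hν : 0 ≤ nu n (lam m) := Real.sqrt_nonneg _
    obtain ⟨J0, J0', hS0, hJ0⟩ : ∃ J0 J0' : ℝ → ℝ, Sol (nu n (lam m)) J0 J0' ∧ J0 x₀ ≠ 0 := by
      obtain ⟨Z1, hre, him⟩ := h6 n M Y lam h m ρ₀ hn hY hh hρ₀
      by_cases hr : (ZZ (Y m) h ρ₀ x₀).re = 0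
      · refine ⟨_, _, him, ?_⟩
        intro hi
        exact hx₀ (Complex.ext hr hi)
      · exact ⟨_, _, hre, hr⟩
    obtain ⟨c, hc, hN⟩ := h3 h1 _ J0 J0' hν hS0 ⟨x₀, hJ0⟩
    set J : ℝ → ℝ := fun x => c * J0 x with hJd
    set J' : ℝ → ℝ := fun x => c * J0' x with hJ'd
    have hJx : J x₀ ≠ 0 := mul_ne_zero hc hJ0
    refine ⟨J, J', fun ρ => if 0 < ρ then ZZ (Y m) h ρ x₀ / (J x₀ : ℂ) else 0, ?_,
      Or.inr hN, ?_⟩
    · exact Measurable.ite measurableSet_Ioi ((ZZ_meas (hY.cont m) hh x₀).div_const _)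
        measurable_const
    · intro ρ r hρ hr
      simp only [if_pos hρ]
      obtain ⟨Z1, hre, him⟩ := h6 n M Y lam h m ρ hn hY hh hρ
      obtain ⟨c1, hc1⟩ := h2 _ _ _ J J' hν hre hN.sol ⟨x₀, hJx⟩
      obtain ⟨c2, hc2⟩ := h2 _ _ _ J J' hν him hN.sol ⟨x₀, hJx⟩
      have key : ∀ x, ZZ (Y m) h ρ x = ((c1 : ℂ) + c2 * Complex.I) * (J x : ℂ) := by
        intro x
        have e1 := (hc1 x).1
        have e2 := (hc2 x).1
        apply Complex.ext
        · simp only [Complex.mul_re, Complex.add_re, Complex.ofReal_re, Complex.ofReal_im,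
            Complex.mul_im, Complex.I_re, Complex.I_im, Complex.add_im]
          rw [e1]
          ring
        · simp only [Complex.mul_re, Complex.add_re, Complex.ofReal_re, Complex.ofReal_im,
            Complex.mul_im, Complex.I_re, Complex.I_im, Complex.add_im]
          rw [e2]
          ring
      rw [← ZZ_log hρ hr, key, key x₀]
      have : (J x₀ : ℂ) ≠ 0 := by exact_mod_cast hJx
      field_simp

/-- energy of one eigenfunction -/
lemma energy (h1 : T_SEQ) (h4 : T_QID) (h5 : T_ENR) (hn : 2 ≤ n) {Y h : E n → ℂ} {ν : ℝ}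
    (hν : 0 ≤ ν) {J J' : ℝ → ℝ} {G : ℝ → ℂ} (hN : (∀ ρ, G ρ = 0) ∨ NSol ν J J')
    (hG : ∀ ρ r, 0 < ρ → 0 < r → ((r ^ (((n : ℝ) - 2) / 2) : ℝ) : ℂ) * co Y h ρ r =
      G ρ * J (Real.log (2 * Real.pi * r * ρ))) {T : ℝ} (hT : 0 < T) :
    (∫⁻ ρ in Ici (Real.exp (xc ν + 1) / (2 * Real.pi) / T), ‖G ρ‖ₑ ^ 2 *
        ENNReal.ofReal ρ⁻¹) * ENNReal.ofReal (T / (16 * Real.pi)) ≤
      ∫⁻ ρ in Ioi (0 : ℝ), ∫⁻ r in Ioc 0 T,
        ENNReal.ofReal (r ^ (n - 1)) * ‖co Y h ρ r‖ₑ ^ 2 := by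
  rcases hN with h0 | hN
  · simp [h0]
  have hsub : Ici (Real.exp (xc ν + 1) / (2 * Real.pi) / T) ⊆ Ioi (0 : ℝ) := by
    intro ρ hρ
    exact lt_of_lt_of_le (by positivity) (mem_Ici.mp hρ)
  rw [← lintegral_mul_const' _ _ ENNReal.ofReal_ne_top]
  refine le_trans ?_ (lintegral_mono_set hsub)
  refine setLIntegral_mono' measurableSet_Ici fun ρ hρ => ?_
  have hρ0 : 0 < ρ := hsub hρ
  have hX : xc ν + 1 ≤ Real.log (2 * Real.pi * T * ρ) := by
    rw [Real.le_log_iff_exp_le (by positivity)]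
    rw [mem_Ici, div_div, div_le_iff₀ (by positivity)] at hρ
    calc Real.exp (xc ν + 1) ≤ _ := hρ
      _ = _ := by ring
  have hlow := lower h1 h4 h5 hν hN hρ0 hT hX
  have e1 : ∫⁻ r in Ioc 0 T, ENNReal.ofReal (r ^ (n - 1)) * ‖co Y h ρ r‖ₑ ^ 2 =
      ‖G ρ‖ₑ ^ 2 *
        ∫⁻ r in Ioc 0 T, ENNReal.ofReal (r * J (Real.log (2 * Real.pi * r * ρ)) ^ 2) := by
    rw [← lintegral_const_mul' _ _ (by finiteness)]
    refine setLIntegral_congr_fun measurableSet_Ioc fun r hr => ?_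
    have hr0 : 0 < r := hr.1
    have h7 := hG ρ r hρ0 hr0
    have h8 : ‖((r ^ (((n : ℝ) - 2) / 2) : ℝ) : ℂ) * co Y h ρ r‖ₑ ^ 2 =
        ENNReal.ofReal (r ^ (n - 2)) * ‖co Y h ρ r‖ₑ ^ 2 := by
      rw [enorm_mul, mul_pow]
      congr 1
      rw [← ofReal_norm, Complex.norm_real, Real.norm_of_nonneg (by positivity),
        ← ENNReal.ofReal_pow (by positivity)]
      congr 1
      rw [← Real.rpow_natCast, ← Real.rpow_mul hr0.le, ← Real.rpow_natCast]
      congr 1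
      rw [Nat.cast_sub hn]
      push_cast
      ring
    have h9 : ENNReal.ofReal (r ^ (n - 1)) = ENNReal.ofReal r * ENNReal.ofReal (r ^ (n - 2)) := by
      rw [← ENNReal.ofReal_mul hr0.le, ← pow_succ']
      congr 2
      omega
    rw [h9, mul_assoc, ← h8, h7, enorm_mul, mul_pow, ENNReal.ofReal_mul hr0.le]
    have h10 : ‖((J (Real.log (2 * Real.pi * r * ρ)) : ℝ) : ℂ)‖ₑ ^ 2 =
        ENNReal.ofReal (J (Real.log (2 * Real.pi * r * ρ)) ^ 2) := by
      rw [← ofReal_norm, Complex.norm_real, ← ENNReal.ofReal_pow (norm_nonneg _),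
        Real.norm_eq_abs, sq_abs]
    rw [h10]
    ring
  rw [e1, mul_assoc]
  gcongr
  refine le_trans (le_of_eq ?_) hlow
  rw [← ENNReal.ofReal_mul (by positivity)]
  congr 1
  field_simp

end GM_

open GM_ in
theorem p_GM (h1 : T_SEQ) (h2 : T_UNI) (h3 : T_NRM) (h4 : T_QID) (h5 : T_ENR) (h6 : T_ODEN)
    (h7 : T_AHT) (h8 : T_POLN) : T_GM := by
  intro n hn
  obtain ⟨CA, hCA⟩ := h7 n hn
  refine ⟨CA * Real.toNNReal (16 * Real.pi), ?_⟩
  intro M Y lam h hY hh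
  choose J J' G hGm hN hG using fun m => single h1 h2 h3 h6 hn hY hh m
  refine ⟨J, J', G, hGm, hN, hG, ?_⟩
  set a : Fin M → ℝ := fun m => Real.exp (xc (nu n (lam m)) + 1) / (2 * Real.pi) with ha
  have hapos : ∀ m, 0 < a m := fun m => by
    simp only [ha]
    positivity
  have hT : ∀ T : ℝ, 0 < T →
      ∑ m, ∫⁻ ρ in Ici (a m / T), ‖G m ρ‖ₑ ^ 2 * ENNReal.ofReal ρ⁻¹ ≤
      ((CA * Real.toNNReal (16 * Real.pi) : ℝ≥0) : ℝ≥0∞) * ∫⁻ ξ, ‖h ξ‖ₑ ^ 2 := by
    intro T hT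
    have hb : ENNReal.ofReal (T / (16 * Real.pi)) ≠ 0 := by
      rw [Ne, ENNReal.ofReal_eq_zero, not_le]
      positivity
    have e1 : (∑ m, ∫⁻ ρ in Ici (a m / T), ‖G m ρ‖ₑ ^ 2 * ENNReal.ofReal ρ⁻¹) *
        ENNReal.ofReal (T / (16 * Real.pi)) ≤ CA * ENNReal.ofReal T * ∫⁻ ξ, ‖h ξ‖ₑ ^ 2 := by
      rw [Finset.sum_mul]
      calc _ ≤ ∑ m, ∫⁻ ρ in Ioi (0 : ℝ), ∫⁻ r in Ioc 0 T,
            ENNReal.ofReal (r ^ (n - 1)) * ‖co (Y m) h ρ r‖ₑ ^ 2 :=
            Finset.sum_le_sum fun m _ =>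
              energy h1 h4 h5 hn (Real.sqrt_nonneg _) (hN m) (hG m) hT
        _ ≤ ∫⁻ ρ in Ioi (0 : ℝ), ∑ m, ∫⁻ r in Ioc 0 T,
            ENNReal.ofReal (r ^ (n - 1)) * ‖co (Y m) h ρ r‖ₑ ^ 2 := sum_lintegral_le _ _ _
        _ ≤ ∫⁻ ρ in Ioi (0 : ℝ), ∫⁻ x in Metric.closedBall (0 : E n) T, ‖SH h ρ x‖ₑ ^ 2 :=
            lintegral_mono fun ρ => partD h8 hn hY hh ρ T
        _ ≤ _ := hCA T h hT hh.measurable
    have e2 : ENNReal.ofReal T =
        (Real.toNNReal (16 * Real.pi) : ℝ≥0∞) * ENNReal.ofReal (T / (16 * Real.pi)) := by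
      rw [← ENNReal.ofReal, ← ENNReal.ofReal_mul (by positivity)]
      congr 1
      field_simp
    rw [← ENNReal.mul_le_mul_iff_left hb ENNReal.ofReal_ne_top]
    refine e1.trans (le_of_eq ?_)
    rw [e2]
    push_cast
    ring
  have hmono : ∀ m, Monotone (fun k : ℕ => Ici (a m / ((k : ℝ) + 1))) := by
    intro m i j hij
    apply Ici_subset_Ici.mpr
    have := hapos m
    have hij' : (i : ℝ) ≤ j := by exact_mod_cast hij
    gcongr
  have hU : ∀ m, Ioi (0 : ℝ) = ⋃ k : ℕ, Ici (a m / ((k : ℝ) + 1)) := by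
    intro m
    ext ρ
    simp only [mem_Ioi, mem_iUnion, mem_Ici]
    constructor
    · intro hρ
      obtain ⟨k, hk⟩ := exists_nat_gt (a m / ρ)
      refine ⟨k, ?_⟩
      rw [div_le_iff₀ (by positivity)]
      rw [div_lt_iff₀ hρ] at hk
      nlinarith
    · rintro ⟨k, hk⟩
      exact lt_of_lt_of_le (div_pos (hapos m) (by positivity)) hk
  have hsup : ∀ m, ∫⁻ ρ in Ioi (0 : ℝ), ‖G m ρ‖ₑ ^ 2 * ENNReal.ofReal ρ⁻¹ =
      ⨆ k : ℕ, ∫⁻ ρ in Ici (a m / ((k : ℝ) + 1)), ‖G m ρ‖ₑ ^ 2 * ENNReal.ofReal ρ⁻¹ := by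
    intro m
    conv_lhs => rw [hU m]
    exact setLIntegral_iUnion_of_directed _ (hmono m).directed_le
  simp only [hsup]
  rw [ENNReal.finsetSum_iSup_of_monotone]
  · exact iSup_le fun k => hT _ (by positivity)
  · intro m i j hij
    exact lintegral_mono_set (hmono m hij)

end Pool.Agent.CRR
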