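import Pool.Agent.CRR.Targets
import Pool.Agent.H25.Plancherel

set_option autoImplicit false

/-!
# CRR: the Carleson theorem for the Hankel transform, uniformly in the order (target HANK)
-/

namespace Pool.Agent.CRR

open MeasureTheory FourierTransform Set Filter Topology
open scoped ENNReal NNReal ComplexConjugate
open Pool.Agent.CAR (e1)
open Pool.Agent.CRN (T_CARLS)

namespace HANK_

/-! ### general facts -/

theorem two (a b : ℝ≥0∞) : (a + b) ^ 2 ≤ 2 * a ^ 2 + 2 * b ^ 2 := by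
  rcases eq_or_ne a ⊤ with rfl | ha
  · simp
  rcases eq_or_ne b ⊤ with rfl | hb
  · simp
  lift a to ℝ≥0 using ha
  lift b to ℝ≥0 using hb
  norm_cast
  rw [← NNReal.coe_le_coe]
  push_cast
  nlinarith [sq_nonneg ((a : ℝ) - b)]

theorem sqrt_sq (X : ℝ≥0∞) : (X ^ (1 / (2 : ℝ))) ^ 2 = X := by
  rw [← ENNReal.rpow_natCast, ← ENNReal.rpow_mul]
  norm_num

theorem sq_sqrt (X : ℝ≥0∞) : (X ^ 2) ^ (1 / (2 : ℝ)) = X := by
  rw [← ENNReal.rpow_natCast, ← ENNReal.rpow_mul]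
  norm_num

theorem le_sqrt {X K : ℝ≥0∞} (h : X ^ 2 ≤ K) : X ≤ K ^ (1 / (2 : ℝ)) := by
  calc X = (X ^ 2) ^ (1 / (2 : ℝ)) := (sq_sqrt X).symm
    _ ≤ _ := ENNReal.rpow_le_rpow h (by norm_num)

theorem cs {α : Type*} [MeasurableSpace α] (μ : Measure α) {f g : α → ℝ≥0∞}
    (hf : AEMeasurable f μ) (hg : AEMeasurable g μ) :
    (∫⁻ x, f x * g x ∂μ) ^ 2 ≤ (∫⁻ x, f x ^ 2 ∂μ) * ∫⁻ x, g x ^ 2 ∂μ := by
  have h := ENNReal.lintegral_mul_le_Lp_mul_Lq μ Real.HolderConjugate.two_two hf hg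
  have e : ∀ F : α → ℝ≥0∞, ∫⁻ x, F x ^ (2 : ℝ) ∂μ = ∫⁻ x, F x ^ 2 ∂μ := fun F =>
    lintegral_congr fun x => by rw [ENNReal.rpow_two]
  rw [e, e] at h
  calc (∫⁻ x, f x * g x ∂μ) ^ 2
      ≤ ((∫⁻ x, f x ^ 2 ∂μ) ^ (1 / (2 : ℝ)) * (∫⁻ x, g x ^ 2 ∂μ) ^ (1 / (2 : ℝ))) ^ 2 := by
        gcongr
        exact h
    _ = _ := by rw [mul_pow, sqrt_sq, sqrt_sq]

/-- Schur's test for a convolution kernel -/
theorem schur {K G : ℝ → ℝ≥0∞} (hK : Measurable K) (hG : Measurable G) :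
    ∫⁻ u, (∫⁻ v, K (u + v) * G v) ^ 2 ≤ (∫⁻ x, K x) ^ 2 * ∫⁻ v, G v ^ 2 := by
  have h1 : ∀ u, (∫⁻ v, K (u + v) * G v) ^ 2 ≤ (∫⁻ x, K x) * ∫⁻ v, K (u + v) * G v ^ 2 := by
    intro u
    have hKu : Measurable fun v => K (u + v) := hK.comp (measurable_const_add u)
    have h2 := cs volume (f := fun v => K (u + v) ^ (1 / (2 : ℝ)))
      (g := fun v => K (u + v) ^ (1 / (2 : ℝ)) * G v) (hKu.pow_const _).aemeasurable
      ((hKu.pow_const _).mul hG).aemeasurable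
    have e1 : ∀ v, K (u + v) ^ (1 / (2 : ℝ)) * (K (u + v) ^ (1 / (2 : ℝ)) * G v) =
        K (u + v) * G v := by
      intro v
      rw [← mul_assoc, ← sq, sqrt_sq]
    have e2 : ∀ v, (K (u + v) ^ (1 / (2 : ℝ)) * G v) ^ 2 = K (u + v) * G v ^ 2 := by
      intro v
      rw [mul_pow, sqrt_sq]
    have e3 : ∀ v, (K (u + v) ^ (1 / (2 : ℝ))) ^ 2 = K (u + v) := fun v => sqrt_sq _
    simp only [e1, e2, e3] at h2
    rwa [lintegral_add_left_eq_self K u] at h2
  calc ∫⁻ u, (∫⁻ v, K (u + v) * G v) ^ 2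
      ≤ ∫⁻ u, (∫⁻ x, K x) * ∫⁻ v, K (u + v) * G v ^ 2 := lintegral_mono h1
    _ = (∫⁻ x, K x) * ∫⁻ u, ∫⁻ v, K (u + v) * G v ^ 2 := by
        rw [lintegral_const_mul]
        refine Measurable.lintegral_prod_right' (f := fun p : ℝ × ℝ => K (p.1 + p.2) * G p.2 ^ 2) ?_
        exact (hK.comp (measurable_fst.add measurable_snd)).mul
          ((hG.comp measurable_snd).pow_const 2)
    _ = (∫⁻ x, K x) * ∫⁻ v, ∫⁻ u, K (u + v) * G v ^ 2 := by
        rw [lintegral_lintegral_swap]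
        exact ((hK.comp (measurable_fst.add measurable_snd)).mul
          ((hG.comp measurable_snd).pow_const 2)).aemeasurable
    _ = (∫⁻ x, K x) * ((∫⁻ x, K x) * ∫⁻ v, G v ^ 2) := by
        congr 1
        rw [← lintegral_const_mul _ (hG.pow_const 2)]
        refine lintegral_congr fun v => ?_
        have hm : Measurable fun u => K (u + v) := hK.comp (measurable_add_const v)
        rw [lintegral_mul_const _ hm, lintegral_add_right_eq_self K v]
    _ = _ := by ring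

/-! ### the truncated integrals -/

/-- The truncated integral -/
noncomputable def T (κ : ℝ → ℂ) (c : ℝ) (g : ℝ → ℂ) (u V1 V2 : ℝ) : ℂ :=
  ∫ v in Ioc V1 V2 ∩ {v | c ≤ u + v}, κ (u + v) * g v

variable {κ : ℝ → ℂ} {c : ℝ} {g : ℝ → ℂ}

theorem set_meas (c u V1 V2 : ℝ) : MeasurableSet (Ioc V1 V2 ∩ {v | c ≤ u + v}) :=
  measurableSet_Ioc.inter (measurableSet_le measurable_const (measurable_const_add u))

theorem T_eq (u V1 V2 : ℝ) :
    T κ c g u V1 V2 = ∫ v in Ioc V1 V2, {v | c ≤ u + v}.indicator (fun v => κ (u + v) * g v) v := by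
  rw [setIntegral_indicator (measurableSet_le measurable_const (measurable_const_add u))]
  rfl

theorem bdd_loc (hκ : Continuous κ) (a b : ℝ) : ∃ M : ℝ, 0 ≤ M ∧ ∀ x ∈ Icc a b, ‖κ x‖ ≤ M := by
  obtain ⟨M, hM⟩ := isCompact_Icc.exists_bound_of_continuousOn (s := Icc a b) (f := κ)
    hκ.continuousOn
  exact ⟨max M 0, le_max_right _ _, fun x hx => (hM x hx).trans (le_max_left _ _)⟩

theorem T_cont (hκ : Continuous κ) (hg : MemLp g 2 volume) (V1 V2 : ℝ) :
    Continuous fun u => T κ c g u V1 V2 := by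
  simp_rw [T_eq]
  rw [continuous_iff_continuousAt]
  intro u0
  obtain ⟨M, hM0, hM⟩ := bdd_loc hκ (u0 - 1 + V1) (u0 + 1 + V2)
  have hgi : IntegrableOn g (Ioc V1 V2) :=
    (hg.restrict (Ioc V1 V2)).integrable (by norm_num)
  refine continuousAt_of_dominated (bound := fun v => M * ‖g v‖) ?_ ?_ ?_ ?_
  · refine Eventually.of_forall fun u => ?_
    refine AEStronglyMeasurable.indicator ?_
      (measurableSet_le measurable_const (measurable_const_add u))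
    exact (hκ.comp (continuous_const.add continuous_id)).aestronglyMeasurable.mul
      hgi.aestronglyMeasurable
  · have h1 : ∀ᶠ u in 𝓝 u0, u ∈ Icc (u0 - 1) (u0 + 1) := Icc_mem_nhds (by linarith) (by linarith)
    filter_upwards [h1] with u hu
    rw [ae_restrict_iff' measurableSet_Ioc]
    refine Eventually.of_forall fun v hv => ?_
    refine (norm_indicator_le_norm_self _ _).trans ?_
    rw [norm_mul]
    refine mul_le_mul_of_nonneg_right (hM _ ⟨?_, ?_⟩) (norm_nonneg _)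
    · linarith [hu.1, hv.1]
    · linarith [hu.2, hv.2]
  · exact hgi.norm.const_mul M
  · have h2 : ∀ᵐ v ∂(volume.restrict (Ioc V1 V2)), v ≠ c - u0 :=
      ae_restrict_of_ae (Measure.ae_ne volume (c - u0))
    filter_upwards [h2] with v hv
    rcases lt_or_gt_of_ne hv with h | h
    · have h3 : ∀ᶠ u in 𝓝 u0, u + v < c :=
        (continuous_id.add continuous_const).tendsto u0 |>.eventually_lt_const
          (show u0 + v < c by linarith)
      refine (continuousAt_const (y := (0 : ℂ))).congr ?_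
      filter_upwards [h3] with u hu
      rw [indicator_of_notMem]
      simpa using hu
    · have h3 : ∀ᶠ u in 𝓝 u0, c < u + v :=
        (continuous_id.add continuous_const).tendsto u0 |>.eventually_const_lt
          (show c < u0 + v by linarith)
      have h4 : ContinuousAt (fun u => κ (u + v) * g v) u0 :=
        ((hκ.comp (continuous_id.add continuous_const)).mul continuous_const).continuousAt
      refine h4.congr ?_
      filter_upwards [h3] with u hu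
      rw [indicator_of_mem]
      exact hu.le

/-- The maximal function -/
noncomputable def TT (κ : ℝ → ℂ) (c : ℝ) (g : ℝ → ℂ) (u : ℝ) : ℝ≥0∞ :=
  ⨆ (V1 : ℝ) (V2 : ℝ), ‖T κ c g u V1 V2‖ₑ

theorem TT_meas (hκ : Continuous κ) (hg : MemLp g 2 volume) : Measurable (TT κ c g) := by
  refine LowerSemicontinuous.measurable ?_
  refine lowerSemicontinuous_iSup fun V1 => lowerSemicontinuous_iSup fun V2 => ?_
  exact (T_cont hκ hg V1 V2).enorm.lowerSemicontinuous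

theorem T_int (hκ : Continuous κ) (hg : MemLp g 2 volume) (u V1 V2 : ℝ) :
    IntegrableOn (fun v => κ (u + v) * g v) (Ioc V1 V2 ∩ {v | c ≤ u + v}) := by
  obtain ⟨M, hM0, hM⟩ := bdd_loc hκ (u + V1) (u + V2)
  have hgi : IntegrableOn g (Ioc V1 V2 ∩ {v | c ≤ u + v}) :=
    ((hg.restrict (Ioc V1 V2)).integrable (by norm_num)).mono_measure
      (Measure.restrict_mono inter_subset_left le_rfl)
  refine hgi.bdd_mul (c := M)
    (hκ.comp (continuous_const.add continuous_id)).aestronglyMeasurable ?_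
  rw [ae_restrict_iff' (set_meas c u V1 V2)]
  refine Eventually.of_forall fun v hv => hM _ ⟨?_, ?_⟩
  · linarith [hv.1.1]
  · linarith [hv.1.2]

theorem T_sub_le (hκ : Continuous κ) (u V1 V2 : ℝ) : ∃ M : ℝ≥0∞, M ≠ ⊤ ∧ ∀ g g' : ℝ → ℂ,
    MemLp g 2 volume → MemLp g' 2 volume →
    ‖T κ c g u V1 V2 - T κ c g' u V1 V2‖ₑ ^ 2 ≤ M * ∫⁻ v, ‖g v - g' v‖ₑ ^ 2 := by
  obtain ⟨M, hM0, hM⟩ := bdd_loc hκ (u + V1) (u + V2)
  refine ⟨∫⁻ v in Ioc V1 V2 ∩ {v | c ≤ u + v}, ‖κ (u + v)‖ₑ ^ 2, ?_, fun g g' hg hg' => ?_⟩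
  · refine ne_of_lt ?_
    calc ∫⁻ v in Ioc V1 V2 ∩ {v | c ≤ u + v}, ‖κ (u + v)‖ₑ ^ 2
        ≤ ∫⁻ v in Ioc V1 V2 ∩ {v | c ≤ u + v}, ENNReal.ofReal M ^ 2 := by
          refine setLIntegral_mono' (set_meas c u V1 V2) fun v hv => ?_
          gcongr
          rw [← ofReal_norm]
          exact ENNReal.ofReal_le_ofReal (hM _ ⟨by linarith [hv.1.1], by linarith [hv.1.2]⟩)
      _ ≤ ∫⁻ v in Ioc V1 V2, ENNReal.ofReal M ^ 2 :=
          lintegral_mono' (Measure.restrict_mono inter_subset_left le_rfl) le_rfl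
      _ < ⊤ := by
          rw [setLIntegral_const, Real.volume_Ioc]
          exact ENNReal.mul_lt_top (ENNReal.pow_lt_top ENNReal.ofReal_lt_top) ENNReal.ofReal_lt_top
  · unfold T
    rw [← integral_sub (T_int hκ hg u V1 V2) (T_int hκ hg' u V1 V2)]
    have e : ∀ v, κ (u + v) * g v - κ (u + v) * g' v = κ (u + v) * (g v - g' v) := fun v => by ring
    simp only [e]
    have hm1 : AEMeasurable (fun v => ‖κ (u + v)‖ₑ)
        (volume.restrict (Ioc V1 V2 ∩ {v | c ≤ u + v})) :=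
      (hκ.comp (continuous_const.add continuous_id)).enorm.aemeasurable
    have hm2 : AEMeasurable (fun v => ‖g v - g' v‖ₑ)
        (volume.restrict (Ioc V1 V2 ∩ {v | c ≤ u + v})) :=
      (hg.aestronglyMeasurable.sub hg'.aestronglyMeasurable).enorm.restrict
    calc ‖∫ v in Ioc V1 V2 ∩ {v | c ≤ u + v}, κ (u + v) * (g v - g' v)‖ₑ ^ 2
        ≤ (∫⁻ v in Ioc V1 V2 ∩ {v | c ≤ u + v}, ‖κ (u + v)‖ₑ * ‖g v - g' v‖ₑ) ^ 2 := by
          gcongr
          refine (enorm_integral_le_lintegral_enorm _).trans (le_of_eq ?_)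
          exact lintegral_congr fun v => enorm_mul _ _
      _ ≤ _ := cs _ hm1 hm2
      _ ≤ _ := by
          refine mul_le_mul_right ?_ _
          exact setLIntegral_le_lintegral _ _

theorem sup_sq_le {ι ι' : Type*} (f : ι → ι' → ℝ≥0∞) (L : ℝ≥0∞) (h : ∀ i j, f i j ^ 2 ≤ L) :
    (⨆ i, ⨆ j, f i j) ^ 2 ≤ L := by
  calc (⨆ i, ⨆ j, f i j) ^ 2 ≤ (L ^ (1 / (2 : ℝ))) ^ 2 := by
        gcongr
        exact iSup_le fun i => iSup_le fun j => le_sqrt (h i j)
    _ = L := sqrt_sq L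

/-- the limit -/
theorem limit (hκ : Continuous κ) (hg : MemLp g 2 volume) (C : ℝ≥0) {G : ℕ → ℝ → ℂ}
    (hG : ∀ n, MemLp (G n) 2 volume)
    (hlim : Tendsto (fun n => ∫⁻ v, ‖g v - G n v‖ₑ ^ 2) atTop (𝓝 0))
    (hb : ∀ n, ∫⁻ u, TT κ c (G n) u ^ 2 ≤ C * ∫⁻ v, ‖G n v‖ₑ ^ 2) :
    ∫⁻ u, TT κ c g u ^ 2 ≤ 2 * C * ∫⁻ v, ‖g v‖ₑ ^ 2 := by
  have h1 : ∀ u, TT κ c g u ^ 2 ≤ liminf (fun n => TT κ c (G n) u ^ 2) atTop := by
    intro u
    refine sup_sq_le _ _ fun V1 V2 => ?_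
    obtain ⟨M, hM, hMb⟩ := T_sub_le (c := c) hκ u V1 V2
    have ht : Tendsto (fun n => T κ c (G n) u V1 V2) atTop (𝓝 (T κ c g u V1 V2)) := by
      rw [tendsto_iff_edist_tendsto_0]
      have h2 : Tendsto (fun n => M * ∫⁻ v, ‖g v - G n v‖ₑ ^ 2) atTop (𝓝 0) := by
        have := ENNReal.Tendsto.const_mul (a := M) hlim (Or.inr hM)
        rwa [mul_zero] at this
      have h3 : Tendsto (fun n => (M * ∫⁻ v, ‖g v - G n v‖ₑ ^ 2) ^ (1 / (2 : ℝ))) atTop (𝓝 0) := by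
        have := h2.ennrpow_const (1 / (2 : ℝ))
        rwa [ENNReal.zero_rpow_of_pos (by norm_num)] at this
      refine tendsto_of_tendsto_of_tendsto_of_le_of_le tendsto_const_nhds h3
        (fun n => zero_le) fun n => ?_
      refine le_sqrt ?_
      rw [edist_comm, edist_eq_enorm_sub]
      exact hMb g (G n) hg (hG n)
    have ht2 : Tendsto (fun n => ‖T κ c (G n) u V1 V2‖ₑ ^ 2) atTop
        (𝓝 (‖T κ c g u V1 V2‖ₑ ^ 2)) := ENNReal.Tendsto.pow ht.enorm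
    rw [← ht2.liminf_eq]
    refine liminf_le_liminf (Eventually.of_forall fun n => ?_)
    gcongr
    exact le_iSup_of_le V1 (le_iSup_of_le V2 le_rfl)
  calc ∫⁻ u, TT κ c g u ^ 2
      ≤ ∫⁻ u, liminf (fun n => TT κ c (G n) u ^ 2) atTop := lintegral_mono h1
    _ ≤ liminf (fun n => ∫⁻ u, TT κ c (G n) u ^ 2) atTop :=
        lintegral_liminf_le fun n => (TT_meas hκ (hG n)).pow_const 2
    _ ≤ liminf (fun n => C * (2 * (∫⁻ v, ‖g v‖ₑ ^ 2) +
        2 * (∫⁻ v, ‖g v - G n v‖ₑ ^ 2))) atTop := by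
        refine liminf_le_liminf (Eventually.of_forall fun n => (hb n).trans ?_)
        gcongr
        rw [← lintegral_const_mul', ← lintegral_const_mul', ← lintegral_add_left']
        · refine lintegral_mono fun v => ?_
          refine le_trans ?_ (two _ _)
          gcongr
          calc ‖G n v‖ₑ = ‖g v - (g v - G n v)‖ₑ := by congr 1; ring
            _ ≤ ‖g v‖ₑ + ‖g v - G n v‖ₑ := enorm_sub_le
        · exact (hg.aestronglyMeasurable.enorm.pow_const 2).const_mul 2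
        · norm_num
        · norm_num
    _ = C * (2 * (∫⁻ v, ‖g v‖ₑ ^ 2) + 2 * 0) := by
        refine Tendsto.liminf_eq ?_
        refine ENNReal.Tendsto.const_mul ?_ (Or.inr ENNReal.coe_ne_top)
        refine Tendsto.const_add _ ?_
        exact ENNReal.Tendsto.const_mul hlim (Or.inr (by norm_num))
    _ = _ := by ring

/-! ### approximation by transforms -/

theorem plancherel {f : ℝ → ℂ} (h1 : Integrable f) (h2 : MemLp f 2) :
    ∫⁻ x, ‖𝓕 f x‖ₑ ^ 2 = ∫⁻ x, ‖f x‖ₑ ^ 2 := by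
  have h := Pool.Agent.H25.Plancherel.eLpNorm_fourier_eq h1 h2
  rw [eLpNorm_eq_lintegral_rpow_enorm_toReal (by norm_num) (by norm_num),
    eLpNorm_eq_lintegral_rpow_enorm_toReal (by norm_num) (by norm_num)] at h
  have key2 := ENNReal.rpow_left_injective (x := 1 / (2 : ℝ≥0∞).toReal) (by norm_num) h
  simpa only [ENNReal.toReal_ofNat, ENNReal.rpow_ofNat] using key2

theorem lint_eq (f : ℝ → ℂ) : ∫⁻ x, ‖f x‖ₑ ^ 2 = eLpNorm f 2 volume ^ 2 := by
  rw [eLpNorm_eq_lintegral_rpow_enorm_toReal (by norm_num) (by norm_num)]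
  simp only [ENNReal.toReal_ofNat, ENNReal.rpow_ofNat]
  rw [sqrt_sq]

theorem fh_eq (H : ℝ → ℂ) : fh H = 𝓕⁻ H := by
  ext v
  rw [Real.fourierInv_eq']
  unfold fh e1
  refine integral_congr_ae (Eventually.of_forall fun s => ?_)
  simp only [smul_eq_mul]
  rw [mul_comm]
  congr 2
  simp only [RCLike.inner_apply, conj_trivial]
  push_cast
  ring

/-- a smooth function with compact support is `fh H` for an admissible `H` -/
theorem smooth {φ : ℝ → ℂ} (h1 : HasCompactSupport φ) (h2 : ContDiff ℝ ((⊤ : ℕ∞) : WithTop ℕ∞) φ) :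
    MemLp φ 2 volume ∧ ∃ H : ℝ → ℂ, HH H ∧ fh H = φ ∧ ∫⁻ s, ‖H s‖ₑ ^ 2 = ∫⁻ v, ‖φ v‖ₑ ^ 2 := by
  let G : SchwartzMap ℝ ℂ := h1.toSchwartzMap h2
  have hG : (G : ℝ → ℂ) = φ := rfl
  have hL : MemLp φ 2 volume := G.memLp 2 volume
  refine ⟨hL, ((𝓕 G : SchwartzMap ℝ ℂ) : ℝ → ℂ), ⟨?_, ?_, ?_⟩, ?_, ?_⟩
  · exact (𝓕 G : SchwartzMap ℝ ℂ).continuous.measurable
  · exact (𝓕 G : SchwartzMap ℝ ℂ).integrable
  · exact ((𝓕 G : SchwartzMap ℝ ℂ).memLp 2 volume).integrable_norm_pow (by norm_num)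
  · rw [fh_eq, ← SchwartzMap.fourierInv_coe, FourierTransform.fourierInv_fourier_eq]
    rfl
  · have := plancherel (f := φ) G.integrable hL
    rw [← this]
    rfl

theorem approx {g : ℝ → ℂ} (hg : MemLp g 2 volume) : ∃ G : ℕ → ℝ → ℂ,
    (∀ n, MemLp (G n) 2 volume ∧ ∃ H : ℝ → ℂ, HH H ∧ fh H = G n ∧
      ∫⁻ s, ‖H s‖ₑ ^ 2 = ∫⁻ v, ‖G n v‖ₑ ^ 2) ∧
    Tendsto (fun n => ∫⁻ v, ‖g v - G n v‖ₑ ^ 2) atTop (𝓝 0) := by
  have h : ∀ n : ℕ, ∃ φ : ℝ → ℂ, HasCompactSupport φ ∧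
      ContDiff ℝ ((⊤ : ℕ∞) : WithTop ℕ∞) φ ∧
      eLpNorm (g - φ) 2 volume ≤ ENNReal.ofReal (1 / ((n : ℝ) + 1)) := fun n =>
    MemLp.exist_eLpNorm_sub_le (by norm_num) (by norm_num) hg (by positivity)
  choose φ h1 h2 h3 using h
  refine ⟨φ, fun n => smooth (h1 n) (h2 n), ?_⟩
  have h4 : Tendsto (fun n : ℕ => ENNReal.ofReal (1 / ((n : ℝ) + 1)) ^ 2) atTop (𝓝 0) := by
    have h5 : Tendsto (fun n : ℕ => ENNReal.ofReal (1 / ((n : ℝ) + 1))) atTop (𝓝 0) := by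
      have := ENNReal.tendsto_ofReal (tendsto_one_div_add_atTop_nhds_zero_nat (𝕜 := ℝ))
      rwa [ENNReal.ofReal_zero] at this
    have := ENNReal.Tendsto.pow (n := 2) h5
    rwa [zero_pow (by norm_num)] at this
  refine tendsto_of_tendsto_of_tendsto_of_le_of_le tendsto_const_nhds h4 (fun n => zero_le)
    fun n => ?_
  have := lint_eq (g - φ n)
  simp only [Pi.sub_apply] at this
  rw [this]
  gcongr
  exact h3 n

/-! ### the two parts -/

theorem kap_cont {ν : ℝ} {J J' : ℝ → ℝ} (hJ : Sol ν J J') : Continuous (kap J) := by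
  have h : Continuous J := continuous_iff_continuousAt.2 fun x => (hJ.d1 x).continuousAt
  unfold kap
  fun_prop

/-- the kernel before `c` -/
noncomputable def KK (κ : ℝ → ℂ) (c x : ℝ) : ℝ≥0∞ := (Iic c).indicator (fun x => ‖κ x‖ₑ) x

theorem KK_meas (hκ : Continuous κ) (c : ℝ) : Measurable (KK κ c) :=
  hκ.enorm.measurable.indicator measurableSet_Iic

theorem point (g : ℝ → ℂ) (u V : ℝ) :
    ‖∫ v in Iic V, κ (u + v) * g v‖ₑ ≤ (∫⁻ v, KK κ c (u + v) * ‖g v‖ₑ) + TT κ c g u := by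
  by_cases hi : IntegrableOn (fun v => κ (u + v) * g v) (Iic V)
  · have hms : MeasurableSet {v | c ≤ u + v} :=
      measurableSet_le measurable_const (measurable_const_add u)
    rw [← integral_inter_add_sdiff hms hi, add_comm]
    refine (enorm_add_le _ _).trans (add_le_add ?_ ?_)
    · refine (enorm_integral_le_lintegral_enorm _).trans ?_
      rw [← lintegral_indicator (measurableSet_Iic.diff hms)]
      refine lintegral_mono fun v => ?_
      by_cases hv : v ∈ Iic V \ {v | c ≤ u + v}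
      · rw [indicator_of_mem hv, enorm_mul]
        unfold KK
        rw [indicator_of_mem]
        have hv2 : ¬ c ≤ u + v := hv.2
        exact (not_le.1 hv2).le
      · rw [indicator_of_notMem hv]
        exact zero_le
    · have e : Iic V ∩ {v | c ≤ u + v} = Ioc (c - u - 1) V ∩ {v | c ≤ u + v} := by
        ext v
        simp only [mem_inter_iff, mem_Iic, mem_Ioc, Set.mem_ofPred_eq]
        constructor
        · rintro ⟨h1, h2⟩
          exact ⟨⟨by linarith, h1⟩, h2⟩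
        · rintro ⟨⟨-, h1⟩, h2⟩
          exact ⟨h1, h2⟩
      rw [e]
      exact le_iSup_of_le (c - u - 1) (le_iSup_of_le V le_rfl)
  · rw [integral_undef hi, enorm_zero]
    exact zero_le

end HANK_

open HANK_ in
/-- HANK. -/
theorem p_HANK (h1 : T_LOW) (h2 : T_HI) : T_HANK := by
  intro hCar
  obtain ⟨C1, hC1⟩ := h1
  obtain ⟨C2, hC2⟩ := h2 hCar
  refine ⟨2 * C1 ^ 2 + 4 * C2 + 1, fun ν J J' g hν hJ hg => ?_⟩
  have hκ := kap_cont hJ.sol
  by_cases hfin : ∫⁻ v, ‖g v‖ₑ ^ 2 = ⊤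
  · rw [hfin, ENNReal.mul_top]
    · exact le_top
    · push_cast
      positivity
  have hgL : MemLp g 2 volume := by
    refine ⟨hg.aestronglyMeasurable, ?_⟩
    rw [lint_eq] at hfin
    exact lt_top_iff_ne_top.2 fun h0 => hfin (by rw [h0]; simp)
  obtain ⟨G, hG, hlim⟩ := approx hgL
  have hT : ∫⁻ u, TT (kap J) (xc ν) g u ^ 2 ≤ 2 * C2 * ∫⁻ v, ‖g v‖ₑ ^ 2 := by
    refine limit hκ hgL C2 (fun n => (hG n).1) hlim fun n => ?_
    obtain ⟨H, hH, hH1, hH2⟩ := (hG n).2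
    have := hC2 ν J J' H hν hJ hH
    rw [hH1, hH2] at this
    exact this
  have hS : ∫⁻ u, (∫⁻ v, KK (kap J) (xc ν) (u + v) * ‖g v‖ₑ) ^ 2 ≤
      C1 ^ 2 * ∫⁻ v, ‖g v‖ₑ ^ 2 := by
    refine (schur (KK_meas hκ (xc ν)) hg.enorm).trans ?_
    gcongr
    unfold KK
    rw [lintegral_indicator measurableSet_Iic]
    exact hC1 ν J J' hν hJ
  have hm : Measurable fun u => ∫⁻ v, KK (kap J) (xc ν) (u + v) * ‖g v‖ₑ := by
    refine Measurable.lintegral_prod_right'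
      (f := fun p : ℝ × ℝ => KK (kap J) (xc ν) (p.1 + p.2) * ‖g p.2‖ₑ) ?_
    exact ((KK_meas hκ (xc ν)).comp (measurable_fst.add measurable_snd)).mul
      (hg.comp measurable_snd).enorm
  calc ∫⁻ u, (⨆ V : ℝ, ‖∫ v in Iic V, kap J (u + v) * g v‖ₑ) ^ 2
      ≤ ∫⁻ u, (2 * (∫⁻ v, KK (kap J) (xc ν) (u + v) * ‖g v‖ₑ) ^ 2 +
          2 * TT (kap J) (xc ν) g u ^ 2) := by
        refine lintegral_mono fun u => le_trans ?_ (two _ _)
        gcongr
        exact iSup_le fun V => point g u V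
    _ = 2 * (∫⁻ u, (∫⁻ v, KK (kap J) (xc ν) (u + v) * ‖g v‖ₑ) ^ 2) +
          2 * (∫⁻ u, TT (kap J) (xc ν) g u ^ 2) := by
        rw [lintegral_add_left ((hm.pow_const 2).const_mul 2),
          lintegral_const_mul' _ _ (by norm_num), lintegral_const_mul' _ _ (by norm_num)]
    _ ≤ 2 * (C1 ^ 2 * ∫⁻ v, ‖g v‖ₑ ^ 2) + 2 * (2 * C2 * ∫⁻ v, ‖g v‖ₑ ^ 2) := by
        gcongr
    _ = ((2 * C1 ^ 2 + 4 * C2 : ℝ≥0) : ℝ≥0∞) * ∫⁻ v, ‖g v‖ₑ ^ 2 := by
        push_cast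
        ring
    _ ≤ _ := by
        refine mul_le_mul_left (ENNReal.coe_le_coe.2 ?_) _
        exact le_self_add


end Pool.Agent.CRR
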