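import Pool.Agent.CRR.Targets

set_option autoImplicit false

/-!
# CRR: HI: the oscillatory region
-/

namespace Pool.Agent.CRR

open MeasureTheory FourierTransform Set Filter Topology
open scoped ENNReal NNReal ComplexConjugate
open Pool.Agent.CAR (e1)
open Pool.Agent.CRN (T_CARLS)

namespace HI_

lemma e1_cont : Continuous e1 := by
  unfold e1
  fun_prop

lemma e1_norm (x : ℝ) : ‖e1 x‖ = 1 := by
  unfold e1
  rw [show (2 : ℂ) * Real.pi * Complex.I * (x : ℂ) = ((2 * Real.pi * x : ℝ) : ℂ) * Complex.I by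
    push_cast; ring]
  exact Complex.norm_exp_ofReal_mul_I _

lemma fh_cont {H : ℝ → ℂ} (hH : Integrable H) : Continuous (fh H) := by
  unfold fh
  refine continuous_of_dominated (bound := fun s => ‖H s‖) ?_ ?_ hH.norm ?_
  · intro v
    exact hH.1.mul (e1_cont.comp (by fun_prop)).aestronglyMeasurable
  · intro v
    refine Eventually.of_forall fun s => ?_
    rw [norm_mul, e1_norm, mul_one]
  · refine Eventually.of_forall fun s => ?_
    exact continuous_const.mul (e1_cont.comp (by fun_prop))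

lemma kap_cont {ν : ℝ} {J J' : ℝ → ℝ} (h : Sol ν J J') : Continuous (kap J) := by
  have hJ : Continuous J := continuous_iff_continuousAt.2 fun x => (h.d1 x).continuousAt
  unfold kap
  fun_prop

/-- the integrand -/
lemma int_on {κ h : ℝ → ℂ} (hκ : Continuous κ) (hh : Continuous h) (u V1 V2 : ℝ) (s : Set ℝ) :
    IntegrableOn (fun v => κ (u + v) * h v) (Ioc V1 V2 ∩ s) := by
  have hc : Continuous (fun v => κ (u + v) * h v) := by fun_prop
  exact ((hc.integrableOn_Icc (a := V1) (b := V2)).mono_set Ioc_subset_Icc_self).mono_set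
    inter_subset_left

lemma meas_strip (u a b : ℝ) : MeasurableSet {v : ℝ | u + v ∈ Ico a b} :=
  measurableSet_Ico.preimage (measurable_const_add u)

/-- decomposition into strips -/
lemma decomp {κ h : ℝ → ℂ} (hκ : Continuous κ) (hh : Continuous h) {a d : ℕ → ℝ}
    (had : ∀ k, a (k + 1) = a k + d k) (hd : ∀ k, 0 < d k) (u V1 V2 : ℝ) (n : ℕ) :
    ∫ v in Ioc V1 V2 ∩ {v | u + v ∈ Ico (a 0) (a n)}, κ (u + v) * h v =
      ∑ k ∈ Finset.range n, FS κ (a k) (d k) h u V1 V2 := by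
  induction n with
  | zero => simp
  | succ n ih =>
    have hmono : StrictMono a := strictMono_nat_of_lt_succ fun k => by rw [had]; linarith [hd k]
    have hset : Ioc V1 V2 ∩ {v | u + v ∈ Ico (a 0) (a (n + 1))} =
        (Ioc V1 V2 ∩ {v | u + v ∈ Ico (a 0) (a n)}) ∪
          (Ioc V1 V2 ∩ {v | u + v ∈ Ico (a n) (a n + d n)}) := by
      rw [← inter_union_distrib_left, had]
      congr 1
      ext v
      simp only [mem_ofPred_eq, mem_union, mem_Ico]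
      have h0 : a 0 ≤ a n := hmono.monotone (Nat.zero_le n)
      have h1 := hd n
      constructor
      · rintro ⟨h2, h3⟩
        rcases lt_or_ge (u + v) (a n) with h4 | h4
        · exact Or.inl ⟨h2, h4⟩
        · exact Or.inr ⟨h4, h3⟩
      · rintro (⟨h2, h3⟩ | ⟨h2, h3⟩)
        · exact ⟨h2, by linarith⟩
        · exact ⟨by linarith, h3⟩
    rw [hset, setIntegral_union, ih, Finset.sum_range_succ]
    · rfl
    · refine Disjoint.mono inter_subset_right inter_subset_right ?_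
      rw [Set.disjoint_left]
      rintro v ⟨_, h1⟩ ⟨h2, _⟩
      exact absurd h1 (not_lt.2 h2)
    · exact measurableSet_Ioc.inter (meas_strip _ _ _)
    · exact int_on hκ hh _ _ _ _
    · exact int_on hκ hh _ _ _ _

/-- strips which do not meet the interval -/
lemma fs_left {κ h : ℝ → ℂ} {a d u V1 V2 : ℝ} (h1 : a + d ≤ u + V1) :
    FS κ a d h u V1 V2 = 0 := by
  unfold FS
  have : Ioc V1 V2 ∩ {v | u + v ∈ Ico a (a + d)} = ∅ := by
    rw [Set.eq_empty_iff_forall_notMem]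
    rintro v ⟨⟨h2, _⟩, ⟨_, h3⟩⟩
    linarith
  rw [this]
  simp

lemma fs_full {κ h : ℝ → ℂ} {a d u V1 V2 : ℝ} (h1 : u + V1 < a) (h2 : a + d ≤ u + V2) :
    FS κ a d h u V1 V2 = FA κ a d h u := by
  unfold FS FA
  have : Ioc V1 V2 ∩ {v | u + v ∈ Ico a (a + d)} = {v | u + v ∈ Ico a (a + d)} := by
    rw [inter_eq_right]
    rintro v ⟨h3, h4⟩
    exact ⟨by linarith, by linarith⟩
  rw [this]

/-- the pointwise bound, before squaring -/
lemma pw {κ h : ℝ → ℂ} (hκ : Continuous κ) (hh : Continuous h) {a d : ℕ → ℝ}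
    (had : ∀ k, a (k + 1) = a k + d k) (hd : ∀ k, 0 < d k) (hinf : Tendsto a atTop atTop)
    (u V1 V2 : ℝ) :
    ∃ m1 m2 : ℕ, ∃ n1 n2 : ℕ,
      ‖∫ v in Ioc V1 V2 ∩ {v | a 0 ≤ u + v}, κ (u + v) * h v‖ₑ ≤
      ‖FS κ (a m1) (d m1) h u V1 V2‖ₑ + ‖FS κ (a m2) (d m2) h u V1 V2‖ₑ +
        (‖∑ k ∈ Finset.range n1, FA κ (a k) (d k) h u‖ₑ +
          ‖∑ k ∈ Finset.range n2, FA κ (a k) (d k) h u‖ₑ) := by
  classical
  have hmono : StrictMono a := strictMono_nat_of_lt_succ fun k => by rw [had]; linarith [hd k]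
  have hex : ∀ x : ℝ, ∃ n, x < a n := fun x => (hinf.eventually_gt_atTop x).exists
  -- first indices beyond the end points
  obtain ⟨n2, hn2, hn2'⟩ : ∃ n, u + V2 < a n ∧ ∀ k < n, a k ≤ u + V2 :=
    ⟨Nat.find (hex _), Nat.find_spec (hex _), fun k hk => not_lt.1 (Nat.find_min (hex _) hk)⟩
  obtain ⟨n1, hn1, hn1'⟩ : ∃ n, u + V1 < a n ∧ ∀ k < n, a k ≤ u + V1 :=
    ⟨Nat.find (hex _), Nat.find_spec (hex _), fun k hk => not_lt.1 (Nat.find_min (hex _) hk)⟩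
  have hset : Ioc V1 V2 ∩ {v | a 0 ≤ u + v} = Ioc V1 V2 ∩ {v | u + v ∈ Ico (a 0) (a n2)} := by
    ext v
    simp only [mem_inter_iff, mem_Ioc, mem_ofPred_eq, mem_Ico]
    constructor
    · rintro ⟨⟨h1, h2⟩, h3⟩
      exact ⟨⟨h1, h2⟩, h3, by linarith⟩
    · rintro ⟨⟨h1, h2⟩, h3, _⟩
      exact ⟨⟨h1, h2⟩, h3⟩
  rw [hset, decomp hκ hh had hd]
  rcases Nat.eq_zero_or_pos n2 with h0 | h0
  · refine ⟨0, 0, 0, 0, ?_⟩
    subst h0
    simp
  obtain ⟨m2, rfl⟩ : ∃ m, n2 = m + 1 := ⟨n2 - 1, by omega⟩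
  rw [Finset.sum_range_succ]
  have hzero : ∀ k, k + 1 < n1 → FS κ (a k) (d k) h u V1 V2 = 0 := fun k hk =>
    fs_left (by rw [← had]; exact hn1' _ hk)
  have hfull : ∀ k, n1 ≤ k → k < m2 → FS κ (a k) (d k) h u V1 V2 = FA κ (a k) (d k) h u := by
    intro k hk hk'
    refine fs_full (lt_of_lt_of_le hn1 (hmono.monotone hk)) ?_
    rw [← had]
    exact hn2' _ (by omega)
  rcases le_or_gt m2 n1 with h1 | h1
  · -- all strips before `m2` vanish, except possibly the strip `n1 - 1`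
    rcases Nat.eq_zero_or_pos m2 with h2 | h2
    · refine ⟨0, m2, 0, 0, ?_⟩
      subst h2
      simp
    · refine ⟨m2 - 1, m2, 0, 0, ?_⟩
      obtain ⟨m, rfl⟩ : ∃ m, m2 = m + 1 := ⟨m2 - 1, by omega⟩
      rw [Finset.sum_range_succ, Finset.sum_eq_zero, zero_add]
      · simp only [Nat.add_sub_cancel, Finset.range_zero, Finset.sum_empty, enorm_zero, add_zero]
        exact enorm_add_le _ _
      · intro k hk
        rw [Finset.mem_range] at hk
        exact hzero k (by omega)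
  · refine ⟨n1 - 1, m2, m2, n1, ?_⟩
    have hsplit : ∑ k ∈ Finset.range m2, FS κ (a k) (d k) h u V1 V2 =
        ∑ k ∈ Finset.range n1, FS κ (a k) (d k) h u V1 V2 +
          (∑ k ∈ Finset.range m2, FA κ (a k) (d k) h u -
            ∑ k ∈ Finset.range n1, FA κ (a k) (d k) h u) := by
      rw [← Finset.sum_range_add_sum_Ico _ h1.le, ← Finset.sum_Ico_eq_sub _ h1.le]
      congr 1
      refine Finset.sum_congr rfl fun k hk => ?_
      rw [Finset.mem_Ico] at hk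
      exact hfull k hk.1 hk.2
    have hfirst : ‖∑ k ∈ Finset.range n1, FS κ (a k) (d k) h u V1 V2‖ₑ ≤
        ‖FS κ (a (n1 - 1)) (d (n1 - 1)) h u V1 V2‖ₑ := by
      rcases Nat.eq_zero_or_pos n1 with h2 | h2
      · subst h2
        simp
      · obtain ⟨m, rfl⟩ : ∃ m, n1 = m + 1 := ⟨n1 - 1, by omega⟩
        rw [Finset.sum_range_succ, Finset.sum_eq_zero, zero_add]
        · simp
        · intro k hk
          rw [Finset.mem_range] at hk
          exact hzero k (by omega)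
    rw [hsplit]
    calc ‖∑ k ∈ Finset.range n1, FS κ (a k) (d k) h u V1 V2 +
          (∑ k ∈ Finset.range m2, FA κ (a k) (d k) h u -
            ∑ k ∈ Finset.range n1, FA κ (a k) (d k) h u) + FS κ (a m2) (d m2) h u V1 V2‖ₑ
        ≤ ‖∑ k ∈ Finset.range n1, FS κ (a k) (d k) h u V1 V2 +
          (∑ k ∈ Finset.range m2, FA κ (a k) (d k) h u -
            ∑ k ∈ Finset.range n1, FA κ (a k) (d k) h u)‖ₑ +
            ‖FS κ (a m2) (d m2) h u V1 V2‖ₑ := enorm_add_le _ _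
      _ ≤ (‖∑ k ∈ Finset.range n1, FS κ (a k) (d k) h u V1 V2‖ₑ +
          ‖∑ k ∈ Finset.range m2, FA κ (a k) (d k) h u -
            ∑ k ∈ Finset.range n1, FA κ (a k) (d k) h u‖ₑ) +
            ‖FS κ (a m2) (d m2) h u V1 V2‖ₑ := by gcongr; exact enorm_add_le _ _
      _ ≤ (‖FS κ (a (n1 - 1)) (d (n1 - 1)) h u V1 V2‖ₑ +
          (‖∑ k ∈ Finset.range m2, FA κ (a k) (d k) h u‖ₑ +
            ‖∑ k ∈ Finset.range n1, FA κ (a k) (d k) h u‖ₑ)) +
            ‖FS κ (a m2) (d m2) h u V1 V2‖ₑ := by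
          gcongr
          exact enorm_sub_le
      _ = _ := by ring

lemma sq2 (p q : ℝ≥0∞) : (p + q) ^ 2 ≤ 2 * (p ^ 2 + q ^ 2) := by
  rcases eq_or_ne p ⊤ with rfl | hp
  · simp
  rcases eq_or_ne q ⊤ with rfl | hq
  · simp
  lift p to ℝ≥0 using hp
  lift q to ℝ≥0 using hq
  exact_mod_cast add_sq_le (a := p) (b := q)

lemma sq4 (x y z w : ℝ≥0∞) : (x + y + (z + w)) ^ 2 ≤ 4 * (x ^ 2 + y ^ 2 + (z ^ 2 + w ^ 2)) := by
  calc (x + y + (z + w)) ^ 2 ≤ 2 * ((x + y) ^ 2 + (z + w) ^ 2) := sq2 _ _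
    _ ≤ 2 * (2 * (x ^ 2 + y ^ 2) + 2 * (z ^ 2 + w ^ 2)) := by
        gcongr
        · exact sq2 _ _
        · exact sq2 _ _
    _ = _ := by ring

/-- squares of suprema -/
lemma sup_sq {ι : Type*} (f : ι → ℝ≥0∞) (B : ℝ≥0∞) (h : ∀ i, f i ^ 2 ≤ B) :
    (⨆ i, f i) ^ 2 ≤ B := by
  have h1 : ∀ x : ℝ≥0∞, x ^ 2 ≤ B ↔ x ≤ B ^ (2 : ℝ)⁻¹ := by
    intro x
    rw [ENNReal.le_rpow_inv_iff (by norm_num)]
    norm_num
  rw [h1]
  exact iSup_le fun i => (h1 _).1 (h i)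

lemma fa_meas {κ h : ℝ → ℂ} (hκ : Continuous κ) (hh : Continuous h) (a d : ℝ) :
    Measurable (FA κ a d h) := by
  have h1 : FA κ a d h = fun u => ∫ v, ({p : ℝ × ℝ | p.1 + p.2 ∈ Ico a (a + d)}.indicator
      (fun p => κ (p.1 + p.2) * h p.2)) (u, v) := by
    ext u
    unfold FA
    rw [← integral_indicator (meas_strip _ _ _)]
    rfl
  have h2 : StronglyMeasurable ({p : ℝ × ℝ | p.1 + p.2 ∈ Ico a (a + d)}.indicator
      (fun p => κ (p.1 + p.2) * h p.2)) := by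
    refine StronglyMeasurable.indicator ?_ ?_
    · exact Continuous.stronglyMeasurable (by fun_prop)
    · exact measurableSet_Ico.preimage (by fun_prop)
  rw [h1]
  exact (h2.integral_prod_right').measurable

end HI_

theorem p_HI (h1 : T_SEQ) (h2 : T_PART) (h3 : T_TAIL) : T_HI := by
  intro hC
  obtain ⟨C2, hC2⟩ := h2 hC
  obtain ⟨C3, hC3⟩ := h3 hC
  refine ⟨8 * C2 + 8 * C3, fun ν J J' H hν hN hH => ?_⟩
  obtain ⟨-, hinf, hk⟩ := h1 ν hν
  have had : ∀ k, aa ν (k + 1) = aa ν k + de ν k := fun k => (hk k).2.2.2.1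
  have hd : ∀ k, 0 < de ν k := fun k => (hk k).2.1
  have hκ := HI_.kap_cont hN.sol
  have hh := HI_.fh_cont hH.int
  have e2 := hC2 ν J J' H hν hN hH
  have e3 := hC3 ν J J' H hν hN hH
  set S : ℕ → ℝ → ℝ≥0∞ := fun k u =>
    ⨆ (V1 : ℝ) (V2 : ℝ), ‖FS (kap J) (aa ν k) (de ν k) (fh H) u V1 V2‖ₑ with hS
  set T : ℝ → ℝ≥0∞ := fun u =>
    ⨆ n : ℕ, ‖∑ k ∈ Finset.range n, FA (kap J) (aa ν k) (de ν k) (fh H) u‖ₑ with hT
  have hTm : Measurable T := by
    refine Measurable.iSup fun n => Measurable.enorm ?_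
    exact Finset.measurable_sum _ fun k _ => HI_.fa_meas hκ hh _ _
  have hFS : ∀ k u V1 V2, ‖FS (kap J) (aa ν k) (de ν k) (fh H) u V1 V2‖ₑ ≤ S k u :=
    fun k u V1 V2 => le_iSup₂ (f := fun V1 V2 =>
      ‖FS (kap J) (aa ν k) (de ν k) (fh H) u V1 V2‖ₑ) V1 V2
  have hSS : ∀ k u, S k u ^ 2 ≤ ∑' k, S k u ^ 2 := fun k u => ENNReal.le_tsum k
  have hpt : ∀ u, (⨆ (V1 : ℝ) (V2 : ℝ),
      ‖∫ v in Ioc V1 V2 ∩ {v | xc ν ≤ u + v}, kap J (u + v) * fh H v‖ₑ) ^ 2 ≤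
      8 * ∑' k, S k u ^ 2 + 8 * T u ^ 2 := by
    intro u
    refine HI_.sup_sq _ _ fun V1 => HI_.sup_sq _ _ fun V2 => ?_
    obtain ⟨m1, m2, n1, n2, hb⟩ := HI_.pw hκ hh had hd hinf u V1 V2
    have hb' : ‖∫ v in Ioc V1 V2 ∩ {v | xc ν ≤ u + v}, kap J (u + v) * fh H v‖ₑ ≤
        S m1 u + S m2 u + (T u + T u) := by
      refine hb.trans ?_
      gcongr
      · exact hFS _ _ _ _
      · exact hFS _ _ _ _
      · exact le_iSup (fun n : ℕ => ‖∑ k ∈ Finset.range n,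
          FA (kap J) (aa ν k) (de ν k) (fh H) u‖ₑ) n1
      · exact le_iSup (fun n : ℕ => ‖∑ k ∈ Finset.range n,
          FA (kap J) (aa ν k) (de ν k) (fh H) u‖ₑ) n2
    calc _ ≤ (S m1 u + S m2 u + (T u + T u)) ^ 2 := by gcongr
      _ ≤ 4 * (S m1 u ^ 2 + S m2 u ^ 2 + (T u ^ 2 + T u ^ 2)) := HI_.sq4 _ _ _ _
      _ ≤ 4 * (∑' k, S k u ^ 2 + ∑' k, S k u ^ 2 + (T u ^ 2 + T u ^ 2)) := by
          gcongr
          · exact hSS _ _
          · exact hSS _ _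
      _ = _ := by ring
  calc _ ≤ ∫⁻ u, (8 * ∑' k, S k u ^ 2 + 8 * T u ^ 2) := lintegral_mono hpt
    _ = (∫⁻ u, 8 * ∑' k, S k u ^ 2) + ∫⁻ u, 8 * T u ^ 2 :=
        lintegral_add_right _ ((hTm.pow_const 2).const_mul 8)
    _ = 8 * (∫⁻ u, ∑' k, S k u ^ 2) + 8 * ∫⁻ u, T u ^ 2 := by
        rw [lintegral_const_mul' _ _ (by norm_num), lintegral_const_mul' _ _ (by norm_num)]
    _ ≤ 8 * (C2 * ∫⁻ s, ‖H s‖ₑ ^ 2) + 8 * (C3 * ∫⁻ s, ‖H s‖ₑ ^ 2) := by gcongr
    _ = _ := by push_cast; ring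

end Pool.Agent.CRR
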