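import Pool.Agent.CRR.Targets

/-!
# CRR, T_INF: behaviour at minus infinity of the bounded solutions of Bessel's equation
-/

set_option autoImplicit false

namespace Pool.Agent.CRR

open MeasureTheory Set Filter Topology

namespace INF_

theorem mvt {f f' : ℝ → ℝ} (h : ∀ x, HasDerivAt f (f' x) x) {a b : ℝ} (hab : a < b) :
    ∃ c, a < c ∧ c < b ∧ f b - f a = f' c * (b - a) := by
  obtain ⟨c, hc, h1⟩ := exists_hasDerivAt_eq_slope f f' hab
    (fun x _ => (h x).continuousAt.continuousWithinAt) (fun x _ => h x)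
  refine ⟨c, hc.1, hc.2, ?_⟩
  rw [h1, div_mul_cancel₀]
  linarith

/-- the case of order zero -/
theorem zero_case {J J' : ℝ → ℝ} (d1 : ∀ x, HasDerivAt J (J' x) x)
    (d2 : ∀ x, HasDerivAt J' (-(PP 0 x) * J x) x) {B : ℝ} (hB : ∀ x ≤ 0, |J x| ≤ B) (x : ℝ)
    (hx : x ≤ 0) : |J' x| ≤ 3 * B * Real.exp x := by
  have hB0 : 0 ≤ B := (abs_nonneg _).trans (hB 0 le_rfl)
  have he : 0 < Real.exp (-x) := Real.exp_pos _
  obtain ⟨ξ, h1, h2, h3⟩ := mvt d1 (show x - Real.exp (-x) < x by linarith)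
  obtain ⟨η, h4, h5, h6⟩ := mvt d2 h2
  have hex : Real.exp x * Real.exp (-x) = 1 := by
    rw [← Real.exp_add, add_neg_cancel, Real.exp_zero]
  have h7 : J' ξ = (J x - J (x - Real.exp (-x))) * Real.exp x := by
    have e1 : J x - J (x - Real.exp (-x)) = J' ξ * Real.exp (-x) := by
      rw [h3]
      ring
    rw [e1, mul_assoc, mul_comm (Real.exp (-x)), hex, mul_one]
  have h8 : |J' ξ| ≤ 2 * B * Real.exp x := by
    rw [h7, abs_mul, abs_of_pos (Real.exp_pos x)]
    apply mul_le_mul_of_nonneg_right _ (Real.exp_pos x).le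
    have e1 := hB x hx
    have e2 := hB (x - Real.exp (-x)) (by linarith)
    calc |J x - J (x - Real.exp (-x))| ≤ |J x| + |J (x - Real.exp (-x))| := abs_sub _ _
      _ ≤ 2 * B := by linarith
  have h9 : |J' x - J' ξ| ≤ B * Real.exp x := by
    rw [h6, abs_mul, abs_mul, abs_neg]
    have e1 : |PP 0 η| ≤ Real.exp (2 * x) := by
      unfold PP
      rw [zero_pow two_ne_zero, sub_zero, abs_of_pos (Real.exp_pos _)]
      exact Real.exp_le_exp.mpr (by linarith)
    have e2 := hB η (by linarith)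
    have e3 : |x - ξ| ≤ Real.exp (-x) := by
      rw [abs_of_pos (by linarith)]
      linarith
    calc |PP 0 η| * |J η| * |x - ξ| ≤ Real.exp (2 * x) * B * Real.exp (-x) := by gcongr
      _ = B * Real.exp x * (Real.exp x * Real.exp (-x)) := by
        rw [two_mul, Real.exp_add]
        ring
      _ = B * Real.exp x := by rw [hex, mul_one]
  calc |J' x| = |(J' x - J' ξ) + J' ξ| := by rw [sub_add_cancel]
    _ ≤ |J' x - J' ξ| + |J' ξ| := abs_add_le _ _
    _ ≤ 3 * B * Real.exp x := by linarith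

end INF_

theorem p_INF : T_INF := by
  intro ν J J' hν hS
  obtain ⟨B, hB⟩ := hS.bd
  have d1 := hS.d1
  have d2 := hS.d2
  have hB0 : 0 ≤ B := (abs_nonneg _).trans (hB 0 le_rfl)
  rcases hν.eq_or_lt with rfl | hν
  · refine ⟨?_, by simp⟩
    have h1 : Tendsto (fun x => 3 * B * Real.exp x) atBot (𝓝 0) := by
      have := Real.tendsto_exp_atBot.const_mul (3 * B)
      rwa [mul_zero] at this
    refine squeeze_zero_norm' ?_ h1
    filter_upwards [eventually_le_atBot (0 : ℝ)] with x hx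
    rw [Real.norm_eq_abs]
    exact INF_.zero_case d1 d2 hB x hx
  -- positive order
  have hlim : Tendsto (fun x : ℝ => Real.exp (2 * x)) atBot (𝓝 0) :=
    Real.tendsto_exp_atBot.comp (tendsto_id.const_mul_atBot two_pos)
  have hν2 : 0 < ν ^ 2 := by positivity
  obtain ⟨a0, ha0⟩ := Filter.eventually_atBot.1
    (hlim.eventually_lt_const (show (0 : ℝ) < ν ^ 2 / 2 by linarith))
  set a := min a0 0 with ha
  have haP : ∀ x ≤ a, ν ^ 2 / 2 ≤ -PP ν x := by
    intro x hx
    have h1 := ha0 x (hx.trans (min_le_left _ _))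
    unfold PP
    linarith
  have ha00 : a ≤ 0 := min_le_right _ _
  set y : ℝ → ℝ := fun x => J x ^ 2 with hy
  set y1 : ℝ → ℝ := fun x => 2 * (J x * J' x) with hy1
  set y2 : ℝ → ℝ := fun x => 2 * (J' x * J' x + J x * (-(PP ν x) * J x)) with hy2
  have dy : ∀ x, HasDerivAt y (y1 x) x := by
    intro x
    have h := (d1 x).pow 2
    refine h.congr_deriv ?_
    rw [hy1]
    simp
    ring
  have dy1 : ∀ x, HasDerivAt y1 (y2 x) x := by
    intro x
    exact ((d1 x).mul (d2 x)).const_mul 2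
  have hy2' : ∀ x ≤ a, ν ^ 2 * y x ≤ y2 x := by
    intro x hx
    have h1 := haP x hx
    have h2 : y2 x = 2 * J' x ^ 2 + 2 * (-PP ν x) * J x ^ 2 := by
      rw [hy2]
      ring
    rw [h2, hy]
    have h3 : ν ^ 2 / 2 * J x ^ 2 ≤ -PP ν x * J x ^ 2 :=
      mul_le_mul_of_nonneg_right h1 (sq_nonneg _)
    have h4 := sq_nonneg (J' x)
    simp only
    linarith
  have hy0 : ∀ x, 0 ≤ y x := fun x => sq_nonneg _
  have hy2'' : ∀ x ≤ a, 0 ≤ y2 x := fun x hx =>
    (mul_nonneg hν2.le (hy0 x)).trans (hy2' x hx)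
  have hyB : ∀ x ≤ 0, y x ≤ B ^ 2 := by
    intro x hx
    rw [hy]
    simp only
    rw [← sq_abs]
    exact pow_le_pow_left₀ (abs_nonneg _) (hB x hx) 2
  have m1 : ∀ s t, s ≤ t → t ≤ a → y1 s ≤ y1 t := by
    intro s t hst hta
    rcases hst.eq_or_lt with rfl | hst
    · exact le_rfl
    · obtain ⟨c, h1, h2, h3⟩ := INF_.mvt dy1 hst
      have h4 := mul_nonneg (hy2'' c (by linarith)) (by linarith : 0 ≤ t - s)
      linarith
  have n1 : ∀ x ≤ a, 0 ≤ y1 x := by
    intro x0 hx0
    by_contra hneg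
    push Not at hneg
    set m := -y1 x0 with hm
    have hm0 : 0 < m := by linarith
    have hstep : x0 - (B ^ 2 + 1) / m < x0 := by
      have : 0 < (B ^ 2 + 1) / m := by positivity
      linarith
    obtain ⟨c, h1, h2, h3⟩ := INF_.mvt dy hstep
    have h4 := m1 c x0 h2.le hx0
    have h5 : x0 - (x0 - (B ^ 2 + 1) / m) = (B ^ 2 + 1) / m := by ring
    rw [h5] at h3
    have h6 : y1 c * ((B ^ 2 + 1) / m) ≤ -m * ((B ^ 2 + 1) / m) := by
      apply mul_le_mul_of_nonneg_right _ (by positivity)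
      linarith
    have h7 : -m * ((B ^ 2 + 1) / m) = -(B ^ 2 + 1) := by
      field_simp
    have h8 := hyB (x0 - (B ^ 2 + 1) / m) (by linarith)
    have h9 := hy0 x0
    linarith
  have m0 : ∀ s t, s ≤ t → t ≤ a → y s ≤ y t := by
    intro s t hst hta
    rcases hst.eq_or_lt with rfl | hst
    · exact le_rfl
    · obtain ⟨c, h1, h2, h3⟩ := INF_.mvt dy hst
      have h4 := mul_nonneg (n1 c (by linarith)) (by linarith : 0 ≤ t - s)
      linarith
  have hdec : ∀ x, x < a → y x ≤ y1 a / (ν ^ 2 * (a - x)) := by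
    intro x hx
    obtain ⟨c, h1, h2, h3⟩ := INF_.mvt dy1 hx
    have h4 := hy2' c h2.le
    have h5 := m0 x c h1.le h2.le
    have h6 := n1 x hx.le
    have hax : 0 < a - x := by linarith
    rw [le_div_iff₀ (by positivity)]
    have h7 : ν ^ 2 * y x ≤ y2 c := (mul_le_mul_of_nonneg_left h5 hν2.le).trans h4
    have h8 : ν ^ 2 * y x * (a - x) ≤ y2 c * (a - x) :=
      mul_le_mul_of_nonneg_right h7 hax.le
    calc y x * (ν ^ 2 * (a - x)) = ν ^ 2 * y x * (a - x) := by ring
      _ ≤ y1 a := by linarith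
  have ty : Tendsto y atBot (𝓝 0) := by
    have h1 : Tendsto (fun x : ℝ => y1 a / (ν ^ 2 * (a - x))) atBot (𝓝 0) := by
      apply Tendsto.const_div_atTop
      apply Tendsto.const_mul_atTop hν2
      have h2 : Tendsto (fun x : ℝ => -x) atBot atTop := tendsto_neg_atBot_atTop
      have h3 := tendsto_atTop_add_const_left atBot a h2
      refine h3.congr fun x => ?_
      ring
    refine squeeze_zero' (Eventually.of_forall hy0) ?_ h1
    filter_upwards [eventually_lt_atBot a] with x hx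
    exact hdec x hx
  have tJ : Tendsto (fun x => |J x|) atBot (𝓝 0) := by
    have h1 := ty.sqrt
    rw [Real.sqrt_zero] at h1
    refine h1.congr fun x => ?_
    exact Real.sqrt_sq_eq_abs _
  have hmono : ∀ s t, s ≤ t → t ≤ a → |J s| ≤ |J t| := by
    intro s t hst hta
    exact sq_le_sq.mp (m0 s t hst hta)
  refine ⟨?_, ?_⟩
  · have h1 : Tendsto (fun x => (3 + ν ^ 2) * |J x|) atBot (𝓝 0) := by
      have := tJ.const_mul (3 + ν ^ 2)
      rwa [mul_zero] at this
    refine squeeze_zero_norm' ?_ h1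
    filter_upwards [eventually_le_atBot a] with x hx
    rw [Real.norm_eq_abs]
    obtain ⟨ξ, h2, h3, h4⟩ := INF_.mvt d1 (show x - 1 < x by linarith)
    obtain ⟨η, h5, h6, h7⟩ := INF_.mvt d2 h3
    have h8 : |J' ξ| ≤ 2 * |J x| := by
      have e1 : J' ξ = J x - J (x - 1) := by
        rw [h4]
        ring
      rw [e1]
      have e2 := hmono (x - 1) x (by linarith) hx
      calc |J x - J (x - 1)| ≤ |J x| + |J (x - 1)| := abs_sub _ _
        _ ≤ 2 * |J x| := by linarith
    have h9 : |J' x - J' ξ| ≤ (1 + ν ^ 2) * |J x| := by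
      rw [h7, abs_mul, abs_mul, abs_neg]
      have e1 : |PP ν η| ≤ 1 + ν ^ 2 := by
        unfold PP
        have e2 : Real.exp (2 * η) ≤ 1 := Real.exp_le_one_iff.mpr (by linarith)
        have e3 := Real.exp_pos (2 * η)
        rw [abs_le]
        constructor <;> linarith
      have e2 := hmono η x h6.le hx
      have e3 : |x - ξ| ≤ 1 := by
        rw [abs_of_pos (by linarith)]
        linarith
      calc |PP ν η| * |J η| * |x - ξ| ≤ (1 + ν ^ 2) * |J x| * 1 := by gcongr
        _ = (1 + ν ^ 2) * |J x| := mul_one _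
    calc |J' x| = |(J' x - J' ξ) + J' ξ| := by rw [sub_add_cancel]
      _ ≤ |J' x - J' ξ| + |J' ξ| := abs_add_le _ _
      _ ≤ (3 + ν ^ 2) * |J x| := by linarith
  · have h1 : Tendsto J atBot (𝓝 0) := by
      rw [tendsto_zero_iff_abs_tendsto_zero]
      exact tJ
    have := h1.const_mul ν
    rwa [mul_zero] at this

end Pool.Agent.CRR
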