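import Pool.Agent.CRR.Targets
import Pool.Agent.H25.Plancherel

set_option autoImplicit false

/-!
# CRR, target MUL: multipliers of the strips
-/

namespace Pool.Agent.CRR

open MeasureTheory FourierTransform Set Filter Topology
open scoped ENNReal NNReal ComplexConjugate
open Pool.Agent.CAR (e1)
open Pool.Agent.CRN (T_CARLS)

namespace MUL_

theorem e1_add (x y : ℝ) : e1 (x + y) = e1 x * e1 y := by
  unfold e1
  rw [← Complex.exp_add]
  congr 1
  push_cast
  ring

theorem e1_norm (x : ℝ) : ‖e1 x‖ = 1 := by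
  have h : e1 x = Complex.exp (((2 * Real.pi * x : ℝ) : ℂ) * Complex.I) := by
    unfold e1
    congr 1
    push_cast
    ring
  rw [h, Complex.norm_exp_ofReal_mul_I]

theorem e1_cont : Continuous e1 := by
  unfold e1
  fun_prop

theorem kap_cont {ν : ℝ} {J J' : ℝ → ℝ} (h : Sol ν J J') : Continuous (kap J) := by
  have hJ : Continuous J := continuous_iff_continuousAt.2 fun x => (h.d1 x).continuousAt
  unfold kap
  exact Complex.continuous_ofReal.comp (Real.continuous_exp.mul hJ)

section

variable {κ : ℝ → ℂ} (hκ : Continuous κ) (a b : ℝ)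

/-- the multiplier -/
noncomputable def mu (κ : ℝ → ℂ) (a b s : ℝ) : ℂ := ∫ x in Ico a b, κ x * e1 (x * s)

include hκ in
theorem kint : IntegrableOn κ (Ico a b) :=
  (hκ.integrableOn_Icc (a := a) (b := b)).mono_set Ico_subset_Icc_self

include hκ in
theorem mu_cont : Continuous (mu κ a b) := by
  unfold mu
  refine continuous_of_dominated (bound := fun x => ‖κ x‖) ?_ ?_ ?_ ?_
  · intro s
    exact (hκ.mul (e1_cont.comp (continuous_id.mul continuous_const))).aestronglyMeasurable
  · intro s
    refine ae_of_all _ fun x => ?_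
    rw [norm_mul, e1_norm, mul_one]
  · exact (kint hκ a b).norm
  · refine ae_of_all _ fun x => ?_
    exact continuous_const.mul (e1_cont.comp (continuous_const.mul continuous_id))

theorem mu_bdd (s : ℝ) : ‖mu κ a b s‖ ≤ ∫ x in Ico a b, ‖κ x‖ := by
  unfold mu
  refine (norm_integral_le_integral_norm _).trans (le_of_eq ?_)
  refine integral_congr_ae (ae_of_all _ fun x => ?_)
  show ‖κ x * e1 (x * s)‖ = ‖κ x‖
  rw [norm_mul, e1_norm, mul_one]

include hκ in
theorem strip_eq {H : ℝ → ℂ} (hH : Integrable H) (u : ℝ) :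
    ∫ v in {v | u + v ∈ Ico a b}, κ (u + v) * fh H v =
      ∫ s, H s * mu κ a b s * e1 (-(u * s)) := by
  have h1 : ∫ v in {v | u + v ∈ Ico a b}, κ (u + v) * fh H v =
      ∫ x in Ico a b, κ x * fh H (x - u) := by
    have h2 := (measurePreserving_add_left (volume : Measure ℝ) u).setIntegral_preimage_emb
      (measurableEmbedding_addLeft u) (fun x => κ x * fh H (x - u)) (Ico a b)
    rw [← h2]
    show ∫ v in {v | u + v ∈ Ico a b}, κ (u + v) * fh H v =
      ∫ v in {v | u + v ∈ Ico a b}, κ (u + v) * fh H (u + v - u)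
    simp only [add_sub_cancel_left]
  rw [h1]
  have h3 : ∀ x, κ x * fh H (x - u) = ∫ s, κ x * H s * e1 ((x - u) * s) := by
    intro x
    unfold fh
    rw [← integral_const_mul]
    refine integral_congr_ae (ae_of_all _ fun s => ?_)
    show κ x * (H s * e1 ((x - u) * s)) = κ x * H s * e1 ((x - u) * s)
    ring
  simp only [h3]
  have hint : Integrable (Function.uncurry fun (x s : ℝ) => κ x * H s * e1 ((x - u) * s))
      ((volume.restrict (Ico a b)).prod volume) := by
    have h4 : Integrable (fun p : ℝ × ℝ => κ p.1 * H p.2)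
        ((volume.restrict (Ico a b)).prod volume) := (kint hκ a b).mul_prod hH
    refine h4.mul_bdd (c := 1) ?_ (ae_of_all _ fun p => (e1_norm _).le)
    exact (e1_cont.comp ((continuous_fst.sub continuous_const).mul
      continuous_snd)).aestronglyMeasurable
  rw [integral_integral_swap hint]
  refine integral_congr_ae (ae_of_all _ fun s => ?_)
  show ∫ x in Ico a b, κ x * H s * e1 ((x - u) * s) = H s * mu κ a b s * e1 (-(u * s))
  have h5 : ∀ x, κ x * H s * e1 ((x - u) * s) = (H s * e1 (-(u * s))) * (κ x * e1 (x * s)) := by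
    intro x
    have h6 : (x - u) * s = x * s + -(u * s) := by ring
    rw [h6, e1_add]
    ring
  simp only [h5]
  rw [integral_const_mul]
  unfold mu
  ring

end

theorem planch {g : ℝ → ℂ} (hi : Integrable g) (h2 : MemLp g 2) :
    ∫⁻ u, ‖∫ s, g s * e1 (-(u * s))‖ₑ ^ 2 = ∫⁻ s, ‖g s‖ₑ ^ 2 := by
  have key := Pool.Agent.H25.Plancherel.eLpNorm_fourier_eq hi h2
  rw [eLpNorm_eq_lintegral_rpow_enorm_toReal (by norm_num) (by norm_num),
    eLpNorm_eq_lintegral_rpow_enorm_toReal (by norm_num) (by norm_num)] at key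
  have key2 := ENNReal.rpow_left_injective (x := 1 / (2 : ℝ≥0∞).toReal) (by norm_num) key
  simp only [ENNReal.toReal_ofNat, ENNReal.rpow_ofNat] at key2
  rw [← key2]
  refine lintegral_congr fun u => ?_
  congr 2
  rw [Real.fourier_eq']
  refine integral_congr_ae (ae_of_all _ fun s => ?_)
  show g s * e1 (-(u * s)) =
    Complex.exp (((-2 * Real.pi * (inner ℝ s u : ℝ) : ℝ) : ℂ) * Complex.I) * g s
  rw [mul_comm]
  congr 1
  unfold e1
  congr 1
  have hin : (inner ℝ s u : ℝ) = u * s := by
    rw [real_inner_eq_re_inner ℝ]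
    simp
  rw [hin]
  push_cast
  ring

theorem exists_Icc {ν : ℝ} {j : ℕ} {s₀ : ℝ} (hs : s₀ ∈ band ν j) {U : Set ℝ} (hU : IsOpen U)
    (hsU : s₀ ∈ U) : ∃ p q : ℝ, p < q ∧ Icc p q ⊆ band ν j ∩ U := by
  obtain ⟨ε₁, hε₁, hball⟩ := Metric.isOpen_iff.1 hU s₀ hsU
  obtain ⟨hs1, hs2⟩ := hs
  set ε : ℝ := min (ε₁ / 2) ((si ν j - |s₀|) / 2) with hε
  have hε0 : 0 < ε := lt_min (by positivity) (by linarith)
  have e1' : ε ≤ ε₁ / 2 := min_le_left _ _
  have e2' : ε ≤ (si ν j - |s₀|) / 2 := min_le_right _ _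
  rcases le_or_gt 0 s₀ with h0 | h0
  · refine ⟨s₀, s₀ + ε, by linarith, fun s hs' => ?_⟩
    have habs : |s₀| = s₀ := abs_of_nonneg h0
    have habs' : |s| = s := abs_of_nonneg (h0.trans hs'.1)
    have hle : |s₀| ≤ |s| := by
      rw [habs, habs']
      exact hs'.1
    refine ⟨⟨?_, ?_⟩, hball ?_⟩
    · rcases hs1 with h | h
      · exact Or.inl h
      · exact Or.inr (h.trans hle)
    · rw [habs']
      have := hs'.2
      rw [habs] at e2' hs2
      linarith
    · rw [Metric.mem_ball, Real.dist_eq, abs_of_nonneg (by linarith [hs'.1])]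
      linarith [hs'.2]
  · refine ⟨s₀ - ε, s₀, by linarith, fun s hs' => ?_⟩
    have habs : |s₀| = -s₀ := abs_of_neg h0
    have habs' : |s| = -s := abs_of_neg (lt_of_le_of_lt hs'.2 h0)
    have hle : |s₀| ≤ |s| := by
      rw [habs, habs']
      linarith [hs'.2]
    refine ⟨⟨?_, ?_⟩, hball ?_⟩
    · rcases hs1 with h | h
      · exact Or.inl h
      · exact Or.inr (h.trans hle)
    · rw [habs']
      have := hs'.1
      rw [habs] at e2' hs2
      linarith
    · rw [Metric.mem_ball, Real.dist_eq, abs_of_nonpos (by linarith [hs'.2])]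
      linarith [hs'.1]

theorem FA_le {κ : ℝ → ℂ} (a d : ℝ) (h : ℝ → ℂ) (u : ℝ) :
    ‖FA κ a d h u‖ₑ ≤ ⨆ (V1 : ℝ) (V2 : ℝ), ‖FS κ a d h u V1 V2‖ₑ := by
  have h1 : FA κ a d h u = FS κ a d h u (a - u - 1) (a + d - u) := by
    unfold FA FS
    congr 2
    ext v
    simp only [mem_inter_iff, mem_Ioc, mem_setOf_eq, mem_Ico]
    constructor
    · rintro ⟨h2, h3⟩
      exact ⟨⟨by linarith, by linarith⟩, h2, h3⟩
    · exact fun h2 => h2.2
  rw [h1]
  exact le_iSup₂_of_le (a - u - 1) (a + d - u) le_rfl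

end MUL_

open MUL_ in
theorem p_MUL (_h1 : T_SEQ) (h2 : T_SD) : T_MUL := by
  intro hC
  obtain ⟨C₀, hSD⟩ := h2 hC
  refine ⟨C₀ + 1, by positivity, ?_⟩
  intro ν J J' k hν hN
  have hκ : Continuous (kap J) := kap_cont hN.sol
  have hmk : mk ν J k = mu (kap J) (aa ν k) (aa ν k + de ν k) := rfl
  have hcont : Continuous (mk ν J k) := by
    rw [hmk]
    exact mu_cont hκ _ _
  have hFA : ∀ (H : ℝ → ℂ) (u : ℝ), HH H →
      FA (kap J) (aa ν k) (de ν k) (fh H) u = ∫ s, H s * mk ν J k s * e1 (-(u * s)) := by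
    intro H u hH
    rw [hmk]
    exact strip_eq hκ _ _ hH.int u
  refine ⟨hcont, hFA, ?_⟩
  intro j s₀ hs₀
  set q : ℝ := (9 / 10) ^ (k - j + (j - k)) with hq
  have hq0 : 0 < q := by positivity
  have hmain : ‖mk ν J k s₀‖ ^ 2 ≤ C₀ * q := by
    by_contra hcon
    rw [not_le] at hcon
    obtain ⟨c, hc1, hc2⟩ := exists_between hcon
    have hc0 : 0 < c := lt_of_le_of_lt (by positivity) hc1
    have hU : IsOpen {s | c < ‖mk ν J k s‖ ^ 2} :=
      isOpen_lt continuous_const (hcont.norm.pow 2)
    obtain ⟨x, y, hxy, hsub⟩ := exists_Icc hs₀ hU hc2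
    set H : ℝ → ℂ := (Icc x y).indicator (fun _ => (1 : ℂ)) with hHdef
    have hHH : HH H := by
      refine ⟨measurable_const.indicator measurableSet_Icc, ?_, ?_⟩
      · exact (integrable_indicator_iff measurableSet_Icc).2 (by simp)
      · have h3 : (fun s => ‖H s‖ ^ 2) = (Icc x y).indicator (fun _ => (1 : ℝ)) := by
          funext s
          by_cases hs : s ∈ Icc x y
          · rw [hHdef, indicator_of_mem hs, indicator_of_mem hs]
            simp
          · rw [hHdef, indicator_of_notMem hs, indicator_of_notMem hs]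
            simp
        rw [h3]
        exact (integrable_indicator_iff measurableSet_Icc).2 (by simp)
    have hHn : ∫⁻ s, ‖H s‖ₑ ^ 2 = ENNReal.ofReal (y - x) := by
      have h3 : (fun s => ‖H s‖ₑ ^ 2) = (Icc x y).indicator (fun _ => (1 : ℝ≥0∞)) := by
        funext s
        by_cases hs : s ∈ Icc x y
        · rw [hHdef, indicator_of_mem hs, indicator_of_mem hs]
          simp
        · rw [hHdef, indicator_of_notMem hs, indicator_of_notMem hs]
          simp
      rw [h3, lintegral_indicator measurableSet_Icc, lintegral_const, Measure.restrict_apply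
        MeasurableSet.univ, univ_inter, Real.volume_Icc, one_mul]
    have h4 := hSD ν J J' k j H hν hN hHH (by
      intro s hs
      by_contra hs'
      apply hs
      rw [hHdef]
      refine indicator_of_notMem (fun h => hs' (hsub h).1) _)
    have hg : ∀ s, H s * mk ν J k s = (Icc x y).indicator (mk ν J k) s := by
      intro s
      by_cases hs : s ∈ Icc x y
      · rw [hHdef, indicator_of_mem hs, indicator_of_mem hs, one_mul]
      · rw [hHdef, indicator_of_notMem hs, indicator_of_notMem hs, zero_mul]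
    have hgi : Integrable (fun s => H s * mk ν J k s) := by
      simp only [hg]
      exact (integrable_indicator_iff measurableSet_Icc).2 (hcont.integrableOn_Icc)
    have hg2 : MemLp (fun s => H s * mk ν J k s) 2 := by
      rw [memLp_two_iff_integrable_sq_norm hgi.aestronglyMeasurable]
      have h5 : (fun s => ‖H s * mk ν J k s‖ ^ 2) =
          (Icc x y).indicator (fun s => ‖mk ν J k s‖ ^ 2) := by
        funext s
        rw [hg]
        by_cases hs : s ∈ Icc x y
        · rw [indicator_of_mem hs, indicator_of_mem hs]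
        · rw [indicator_of_notMem hs, indicator_of_notMem hs]
          simp
      rw [h5]
      exact (integrable_indicator_iff measurableSet_Icc).2 ((hcont.norm.pow 2).integrableOn_Icc)
    have h6 : ∫⁻ s, ‖H s * mk ν J k s‖ₑ ^ 2 ≤
        C₀ * ENNReal.ofReal q * ENNReal.ofReal (y - x) := by
      rw [← planch hgi hg2, ← hHn]
      refine le_trans (lintegral_mono fun u => ?_) h4
      show ‖∫ s, H s * mk ν J k s * e1 (-(u * s))‖ₑ ^ 2 ≤ _
      rw [← hFA H u hHH]
      exact pow_le_pow_left' (FA_le _ _ _ _) 2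
    have h7 : ENNReal.ofReal c * ENNReal.ofReal (y - x) ≤ ∫⁻ s, ‖H s * mk ν J k s‖ₑ ^ 2 := by
      have h8 : ∫⁻ s in Icc x y, ENNReal.ofReal c = ENNReal.ofReal c * ENNReal.ofReal (y - x) := by
        rw [lintegral_const, Measure.restrict_apply MeasurableSet.univ, univ_inter,
          Real.volume_Icc]
      rw [← h8, ← lintegral_indicator measurableSet_Icc]
      refine lintegral_mono fun s => ?_
      show (Icc x y).indicator (fun _ => ENNReal.ofReal c) s ≤ ‖H s * mk ν J k s‖ₑ ^ 2
      rw [hg]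
      by_cases hs : s ∈ Icc x y
      · rw [indicator_of_mem hs, indicator_of_mem hs, ← ofReal_norm,
          ← ENNReal.ofReal_pow (norm_nonneg _)]
        exact ENNReal.ofReal_le_ofReal (le_of_lt (hsub hs).2)
      · rw [indicator_of_notMem hs]
        exact zero_le
    have h9 := h7.trans h6
    have h10 : (C₀ : ℝ≥0∞) * ENNReal.ofReal q * ENNReal.ofReal (y - x) =
        ENNReal.ofReal (C₀ * q * (y - x)) := by
      rw [ENNReal.ofReal_mul (by positivity), ENNReal.ofReal_mul (NNReal.coe_nonneg C₀),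
        ENNReal.ofReal_coe_nnreal]
    rw [h10, ← ENNReal.ofReal_mul hc0.le, ENNReal.ofReal_le_ofReal_iff
      (mul_nonneg (by positivity) (by linarith))] at h9
    have h11 : c ≤ C₀ * q := le_of_mul_le_mul_right h9 (by linarith)
    linarith
  calc ‖mk ν J k s₀‖ ^ 2 ≤ C₀ * q := hmain
    _ ≤ (C₀ + 1) * q := by nlinarith

end Pool.Agent.CRR
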