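import Pool.Agent.CRR.Targets

set_option autoImplicit false

/-!
# CRR, target NRM: normalisation

A solution of `J'' = -P J` with zero data at one point is `0` (uniqueness for the linear system),
so the energy of a nonzero solution at `xc` is positive; divide by its square root.
-/

namespace Pool.Agent.CRR

open MeasureTheory Set Filter Topology
open scoped ENNReal NNReal

/-- zero data at `x₀` gives the zero solution -/
theorem NRM_zero (ν : ℝ) (J J' : ℝ → ℝ) (d1 : ∀ x, HasDerivAt J (J' x) x)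
    (d2 : ∀ x, HasDerivAt J' (-(PP ν x) * J x) x) (x₀ : ℝ) (h0 : J x₀ = 0) (h1 : J' x₀ = 0) :
    ∀ x, J x = 0 ∧ J' x = 0 := by
  intro x
  set b : ℝ := |x| + |x₀| + 1 with hb
  have hx := abs_le.mp (le_refl |x|)
  have hx0 := abs_le.mp (le_refl |x₀|)
  have hxn := abs_nonneg x
  have hx0n := abs_nonneg x₀
  set K : ℝ≥0 := Real.toNNReal (1 + Real.exp (2 * b) + ν ^ 2) with hK
  have hKr : (K : ℝ) = 1 + Real.exp (2 * b) + ν ^ 2 :=
    Real.coe_toNNReal _ (by positivity)
  set v : ℝ → ℝ × ℝ → ℝ × ℝ := fun t p => (p.2, -(PP ν t) * p.1) with hv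
  have hlip : ∀ t ∈ Ioo (-b) b, LipschitzOnWith K (v t) univ := by
    intro t ht
    rw [lipschitzOnWith_univ]
    apply LipschitzWith.of_dist_le_mul
    intro p q
    have hP : |PP ν t| ≤ K := by
      rw [hKr, PP, abs_le]
      have e1 : Real.exp (2 * t) ≤ Real.exp (2 * b) := Real.exp_le_exp.mpr (by linarith [ht.2])
      have e2 := Real.exp_pos (2 * t)
      have e3 := sq_nonneg ν
      constructor <;> linarith [Real.exp_pos (2 * b)]
    have hK1 : (1 : ℝ) ≤ K := by
      rw [hKr]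
      have e3 := sq_nonneg ν
      linarith [Real.exp_pos (2 * b)]
    have hd := dist_nonneg (x := p) (y := q)
    have ha : dist p.1 q.1 ≤ dist p q := le_max_left _ _
    have hb2 : dist p.2 q.2 ≤ dist p q := le_max_right _ _
    rw [Prod.dist_eq (x := v t p)]
    apply max_le
    · calc dist (v t p).1 (v t q).1 = dist p.2 q.2 := rfl
        _ ≤ 1 * dist p q := by rw [one_mul]; exact hb2
        _ ≤ K * dist p q := mul_le_mul_of_nonneg_right hK1 hd
    · have e : dist (v t p).2 (v t q).2 = |PP ν t| * dist p.1 q.1 := by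
        simp only [hv, Real.dist_eq]
        rw [← mul_sub, abs_mul, abs_neg]
      rw [e]
      exact mul_le_mul hP ha dist_nonneg (by positivity)
  have hmem : x ∈ Ioo (-b) b := ⟨by linarith [neg_abs_le x], by linarith [le_abs_self x]⟩
  have hmem0 : x₀ ∈ Ioo (-b) b := ⟨by linarith [neg_abs_le x₀], by linarith [le_abs_self x₀]⟩
  have key := ODE_solution_unique_of_mem_Ioo (v := v) (s := fun _ => univ) (K := K) (t₀ := x₀)
    (a := -b) (b := b) (f := fun t => (J t, J' t)) (g := fun _ => (0, 0)) hlip hmem0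
    (fun t _ => ⟨by
      have := (d1 t).prodMk (d2 t)
      simpa [hv] using this, trivial⟩)
    (fun t _ => ⟨by
      have h := hasDerivAt_const t (((0 : ℝ), (0 : ℝ)) : ℝ × ℝ)
      have e : v t ((0 : ℝ), (0 : ℝ)) = 0 := by simp [hv]
      change HasDerivAt (fun _ => ((0 : ℝ), (0 : ℝ))) (v t ((0 : ℝ), (0 : ℝ))) t
      rw [e]
      exact h, trivial⟩)
    (by simp [h0, h1])
  have h2 := key hmem
  simp only [Prod.mk.injEq] at h2
  exact h2

theorem p_NRM : T_NRM := by
  intro hSEQ ν J J' hν hs hne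
  obtain ⟨hP, _⟩ := hSEQ ν hν
  have hPc : 0 < PP ν (xc ν) := by
    have := (hP (xc ν) le_rfl).1
    linarith [Real.exp_pos (4 * xc ν / 3)]
  have hsq : 0 < Real.sqrt (PP ν (xc ν)) := Real.sqrt_pos.mpr hPc
  have hE0 : 0 ≤ E2 ν J J' (xc ν) := by
    unfold E2
    positivity
  have hE : 0 < E2 ν J J' (xc ν) := by
    rcases hE0.lt_or_eq with h | h
    · exact h
    · exfalso
      have h1 : 0 ≤ J' (xc ν) ^ 2 / Real.sqrt (PP ν (xc ν)) := by positivity
      have h2 : 0 ≤ Real.sqrt (PP ν (xc ν)) * J (xc ν) ^ 2 := by positivity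
      have h3 : J' (xc ν) ^ 2 / Real.sqrt (PP ν (xc ν)) +
        Real.sqrt (PP ν (xc ν)) * J (xc ν) ^ 2 = 0 := h.symm
      have h4 : J' (xc ν) ^ 2 / Real.sqrt (PP ν (xc ν)) = 0 := by linarith
      have h5 : Real.sqrt (PP ν (xc ν)) * J (xc ν) ^ 2 = 0 := by linarith
      have h6 : J' (xc ν) = 0 := by
        rcases div_eq_zero_iff.mp h4 with h | h
        · exact pow_eq_zero_iff (two_ne_zero) |>.mp h
        · exact absurd h hsq.ne'
      have h7 : J (xc ν) = 0 := by
        rcases mul_eq_zero.mp h5 with h | h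
        · exact absurd h hsq.ne'
        · exact pow_eq_zero_iff (two_ne_zero) |>.mp h
      obtain ⟨x, hx⟩ := hne
      exact hx (NRM_zero ν J J' hs.d1 hs.d2 (xc ν) h7 h6 x).1
  have hr : 0 < Real.sqrt (E2 ν J J' (xc ν)) := Real.sqrt_pos.mpr hE
  refine ⟨(Real.sqrt (E2 ν J J' (xc ν)))⁻¹, (inv_pos.mpr hr).ne', ⟨⟨?_, ?_, ?_⟩, ?_⟩⟩
  · intro x
    exact (hs.d1 x).const_mul _
  · intro x
    have h := (hs.d2 x).const_mul (Real.sqrt (E2 ν J J' (xc ν)))⁻¹
    have e : (Real.sqrt (E2 ν J J' (xc ν)))⁻¹ * (-(PP ν x) * J x) =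
      -(PP ν x) * ((Real.sqrt (E2 ν J J' (xc ν)))⁻¹ * J x) := by ring
    rw [e] at h
    exact h
  · obtain ⟨B, hB⟩ := hs.bd
    refine ⟨(Real.sqrt (E2 ν J J' (xc ν)))⁻¹ * B, fun x hx => ?_⟩
    rw [abs_mul, abs_of_pos (inv_pos.mpr hr)]
    exact mul_le_mul_of_nonneg_left (hB x hx) (inv_pos.mpr hr).le
  · have hid : E2 ν (fun x => (Real.sqrt (E2 ν J J' (xc ν)))⁻¹ * J x)
        (fun x => (Real.sqrt (E2 ν J J' (xc ν)))⁻¹ * J' x) (xc ν) =
        (Real.sqrt (E2 ν J J' (xc ν)))⁻¹ ^ 2 * E2 ν J J' (xc ν) := by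
      generalize (Real.sqrt (E2 ν J J' (xc ν)))⁻¹ = c
      unfold E2
      ring
    rw [hid, inv_pow, Real.sq_sqrt hE.le]
    exact inv_mul_cancel₀ hE.ne'

end Pool.Agent.CRR
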