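import Pool.Agent.CRR.Targets
import Pool.Agent.CRN.P_HELN

set_option autoImplicit false

/-!
# CRR: the coefficients solve the Bessel equation (target ODEN)
-/

namespace Pool.Agent.CRR

open MeasureTheory FourierTransform Set Filter Topology
open scoped ENNReal NNReal ComplexConjugate
open Pool.Agent.MBS (E ex)
open Pool.Agent.CAR (e1)
open Pool.Agent.CRN (sg rt Lam L2 SH WD T_HELN)

namespace ODEN_

open Pool.Agent.CRN.HELN_ (Sp int_of_cont cont_int int_hda)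

variable {n : ℕ}

lemma SH_cont {h : E n → ℂ} (hh : Continuous h) (R : ℝ) : Continuous (SH h R) := by
  unfold SH
  refine continuous_const.mul (cont_int
    (F := fun (x : E n) (ω : Sp n) => h (R • (ω : E n)) * ex x (R • (ω : E n))) ?_)
  have hw : Continuous fun p : E n × Sp n => R • (p.2 : E n) := by fun_prop
  exact (hh.comp hw).mul (Pool.Agent.MBS.ex_continuous.comp (continuous_fst.prodMk hw))

/-- `SH h R` is smooth. -/
lemma SH_smooth {h : E n → ℂ} (hh : Continuous h) (R : ℝ) : ContDiff ℝ 2 (SH h R) := by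
  let μ : Measure (E n) := (sg n).map (fun ω : Sp n => (ω : E n))
  let L : E n →L[ℝ] E n →L[ℝ] ℝ := innerSL ℝ
  have hme : MeasurableEmbedding (fun ω : Sp n => (ω : E n)) :=
    MeasurableEmbedding.subtype_coe Metric.isClosed_sphere.measurableSet
  have hint : ∀ k : ℕ, Integrable (fun v : E n => ‖v‖ ^ k * ‖h (R • v)‖) μ := by
    intro k
    rw [hme.integrable_map_iff]
    have hw : Continuous fun ω : Sp n => R • (ω : E n) := by fun_prop
    have hc : Continuous fun ω : Sp n => ‖(ω : E n)‖ ^ k * ‖h (R • (ω : E n))‖ :=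
      (continuous_subtype_val.norm.pow k).mul (hh.comp hw).norm
    exact hc.integrable_of_hasCompactSupport (HasCompactSupport.of_compactSpace _)
  have h1 := VectorFourier.contDiff_fourierIntegral (μ := μ) L (f := fun v => h (R • v))
    (N := 2) fun k _ => hint k
  have h2 : SH h R = fun x => ((R ^ (n - 1) : ℝ) : ℂ) *
      (VectorFourier.fourierIntegral Real.fourierChar μ L.toLinearMap₁₂ (fun v => h (R • v)))
        (-(R • x)) := by
    funext x
    unfold SH VectorFourier.fourierIntegral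
    rw [hme.integral_map]
    congr 1
    refine integral_congr_ae (ae_of_all _ fun ω => ?_)
    simp only [ex, Circle.smul_def, Real.fourierChar_apply, smul_eq_mul]
    rw [mul_comm]
    congr 2
    have e : (L.toLinearMap₁₂ (ω : E n)) (-(R • x)) = -(R * inner ℝ (ω : E n) x) := by
      show (inner ℝ (ω : E n) (-(R • x)) : ℝ) = _
      rw [inner_neg_right, real_inner_smul_right]
    rw [e, real_inner_smul_right, real_inner_comm]
    push_cast
    ring
  rw [h2]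
  have h3 : ContDiff ℝ 2 fun x : E n => -(R • x) := by fun_prop
  exact contDiff_const.mul (h1.comp h3)

lemma Lam_scale (u : E n → ℂ) (s : ℝ) (x : E n) : Lam (fun y => u (s • y)) x = Lam u (s • x) := by
  unfold Lam L2
  have h : ∀ (i j : Fin n) (φ : ℝ), s • rt i j φ x = rt i j φ (s • x) := by
    intro i j φ
    unfold rt
    ext k
    simp only [PiLp.smul_apply, smul_eq_mul]
    split_ifs <;> ring
  simp only [h]

/-! ### the rays -/

/-- the radius -/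
noncomputable def sr (ρ x : ℝ) : ℝ := Real.exp x / (2 * Real.pi * ρ)

lemma sr_pos {ρ : ℝ} (hρ : 0 < ρ) (x : ℝ) : 0 < sr ρ x := by
  unfold sr
  positivity

lemma sr_der (ρ x : ℝ) : HasDerivAt (sr ρ) (sr ρ x) x := (Real.hasDerivAt_exp x).div_const _

lemma sr_cont (ρ : ℝ) : Continuous (sr ρ) := by
  unfold sr
  fun_prop

/-- power of the radius -/
noncomputable def pw (ρ b x : ℝ) : ℂ := ((sr ρ x ^ b : ℝ) : ℂ)

lemma pw_der {ρ : ℝ} (hρ : 0 < ρ) (b x : ℝ) : HasDerivAt (pw ρ b) (b * pw ρ b x) x := by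
  have h1 := (sr_der ρ x).rpow_const (p := b) (Or.inl (sr_pos hρ x).ne')
  have h2 : sr ρ x * b * sr ρ x ^ (b - 1) = b * sr ρ x ^ b := by
    rw [Real.rpow_sub_one (sr_pos hρ x).ne']
    have := (sr_pos hρ x).ne'
    field_simp
  rw [h2] at h1
  have h3 := h1.ofReal_comp
  unfold pw
  refine h3.congr_deriv ?_
  push_cast
  ring

lemma pw_cont {ρ : ℝ} (hρ : 0 < ρ) (b : ℝ) : Continuous (pw ρ b) :=
  continuous_iff_continuousAt.2 fun x => (pw_der hρ b x).continuousAt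

lemma pw_add {ρ : ℝ} (hρ : 0 < ρ) (a b x : ℝ) : pw ρ a x * pw ρ b x = pw ρ (a + b) x := by
  unfold pw
  rw [Real.rpow_add (sr_pos hρ x)]
  push_cast
  ring

variable {h : E n → ℂ} {ρ : ℝ}

noncomputable def U (h : E n → ℂ) (ρ x : ℝ) (θ : E n) : ℂ :=
  pw ρ (((n : ℝ) - 2) / 2) x * SH h ρ (sr ρ x • θ)

noncomputable def U1 (h : E n → ℂ) (ρ x : ℝ) (θ : E n) : ℂ :=
  pw ρ (1 / 2) x * WD h ρ θ (sr ρ x) - 1 / 2 * U h ρ x θ

noncomputable def U2 (h : E n → ℂ) (ρ x : ℝ) (θ : E n) : ℂ :=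
  -(((Real.exp (2 * x) - (((n : ℝ) - 2) / 2) ^ 2 : ℝ) : ℂ) * U h ρ x θ) -
    pw ρ (((n : ℝ) - 2) / 2) x * Lam (SH h ρ) (sr ρ x • θ)

lemma U_eq (hρ : 0 < ρ) (x : ℝ) (θ : E n) : U h ρ x θ =
    pw ρ (-(1 / 2)) x * (pw ρ (((n : ℝ) - 1) / 2) x * SH h ρ (sr ρ x • θ)) := by
  unfold U
  rw [← mul_assoc, pw_add hρ]
  congr 3
  ring

lemma U_der (hH : T_HELN) (hn : 2 ≤ n) (hh : Continuous h) (hρ : 0 < ρ) (x : ℝ) {θ : E n}
    (hθ : ‖θ‖ = 1) : HasDerivAt (fun x => U h ρ x θ) (U1 h ρ x θ) x := by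
  have h1 := ((hH n h hn hh).1 ρ θ (sr ρ x) hρ hθ (sr_pos hρ x)).1
  have h2 := h1.scomp x (sr_der ρ x)
  have h3 := (pw_der hρ (-(1 / 2)) x).mul h2
  have h4 : (fun x => U h ρ x θ) = pw ρ (-(1 / 2)) *
      ((fun s : ℝ => ((s ^ (((n : ℝ) - 1) / 2) : ℝ) : ℂ) * SH h ρ (s • θ)) ∘ sr ρ) := by
    funext x
    exact U_eq hρ x θ
  rw [h4]
  refine h3.congr_deriv ?_
  have e1 : ((sr ρ x : ℝ) : ℂ) = pw ρ 1 x := by
    unfold pw
    rw [Real.rpow_one]
  have e2 : pw ρ (-(1 / 2)) x * pw ρ 1 x = pw ρ (1 / 2) x := by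
    rw [pw_add hρ]
    norm_num
  show ((-(1 / 2) : ℝ) : ℂ) * pw ρ (-(1 / 2)) x *
    (pw ρ (((n : ℝ) - 1) / 2) x * SH h ρ (sr ρ x • θ)) +
    pw ρ (-(1 / 2)) x * (sr ρ x • WD h ρ θ (sr ρ x)) = _
  unfold U1
  rw [U_eq hρ, Complex.real_smul, e1, ← mul_assoc (pw ρ (-(1 / 2)) x) (pw ρ 1 x), e2]
  push_cast
  ring

lemma U1_der (hH : T_HELN) (hn : 2 ≤ n) (hh : Continuous h) (hρ : 0 < ρ) (x : ℝ) {θ : E n}
    (hθ : ‖θ‖ = 1) : HasDerivAt (fun x => U1 h ρ x θ) (U2 h ρ x θ) x := by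
  have h1 := ((hH n h hn hh).1 ρ θ (sr ρ x) hρ hθ (sr_pos hρ x)).2
  have h2 := h1.scomp x (sr_der ρ x)
  have h3 := ((pw_der hρ (1 / 2) x).mul h2).sub ((U_der hH hn hh hρ x hθ).const_mul (1 / 2))
  refine h3.congr_deriv ?_
  have hs := sr_pos hρ x
  have e0 : (((Real.exp (2 * x) : ℝ)) : ℂ) = 4 * Real.pi ^ 2 * ρ ^ 2 * ((sr ρ x : ℝ) : ℂ) ^ 2 := by
    rw [← Complex.ofReal_pow]
    have : Real.exp (2 * x) = 4 * Real.pi ^ 2 * ρ ^ 2 * sr ρ x ^ 2 := by
      unfold sr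
      rw [two_mul x, Real.exp_add]
      field_simp
      ring
    rw [this]
    push_cast
    ring
  have e1 : pw ρ (1 / 2) x * ((sr ρ x : ℝ) : ℂ) *
      ((sr ρ x ^ (((n : ℝ) - 1) / 2) : ℝ) : ℂ) =
      ((sr ρ x : ℝ) : ℂ) ^ 2 * pw ρ (((n : ℝ) - 2) / 2) x := by
    unfold pw
    rw [← Complex.ofReal_mul, ← Complex.ofReal_mul, ← Complex.ofReal_pow, ← Complex.ofReal_mul]
    congr 1
    rw [← Real.rpow_natCast, ← Real.rpow_add hs]
    nth_rewrite 2 [← Real.rpow_one (sr ρ x)]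
    rw [← Real.rpow_add hs, ← Real.rpow_add hs]
    congr 1
    push_cast
    ring
  have e2 : pw ρ (1 / 2) x * ((sr ρ x : ℝ) : ℂ) *
      ((sr ρ x ^ (((n : ℝ) - 1) / 2 - 2) : ℝ) : ℂ) = pw ρ (((n : ℝ) - 2) / 2) x := by
    unfold pw
    rw [← Complex.ofReal_mul, ← Complex.ofReal_mul]
    congr 1
    nth_rewrite 2 [← Real.rpow_one (sr ρ x)]
    rw [← Real.rpow_add hs, ← Real.rpow_add hs]
    congr 1
    ring
  simp only [Function.comp_apply, Complex.real_smul]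
  unfold U2
  set W := WD h ρ θ (sr ρ x) with hW
  set Sv := SH h ρ (sr ρ x • θ) with hSv
  set Lv := Lam (SH h ρ) (sr ρ x • θ) with hLv
  set q := ((sr ρ x : ℝ) : ℂ) with hq
  set P := pw ρ (((n : ℝ) - 2) / 2) x with hP
  have hU : U h ρ x θ = P * Sv := rfl
  have hU1 : U1 h ρ x θ = pw ρ (1 / 2) x * W - 1 / 2 * (P * Sv) := rfl
  rw [hU1, hU]
  set A := ((sr ρ x ^ (((n : ℝ) - 1) / 2) : ℝ) : ℂ) with hA
  set B := ((sr ρ x ^ (((n : ℝ) - 1) / 2 - 2) : ℝ) : ℂ) with hB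
  rw [Complex.ofReal_sub, e0]
  push_cast
  linear_combination (-(4 * (Real.pi : ℂ) ^ 2 * (ρ : ℂ) ^ 2) * Sv) * e1 +
    (((n : ℂ) - 1) * ((n : ℂ) - 3) / 4 * Sv - Lv) * e2

/-! ### continuity -/

lemma pt_cont (ρ : ℝ) : Continuous fun p : ℝ × Sp n => sr ρ p.1 • (p.2 : E n) := by
  have h1 : Continuous fun p : ℝ × Sp n => sr ρ p.1 := (sr_cont ρ).comp continuous_fst
  have h2 : Continuous fun p : ℝ × Sp n => (p.2 : E n) := by fun_prop
  exact h1.smul h2

lemma U_cont (hh : Continuous h) (hρ : 0 < ρ) :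
    Continuous fun p : ℝ × Sp n => U h ρ p.1 (p.2 : E n) := by
  unfold U
  exact ((pw_cont hρ _).comp continuous_fst).mul ((SH_cont hh ρ).comp (pt_cont ρ))

lemma WD_cont (hh : Continuous h) (hρ : 0 < ρ) :
    Continuous fun p : ℝ × Sp n => WD h ρ (p.2 : E n) (sr ρ p.1) := by
  unfold WD
  have hj : ∀ j : Fin n, Continuous fun ξ : E n => 2 * Real.pi * Complex.I * (ξ j : ℂ) * h ξ := by
    intro j
    have h1 : Continuous fun ξ : E n => (ξ j : ℂ) := Complex.continuous_ofReal.comp (by fun_prop)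
    exact (continuous_const.mul h1).mul hh
  have hθ : ∀ j : Fin n, Continuous fun p : ℝ × Sp n => (((p.2 : E n) j : ℝ) : ℂ) := by
    intro j
    have h1 : Continuous fun p : ℝ × Sp n => (p.2 : E n) j := by fun_prop
    exact Complex.continuous_ofReal.comp h1
  have hd : Continuous fun p : ℝ × Sp n => (((((n : ℝ) - 1) / 2 / sr ρ p.1) : ℝ) : ℂ) := by
    have h1 : Continuous fun p : ℝ × Sp n => ((n : ℝ) - 1) / 2 / sr ρ p.1 :=
      continuous_const.div ((sr_cont ρ).comp continuous_fst) fun p => (sr_pos hρ p.1).ne'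
    exact Complex.continuous_ofReal.comp h1
  refine ((pw_cont hρ (((n : ℝ) - 1) / 2)).comp continuous_fst).mul (Continuous.add ?_ ?_)
  · exact continuous_finsetSum _ fun j _ => (hθ j).mul ((SH_cont (hj j) ρ).comp (pt_cont ρ))
  · exact hd.mul ((SH_cont hh ρ).comp (pt_cont ρ))

lemma U1_cont (hh : Continuous h) (hρ : 0 < ρ) :
    Continuous fun p : ℝ × Sp n => U1 h ρ p.1 (p.2 : E n) := by
  unfold U1
  exact (((pw_cont hρ _).comp continuous_fst).mul (WD_cont hh hρ)).sub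
    (continuous_const.mul (U_cont hh hρ))

lemma Lam_cont (hH : T_HELN) (hn : 2 ≤ n) (hh : Continuous h) (ρ : ℝ) :
    Continuous fun p : ℝ × Sp n => Lam (SH h ρ) (sr ρ p.1 • (p.2 : E n)) := by
  have hL : Continuous (fun p : ℝ × E n => Lam (SH h p.1) p.2) := (hH n h hn hh).2
  have hp : Continuous fun p : ℝ × Sp n => ((ρ, sr ρ p.1 • (p.2 : E n)) : ℝ × E n) :=
    continuous_const.prodMk (pt_cont ρ)
  have := hL.comp hp
  exact this

lemma U2_cont (hH : T_HELN) (hn : 2 ≤ n) (hh : Continuous h) (hρ : 0 < ρ) :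
    Continuous fun p : ℝ × Sp n => U2 h ρ p.1 (p.2 : E n) := by
  unfold U2
  have h1 : Continuous fun p : ℝ × Sp n =>
      ((Real.exp (2 * p.1) - (((n : ℝ) - 2) / 2) ^ 2 : ℝ) : ℂ) := by
    have h2 : Continuous fun p : ℝ × Sp n => Real.exp (2 * p.1) - (((n : ℝ) - 2) / 2) ^ 2 := by
      fun_prop
    exact Complex.continuous_ofReal.comp h2
  have h3 := Lam_cont hH hn hh ρ
  have h4 : Continuous fun p : ℝ × Sp n => pw ρ (((n : ℝ) - 2) / 2) p.1 :=
    (pw_cont hρ _).comp continuous_fst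
  have h5 := U_cont hh hρ
  exact ((h1.mul h5).neg).sub (h4.mul h3)

/-! ### the coefficients -/

lemma re_der {F : ℝ → ℂ} {F' : ℂ} {x : ℝ} (h : HasDerivAt F F' x) :
    HasDerivAt (fun x => (F x).re) F'.re x :=
  Complex.reCLM.hasFDerivAt.comp_hasDerivAt x h

lemma im_der {F : ℝ → ℂ} {F' : ℂ} {x : ℝ} (h : HasDerivAt F F' x) :
    HasDerivAt (fun x => (F x).im) F'.im x :=
  Complex.imCLM.hasFDerivAt.comp_hasDerivAt x h

lemma ZZ_eq (Y : E n → ℂ) (h : E n → ℂ) (ρ x : ℝ) :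
    ZZ Y h ρ x = ∫ θ, U h ρ x (θ : E n) * conj (Y (θ : E n)) ∂(sg n) := by
  have e : ∀ θ : Metric.sphere (0 : E n) 1, U h ρ x (θ : E n) * conj (Y (θ : E n)) =
      pw ρ (((n : ℝ) - 2) / 2) x * (SH h ρ (sr ρ x • (θ : E n)) * conj (Y (θ : E n))) := by
    intro θ
    unfold U
    ring
  simp only [e]
  rw [integral_const_mul]
  rfl

lemma bounded {Y : E n → ℂ} (hY : Continuous Y) (hn : 2 ≤ n) (hh : Continuous h) (hρ : 0 < ρ) :
    ∃ B : ℝ, ∀ x ≤ 0, ‖ZZ Y h ρ x‖ ≤ B := by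
  have hb : (0 : ℝ) ≤ ((n : ℝ) - 2) / 2 := by
    have : (2 : ℝ) ≤ n := by exact_mod_cast hn
    linarith
  have h1 : Continuous fun s : ℝ => ((s ^ (((n : ℝ) - 2) / 2) : ℝ) : ℂ) * co Y h ρ s := by
    refine (Complex.continuous_ofReal.comp (Real.continuous_rpow_const hb)).mul ?_
    unfold co
    refine cont_int (F := fun (s : ℝ) (θ : Sp n) => SH h ρ (s • (θ : E n)) * conj (Y (θ : E n))) ?_
    have h2 : Continuous fun p : ℝ × Sp n => p.1 • (p.2 : E n) := by fun_prop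
    have h3 : Continuous fun p : ℝ × Sp n => Y (p.2 : E n) := hY.comp (by fun_prop)
    exact ((SH_cont hh ρ).comp h2).mul (Complex.continuous_conj.comp h3)
  obtain ⟨B, hB⟩ := isCompact_Icc.exists_bound_of_continuousOn (s := Icc 0 (1 / (2 * Real.pi * ρ)))
    h1.continuousOn
  refine ⟨B, fun x hx => hB (sr ρ x) ⟨(sr_pos hρ x).le, ?_⟩⟩
  unfold sr
  gcongr
  exact Real.exp_le_one_iff.2 hx

end ODEN_

open ODEN_ in
/-- ODEN. -/
theorem p_ODEN (h1 : T_HELN) : T_ODEN := by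
  intro n M Y lam h m ρ hn hEB hh hρ
  have hYc : Continuous fun p : ℝ × (Metric.sphere (0 : E n) 1) => conj (Y m (p.2 : E n)) :=
    Complex.continuous_conj.comp ((hEB.cont m).comp (by fun_prop))
  have hθ : ∀ θ : Metric.sphere (0 : E n) 1, ‖(θ : E n)‖ = 1 := fun θ =>
    mem_sphere_zero_iff_norm.1 θ.2
  have hd1 : ∀ x, HasDerivAt (ZZ (Y m) h ρ)
      (∫ θ, U1 h ρ x (θ : E n) * conj (Y m (θ : E n)) ∂(sg n)) x := by
    intro x
    have e : ZZ (Y m) h ρ = fun x => ∫ θ, U h ρ x (θ : E n) * conj (Y m (θ : E n)) ∂(sg n) :=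
      funext fun x => ZZ_eq _ _ _ _
    rw [e]
    exact Pool.Agent.CRN.HELN_.int_hda
      (F := fun x (θ : Metric.sphere (0 : E n) 1) => U h ρ x (θ : E n) * conj (Y m (θ : E n)))
      (F' := fun x (θ : Metric.sphere (0 : E n) 1) => U1 h ρ x (θ : E n) * conj (Y m (θ : E n)))
      ((U_cont hh hρ).mul hYc) ((U1_cont hh hρ).mul hYc)
      (fun x θ => (U_der h1 hn hh hρ x (hθ θ)).mul_const _) x
  have hd2 : ∀ x, HasDerivAt
      (fun x => ∫ θ, U1 h ρ x (θ : E n) * conj (Y m (θ : E n)) ∂(sg n))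
      (∫ θ, U2 h ρ x (θ : E n) * conj (Y m (θ : E n)) ∂(sg n)) x := fun x =>
    Pool.Agent.CRN.HELN_.int_hda
      (F := fun x (θ : Metric.sphere (0 : E n) 1) => U1 h ρ x (θ : E n) * conj (Y m (θ : E n)))
      (F' := fun x (θ : Metric.sphere (0 : E n) 1) => U2 h ρ x (θ : E n) * conj (Y m (θ : E n)))
      ((U1_cont hh hρ).mul hYc) ((U2_cont h1 hn hh hρ).mul hYc)
      (fun x θ => (U1_der h1 hn hh hρ x (hθ θ)).mul_const _) x
  have hν : nu n (lam m) ^ 2 = lam m + (((n : ℝ) - 2) / 2) ^ 2 := by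
    unfold nu
    rw [Real.sq_sqrt]
    have := hEB.nonneg m
    positivity
  have he : ∀ x, ∫ θ, U2 h ρ x (θ : E n) * conj (Y m (θ : E n)) ∂(sg n) =
      ((-(PP (nu n (lam m)) x) : ℝ) : ℂ) * ZZ (Y m) h ρ x := by
    intro x
    have hL := hEB.eig m (fun y => SH h ρ (sr ρ x • y))
      ((SH_smooth hh ρ).comp (by fun_prop))
    simp only [Lam_scale] at hL
    have hc : ∀ F : ℝ × (Metric.sphere (0 : E n) 1) → ℂ, Continuous F →
        Integrable (fun θ => F (x, θ)) (sg n) := fun F hF =>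
      Pool.Agent.CRN.HELN_.int_of_cont (hF.comp (Continuous.prodMk_right x))
    have hLc : Continuous fun p : ℝ × (Metric.sphere (0 : E n) 1) =>
        Lam (SH h ρ) (sr ρ p.1 • (p.2 : E n)) * conj (Y m (p.2 : E n)) :=
      (Lam_cont h1 hn hh ρ).mul hYc
    have i1 : Integrable (fun θ : Metric.sphere (0 : E n) 1 =>
        U h ρ x (θ : E n) * conj (Y m (θ : E n))) (sg n) :=
      hc (fun p => U h ρ p.1 (p.2 : E n) * conj (Y m (p.2 : E n))) ((U_cont hh hρ).mul hYc)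
    have i2 : Integrable (fun θ : Metric.sphere (0 : E n) 1 =>
        Lam (SH h ρ) (sr ρ x • (θ : E n)) * conj (Y m (θ : E n))) (sg n) :=
      hc (fun p => Lam (SH h ρ) (sr ρ p.1 • (p.2 : E n)) * conj (Y m (p.2 : E n))) hLc
    have e1 : ∀ θ : Metric.sphere (0 : E n) 1, U2 h ρ x (θ : E n) * conj (Y m (θ : E n)) =
        -((Real.exp (2 * x) - (((n : ℝ) - 2) / 2) ^ 2 : ℝ) : ℂ) *
          (U h ρ x (θ : E n) * conj (Y m (θ : E n))) -
        pw ρ (((n : ℝ) - 2) / 2) x *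
          (Lam (SH h ρ) (sr ρ x • (θ : E n)) * conj (Y m (θ : E n))) := by
      intro θ
      unfold U2
      ring
    simp only [e1]
    rw [integral_sub (i1.const_mul _) (i2.const_mul _), integral_const_mul, integral_const_mul,
      ← ZZ_eq, hL]
    have e2 : ZZ (Y m) h ρ x = pw ρ (((n : ℝ) - 2) / 2) x *
        ∫ θ, SH h ρ (sr ρ x • (θ : E n)) * conj (Y m (θ : E n)) ∂(sg n) := rfl
    rw [e2]
    unfold PP
    rw [hν]
    push_cast
    ring
  obtain ⟨B, hB⟩ := bounded (hEB.cont m) hn hh hρ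
  refine ⟨fun x => ∫ θ, U1 h ρ x (θ : E n) * conj (Y m (θ : E n)) ∂(sg n), ?_, ?_⟩
  · refine ⟨fun x => re_der (hd1 x), fun x => ?_, B, fun x hx => ?_⟩
    · have := re_der (hd2 x)
      rw [he x, Complex.re_ofReal_mul] at this
      exact this
    · exact (Complex.abs_re_le_norm _).trans (hB x hx)
  · refine ⟨fun x => im_der (hd1 x), fun x => ?_, B, fun x hx => ?_⟩
    · have := im_der (hd2 x)
      rw [he x, Complex.im_ofReal_mul] at this
      exact this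
    · exact (Complex.abs_im_le_norm _).trans (hB x hx)


end Pool.Agent.CRR
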