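import Pool.Agent.CRR.Targets
import Pool.Agent.H25.Plancherel

set_option autoImplicit false

/-!
# CRR, target OFD: far frequencies
-/

namespace Pool.Agent.CRR

open MeasureTheory FourierTransform Set Filter Topology
open scoped ENNReal NNReal ComplexConjugate
open Pool.Agent.CAR (e1)

namespace OFD_

theorem e1_norm (x : ℝ) : ‖e1 x‖ = 1 := by
  unfold e1
  rw [show (2 * Real.pi * Complex.I * (x : ℂ) : ℂ) = ((2 * Real.pi * x : ℝ) : ℂ) * Complex.I
    from by push_cast; ring]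
  exact Complex.norm_exp_ofReal_mul_I _

theorem e1_cont : Continuous e1 := by
  unfold e1
  fun_prop

theorem e1_deriv (c s : ℝ) : HasDerivAt (fun s : ℝ => e1 (c * s))
    (2 * Real.pi * Complex.I * c * e1 (c * s)) s := by
  unfold e1
  have h1 : HasDerivAt (fun s : ℝ => (2 * Real.pi * Complex.I * ((c * s : ℝ) : ℂ) : ℂ))
      (2 * Real.pi * Complex.I * c) s := by
    have h2 : HasDerivAt (fun s : ℝ => ((c * s : ℝ) : ℂ)) (c : ℂ) s := by
      have := ((hasDerivAt_id s).const_mul c).ofReal_comp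
      simpa using this
    exact h2.const_mul _
  have h3 := h1.cexp
  convert h3 using 1
  ring

theorem fh_eq_fourier (H : ℝ → ℂ) (v : ℝ) : fh H v = 𝓕 H (-v) := by
  rw [Real.fourier_real_eq_integral_exp_smul]
  unfold fh e1
  refine integral_congr_ae (ae_of_all _ fun s => ?_)
  simp only [smul_eq_mul]
  rw [mul_comm]
  congr 2
  push_cast
  ring

theorem lint_of_eLpNorm {u v : ℝ → ℂ} (h : eLpNorm u 2 = eLpNorm v 2) :
    ∫⁻ x, ‖u x‖ₑ ^ 2 = ∫⁻ x, ‖v x‖ₑ ^ 2 := by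
  rw [eLpNorm_eq_lintegral_rpow_enorm_toReal (by norm_num) (by norm_num),
    eLpNorm_eq_lintegral_rpow_enorm_toReal (by norm_num) (by norm_num)] at h
  have h2 := congrArg (fun t => t ^ (2 : ℝ)) h
  simp only [← ENNReal.rpow_mul] at h2
  simpa using h2

theorem plancherel {K : ℝ → ℂ} (h1 : Integrable K) (h2 : MemLp K 2) :
    ∫⁻ v, ‖fh K v‖ₑ ^ 2 = ∫⁻ s, ‖K s‖ₑ ^ 2 := by
  rw [← lint_of_eLpNorm (Pool.Agent.H25.Plancherel.eLpNorm_fourier_eq h1 h2),
    ← lintegral_neg_eq_self (fun x => ‖𝓕 K x‖ₑ ^ 2)]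
  refine lintegral_congr fun x => ?_
  rw [fh_eq_fourier]

theorem int_e1 {K : ℝ → ℂ} (h1 : Integrable K) (v : ℝ) :
    Integrable (fun s => K s * e1 (v * s)) := by
  have hm : Continuous (fun s : ℝ => e1 (v * s)) :=
    e1_cont.comp (continuous_const.mul continuous_id)
  exact h1.mul_bdd (c := 1) hm.aestronglyMeasurable (ae_of_all _ fun r => (e1_norm _).le)

theorem fh_cont {K : ℝ → ℂ} (h1 : Integrable K) : Continuous (fh K) := by
  unfold fh
  refine continuous_of_dominated (bound := fun s => ‖K s‖) (fun v => (int_e1 h1 v).1)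
    (fun v => ae_of_all _ fun s => ?_) h1.norm (ae_of_all _ fun s => ?_)
  · rw [norm_mul, e1_norm, mul_one]
  · exact continuous_const.mul (e1_cont.comp (continuous_id.mul continuous_const))

/-- multiplication by `2 π i s` -/
noncomputable def ms (K : ℝ → ℂ) (s : ℝ) : ℂ := 2 * Real.pi * Complex.I * (s : ℂ) * K s

theorem fh_deriv {K : ℝ → ℂ} (h1 : Integrable K) (h2 : Integrable (ms K)) (v : ℝ) :
    HasDerivAt (fh K) (fh (ms K) v) v := by
  have key := hasDerivAt_integral_of_dominated_loc_of_deriv_le (μ := volume)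
    (F := fun (v : ℝ) (s : ℝ) => K s * e1 (v * s))
    (F' := fun (v : ℝ) (s : ℝ) => ms K s * e1 (v * s)) (x₀ := v) (s := univ)
    (bound := fun s => ‖ms K s‖) Filter.univ_mem
    (Filter.Eventually.of_forall fun v => (int_e1 h1 v).1) (int_e1 h1 v) (int_e1 h2 v).1
    (ae_of_all _ fun s x _ => by rw [norm_mul, e1_norm, mul_one]) h2.norm
    (ae_of_all _ fun s x _ => ?_)
  · exact key.2
  · have h3 := (e1_deriv s x).const_mul (K s)
    have e1' : (fun y : ℝ => K s * e1 (s * y)) = fun y : ℝ => K s * e1 (y * s) := by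
      funext y
      rw [mul_comm s y]
    rw [e1'] at h3
    refine h3.congr_deriv ?_
    unfold ms
    rw [mul_comm s x]
    ring

theorem le_root {x B : ℝ≥0∞} (h : x ^ 2 ≤ B) : x ≤ B ^ (1 / 2 : ℝ) := by
  have h2 : x = (x ^ 2) ^ (1 / 2 : ℝ) := by
    rw [← ENNReal.rpow_natCast, ← ENNReal.rpow_mul]
    norm_num
  rw [h2]
  exact ENNReal.rpow_le_rpow h (by norm_num)

theorem root_sq (B : ℝ≥0∞) : (B ^ (1 / 2 : ℝ)) ^ 2 = B := by
  rw [← ENNReal.rpow_natCast, ← ENNReal.rpow_mul]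
  norm_num

theorem iSup_sq_le {ι : Sort*} (f : ι → ℝ≥0∞) (B : ℝ≥0∞) (h : ∀ i, f i ^ 2 ≤ B) :
    (⨆ i, f i) ^ 2 ≤ B := by
  have h1 : ⨆ i, f i ≤ B ^ (1 / 2 : ℝ) := iSup_le fun i => le_root (h i)
  calc (⨆ i, f i) ^ 2 ≤ (B ^ (1 / 2 : ℝ)) ^ 2 := pow_le_pow_left₀ (zero_le) h1 2
    _ = B := root_sq B

theorem tsum_lint_le {α ι : Type*} [MeasurableSpace α] (μ : Measure α) (f : ι → α → ℝ≥0∞) :
    ∑' i, ∫⁻ x, f i x ∂μ ≤ ∫⁻ x, ∑' i, f i x ∂μ := by
  classical
  rw [ENNReal.tsum_eq_iSup_sum]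
  refine iSup_le fun s => ?_
  have h : ∀ s : Finset ι, ∑ i ∈ s, ∫⁻ x, f i x ∂μ ≤ ∫⁻ x, ∑ i ∈ s, f i x ∂μ := by
    intro s
    induction s using Finset.induction_on with
    | empty => simp
    | insert a s ha ih =>
      simp only [Finset.sum_insert ha]
      exact (add_le_add le_rfl ih).trans (le_lintegral_add _ _)
  exact (h s).trans (lintegral_mono fun x => ENNReal.sum_le_tsum s)

theorem tsum_windows (w : ℝ) (hw : 0 < w) (g : ℝ → ℝ≥0∞) :
    ∑' i : ℤ, ∫⁻ x in Ioc ((i : ℝ) * w) (((i : ℝ) + 1) * w), g x = ∫⁻ x, g x := by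
  have h1 : ∀ i : ℤ, Ioc ((i : ℝ) * w) (((i : ℝ) + 1) * w) = Ioc (i • w) ((i + 1) • w) := by
    intro i
    rw [zsmul_eq_mul, zsmul_eq_mul]
    push_cast
    rfl
  simp only [h1]
  rw [← lintegral_iUnion (fun i => measurableSet_Ioc) (pairwise_disjoint_Ioc_zsmul w) g,
    iUnion_Ioc_zsmul hw, setLIntegral_univ]

/-- a pointwise bound by means -/
theorem sup_window {Q Q1 : ℝ → ℂ} (hd : ∀ y, HasDerivAt Q (Q1 y) y) (hc1 : Continuous Q1)
    {a b y : ℝ} (hab : a < b) (hy : y ∈ Icc a b) :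
    ‖Q y‖ ^ 2 ≤ (b - a)⁻¹ * (∫ x in a..b, ‖Q x‖ ^ 2) + 2 * ∫ x in a..b, ‖Q x‖ * ‖Q1 x‖ := by
  have hQc : Continuous Q := continuous_iff_continuousAt.mpr fun y => (hd y).continuousAt
  have hq2 : Continuous (fun x => ‖Q x‖ ^ 2) := hQc.norm.pow 2
  set M := 2 * ∫ x in a..b, ‖Q x‖ * ‖Q1 x‖ with hM
  have hpt : ∀ z ∈ Icc a b, ‖Q y‖ ^ 2 ≤ ‖Q z‖ ^ 2 + M := by
    intro z hz
    have hder : ∀ x ∈ uIcc z y, HasDerivAt (fun x => ‖Q x‖ ^ 2) (2 * inner ℝ (Q x) (Q1 x)) x :=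
      fun x _ => (hd x).norm_sq
    have hcont : Continuous (fun x => 2 * inner ℝ (Q x) (Q1 x)) :=
      continuous_const.mul (hQc.inner hc1)
    have hftc := intervalIntegral.integral_eq_sub_of_hasDerivAt hder
      (hcont.intervalIntegrable z y)
    have hsub : Set.uIoc z y ⊆ Ioc a b := by
      intro x hx
      rw [Set.mem_uIoc] at hx
      rcases hx with hx | hx
      · exact ⟨lt_of_le_of_lt hz.1 hx.1, hx.2.trans hy.2⟩
      · exact ⟨lt_of_le_of_lt hy.1 hx.1, hx.2.trans hz.2⟩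
    have hnn : Continuous (fun x => 2 * (‖Q x‖ * ‖Q1 x‖)) :=
      continuous_const.mul (hQc.norm.mul hc1.norm)
    have hb : ‖∫ x in z..y, 2 * inner ℝ (Q x) (Q1 x)‖ ≤ M := by
      calc ‖∫ x in z..y, 2 * inner ℝ (Q x) (Q1 x)‖
          ≤ ∫ x in Set.uIoc z y, ‖2 * inner ℝ (Q x) (Q1 x)‖ :=
            intervalIntegral.norm_integral_le_integral_norm_uIoc
        _ ≤ ∫ x in Set.uIoc z y, 2 * (‖Q x‖ * ‖Q1 x‖) := by
            refine setIntegral_mono_on ?_ ?_ measurableSet_uIoc fun x _ => ?_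
            · exact (hcont.norm.integrableOn_uIcc).mono_set Set.uIoc_subset_uIcc
            · exact (hnn.integrableOn_uIcc).mono_set Set.uIoc_subset_uIcc
            · rw [norm_mul, Real.norm_ofNat]
              exact mul_le_mul_of_nonneg_left (norm_inner_le_norm _ _) (by norm_num)
        _ ≤ ∫ x in Ioc a b, 2 * (‖Q x‖ * ‖Q1 x‖) := by
            refine setIntegral_mono_set ?_ ?_ (Filter.Eventually.of_forall hsub)
            · exact (hnn.integrableOn_Icc).mono_set Ioc_subset_Icc_self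
            · exact Filter.Eventually.of_forall fun x => by positivity
        _ = M := by
            rw [hM, intervalIntegral.integral_of_le hab.le, integral_const_mul]
    rw [hftc] at hb
    have := (abs_le.mp hb).2
    linarith
  have hint : ∫ _z in a..b, ‖Q y‖ ^ 2 ≤ ∫ z in a..b, (‖Q z‖ ^ 2 + M) := by
    refine intervalIntegral.integral_mono_on hab.le ?_ ?_ hpt
    · exact continuous_const.intervalIntegrable _ _
    · exact (hq2.add continuous_const).intervalIntegrable _ _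
  rw [intervalIntegral.integral_const, smul_eq_mul, intervalIntegral.integral_add
    (hq2.intervalIntegrable _ _) (continuous_const.intervalIntegrable _ _),
    intervalIntegral.integral_const, smul_eq_mul] at hint
  have hpos : 0 < b - a := sub_pos.mpr hab
  have h2 : ‖Q y‖ ^ 2 * (b - a) ≤ ((b - a)⁻¹ * (∫ x in a..b, ‖Q x‖ ^ 2) + M) * (b - a) := by
    have e : ((b - a)⁻¹ * (∫ x in a..b, ‖Q x‖ ^ 2) + M) * (b - a) =
        (∫ x in a..b, ‖Q x‖ ^ 2) + (b - a) * M := by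
      field_simp
    rw [e]
    linarith
  exact le_of_mul_le_mul_right h2 hpos

theorem lint_interval {g : ℝ → ℝ} (hg : Continuous g) (h0 : ∀ x, 0 ≤ g x) {a b : ℝ}
    (hab : a ≤ b) : ENNReal.ofReal (∫ x in a..b, g x) = ∫⁻ x in Ioc a b, ENNReal.ofReal (g x) := by
  rw [intervalIntegral.integral_of_le hab, ofReal_integral_eq_lintegral_ofReal]
  · exact (hg.integrableOn_Icc).mono_set Ioc_subset_Icc_self
  · exact Filter.Eventually.of_forall h0

theorem enorm_sq (z : ℂ) : ‖z‖ₑ ^ 2 = ENNReal.ofReal (‖z‖ ^ 2) := by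
  rw [← ofReal_norm, ENNReal.ofReal_pow (norm_nonneg z)]

theorem sup_window' {Q Q1 : ℝ → ℂ} (hd : ∀ y, HasDerivAt Q (Q1 y) y) (hc1 : Continuous Q1)
    {a b y : ℝ} (hab : a < b) (hy : y ∈ Icc a b) :
    ‖Q y‖ₑ ^ 2 ≤ ENNReal.ofReal (b - a)⁻¹ * (∫⁻ x in Ioc a b, ‖Q x‖ₑ ^ 2) +
      2 * ∫⁻ x in Ioc a b, ‖Q x‖ₑ * ‖Q1 x‖ₑ := by
  have hQc : Continuous Q := continuous_iff_continuousAt.mpr fun y => (hd y).continuousAt
  have hq2 : Continuous (fun x => ‖Q x‖ ^ 2) := hQc.norm.pow 2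
  have hq3 : Continuous (fun x => ‖Q x‖ * ‖Q1 x‖) := hQc.norm.mul hc1.norm
  have h := ENNReal.ofReal_le_ofReal (sup_window hd hc1 hab hy)
  have hpos : 0 < b - a := sub_pos.mpr hab
  rw [enorm_sq]
  refine h.trans ?_
  have i1 : 0 ≤ ∫ x in a..b, ‖Q x‖ ^ 2 :=
    intervalIntegral.integral_nonneg hab.le fun x _ => by positivity
  have i2 : 0 ≤ ∫ x in a..b, ‖Q x‖ * ‖Q1 x‖ :=
    intervalIntegral.integral_nonneg hab.le fun x _ => by positivity
  rw [ENNReal.ofReal_add (by positivity) (by positivity), ENNReal.ofReal_mul (by positivity),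
    ENNReal.ofReal_mul (by norm_num), lint_interval hq2 (fun x => by positivity)
      hab.le, lint_interval hq3 (fun x => by positivity) hab.le]
  have e1' : ∀ x, ENNReal.ofReal (‖Q x‖ ^ 2) = ‖Q x‖ₑ ^ 2 := fun x => (enorm_sq _).symm
  have e2' : ∀ x, ENNReal.ofReal (‖Q x‖ * ‖Q1 x‖) = ‖Q x‖ₑ * ‖Q1 x‖ₑ := fun x => by
    rw [ENNReal.ofReal_mul (norm_nonneg _), ofReal_norm, ofReal_norm]
  simp only [e1', e2']
  rw [ENNReal.ofReal_ofNat]

/-- the windows, for a primitive `e1 (X y) Q y` of `h y e1 (X y)` -/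
theorem NN_le {Q Q1 h : ℝ → ℂ} {X w : ℝ} (hw : 0 < w) (hd : ∀ y, HasDerivAt Q (Q1 y) y)
    (hc1 : Continuous Q1) (hh : Continuous h)
    (heq : ∀ y, 2 * Real.pi * Complex.I * X * Q y + Q1 y = h y) (i : ℤ) :
    NN w h i X ^ 2 ≤ 4 * (ENNReal.ofReal w⁻¹ *
      (∫⁻ x in Ioc ((i : ℝ) * w) (((i : ℝ) + 1) * w), ‖Q x‖ₑ ^ 2) +
      2 * ∫⁻ x in Ioc ((i : ℝ) * w) (((i : ℝ) + 1) * w), ‖Q x‖ₑ * ‖Q1 x‖ₑ) := by
  set a : ℝ := (i : ℝ) * w with ha
  set b : ℝ := ((i : ℝ) + 1) * w with hb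
  have hab : a < b := by
    rw [ha, hb]
    linarith
  have hba : b - a = w := by
    rw [ha, hb]
    ring
  set M : ℝ≥0∞ := ENNReal.ofReal w⁻¹ * (∫⁻ x in Ioc a b, ‖Q x‖ₑ ^ 2) +
      2 * ∫⁻ x in Ioc a b, ‖Q x‖ₑ * ‖Q1 x‖ₑ with hM
  have hsup : ∀ y ∈ Icc a b, ‖Q y‖ₑ ^ 2 ≤ M := by
    intro y hy
    have := sup_window' hd hc1 hab hy
    rwa [hba] at this
  unfold NN
  refine iSup_sq_le _ _ fun V => ?_
  rcases le_or_gt (min V b) a with hV | hV
  · rw [Ioc_eq_empty (not_lt.mpr hV), setIntegral_empty, enorm_zero]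
    simp
  · set c := min V b with hc
    have hcb : c ≤ b := min_le_right _ _
    have hder : ∀ y ∈ uIcc a c, HasDerivAt (fun y => e1 (X * y) * Q y) (h y * e1 (X * y)) y := by
      intro y _
      have h3 := (e1_deriv X y).mul (hd y)
      refine h3.congr_deriv ?_
      rw [← heq y]
      ring
    have hcont : Continuous (fun y => h y * e1 (X * y)) :=
      hh.mul (e1_cont.comp (continuous_const.mul continuous_id))
    have hftc := intervalIntegral.integral_eq_sub_of_hasDerivAt hder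
      (hcont.intervalIntegrable a c)
    rw [intervalIntegral.integral_of_le hV.le] at hftc
    rw [hftc]
    have hn : ‖e1 (X * c) * Q c - e1 (X * a) * Q a‖ₑ ≤ ‖Q c‖ₑ + ‖Q a‖ₑ := by
      refine (enorm_sub_le).trans (le_of_eq ?_)
      have e : ∀ z : ℝ, ‖e1 z‖ₑ = 1 := fun z => by
        rw [← ofReal_norm, e1_norm, ENNReal.ofReal_one]
      rw [enorm_mul, enorm_mul, e, e, one_mul, one_mul]
    have h1 := le_root (hsup c ⟨hV.le, hcb⟩)
    have h2 := le_root (hsup a ⟨le_rfl, hab.le⟩)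
    calc ‖e1 (X * c) * Q c - e1 (X * a) * Q a‖ₑ ^ 2 ≤
          (M ^ (1 / 2 : ℝ) + M ^ (1 / 2 : ℝ)) ^ 2 :=
          pow_le_pow_left₀ (zero_le) (hn.trans (add_le_add h1 h2)) 2
      _ = 4 * (M ^ (1 / 2 : ℝ)) ^ 2 := by ring
      _ = 4 * M := by rw [root_sq]

/-- Cauchy-Schwarz -/
theorem cs {f g : ℝ → ℝ≥0∞} (hf : Measurable f) (hg : Measurable g) :
    ∫⁻ x, f x * g x ≤ (∫⁻ x, f x ^ 2) ^ (1 / 2 : ℝ) * (∫⁻ x, g x ^ 2) ^ (1 / 2 : ℝ) := by
  have h := ENNReal.lintegral_mul_le_Lp_mul_Lq (volume : Measure ℝ)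
    Real.HolderConjugate.two_two hf.aemeasurable hg.aemeasurable
  simpa using h

end OFD_

open OFD_

theorem p_OFD : T_OFD := by
  refine ⟨8, fun w D G Om H hw hD hG hOm hH hX => ?_⟩
  set N : ℝ≥0∞ := ∫⁻ s, ‖H s‖ₑ ^ 2 with hN
  set c : ℝ≥0∞ := ENNReal.ofReal ((w * D ^ 2)⁻¹ + G * D⁻¹) with hc
  have key : ∀ X ∈ Om, ∑' i : ℤ, NN w (fh H) i X ^ 2 ≤ 8 * c * N := by
    intro X hXO
    have hHX := hX X hXO
    have hpi : (0 : ℝ) < 2 * Real.pi := by positivity
    set K : ℝ → ℂ := fun s => H s * (2 * Real.pi * Complex.I * ((s : ℂ) + X))⁻¹ with hK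
    have hKm : Measurable K := by
      refine hH.meas.mul (Measurable.inv ?_)
      fun_prop
    have hnorm : ∀ s : ℝ, ‖(2 * Real.pi * Complex.I * ((s : ℂ) + X))⁻¹‖ =
        (2 * Real.pi * |s + X|)⁻¹ := by
      intro s
      rw [norm_inv, norm_mul, norm_mul, Complex.norm_I, mul_one, ← Complex.ofReal_add,
        Complex.norm_real, Real.norm_eq_abs]
      congr 2
      rw [norm_mul, Complex.norm_real, Real.norm_eq_abs, abs_of_pos Real.pi_pos]
      norm_num
    have hKb : ∀ s, ‖K s‖ ≤ D⁻¹ * ‖H s‖ := by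
      intro s
      rcases eq_or_ne (H s) 0 with h0 | h0
      · simp [hK, h0]
      · have h1 := (hHX s h0).1
        have hpos : 0 < |s + X| := lt_of_lt_of_le hD h1
        rw [hK]
        simp only []
        rw [norm_mul, hnorm, mul_comm]
        refine mul_le_mul_of_nonneg_right ?_ (norm_nonneg _)
        refine inv_anti₀ hD ?_
        have h2 : (1 : ℝ) ≤ 2 * Real.pi := by linarith [Real.pi_gt_three]
        calc D ≤ |s + X| := h1
          _ = 1 * |s + X| := (one_mul _).symm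
          _ ≤ 2 * Real.pi * |s + X| := mul_le_mul_of_nonneg_right h2 hpos.le
    have hK1b : ∀ s, ‖ms K s‖ ≤ G * ‖H s‖ := by
      intro s
      rcases eq_or_ne (H s) 0 with h0 | h0
      · have : ms K s = 0 := by simp [ms, hK, h0]
        rw [this, norm_zero]
        positivity
      · have h1 := (hHX s h0).1
        have h2 := (hHX s h0).2
        have hpos : 0 < |s + X| := lt_of_lt_of_le hD h1
        unfold ms
        rw [hK]
        simp only []
        rw [norm_mul, norm_mul (H s), hnorm]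
        have e : ‖(2 * Real.pi * Complex.I * (s : ℂ) : ℂ)‖ = 2 * Real.pi * |s| := by
          rw [norm_mul, norm_mul, norm_mul, Complex.norm_I, mul_one, Complex.norm_real,
            Complex.norm_real, Real.norm_eq_abs, Real.norm_eq_abs, abs_of_pos Real.pi_pos]
          norm_num
        rw [e]
        have e2 : 2 * Real.pi * |s| * (‖H s‖ * (2 * Real.pi * |s + X|)⁻¹) =
            |s| / |s + X| * ‖H s‖ := by
          field_simp
        rw [e2]
        refine mul_le_mul_of_nonneg_right ?_ (norm_nonneg _)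
        rw [div_le_iff₀ hpos]
        exact h2
    have hK1m : Measurable (ms K) := by
      unfold ms
      refine Measurable.mul ?_ hKm
      fun_prop
    have hKi : Integrable K := by
      refine (hH.int.norm.const_mul D⁻¹).mono' hKm.aestronglyMeasurable (ae_of_all _ hKb)
    have hK1i : Integrable (ms K) := by
      refine (hH.int.norm.const_mul G).mono' hK1m.aestronglyMeasurable (ae_of_all _ hK1b)
    have hH2 : MemLp H 2 :=
      (memLp_two_iff_integrable_sq_norm hH.meas.aestronglyMeasurable).mpr hH.sq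
    have hK2 : MemLp K 2 := hH2.of_le_mul hKm.aestronglyMeasurable (ae_of_all _ hKb)
    have hK12 : MemLp (ms K) 2 := hH2.of_le_mul hK1m.aestronglyMeasurable (ae_of_all _ hK1b)
    have heq : ∀ y, 2 * Real.pi * Complex.I * X * fh K y + fh (ms K) y = fh H y := by
      intro y
      unfold fh
      rw [← integral_const_mul, ← integral_add ((int_e1 hKi y).const_mul _) (int_e1 hK1i y)]
      refine integral_congr_ae (ae_of_all _ fun s => ?_)
      simp only []
      rcases eq_or_ne (H s) 0 with h0 | h0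
      · simp [ms, hK, h0]
      · have hpos : 0 < |s + X| := lt_of_lt_of_le hD (hHX s h0).1
        have hne : ((s : ℂ) + X) ≠ 0 := by
          rw [← Complex.ofReal_add]
          exact_mod_cast abs_pos.mp hpos
        have hpi' : (Real.pi : ℂ) ≠ 0 := by exact_mod_cast Real.pi_ne_zero
        simp only [ms, hK]
        field_simp
        ring
    have hbound := fun i => NN_le hw (fh_deriv hKi hK1i) (fh_cont hK1i) (fh_cont hH.int) heq i
    have hsum : ∑' i : ℤ, NN w (fh H) i X ^ 2 ≤ 4 * (ENNReal.ofReal w⁻¹ *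
        (∫⁻ x, ‖fh K x‖ₑ ^ 2) + 2 * ∫⁻ x, ‖fh K x‖ₑ * ‖fh (ms K) x‖ₑ) := by
      refine (ENNReal.tsum_le_tsum hbound).trans (le_of_eq ?_)
      rw [ENNReal.tsum_mul_left, ENNReal.tsum_add, ENNReal.tsum_mul_left, ENNReal.tsum_mul_left,
        tsum_windows w hw, tsum_windows w hw]
    have hP1 : ∫⁻ x, ‖fh K x‖ₑ ^ 2 ≤ ENNReal.ofReal D⁻¹ ^ 2 * N := by
      rw [plancherel hKi hK2, hN, ← lintegral_const_mul' _ _ (by simp)]
      refine lintegral_mono fun s => ?_
      rw [← mul_pow]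
      refine pow_le_pow_left₀ (zero_le) ?_ 2
      rw [← ofReal_norm, ← ofReal_norm, ← ENNReal.ofReal_mul (by positivity)]
      exact ENNReal.ofReal_le_ofReal (hKb s)
    have hP2 : ∫⁻ x, ‖fh (ms K) x‖ₑ ^ 2 ≤ ENNReal.ofReal G ^ 2 * N := by
      rw [plancherel hK1i hK12, hN, ← lintegral_const_mul' _ _ (by simp)]
      refine lintegral_mono fun s => ?_
      rw [← mul_pow]
      refine pow_le_pow_left₀ (zero_le) ?_ 2
      rw [← ofReal_norm, ← ofReal_norm, ← ENNReal.ofReal_mul hG]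
      exact ENNReal.ofReal_le_ofReal (hK1b s)
    have hcs : ∫⁻ x, ‖fh K x‖ₑ * ‖fh (ms K) x‖ₑ ≤ ENNReal.ofReal (G * D⁻¹) * N := by
      refine (cs (fh_cont hKi).enorm.measurable (fh_cont hK1i).enorm.measurable).trans ?_
      have r1 := ENNReal.rpow_le_rpow hP1 (by norm_num : (0 : ℝ) ≤ 1 / 2)
      have r2 := ENNReal.rpow_le_rpow hP2 (by norm_num : (0 : ℝ) ≤ 1 / 2)
      refine (mul_le_mul' r1 r2).trans (le_of_eq ?_)
      have hr : ∀ x : ℝ≥0∞, (x ^ 2) ^ (1 / 2 : ℝ) = x := fun x => by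
        rw [← ENNReal.rpow_natCast, ← ENNReal.rpow_mul]
        norm_num
      rw [ENNReal.mul_rpow_of_nonneg _ _ (by norm_num), ENNReal.mul_rpow_of_nonneg _ _
        (by norm_num), hr, hr, ENNReal.ofReal_mul hG]
      have hNN : N ^ (1 / 2 : ℝ) * N ^ (1 / 2 : ℝ) = N := by
        rw [← pow_two, root_sq]
      calc ENNReal.ofReal D⁻¹ * N ^ (1 / 2 : ℝ) * (ENNReal.ofReal G * N ^ (1 / 2 : ℝ))
          = ENNReal.ofReal G * ENNReal.ofReal D⁻¹ * (N ^ (1 / 2 : ℝ) * N ^ (1 / 2 : ℝ)) := by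
            ring
        _ = _ := by rw [hNN]
    have hc' : c = ENNReal.ofReal w⁻¹ * ENNReal.ofReal D⁻¹ ^ 2 + ENNReal.ofReal (G * D⁻¹) := by
      rw [hc, ENNReal.ofReal_add (by positivity) (by positivity), mul_inv,
        ENNReal.ofReal_mul (by positivity), ← ENNReal.ofReal_pow (by positivity), inv_pow]
    calc ∑' i : ℤ, NN w (fh H) i X ^ 2
        ≤ 4 * (ENNReal.ofReal w⁻¹ * (∫⁻ x, ‖fh K x‖ₑ ^ 2) +
            2 * ∫⁻ x, ‖fh K x‖ₑ * ‖fh (ms K) x‖ₑ) := hsum
      _ ≤ 4 * (ENNReal.ofReal w⁻¹ * (ENNReal.ofReal D⁻¹ ^ 2 * N) +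
            2 * (ENNReal.ofReal (G * D⁻¹) * N)) := by gcongr
      _ ≤ 4 * (2 * (ENNReal.ofReal w⁻¹ * (ENNReal.ofReal D⁻¹ ^ 2 * N)) +
            2 * (ENNReal.ofReal (G * D⁻¹) * N)) := by
          have h12 : ENNReal.ofReal w⁻¹ * (ENNReal.ofReal D⁻¹ ^ 2 * N) ≤
              2 * (ENNReal.ofReal w⁻¹ * (ENNReal.ofReal D⁻¹ ^ 2 * N)) := by
            rw [two_mul]
            exact le_add_right le_rfl
          gcongr
      _ = 8 * c * N := by
          rw [hc']
          ring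
  calc ∑' i : ℤ, ∫⁻ X in Om, NN w (fh H) i X ^ 2
      ≤ ∫⁻ X in Om, ∑' i : ℤ, NN w (fh H) i X ^ 2 := tsum_lint_le _ _
    _ ≤ ∫⁻ _X in Om, 8 * c * N := setLIntegral_mono' hOm key
    _ = 8 * c * N * volume Om := by rw [setLIntegral_const]
    _ = _ := by
        push_cast
        ring

end Pool.Agent.CRR
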