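import Pool.Agent.CRR.Targets2
import Pool.Agent.CRN.P_GLN
import Pool.Agent.CRN.P_NDJN
import Pool.Agent.CRN.P_SHL

set_option autoImplicit false

/-!
# CRR: OSC, oscillation over short windows, globally
-/

namespace Pool.Agent.CRR

open MeasureTheory FourierTransform Set Filter Topology
open scoped ENNReal NNReal
open Pool.Agent.MBS (E ex S Sstar)
open Pool.Agent.CRN (SH S1 Nice sh T_OFFN T_SHL A1)
open Pool.Agent.CRN.GLN_ Pool.Agent.CRN.NDJN_

namespace OSC_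

variable {n : ℕ}

/-- the oscillation over windows of length `A / |x|` -/
noncomputable def OS (A : ℝ) (f : E n → ℂ) (x : E n) : ℝ≥0∞ :=
  ⨆ (R : ℝ) (R' : ℝ) (_ : 0 < R ∧ 0 < R' ∧ |R - R'| ≤ A / ‖x‖), ‖S f R x - S f R' x‖ₑ

/-- the oscillation over windows of length `2^M` -/
noncomputable def WO (M : ℕ) (f : E n → ℂ) (x : E n) : ℝ≥0∞ :=
  ⨆ (R : ℝ) (R' : ℝ) (_ : 0 ≤ R ∧ 0 ≤ R' ∧ |R - R'| ≤ 2 ^ M), ‖S f R x - S f R' x‖ₑ

theorem OS_scale {c : ℝ} (hc : 0 < c) {A : ℝ} (hA : 0 ≤ A) {M : ℕ} (hM : A ≤ 2 ^ M)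
    (f : E n → ℂ) {y : E n} (hy : 1 ≤ ‖y‖) : OS A f (c • y) ≤ WO M (ds c f) y := by
  refine iSup_le fun R => iSup_le fun R' => iSup_le fun h => ?_
  obtain ⟨h1, h2, h3⟩ := h
  have e1 : S f R (c • y) = S (ds c f) (R * c) y := by
    rw [S_scale hc, mul_div_cancel_right₀ _ hc.ne']
  have e2 : S f R' (c • y) = S (ds c f) (R' * c) y := by
    rw [S_scale hc, mul_div_cancel_right₀ _ hc.ne']
  rw [e1, e2]
  have h4 : |R * c - R' * c| ≤ 2 ^ M := by
    rw [← sub_mul, abs_mul, abs_of_pos hc]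
    rw [norm_smul, Real.norm_of_nonneg hc.le, le_div_iff₀ (by positivity)] at h3
    have h5 : |R - R'| * c * 1 ≤ |R - R'| * c * ‖y‖ :=
      mul_le_mul_of_nonneg_left hy (by positivity)
    linarith
  exact le_iSup_of_le (R * c) (le_iSup_of_le (R' * c)
    (le_iSup_of_le ⟨by positivity, by positivity, h4⟩ le_rfl))

/-- the estimate on one shell -/
theorem near {C : ℝ≥0} (hW : ∀ (M : ℕ) (f : E n → ℂ), Nice f →
    ∫⁻ x in Metric.closedBall (0 : E n) 2, WO M f x ^ 2 ≤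
      C * ((M : ℝ≥0∞) + 1) ^ 2 * ∫⁻ x, ‖f x‖ₑ ^ 2) {A : ℝ} (hA : 0 ≤ A) {M : ℕ}
    (hM : A ≤ 2 ^ M) (j : ℤ) {f : E n → ℂ} (hf : Nice f) :
    ∫⁻ x in sh n j, OS A f x ^ 2 ≤ C * ((M : ℝ≥0∞) + 1) ^ 2 * ∫⁻ x, ‖f x‖ₑ ^ 2 := by
  set c : ℝ := (2 : ℝ) ^ j with hc
  have hc0 : 0 < c := by positivity
  have hAm : MeasurableSet (sh n j) := meas_sh j
  set B : Set (E n) := (fun x : E n => c • x) ⁻¹' sh n j with hB
  have hBm : MeasurableSet B := measurable_const_smul c hAm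
  have hB1 : B ⊆ A1 n := by
    intro x hx
    obtain ⟨h3, h4⟩ : c • x ∈ sh n j := hx
    rw [norm_smul, Real.norm_of_nonneg hc0.le, ← hc] at h3
    rw [norm_smul, Real.norm_of_nonneg hc0.le, zpow_add₀ two_ne_zero, zpow_one, ← hc] at h4
    constructor
    · by_contra h5
      nlinarith [not_le.1 h5]
    · by_contra h5
      nlinarith [not_le.1 h5]
  have hB2 : B ⊆ Metric.closedBall (0 : E n) 2 := fun x hx => by
    rw [mem_closedBall_zero_iff]
    exact (hB1 hx).2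
  have h2 : ∫⁻ x in B, OS A f (c • x) ^ 2 ≤
      C * ((M : ℝ≥0∞) + 1) ^ 2 * ∫⁻ x, ‖ds c f x‖ₑ ^ 2 := by
    refine le_trans ?_ ((lintegral_mono_set hB2).trans (hW M (ds c f) (nice hc0 hf)))
    refine setLIntegral_mono_ae' hBm (ae_of_all _ fun x hx => ?_)
    exact pow_le_pow_left₀ (zero_le) (OS_scale hc0 hA hM f (hB1 hx).1) 2
  have h3 : ∫⁻ x in B, OS A f (c • x) ^ 2 =
      ENNReal.ofReal ((c ^ n)⁻¹) * ∫⁻ x in sh n j, OS A f x ^ 2 :=
    Pool.Agent.MBS.J8.setLint_smul hc0 (fun x => OS A f x ^ 2) B (sh n j) hBm hAm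
      (fun x => Iff.rfl)
  have h4 : ∫⁻ x, ‖ds c f x‖ₑ ^ 2 = ENNReal.ofReal ((c ^ n)⁻¹) * ∫⁻ x, ‖f x‖ₑ ^ 2 :=
    Pool.Agent.MBS.J8.lint_smul hc0 (fun x => ‖f x‖ₑ ^ 2)
  rw [h3, h4] at h2
  set κ : ℝ≥0∞ := ENNReal.ofReal ((c ^ n)⁻¹) with hκ
  have hκ0 : κ ≠ 0 := by
    rw [hκ, Ne, ENNReal.ofReal_eq_zero, not_le]
    positivity
  have hκt : κ ≠ ⊤ := ENNReal.ofReal_ne_top
  have h7 : (C : ℝ≥0∞) * ((M : ℝ≥0∞) + 1) ^ 2 * (κ * ∫⁻ x, ‖f x‖ₑ ^ 2) =
      κ * (C * ((M : ℝ≥0∞) + 1) ^ 2 * ∫⁻ x, ‖f x‖ₑ ^ 2) := by ring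
  rw [h7] at h2
  exact (ENNReal.mul_le_mul_iff_right hκ0 hκt).1 h2

theorem S_add {f g : E n → ℂ} (hf : Integrable f) (hg : Integrable g) (R : ℝ) (x : E n) :
    S (fun y => f y + g y) R x = S f R x + S g R x := by
  change S (f + g) R x = _
  rw [Pool.Agent.CRN.SHL_.S_ker (hf.add hg), Pool.Agent.CRN.SHL_.S_ker hf,
    Pool.Agent.CRN.SHL_.S_ker hg, ← integral_add (Pool.Agent.CRN.SHL_.gk_int hf R x)
      (Pool.Agent.CRN.SHL_.gk_int hg R x)]
  refine integral_congr_ae (ae_of_all _ fun y => ?_)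
  simp only [Pi.add_apply]
  ring

theorem Sstar_zero (x : E n) : Sstar (fun _ : E n => (0 : ℂ)) x = 0 := by
  unfold Sstar
  refine le_antisymm (iSup₂_le fun R _ => ?_) zero_le
  rw [Pool.Agent.CRN.SHL_.S_ker (g := fun _ : E n => (0 : ℂ)) (integrable_zero _ _ _)]
  simp

theorem OS_add {A : ℝ} {f g : E n → ℂ} (hf : Integrable f) (hg : Integrable g) (x : E n) :
    OS A (fun y => f y + g y) x ≤ OS A f x + 2 * Sstar g x := by
  refine iSup_le fun R => iSup_le fun R' => iSup_le fun h => ?_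
  have e : S (fun y => f y + g y) R x - S (fun y => f y + g y) R' x =
      (S f R x - S f R' x) + (S g R x - S g R' x) := by
    rw [S_add hf hg, S_add hf hg]
    ring
  rw [e]
  refine (enorm_add_le _ _).trans (add_le_add ?_ ?_)
  · exact le_iSup_of_le R (le_iSup_of_le R' (le_iSup_of_le h le_rfl))
  · refine (enorm_sub_le).trans ?_
    rw [two_mul]
    exact add_le_add (le_iSup₂_of_le R h.1 le_rfl) (le_iSup₂_of_le R' h.2.1 le_rfl)

/-- the three shells near `j` -/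
def nb (n : ℕ) (j : ℤ) : Set (E n) := sh n (j - 1) ∪ sh n j ∪ sh n (j + 1)

theorem nb_meas (j : ℤ) : MeasurableSet (nb n j) :=
  ((meas_sh _).union (meas_sh _)).union (meas_sh _)

theorem nb_far {i j : ℤ} (h : 2 ≤ |i - j|) {y : E n} (hy : y ∈ sh n i) : y ∉ nb n j := by
  rintro ((h1 | h1) | h1)
  · have := Pool.Agent.CRN.SHL_.sh_uniq hy h1
    rw [this] at h
    have : |j - 1 - j| = 1 := by
      rw [show j - 1 - j = -1 by ring]
      norm_num
    omega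
  · have := Pool.Agent.CRN.SHL_.sh_uniq hy h1
    rw [this, sub_self, abs_zero] at h
    omega
  · have := Pool.Agent.CRN.SHL_.sh_uniq hy h1
    rw [this] at h
    have : |j + 1 - j| = 1 := by
      rw [show j + 1 - j = 1 by ring]
      norm_num
    omega

theorem OS_split (h3 : T_SHL) (hn : 2 ≤ n) {A : ℝ} {f : E n → ℂ} (hf : Nice f) (j : ℤ) (x : E n) :
    OS A f x ≤ OS A ((nb n j).indicator f) x +
      2 * ∑' i : ℤ, if 2 ≤ |i - j| then Sstar ((sh n i).indicator f) x else 0 := by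
  have hm := nb_meas (n := n) j
  set g : E n → ℂ := (nb n j)ᶜ.indicator f with hg
  have hgN : Nice g := nice_ind hf hm.compl
  have e1 : f = fun y => (nb n j).indicator f y + g y := by
    funext y
    rw [hg]
    exact (indicator_self_add_compl_apply (nb n j) f y).symm
  have e2 : OS A f x ≤ OS A ((nb n j).indicator f) x + 2 * Sstar g x := by
    conv_lhs => rw [e1]
    exact OS_add (hf.int.indicator hm) hgN.int x
  refine e2.trans (add_le_add le_rfl (mul_le_mul' le_rfl ?_))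
  obtain ⟨-, h4, -, -⟩ := h3 n g hn hgN
  have h5 := h4 j x
  have e3 : (sh n (j - 1) ∪ sh n j ∪ sh n (j + 1)).indicator g = fun _ => (0 : ℂ) := by
    funext y
    by_cases hy : y ∈ sh n (j - 1) ∪ sh n j ∪ sh n (j + 1)
    · rw [indicator_of_mem hy, hg, indicator_of_notMem]
      exact fun h => h hy
    · rw [indicator_of_notMem hy]
  rw [e3, Sstar_zero, zero_add] at h5
  refine h5.trans (ENNReal.tsum_le_tsum fun i => ?_)
  split_ifs with hij
  · have e4 : (sh n i).indicator g = (sh n i).indicator f := by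
      funext y
      by_cases hy : y ∈ sh n i
      · rw [indicator_of_mem hy, indicator_of_mem hy, hg, indicator_of_mem]
        exact nb_far hij hy
      · rw [indicator_of_notMem hy, indicator_of_notMem hy]
    rw [e4]
  · exact le_rfl

theorem choose_M {A : ℝ} (hA : 0 ≤ A) : ∃ M : ℕ, A ≤ 2 ^ M ∧
    ((M : ℝ≥0∞) + 1) ^ 2 ≤ 25 * ENNReal.ofReal (Real.log (2 + A) ^ 2) := by
  have hl2 := Real.log_two_gt_d9
  have hl : Real.log 2 ≤ Real.log (2 + A) := Real.log_le_log (by norm_num) (by linarith)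
  refine ⟨Nat.clog 2 ⌈A⌉₊, ?_, ?_⟩
  · have h1 := Nat.le_pow_clog (b := 2) (by norm_num) ⌈A⌉₊
    have h2 : (⌈A⌉₊ : ℝ) ≤ 2 ^ Nat.clog 2 ⌈A⌉₊ := by exact_mod_cast h1
    exact (Nat.le_ceil A).trans h2
  · set M := Nat.clog 2 ⌈A⌉₊ with hM
    have h1 : (M : ℝ) + 1 ≤ 5 * Real.log (2 + A) := by
      rcases Nat.eq_zero_or_pos M with h0 | h0
      · rw [h0]
        push_cast
        linarith
      · have h2 : 2 ^ (M - 1) < ⌈A⌉₊ := by
          by_contra h3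
          push Not at h3
          have := (Nat.clog_le_iff_le_pow (b := 2) (by norm_num)).mpr h3
          omega
        have h4 : (2 : ℝ) ^ (M - 1) ≤ 2 + A := by
          have h5 : ((2 : ℝ)) ^ (M - 1) < (⌈A⌉₊ : ℝ) := by exact_mod_cast h2
          have h6 := Nat.ceil_lt_add_one hA
          linarith
        have h7 : ((M - 1 : ℕ) : ℝ) * Real.log 2 ≤ Real.log (2 + A) := by
          rw [← Real.log_pow]
          exact Real.log_le_log (by positivity) h4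
        rw [Nat.cast_sub h0] at h7
        push_cast at h7
        have h8 : 0 ≤ (M : ℝ) - 1 := by
          have : (1 : ℝ) ≤ M := by exact_mod_cast h0
          linarith
        nlinarith
    have h2 : ((M : ℝ≥0∞) + 1) = ENNReal.ofReal ((M : ℝ) + 1) := by
      rw [ENNReal.ofReal_add (by positivity) (by norm_num), ENNReal.ofReal_natCast,
        ENNReal.ofReal_one]
    rw [h2, ← ENNReal.ofReal_pow (by positivity)]
    have h3 : (25 : ℝ≥0∞) = ENNReal.ofReal 25 := by norm_num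
    rw [h3, ← ENNReal.ofReal_mul (by norm_num)]
    refine ENNReal.ofReal_le_ofReal ?_
    have h4 : 0 ≤ (M : ℝ) + 1 := by positivity
    have h5 := pow_le_pow_left₀ h4 h1 2
    linarith

theorem one_le_three_log {A : ℝ} (hA : 0 ≤ A) :
    1 ≤ 3 * ENNReal.ofReal (Real.log (2 + A) ^ 2) := by
  have hl2 := Real.log_two_gt_d9
  have hl : Real.log 2 ≤ Real.log (2 + A) := Real.log_le_log (by norm_num) (by linarith)
  have h3 : (3 : ℝ≥0∞) = ENNReal.ofReal 3 := by norm_num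
  rw [h3, ← ENNReal.ofReal_mul (by norm_num), ← ENNReal.ofReal_one]
  refine ENNReal.ofReal_le_ofReal ?_
  nlinarith

end OSC_

open OSC_ in
/-- OSC -/
theorem p_OSC (h1 : T_WRM) (h2 : T_OFFN) (h3 : T_SHL) : T_OSC := by
  intro n hn
  obtain ⟨C1, hN⟩ := h1 n hn
  obtain ⟨C2, hO⟩ := h2 n hn
  have hNN : ∀ (M : ℕ) (f : E n → ℂ), Nice f →
      ∫⁻ x in Metric.closedBall (0 : E n) 2, WO M f x ^ 2 ≤
        C1 * ((M : ℝ≥0∞) + 1) ^ 2 * ∫⁻ x, ‖f x‖ₑ ^ 2 := hN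
  set W : ℝ≥0∞ := ∑' m, CRN.GLN_.ww m with hW
  have hWt : W ≠ ⊤ := ww_sum
  set Q : ℝ≥0∞ := 2 * (C1 * 25 * 3) + 8 * W * (C2 * W * 3) with hQ
  have hQt : Q ≠ ⊤ := by
    rw [hQ]
    exact ENNReal.add_ne_top.2 ⟨ENNReal.mul_ne_top (by norm_num)
      (ENNReal.mul_ne_top (ENNReal.mul_ne_top ENNReal.coe_ne_top (by norm_num)) (by norm_num)),
      ENNReal.mul_ne_top (ENNReal.mul_ne_top (by norm_num) hWt)
        (ENNReal.mul_ne_top (ENNReal.mul_ne_top ENNReal.coe_ne_top hWt) (by norm_num))⟩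
  refine ⟨Q.toNNReal, ?_⟩
  intro A f hA hf
  rw [ENNReal.coe_toNNReal hQt]
  obtain ⟨M, hM, hMl⟩ := choose_M hA
  obtain ⟨-, -, hs3, hs1⟩ := h3 n f hn hf
  set ell : ℝ≥0∞ := ENNReal.ofReal (Real.log (2 + A) ^ 2) with hell
  have hell1 : 1 ≤ 3 * ell := one_le_three_log hA
  set L : ℝ≥0∞ := ∫⁻ x, ‖f x‖ₑ ^ 2 with hL
  set nr : ℤ → E n → ℂ := fun j => (nb n j).indicator f with hnr
  have hnrN : ∀ j, Nice (nr j) := fun j => nice_ind hf (nb_meas j)
  set fi : ℤ → E n → ℂ := fun i => (sh n i).indicator f with hfi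
  have hfiN : ∀ i, Nice (fi i) := fun i => nice_ind hf (meas_sh i)
  set a : ℤ → ℝ≥0∞ := fun i => ∫⁻ x, ‖fi i x‖ₑ ^ 2 with ha
  have has : ∑' i, a i ≤ L := hs1
  set nn : ℤ → ℝ≥0∞ := fun j => ∫⁻ x, ‖nr j x‖ₑ ^ 2 with hnn
  have hns : ∑' j, nn j ≤ 3 * L := hs3
  set t : ℤ → ℤ → E n → ℝ≥0∞ := fun j i x => if 2 ≤ |i - j| then Sstar (fi i) x else 0 with ht
  have htm : ∀ j i, Measurable (t j i) := by
    intro j i
    simp only [ht]
    by_cases hij : 2 ≤ |i - j|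
    · simp only [if_pos hij]
      exact Sstar_meas (hfiN i)
    · simp only [if_neg hij]
      exact measurable_const
  -- far terms
  have hfar : ∀ i j : ℤ, (CRN.GLN_.ww (i - j))⁻¹ * ∫⁻ x in sh n j, t j i x ^ 2 ≤
      C2 * (CRN.GLN_.ww (i - j) * a i) := by
    intro i j
    by_cases hij : 2 ≤ |i - j|
    · have g2 : ∫⁻ x in sh n j, t j i x ^ 2 ≤ C2 * CRN.GLN_.ww (i - j) ^ 2 * a i := by
        simp only [ht, if_pos hij]
        refine (hO i j (fi i) hij (hfiN i) ?_).trans (le_of_eq ?_)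
        · intro y hy
          by_contra hn
          exact hy (indicator_of_notMem hn f)
        · rw [ww_sq]
          simp only [Int.cast_sub, ha]
      calc (CRN.GLN_.ww (i - j))⁻¹ * ∫⁻ x in sh n j, t j i x ^ 2
          ≤ (CRN.GLN_.ww (i - j))⁻¹ * (C2 * CRN.GLN_.ww (i - j) ^ 2 * a i) := by gcongr
        _ = ((CRN.GLN_.ww (i - j))⁻¹ * CRN.GLN_.ww (i - j)) * (C2 * (CRN.GLN_.ww (i - j) * a i)) := by ring
        _ = _ := by
            rw [ENNReal.inv_mul_cancel (ww_ne_zero _) (ww_ne_top _), one_mul]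
    · simp only [ht, if_neg hij]
      simp
  -- one shell
  have hone : ∀ j : ℤ, ∫⁻ x in sh n j, OS A f x ^ 2 ≤
      2 * (C1 * (25 * ell) * nn j) + 8 * W * ∑' i, C2 * (CRN.GLN_.ww (i - j) * a i) := by
    intro j
    have g1 : ∫⁻ x in sh n j, OS A f x ^ 2 ≤ ∫⁻ x in sh n j, (2 * OS A (nr j) x ^ 2 +
        8 * W * ∑' i : ℤ, (CRN.GLN_.ww (i - j))⁻¹ * t j i x ^ 2) := by
      refine setLIntegral_mono_ae' (meas_sh j) (ae_of_all _ fun x _ => ?_)
      have g2 : OS A f x ≤ OS A (nr j) x + 2 * ∑' i, t j i x := OS_split h3 hn hf j x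
      have g3 := cs_w (fun i => t j i x) (fun i => CRN.GLN_.ww (i - j)) (fun i => ww_ne_zero _)
        (fun i => ww_ne_top _)
      have g4 : ∑' i, CRN.GLN_.ww (i - j) = W := (Equiv.subRight j).tsum_eq CRN.GLN_.ww
      rw [g4] at g3
      calc OS A f x ^ 2 ≤ (OS A (nr j) x + 2 * ∑' i, t j i x) ^ 2 := by gcongr
        _ ≤ 2 * (OS A (nr j) x ^ 2 + (2 * ∑' i, t j i x) ^ 2) := sq_add_le _ _
        _ = 2 * (OS A (nr j) x ^ 2 + 4 * (∑' i, t j i x) ^ 2) := by ring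
        _ ≤ 2 * (OS A (nr j) x ^ 2 + 4 * (W * ∑' i, (CRN.GLN_.ww (i - j))⁻¹ * t j i x ^ 2)) := by gcongr
        _ = _ := by ring
    refine g1.trans ?_
    have hm : ∀ i : ℤ, Measurable (fun x => (CRN.GLN_.ww (i - j))⁻¹ * t j i x ^ 2) := fun i =>
      ((htm j i).pow_const 2).const_mul _
    rw [lintegral_add_right _ ((Measurable.tsum hm).const_mul _),
      lintegral_const_mul' _ _ (by norm_num),
      lintegral_const_mul _ (Measurable.tsum hm), lintegral_tsum fun i =>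
      (hm i).aemeasurable]
    refine add_le_add ?_ ?_
    · refine mul_le_mul' le_rfl ?_
      refine (near hNN hA hM j (hnrN j)).trans ?_
      gcongr
    · refine mul_le_mul_right (ENNReal.tsum_le_tsum fun i => ?_) _
      rw [lintegral_const_mul _ ((htm j i).pow_const 2)]
      exact hfar i j
  -- all shells
  have hall : ∫⁻ x, OS A f x ^ 2 ≤ ∑' j, ∫⁻ x in sh n j, OS A f x ^ 2 := by
    have hsub : (univ : Set (E n)) ⊆ {(0 : E n)} ∪ ⋃ j, sh n j := by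
      intro x _
      by_cases h0 : x = 0
      · left; exact h0
      · right
        obtain ⟨j, hj⟩ := sh_cover h0
        exact mem_iUnion.2 ⟨j, hj⟩
    have _ : Nonempty (Fin n) := ⟨⟨0, by omega⟩⟩
    have _ : Nontrivial (E n) := inferInstance
    have hz : (volume : Measure (E n)) {(0 : E n)} = 0 := measure_singleton _
    calc ∫⁻ x, OS A f x ^ 2 = ∫⁻ x in univ, OS A f x ^ 2 := by rw [setLIntegral_univ]
      _ ≤ ∫⁻ x in {(0 : E n)} ∪ ⋃ j, sh n j, OS A f x ^ 2 := lintegral_mono_set hsub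
      _ ≤ (∫⁻ x in {(0 : E n)}, OS A f x ^ 2) + ∫⁻ x in ⋃ j, sh n j, OS A f x ^ 2 :=
          lintegral_union_le _ _ _
      _ = ∫⁻ x in ⋃ j, sh n j, OS A f x ^ 2 := by
          rw [setLIntegral_measure_zero _ _ hz, zero_add]
      _ ≤ _ := lintegral_iUnion_le _ _
  have hfars : ∑' j, ∑' i, C2 * (CRN.GLN_.ww (i - j) * a i) ≤ C2 * W * L := by
    rw [ENNReal.tsum_comm]
    have e1 : ∀ i, ∑' j, (C2 : ℝ≥0∞) * (CRN.GLN_.ww (i - j) * a i) = C2 * W * a i := by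
      intro i
      rw [ENNReal.tsum_mul_left, ENNReal.tsum_mul_right, ww_shift, ← mul_assoc]
    simp only [e1, ENNReal.tsum_mul_left]
    gcongr
  change ∫⁻ x, OS A f x ^ 2 ≤ _
  calc ∫⁻ x, OS A f x ^ 2 ≤ ∑' j, ∫⁻ x in sh n j, OS A f x ^ 2 := hall
    _ ≤ ∑' j, (2 * (C1 * (25 * ell) * nn j) + 8 * W * ∑' i, C2 * (CRN.GLN_.ww (i - j) * a i)) :=
        ENNReal.tsum_le_tsum hone
    _ = 2 * (C1 * (25 * ell) * ∑' j, nn j) + 8 * W * ∑' j, ∑' i, C2 * (CRN.GLN_.ww (i - j) * a i) := by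
        rw [ENNReal.tsum_add, ENNReal.tsum_mul_left, ENNReal.tsum_mul_left,
          ENNReal.tsum_mul_left]
    _ ≤ 2 * (C1 * (25 * ell) * (3 * L)) + 8 * W * (C2 * W * L) := by gcongr
    _ = 2 * (C1 * (25 * ell) * (3 * L)) + 8 * W * (C2 * W * (1 * L)) := by rw [one_mul]
    _ ≤ 2 * (C1 * (25 * ell) * (3 * L)) + 8 * W * (C2 * W * (3 * ell * L)) := by gcongr
    _ = Q * ell * L := by rw [hQ]; ring

end Pool.Agent.CRR
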