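import Pool.Agent.CRR.Targets

set_option autoImplicit false

namespace Pool.Agent.CRR

open MeasureTheory FourierTransform Set Filter Topology
open scoped ENNReal NNReal ComplexConjugate
open Pool.Agent.CAR (e1)
open Pool.Agent.CRN (T_CARLS)

namespace PART_

theorem e1_norm (x : ℝ) : ‖e1 x‖ = 1 := by
  unfold e1
  rw [show 2 * (Real.pi : ℂ) * Complex.I * (x : ℂ) = ((2 * Real.pi * x : ℝ) : ℂ) * Complex.I by
    push_cast; ring]
  exact Complex.norm_exp_ofReal_mul_I _

theorem e1_cont : Continuous e1 := by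
  unfold e1
  fun_prop

theorem cs (f g : ℕ → ℝ≥0∞) : (∑' j, f j * g j) ^ 2 ≤ (∑' j, f j ^ 2) * ∑' j, g j ^ 2 := by
  have h := ENNReal.lintegral_mul_le_Lp_mul_Lq (μ := Measure.count) Real.HolderConjugate.two_two
    (f := f) (g := g) (measurable_of_countable f).aemeasurable
    (measurable_of_countable g).aemeasurable
  simp only [lintegral_count, Pi.mul_apply, ENNReal.rpow_two] at h
  calc (∑' j, f j * g j) ^ 2
      ≤ ((∑' j, f j ^ 2) ^ (1 / 2 : ℝ) * (∑' j, g j ^ 2) ^ (1 / 2 : ℝ)) ^ 2 := by gcongr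
    _ = (∑' j, f j ^ 2) * ∑' j, g j ^ 2 := by
        rw [mul_pow, ← ENNReal.rpow_natCast, ← ENNReal.rpow_natCast, ← ENNReal.rpow_mul,
          ← ENNReal.rpow_mul]
        norm_num

/-- distance of two natural numbers -/
def D (k j : ℕ) : ℕ := k - j + (j - k)

theorem D_comm (k j : ℕ) : D k j = D j k := by unfold D; omega

theorem sumD (f : ℕ → ℝ≥0∞) (k : ℕ) : ∑' j, f (D k j) ≤ 2 * ∑' n, f n := by
  rw [← Summable.tsum_add_tsum_compl (s := {j | j ≤ k}) (f := fun j => f (D k j))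
    ENNReal.summable ENNReal.summable, two_mul]
  apply add_le_add
  · apply ENNReal.tsum_comp_le_tsum_of_injective (f := fun j : {j | j ≤ k} => D k j) _ f
    intro a b hab
    have ha : (a : ℕ) ≤ k := a.2
    have hb : (b : ℕ) ≤ k := b.2
    apply Subtype.ext
    simp only [D] at hab
    omega
  · apply ENNReal.tsum_comp_le_tsum_of_injective
      (f := fun j : ({j | j ≤ k}ᶜ : Set ℕ) => D k j) _ f
    intro a b hab
    have ha : ¬ (a : ℕ) ≤ k := a.2
    have hb : ¬ (b : ℕ) ≤ k := b.2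
    apply Subtype.ext
    simp only [D] at hab
    omega

theorem geo {x : ℝ} (h0 : 0 ≤ x) (h1 : x < 1) : ∑' n : ℕ, ENNReal.ofReal (x ^ n) ≠ ⊤ := by
  rw [← ENNReal.ofReal_tsum_of_nonneg (fun n => pow_nonneg h0 n)
    (summable_geometric_of_lt_one h0 h1)]
  exact ENNReal.ofReal_ne_top

/-! bands -/

theorem band_meas (ν : ℝ) (j : ℕ) : MeasurableSet (band ν j) := by
  have : band ν j = {s | (j = 0 ∨ si ν (j - 1) ≤ |s|)} ∩ {s | |s| < si ν j} := rfl
  rw [this]
  apply MeasurableSet.inter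
  · by_cases hj : j = 0
    · simp [hj]
    · simp only [hj, false_or]
      exact measurableSet_le measurable_const (measurable_id.abs)
  · exact measurableSet_lt measurable_id.abs measurable_const

theorem si_mono (h1 : T_SEQ) {ν : ℝ} (hν : 0 ≤ ν) : StrictMono (si ν) := by
  apply strictMono_nat_of_lt_succ
  intro k
  obtain ⟨-, h2, -, -, h3, -, h4, -⟩ := (h1 ν hν).2.2 k
  have : 0 < si ν k := mul_pos h3 h2
  linarith

theorem si_pos (h1 : T_SEQ) {ν : ℝ} (hν : 0 ≤ ν) (k : ℕ) : 0 < si ν k := by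
  obtain ⟨-, h2, -, -, h3, -⟩ := (h1 ν hν).2.2 k
  exact mul_pos h3 h2

theorem si_ge (h1 : T_SEQ) {ν : ℝ} (hν : 0 ≤ ν) (k : ℕ) : (7 / 5) ^ k * si ν 0 ≤ si ν k := by
  induction k with
  | zero => simp
  | succ k ih =>
    obtain ⟨-, -, -, -, -, -, h4, -⟩ := (h1 ν hν).2.2 k
    calc (7 / 5 : ℝ) ^ (k + 1) * si ν 0 = 7 / 5 * ((7 / 5) ^ k * si ν 0) := by ring
      _ ≤ 7 / 5 * si ν k := by gcongr
      _ ≤ si ν (k + 1) := h4

theorem band_cover (h1 : T_SEQ) {ν : ℝ} (hν : 0 ≤ ν) : ⋃ j, band ν j = univ := by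
  apply eq_univ_of_forall
  intro s
  have h0 := si_pos h1 hν 0
  have hex : ∃ k, |s| < si ν k := by
    obtain ⟨k, hk⟩ := pow_unbounded_of_one_lt (|s| / si ν 0) (by norm_num : (1 : ℝ) < 7 / 5)
    refine ⟨k, lt_of_lt_of_le ?_ (si_ge h1 hν k)⟩
    rwa [div_lt_iff₀ h0] at hk
  classical
  refine mem_iUnion.2 ⟨Nat.find hex, ?_, Nat.find_spec hex⟩
  by_cases h : Nat.find hex = 0
  · exact Or.inl h
  · right
    have := Nat.find_min hex (Nat.sub_lt (Nat.pos_of_ne_zero h) one_pos)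
    exact not_lt.1 this

theorem band_disj (h1 : T_SEQ) {ν : ℝ} (hν : 0 ≤ ν) :
    Pairwise (Function.onFun Disjoint (band ν)) := by
  have key : ∀ i j : ℕ, i < j → Disjoint (band ν i) (band ν j) := by
    intro i j hij
    rw [Set.disjoint_left]
    intro s hs ht
    have h2 : |s| < si ν i := hs.2
    rcases ht.1 with h | h
    · omega
    · have h3 : si ν i ≤ si ν (j - 1) := (si_mono h1 hν).monotone (by omega)
      linarith
  intro i j hij
  rcases lt_or_gt_of_ne hij with h | h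
  · exact key i j h
  · exact (key j i h).symm

/-- pieces of `H` -/
noncomputable def Hj (ν : ℝ) (H : ℝ → ℂ) (j : ℕ) : ℝ → ℂ := (band ν j).indicator H

theorem Hj_HH {ν : ℝ} {H : ℝ → ℂ} (h : HH H) (j : ℕ) : HH (Hj ν H j) where
  meas := h.meas.indicator (band_meas ν j)
  int := h.int.indicator (band_meas ν j)
  sq := by
    have := h.sq.indicator (band_meas ν j)
    refine this.congr (Eventually.of_forall ?_)
    intro s
    simp only [Hj, indicator]
    split_ifs <;> simp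

theorem fh_bd (H : ℝ → ℂ) (v : ℝ) : ‖fh H v‖ ≤ ∫ s, ‖H s‖ := by
  unfold fh
  refine (norm_integral_le_integral_norm _).trans (le_of_eq ?_)
  congr 1
  ext s
  rw [norm_mul, e1_norm, mul_one]

theorem fh_cont {H : ℝ → ℂ} (h : HH H) : Continuous (fh H) := by
  unfold fh
  apply continuous_of_dominated (bound := fun s => ‖H s‖)
  · intro v
    apply (h.meas.mul _).aestronglyMeasurable
    exact (e1_cont.comp (by fun_prop)).measurable
  · intro v
    refine Eventually.of_forall fun s => ?_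
    rw [norm_mul, e1_norm, mul_one]
  · exact h.int.norm
  · refine Eventually.of_forall fun s => ?_
    exact continuous_const.mul (e1_cont.comp (by fun_prop))

theorem fh_sum (h1 : T_SEQ) {ν : ℝ} (hν : 0 ≤ ν) {H : ℝ → ℂ} (h : HH H) (v : ℝ) :
    HasSum (fun j => fh (Hj ν H j) v) (fh H v) := by
  have hint : Integrable (fun s => H s * e1 (v * s)) := by
    apply h.int.mul_bdd (c := 1)
    · exact (e1_cont.comp (by fun_prop)).aestronglyMeasurable
    · exact Eventually.of_forall fun s => (e1_norm _).le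
  have := hasSum_integral_iUnion (band_meas ν) (band_disj h1 hν) (f := fun s => H s * e1 (v * s))
    (μ := volume) (by rw [band_cover h1 hν]; exact hint.integrableOn)
  rw [band_cover h1 hν, Measure.restrict_univ] at this
  have e : (fun j => fh (Hj ν H j) v) = fun j => ∫ s in band ν j, H s * e1 (v * s) := by
    funext j
    unfold fh
    rw [← integral_indicator (band_meas ν j)]
    congr 1
    ext s
    simp only [Hj, indicator]
    split_ifs <;> simp
  rw [e]
  exact this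

theorem n1_sum (h1 : T_SEQ) {ν : ℝ} (hν : 0 ≤ ν) {H : ℝ → ℂ} (h : HH H) :
    Summable (fun j => ∫ s, ‖Hj ν H j s‖) := by
  have := hasSum_integral_iUnion (band_meas ν) (band_disj h1 hν) (f := fun s => ‖H s‖)
    (μ := volume) (by rw [band_cover h1 hν]; exact h.int.norm.integrableOn)
  have e : (fun j => ∫ s, ‖Hj ν H j s‖) = fun j => ∫ s in band ν j, ‖H s‖ := by
    funext j
    rw [← integral_indicator (band_meas ν j)]
    congr 1
    ext s
    simp only [Hj, indicator]
    split_ifs <;> simp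
  rw [e]
  exact this.summable

theorem n2_sum (h1 : T_SEQ) {ν : ℝ} (hν : 0 ≤ ν) (H : ℝ → ℂ) :
    ∑' j, ∫⁻ s, ‖Hj ν H j s‖ₑ ^ 2 = ∫⁻ s, ‖H s‖ₑ ^ 2 := by
  have := lintegral_iUnion (band_meas ν) (band_disj h1 hν) (fun s => ‖H s‖ₑ ^ 2) (μ := volume)
  rw [band_cover h1 hν, Measure.restrict_univ] at this
  rw [this]
  congr 1
  funext j
  rw [← lintegral_indicator (band_meas ν j)]
  congr 1
  ext s
  simp only [Hj, indicator]
  split_ifs <;> simp

theorem kap_cont {ν : ℝ} {J J' : ℝ → ℝ} (h : Sol ν J J') : Continuous (kap J) := by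
  have : Continuous J := continuous_iff_continuousAt.2 fun x => (h.d1 x).continuousAt
  unfold kap
  fun_prop

theorem FS_eq (κ h : ℝ → ℂ) (a d u V1 V2 : ℝ) : FS κ a d h u V1 V2 =
    ∫ v in Ioc V1 V2, (Ico a (a + d)).indicator κ (u + v) * h v := by
  unfold FS
  have hm : MeasurableSet {v : ℝ | u + v ∈ Ico a (a + d)} :=
    measurableSet_Ico.preimage (measurable_const.add measurable_id)
  rw [← setIntegral_indicator hm]
  congr 1
  ext v
  simp only [indicator, mem_ofPred_eq]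
  split_ifs <;> simp

theorem ind_cont {κ : ℝ → ℂ} (hκ : Continuous κ) {a b x : ℝ} (h1 : x ≠ a) (h2 : x ≠ b) :
    ContinuousAt ((Ico a b).indicator κ) x := by
  rcases lt_or_gt_of_ne h1 with h | h
  · refine (continuousAt_const (y := (0 : ℂ))).congr ?_
    filter_upwards [Iio_mem_nhds h] with y hy
    rw [indicator_of_notMem]
    intro hy2
    exact absurd hy2.1 (not_le.2 hy)
  · rcases lt_or_gt_of_ne h2 with h' | h'
    · refine hκ.continuousAt.congr ?_
      filter_upwards [Ioo_mem_nhds h h'] with y hy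
      rw [indicator_of_mem]
      exact ⟨hy.1.le, hy.2⟩
    · refine (continuousAt_const (y := (0 : ℂ))).congr ?_
      filter_upwards [Ioi_mem_nhds h'] with y hy
      rw [indicator_of_notMem]
      intro hy2
      exact absurd hy2.2 (not_lt.2 (le_of_lt hy))

theorem ind_bd {κ : ℝ → ℂ} (hκ : Continuous κ) (a b : ℝ) :
    ∃ M : ℝ, 0 ≤ M ∧ ∀ x, ‖(Ico a b).indicator κ x‖ ≤ M := by
  obtain ⟨M, hM⟩ := isCompact_Icc.exists_bound_of_continuousOn (s := Icc a b) hκ.continuousOn
  refine ⟨max M 0, le_max_right _ _, fun x => ?_⟩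
  by_cases hx : x ∈ Ico a b
  · rw [indicator_of_mem hx]
    exact (hM x (Ico_subset_Icc_self hx)).trans (le_max_left _ _)
  · rw [indicator_of_notMem hx, norm_zero]
    exact le_max_right _ _

theorem meas_int {κ h : ℝ → ℂ} (hκ : Continuous κ) (hh : Continuous h) (a b u : ℝ) :
    Measurable (fun v => (Ico a b).indicator κ (u + v) * h v) :=
  ((hκ.measurable.indicator measurableSet_Ico).comp (measurable_const.add measurable_id)).mul
    hh.measurable

theorem FS_cont {κ h : ℝ → ℂ} (hκ : Continuous κ) (hh : Continuous h) {B : ℝ}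
    (hB : ∀ v, ‖h v‖ ≤ B) (a d V1 V2 : ℝ) : Continuous (fun u => FS κ a d h u V1 V2) := by
  obtain ⟨M, hM0, hM⟩ := ind_bd hκ a (a + d)
  simp_rw [FS_eq]
  rw [continuous_iff_continuousAt]
  intro u0
  apply continuousAt_of_dominated (bound := fun _ => M * B)
  · exact Eventually.of_forall fun u => (meas_int hκ hh a (a + d) u).aestronglyMeasurable
  · refine Eventually.of_forall fun u => Eventually.of_forall fun v => ?_
    rw [norm_mul]
    exact mul_le_mul (hM _) (hB _) (norm_nonneg _) hM0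
  · exact integrable_const _
  · apply ae_restrict_of_ae
    have c1 : ({a - u0} : Set ℝ)ᶜ ∈ ae (volume : Measure ℝ) :=
      compl_mem_ae_iff.2 (measure_singleton _)
    have c2 : ({a + d - u0} : Set ℝ)ᶜ ∈ ae (volume : Measure ℝ) :=
      compl_mem_ae_iff.2 (measure_singleton _)
    filter_upwards [c1, c2] with v hv1 hv2
    have d1 : u0 + v ≠ a := by
      intro h
      exact hv1 (by rw [mem_singleton_iff]; linarith)
    have d2 : u0 + v ≠ a + d := by
      intro h
      exact hv2 (by rw [mem_singleton_iff]; linarith)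
    have := ind_cont hκ d1 d2
    have c3 : ContinuousAt (fun u : ℝ => u + v) u0 := by fun_prop
    exact (ContinuousAt.comp (f := fun u : ℝ => u + v) this c3).mul continuousAt_const

theorem SS_meas {κ h : ℝ → ℂ} (hκ : Continuous κ) (hh : Continuous h) {B : ℝ}
    (hB : ∀ v, ‖h v‖ ≤ B) (a d : ℝ) :
    Measurable (fun u => ⨆ (V1 : ℝ) (V2 : ℝ), ‖FS κ a d h u V1 V2‖ₑ) :=
  (lowerSemicontinuous_iSup fun V1 => lowerSemicontinuous_iSup fun V2 =>
    ((FS_cont hκ hh hB a d V1 V2).enorm).lowerSemicontinuous).measurable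

theorem FS_sum (h1 : T_SEQ) {ν : ℝ} (hν : 0 ≤ ν) {H : ℝ → ℂ} (h : HH H) {κ : ℝ → ℂ}
    (hκ : Continuous κ) (a d u V1 V2 : ℝ) :
    ‖FS κ a d (fh H) u V1 V2‖ₑ ≤ ∑' j, ‖FS κ a d (fh (Hj ν H j)) u V1 V2‖ₑ := by
  obtain ⟨M, hM0, hM⟩ := ind_bd hκ a (a + d)
  have hb : ∀ j v, ‖(Ico a (a + d)).indicator κ (u + v) * fh (Hj ν H j) v‖ ≤
      M * ∫ s, ‖Hj ν H j s‖ := by
    intro j v
    rw [norm_mul]
    exact mul_le_mul (hM _) (fh_bd _ _) (norm_nonneg _) hM0
  have hI : ∀ j, Integrable (fun v => (Ico a (a + d)).indicator κ (u + v) * fh (Hj ν H j) v)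
      (volume.restrict (Ioc V1 V2)) := fun j =>
    Integrable.of_bound (meas_int hκ (fh_cont (Hj_HH h j)) a (a + d) u).aestronglyMeasurable _
      (Eventually.of_forall (hb j))
  have hS : Summable (fun j => ∫ v in Ioc V1 V2,
      ‖(Ico a (a + d)).indicator κ (u + v) * fh (Hj ν H j) v‖) := by
    apply Summable.of_nonneg_of_le (fun j => integral_nonneg fun v => norm_nonneg _)
      (f := fun j => (volume.restrict (Ioc V1 V2)).real univ * (M * ∫ s, ‖Hj ν H j s‖))
    · intro j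
      calc ∫ v in Ioc V1 V2, ‖(Ico a (a + d)).indicator κ (u + v) * fh (Hj ν H j) v‖
          ≤ ∫ v in Ioc V1 V2, (M * ∫ s, ‖Hj ν H j s‖) :=
            integral_mono (hI j).norm (integrable_const _) (hb j)
        _ = _ := by rw [integral_const, smul_eq_mul]
    · exact ((n1_sum h1 hν h).mul_left M).mul_left _
  have hs := hasSum_integral_of_summable_integral_norm hI hS
  have he : ∀ v, ∑' j, (Ico a (a + d)).indicator κ (u + v) * fh (Hj ν H j) v =
      (Ico a (a + d)).indicator κ (u + v) * fh H v := fun v =>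
    ((fh_sum h1 hν h v).mul_left _).tsum_eq
  simp_rw [he] at hs
  simp_rw [FS_eq]
  rw [← hs.tsum_eq]
  exact enorm_tsum_le_tsum_enorm

end PART_

open PART_ in
/-- **PART**: the partial strips. -/
theorem p_PART (h1 : T_SEQ) (h2 : T_SD) : T_PART := by
  intro hT
  obtain ⟨C, hC⟩ := h2 hT
  set K1 : ℝ≥0∞ := 2 * ∑' n : ℕ, ENNReal.ofReal (((39 / 40) ^ 2) ^ n) with hK1
  set K2 : ℝ≥0∞ := 2 * ∑' n : ℕ, ENNReal.ofReal (((40 / 39) ^ 2 * (9 / 10)) ^ n) with hK2
  have hK1t : K1 ≠ ⊤ := ENNReal.mul_ne_top (by norm_num) (geo (by norm_num) (by norm_num))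
  have hK2t : K2 ≠ ⊤ := ENNReal.mul_ne_top (by norm_num) (geo (by norm_num) (by norm_num))
  refine ⟨(K1 * K2 * C).toNNReal, ?_⟩
  rw [ENNReal.coe_toNNReal (ENNReal.mul_ne_top (ENNReal.mul_ne_top hK1t hK2t)
    ENNReal.coe_ne_top)]
  intro ν J J' H hν hJ hH
  have hκ := kap_cont hJ.sol
  set A : ℕ → ℕ → ℝ → ℝ≥0∞ := fun k j u => ⨆ (V1 : ℝ) (V2 : ℝ),
    ‖FS (kap J) (aa ν k) (de ν k) (fh (Hj ν H j)) u V1 V2‖ₑ with hA
  have hAm : ∀ k j, Measurable (A k j) := fun k j =>
    SS_meas hκ (fh_cont (Hj_HH hH j)) (fh_bd _) _ _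
  have hAC : ∀ k j, ∫⁻ u, A k j u ^ 2 ≤
      C * ENNReal.ofReal ((9 / 10) ^ D k j) * ∫⁻ s, ‖Hj ν H j s‖ₑ ^ 2 := by
    intro k j
    apply hC ν J J' k j (Hj ν H j) hν hJ (Hj_HH hH j)
    intro s hs
    by_contra hcon
    exact hs (indicator_of_notMem hcon _)
  have hSle : ∀ k u, (⨆ (V1 : ℝ) (V2 : ℝ), ‖FS (kap J) (aa ν k) (de ν k) (fh H) u V1 V2‖ₑ) ≤
      ∑' j, A k j u := by
    intro k u
    refine iSup_le fun V1 => iSup_le fun V2 => ?_
    refine (FS_sum h1 hν hH hκ _ _ u V1 V2).trans (ENNReal.tsum_le_tsum fun j => ?_)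
    exact le_iSup₂ (f := fun V1 V2 => ‖FS (kap J) (aa ν k) (de ν k) (fh (Hj ν H j)) u V1 V2‖ₑ)
      V1 V2
  have hw : ∀ k j, ENNReal.ofReal ((39 / 40) ^ D k j) * ENNReal.ofReal ((40 / 39) ^ D k j) = 1 := by
    intro k j
    rw [← ENNReal.ofReal_mul (by positivity), ← mul_pow]
    norm_num
  have hS2 : ∀ k u, (⨆ (V1 : ℝ) (V2 : ℝ),
      ‖FS (kap J) (aa ν k) (de ν k) (fh H) u V1 V2‖ₑ) ^ 2 ≤
      K1 * ∑' j, ENNReal.ofReal (((40 / 39) ^ 2) ^ D k j) * A k j u ^ 2 := by
    intro k u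
    calc (⨆ (V1 : ℝ) (V2 : ℝ), ‖FS (kap J) (aa ν k) (de ν k) (fh H) u V1 V2‖ₑ) ^ 2
        ≤ (∑' j, A k j u) ^ 2 := by gcongr; exact hSle k u
      _ = (∑' j, ENNReal.ofReal ((39 / 40) ^ D k j) *
            (ENNReal.ofReal ((40 / 39) ^ D k j) * A k j u)) ^ 2 := by
          congr 2
          funext j
          rw [← mul_assoc, hw, one_mul]
      _ ≤ _ := cs _ _
      _ ≤ _ := by
          gcongr ?_ * ?_
          · have := sumD (fun n => ENNReal.ofReal (((39 / 40) ^ 2) ^ n)) k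
            refine le_trans (le_of_eq ?_) this
            congr 1
            funext j
            rw [← ENNReal.ofReal_pow (by positivity), ← pow_mul, ← pow_mul, mul_comm]
          · apply le_of_eq
            congr 1
            funext j
            rw [mul_pow, ← ENNReal.ofReal_pow (by positivity), ← pow_mul, ← pow_mul,
              mul_comm (D k j) 2]
  calc ∫⁻ u, ∑' k : ℕ, (⨆ (V1 : ℝ) (V2 : ℝ),
        ‖FS (kap J) (aa ν k) (de ν k) (fh H) u V1 V2‖ₑ) ^ 2
      ≤ ∫⁻ u, ∑' k : ℕ, K1 * ∑' j, ENNReal.ofReal (((40 / 39) ^ 2) ^ D k j) * A k j u ^ 2 :=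
        lintegral_mono fun u => ENNReal.tsum_le_tsum fun k => hS2 k u
    _ = ∑' k : ℕ, K1 * ∑' j, ENNReal.ofReal (((40 / 39) ^ 2) ^ D k j) * ∫⁻ u, A k j u ^ 2 := by
        rw [lintegral_tsum]
        · congr 1
          funext k
          rw [lintegral_const_mul _ (Measurable.tsum fun j =>
            ((hAm k j).pow_const 2).const_mul _), lintegral_tsum]
          · congr 2
            funext j
            rw [lintegral_const_mul _ ((hAm k j).pow_const 2)]
          · exact fun j => (((hAm k j).pow_const 2).const_mul _).aemeasurable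
        · exact fun k => ((Measurable.tsum fun j =>
            ((hAm k j).pow_const 2).const_mul _).const_mul _).aemeasurable
    _ ≤ ∑' k : ℕ, K1 * ∑' j, ENNReal.ofReal (((40 / 39) ^ 2) ^ D k j) *
          (C * ENNReal.ofReal ((9 / 10) ^ D k j) * ∫⁻ s, ‖Hj ν H j s‖ₑ ^ 2) := by
        gcongr with k j
        exact hAC k j
    _ = K1 * C * ∑' j, (∫⁻ s, ‖Hj ν H j s‖ₑ ^ 2) *
          ∑' k, ENNReal.ofReal (((40 / 39) ^ 2 * (9 / 10)) ^ D j k) := by
        simp_rw [← ENNReal.tsum_mul_left]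
        rw [ENNReal.tsum_comm]
        congr 1
        funext j
        congr 1
        funext k
        rw [D_comm j k, mul_pow, ENNReal.ofReal_mul (by positivity)]
        ring
    _ ≤ K1 * C * ∑' j, (∫⁻ s, ‖Hj ν H j s‖ₑ ^ 2) * K2 := by
        gcongr with j
        exact sumD (fun n => ENNReal.ofReal (((40 / 39) ^ 2 * (9 / 10)) ^ n)) j
    _ = K1 * K2 * C * ∫⁻ s, ‖H s‖ₑ ^ 2 := by
        rw [ENNReal.tsum_mul_right, n2_sum h1 hν]
        ring

end Pool.Agent.CRR
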