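import Pool.Agent.CRR.Targets

set_option autoImplicit false

/-!
# Block PHS: the strips
-/

namespace Pool.Agent.CRR

open MeasureTheory Set Filter Topology
open scoped ENNReal NNReal ComplexConjugate
open Pool.Agent.CAR (e1)

namespace PHS_

/-- Extension of a phase by quadratic polynomials. -/
theorem ext_phase {a d m M L : ℝ} (hd : 0 < d) {Θ F g : ℝ → ℝ}
    (h1 : ∀ x ∈ Icc a (a + d), HasDerivAt Θ (F x) x)
    (h2 : ∀ x ∈ Icc a (a + d), HasDerivAt F (g x) x)
    (h3 : ∀ x ∈ Icc a (a + d), m ≤ g x ∧ g x ≤ M) (hL : 0 ≤ L)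
    (h4 : ∀ x ∈ Icc a (a + d), ∀ y ∈ Icc a (a + d), |g x - g y| ≤ L * |x - y|) :
    ∃ Θ' Θ1 Θ2 : ℝ → ℝ, (∀ x, HasDerivAt Θ' (Θ1 x) x) ∧ (∀ x, HasDerivAt Θ1 (Θ2 x) x) ∧
      (∀ x, m ≤ Θ2 x ∧ Θ2 x ≤ M) ∧ (∀ x y, |Θ2 x - Θ2 y| ≤ L * |x - y|) ∧
      ∀ x ∈ Icc a (a + d), Θ' x = Θ x ∧ Θ1 x = F x := by
  have hab : a ≤ a + d := by linarith
  set Θ2 : ℝ → ℝ := fun x => g (projIcc a (a + d) hab x) with hΘ2
  have e2 : ∀ x ∈ Icc a (a + d), Θ2 x = g x := by
    intro x hx
    simp only [hΘ2]
    rw [projIcc_of_mem hab hx]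
  have l2 : ∀ x y, |Θ2 x - Θ2 y| ≤ L * |x - y| := by
    intro x y
    refine (h4 _ (projIcc a (a + d) hab x).2 _ (projIcc a (a + d) hab y).2).trans ?_
    exact mul_le_mul_of_nonneg_left (abs_projIcc_sub_projIcc hab) hL
  have c2 : Continuous Θ2 := by
    have : LipschitzWith ⟨L, hL⟩ Θ2 := LipschitzWith.of_dist_le_mul fun x y => by
      rw [Real.dist_eq, Real.dist_eq]
      exact l2 x y
    exact this.continuous
  set Θ1 : ℝ → ℝ := fun x => F a + ∫ t in a..x, Θ2 t with hΘ1
  have d1 : ∀ x, HasDerivAt Θ1 (Θ2 x) x := fun x =>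
    (c2.integral_hasStrictDerivAt a x).hasDerivAt.const_add _
  have c1 : Continuous Θ1 := continuous_iff_continuousAt.mpr fun x => (d1 x).continuousAt
  set Θ' : ℝ → ℝ := fun x => Θ a + ∫ t in a..x, Θ1 t with hΘ'
  have d0 : ∀ x, HasDerivAt Θ' (Θ1 x) x := fun x =>
    (c1.integral_hasStrictDerivAt a x).hasDerivAt.const_add _
  have e1 : ∀ x ∈ Icc a (a + d), Θ1 x = F x := by
    intro x hx
    have hu : uIcc a x ⊆ Icc a (a + d) := by
      rw [uIcc_of_le hx.1]
      exact Icc_subset_Icc_right hx.2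
    have hi : ∫ t in a..x, Θ2 t = F x - F a :=
      intervalIntegral.integral_eq_sub_of_hasDerivAt
        (fun t ht => by rw [e2 t (hu ht)]; exact h2 t (hu ht)) (c2.intervalIntegrable _ _)
    simp only [hΘ1]
    rw [hi]
    ring
  have e0 : ∀ x ∈ Icc a (a + d), Θ' x = Θ x := by
    intro x hx
    have hu : uIcc a x ⊆ Icc a (a + d) := by
      rw [uIcc_of_le hx.1]
      exact Icc_subset_Icc_right hx.2
    have hi : ∫ t in a..x, Θ1 t = Θ x - Θ a :=
      intervalIntegral.integral_eq_sub_of_hasDerivAt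
        (fun t ht => by rw [e1 t (hu ht)]; exact h1 t (hu ht)) (c1.intervalIntegrable _ _)
    simp only [hΘ']
    rw [hi]
    ring
  exact ⟨Θ', Θ1, Θ2, d0, d1, fun x => h3 _ (projIcc a (a + d) hab x).2, l2,
    fun x hx => ⟨e0 x hx, e1 x hx⟩⟩

theorem PP_hd (ν x : ℝ) : HasDerivAt (PP ν) (2 * Real.exp (2 * x)) x := by
  have h1 : HasDerivAt (fun y : ℝ => 2 * y) 2 x := by
    simpa using (hasDerivAt_id x).const_mul (2 : ℝ)
  have h2 := h1.exp.sub_const (ν ^ 2)
  rw [mul_comm (Real.exp (2 * x)) 2] at h2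
  exact h2

theorem sq_hd {ν x : ℝ} (h : 0 < PP ν x) :
    HasDerivAt (fun y => Real.sqrt (PP ν y) / (2 * Real.pi))
      (Real.exp (2 * x) / (2 * Real.pi * Real.sqrt (PP ν x))) x := by
  refine (((PP_hd ν x).sqrt h.ne').div_const (2 * Real.pi)).congr_deriv ?_
  have := Real.sqrt_pos.mpr h
  field_simp

theorem g_hd {ν x : ℝ} (h : 0 < PP ν x) :
    HasDerivAt (fun y => Real.exp (2 * y) / (2 * Real.pi * Real.sqrt (PP ν y)))
      ((2 * Real.exp (2 * x) / Real.sqrt (PP ν x) -
        Real.exp (2 * x) ^ 2 / (PP ν x * Real.sqrt (PP ν x))) / (2 * Real.pi)) x := by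
  have h0 : HasDerivAt (fun y : ℝ => 2 * y) 2 x := by
    simpa using (hasDerivAt_id x).const_mul (2 : ℝ)
  have hs := Real.sqrt_pos.mpr h
  have hp := Real.pi_pos
  refine (h0.exp.div (((PP_hd ν x).sqrt h.ne').const_mul (2 * Real.pi))
    (by positivity)).congr_deriv ?_
  have e : PP ν x = Real.sqrt (PP ν x) ^ 2 := (Real.sq_sqrt h.le).symm
  set s := Real.sqrt (PP ν x) with hs'
  rw [e]
  field_simp

/-- The amplitude `e^x P^(-1/4)`. -/
noncomputable def am (ν x : ℝ) : ℝ := Real.exp x * PP ν x ^ (-(1 / 4) : ℝ)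

theorem am_hd {ν x : ℝ} (h : 0 < PP ν x) :
    HasDerivAt (am ν) (am ν x * (1 - Real.exp (2 * x) / (2 * PP ν x))) x := by
  refine ((Real.hasDerivAt_exp x).mul ((PP_hd ν x).rpow_const (p := (-(1 / 4) : ℝ))
    (Or.inl h.ne'))).congr_deriv ?_
  unfold am
  rw [Real.rpow_sub_one h.ne']
  field_simp
  ring

theorem am_cont {ν : ℝ} {s : Set ℝ} (h : ∀ x ∈ s, 0 < PP ν x) : ContinuousOn (am ν) s :=
  fun x hx => (am_hd (h x hx)).continuousAt.continuousWithinAt

theorem PP_cont (ν : ℝ) : Continuous (PP ν) :=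
  continuous_iff_continuousAt.mpr fun x => (PP_hd ν x).continuousAt

end PHS_

open PHS_ in
/-- The strips. -/
theorem p_PHS (h1 : T_SEQ) (h2 : T_WKB) : T_PHS := by
  obtain ⟨C, hC, hW⟩ := h2
  have hpi := Real.pi_pos
  have hpi3 := Real.pi_gt_three
  have hpi4 := Real.pi_lt_d2
  refine ⟨6 * C + 13, by linarith, fun ν J J' k hν hJ => ?_⟩
  obtain ⟨hP1, -, hS⟩ := h1 ν hν
  obtain ⟨hxa, hd0, hd1, hak, hl0, hsi, -, -, hM, -, hstrip⟩ := hS k
  obtain ⟨Θ, B1, B2, D1, D2, cD1, cD2, hB⟩ := hW ν J J' hν hJ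
  set a : ℝ := aa ν k with ha
  set d : ℝ := de ν k with hd
  set lam : ℝ := la ν k with hlam
  rw [hak] at hstrip
  have hx : ∀ x ∈ Icc a (a + d), xc ν ≤ x := fun x hx => hxa.trans hx.1
  have hP : ∀ x ∈ Icc a (a + d), 0 < PP ν x := fun x hxx => by
    have := (hP1 x (hx x hxx)).1
    have := Real.exp_pos (4 * x / 3)
    linarith
  have haI : a ∈ Icc a (a + d) := ⟨le_refl _, by linarith⟩
  set P0 : ℝ := PP ν a with hP0
  have hP0p : 0 < P0 := hP a haI
  set s : ℝ := Real.sqrt P0 with hs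
  have hs0 : 0 < s := Real.sqrt_pos.mpr hP0p
  have hs2 : P0 = s ^ 2 := (Real.sq_sqrt hP0p.le).symm
  set t : ℝ := Real.exp (2 * a) with ht
  have ht0 : 0 < t := Real.exp_pos _
  have hPd : P0 = 2 * d * t := by
    rw [hP0, hd, ht]
    unfold PP de
    rw [← ha, Real.exp_neg]
    field_simp
  have hlt : lam = t / s := rfl
  have hsd : 500 ≤ s * d := by
    have e : lam * d ^ 2 = s * d / 2 := by
      rw [hlt]
      have : t = s ^ 2 / (2 * d) := by
        rw [← hs2, hPd]
        field_simp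
      rw [this]
      field_simp
    rw [e] at hM
    linarith
  have hsl : s = 2 * (lam * d) := by
    have : si ν k = lam * d := rfl
    rw [this] at hsi
    linarith
  have hPx : ∀ x ∈ Icc a (a + d), P0 ≤ PP ν x ∧ PP ν x ≤ 4 * P0 ∧ t ≤ Real.exp (2 * x) ∧
      Real.exp (2 * x) ≤ 4 * t ∧ s ≤ Real.sqrt (PP ν x) ∧ Real.sqrt (PP ν x) ≤ 2 * s := by
    intro x hxx
    obtain ⟨g1, g2, g3⟩ := hstrip x hxx
    refine ⟨g1, g2, Real.exp_le_exp.mpr (by linarith [hxx.1]), ?_, Real.sqrt_le_sqrt g1, ?_⟩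
    · have e1 : Real.exp (2 * x) = Real.exp x ^ 2 := by
        rw [← Real.exp_nat_mul]
        norm_num
      have e2 : t = Real.exp a ^ 2 := by
        rw [ht, ← Real.exp_nat_mul]
        norm_num
      rw [e1, e2]
      have := pow_le_pow_left₀ (Real.exp_pos x).le g3 2
      linarith
    · rw [Real.sqrt_le_left (by positivity)]
      rw [mul_pow, ← hs2]
      linarith
  -- the phase
  obtain ⟨Θ', Θ1, Θ2, q0, q1, q2, q3, q4⟩ := ext_phase (a := a) (d := d) (m := lam / (4 * Real.pi))
    (M := 2 * lam / Real.pi) (L := 6 * lam / (Real.pi * d)) hd0 (Θ := Θ)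
    (F := fun y => Real.sqrt (PP ν y) / (2 * Real.pi))
    (g := fun y => Real.exp (2 * y) / (2 * Real.pi * Real.sqrt (PP ν y)))
    (fun x hxx => (hB x (hx x hxx)).1) (fun x hxx => sq_hd (hP x hxx))
    (by
      intro x hxx
      obtain ⟨-, -, g3, g4, g5, g6⟩ := hPx x hxx
      have hsx : 0 < Real.sqrt (PP ν x) := lt_of_lt_of_le hs0 g5
      constructor
      · rw [hlt, div_div, div_le_div_iff₀ (by positivity) (by positivity)]
        have := mul_le_mul g3 g6 hsx.le (Real.exp_pos _).le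
        nlinarith
      · rw [hlt, ← mul_div_assoc, div_div, div_le_div_iff₀ (by positivity) (by positivity)]
        have := mul_le_mul g4 g5 hs0.le (by positivity)
        nlinarith)
    (by positivity)
    (by
      intro x hxx y hyy
      have key := Convex.norm_image_sub_le_of_norm_hasDerivWithin_le (s := Icc a (a + d))
        (f := fun y => Real.exp (2 * y) / (2 * Real.pi * Real.sqrt (PP ν y)))
        (C := 6 * lam / (Real.pi * d)) (x := y) (y := x)
        (fun z hz => (g_hd (hP z hz)).hasDerivWithinAt)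
        (fun z hz => by
          obtain ⟨g1, g2, g3, g4, g5, g6⟩ := hPx z hz
          have hPz := hP z hz
          have hsz : 0 < Real.sqrt (PP ν z) := lt_of_lt_of_le hs0 g5
          have r1 : 2 * Real.exp (2 * z) / Real.sqrt (PP ν z) ≤ 4 * lam / d := by
            have : 2 * Real.exp (2 * z) / Real.sqrt (PP ν z) ≤ 8 * lam := by
              rw [hlt, div_le_iff₀ hsz]
              have h5 : 8 * (t / s) * s = 8 * t := by field_simp
              have h6 : 8 * (t / s) * s ≤ 8 * (t / s) * Real.sqrt (PP ν z) :=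
                mul_le_mul_of_nonneg_left g5 (by positivity)
              linarith
            refine this.trans ?_
            rw [le_div_iff₀ hd0]
            nlinarith
          have r2 : Real.exp (2 * z) ^ 2 / (PP ν z * Real.sqrt (PP ν z)) ≤ 8 * lam / d := by
            rw [div_le_iff₀ (by positivity)]
            have h5 : Real.exp (2 * z) ^ 2 ≤ (4 * t) ^ 2 :=
              pow_le_pow_left₀ (Real.exp_pos _).le g4 2
            have h6 : P0 * s ≤ PP ν z * Real.sqrt (PP ν z) :=
              mul_le_mul g1 g5 hs0.le hPz.le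
            have h7 : 8 * lam / d * (P0 * s) ≤ 8 * lam / d * (PP ν z * Real.sqrt (PP ν z)) :=
              mul_le_mul_of_nonneg_left h6 (by positivity)
            have h8 : 8 * lam / d * (P0 * s) = (4 * t) ^ 2 := by
              rw [hPd, hlt]
              field_simp
              ring
            linarith
          have r3 : 0 ≤ 2 * Real.exp (2 * z) / Real.sqrt (PP ν z) := by positivity
          have r4 : 0 ≤ Real.exp (2 * z) ^ 2 / (PP ν z * Real.sqrt (PP ν z)) := by positivity
          rw [Real.norm_eq_abs, abs_div, abs_of_pos (show 0 < 2 * Real.pi by positivity),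
            div_le_div_iff₀ (by positivity) (by positivity)]
          have r5 : |2 * Real.exp (2 * z) / Real.sqrt (PP ν z) -
              Real.exp (2 * z) ^ 2 / (PP ν z * Real.sqrt (PP ν z))| ≤ 12 * lam / d := by
            rw [abs_le]
            have : 4 * lam / d + 8 * lam / d = 12 * lam / d := by ring
            constructor <;> linarith
          calc _ ≤ 12 * lam / d * (Real.pi * d) :=
                mul_le_mul_of_nonneg_right r5 (by positivity)
            _ = 6 * lam * (2 * Real.pi) := by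
                field_simp
                ring)
        (convex_Icc _ _) hyy hxx
      exact key)
  have hA : (13 : ℝ) ≤ 6 * C + 13 := by linarith
  have hA0 : (0 : ℝ) < 6 * C + 13 := by linarith
  have hF1 : Θ1 a = lam * d / Real.pi := by
    rw [(q4 a haI).2, ← hP0, ← hs, hsl]
    field_simp
  have hm0 : 0 < lam / (4 * Real.pi) := by positivity
  have hc1 : Continuous Θ2 := by
    have : LipschitzWith ⟨6 * lam / (Real.pi * d), by positivity⟩ Θ2 :=
      LipschitzWith.of_dist_le_mul fun x y => by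
        rw [Real.dist_eq, Real.dist_eq]
        exact q3 x y
    exact this.continuous
  have hdiff : ∀ x y, x ≤ y → lam / (4 * Real.pi) * (y - x) ≤ Θ1 y - Θ1 x ∧
      Θ1 y - Θ1 x ≤ 2 * lam / Real.pi * (y - x) := by
    intro x y hxy
    have e : ∫ u in x..y, Θ2 u = Θ1 y - Θ1 x :=
      intervalIntegral.integral_eq_sub_of_hasDerivAt (fun u _ => q1 u)
        (hc1.intervalIntegrable _ _)
    rw [← e]
    constructor
    · have := intervalIntegral.integral_mono_on (μ := volume) hxy
        (f := fun _ => lam / (4 * Real.pi))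
        (g := Θ2) intervalIntegrable_const (hc1.intervalIntegrable _ _) (fun u _ => (q2 u).1)
      rw [intervalIntegral.integral_const, smul_eq_mul] at this
      linarith
    · have := intervalIntegral.integral_mono_on (μ := volume) hxy (g := fun _ => 2 * lam / Real.pi)
        (f := Θ2) (hc1.intervalIntegrable _ _) intervalIntegrable_const (fun u _ => (q2 u).2)
      rw [intervalIntegral.integral_const, smul_eq_mul] at this
      linarith
  have hD : ∀ x ∈ Icc a (a + d), Real.exp (4 * x) * PP ν x ^ (-(5 / 2) : ℝ) ≤ 1 / d := by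
    intro x hxx
    obtain ⟨g1, g2, g3, g4, g5, g6⟩ := hPx x hxx
    have e1 : Real.exp (4 * x) ≤ 16 * t ^ 2 := by
      have : Real.exp (4 * x) = Real.exp (2 * x) ^ 2 := by
        rw [← Real.exp_nat_mul]
        congr 1
        push_cast
        ring
      rw [this]
      have := pow_le_pow_left₀ (Real.exp_pos _).le g4 2
      linarith
    have e2 : PP ν x ^ (-(5 / 2) : ℝ) ≤ P0 ^ (-(5 / 2) : ℝ) :=
      Real.rpow_le_rpow_of_nonpos hP0p g1 (by norm_num)
    have e3 : P0 ^ (-(5 / 2) : ℝ) = 1 / s ^ 5 := by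
      rw [hs2, ← Real.rpow_natCast s 2, ← Real.rpow_mul hs0.le, ← Real.rpow_natCast s 5,
        one_div, ← Real.rpow_neg hs0.le]
      congr 1
      norm_num
    rw [e3] at e2
    have e4 : 16 * t ^ 2 * (1 / s ^ 5) ≤ 1 / d := by
      have : t = s ^ 2 / (2 * d) := by
        rw [← hs2, hPd]
        field_simp
      rw [this]
      have e5 : 16 * (s ^ 2 / (2 * d)) ^ 2 * (1 / s ^ 5) = 4 / (s * d) * (1 / d) := by
        field_simp
        ring
      rw [e5]
      have e6 : 4 / (s * d) ≤ 1 := by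
        rw [div_le_one (by positivity)]
        linarith
      have : 0 < 1 / d := by positivity
      nlinarith
    refine le_trans ?_ e4
    exact mul_le_mul e1 e2 (Real.rpow_nonneg (hP x hxx).le _) (by positivity)
  have hlam12 : Real.sqrt lam = am ν a := by
    have h0 : 0 ≤ am ν a := by
      unfold am
      positivity
    have r1 : P0 ^ (-(1 / 4) : ℝ) * P0 ^ (-(1 / 4) : ℝ) = s⁻¹ := by
      rw [hs, Real.sqrt_eq_rpow, ← Real.rpow_add hP0p, ← Real.rpow_neg hP0p.le]
      congr 1
      norm_num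
    have r2 : Real.exp a * Real.exp a = t := by
      rw [ht, ← Real.exp_add]
      congr 1
      ring
    have r3 : am ν a * am ν a = lam := by
      calc am ν a * am ν a =
          (Real.exp a * Real.exp a) * (P0 ^ (-(1 / 4) : ℝ) * P0 ^ (-(1 / 4) : ℝ)) := by
            unfold am
            ring
        _ = lam := by
            rw [r1, r2, hlt]
            rfl
    rw [← r3, Real.sqrt_mul_self h0]
  have hsl0 : 0 < Real.sqrt lam := Real.sqrt_pos.mpr hl0
  have ham : ∀ x ∈ Icc a (a + d), 0 ≤ am ν x ∧ am ν x ≤ 2 * Real.sqrt lam := by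
    intro x hxx
    have g3 := (hstrip x hxx).2.2
    have g1 := (hstrip x hxx).1
    have hPp := hP x hxx
    refine ⟨by unfold am; positivity, ?_⟩
    rw [hlam12]
    unfold am
    rw [← mul_assoc]
    exact mul_le_mul g3 (Real.rpow_le_rpow_of_nonpos hP0p g1 (by norm_num))
      (Real.rpow_nonneg hPp.le _) (by positivity)
  have hbr : ∀ x ∈ Icc a (a + d), |1 - Real.exp (2 * x) / (2 * PP ν x)| ≤ 2 / d := by
    intro x hxx
    obtain ⟨g1, g2, g3, g4, g5, g6⟩ := hPx x hxx
    have hPp := hP x hxx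
    have r1 : Real.exp (2 * x) / (2 * PP ν x) ≤ 1 / d := by
      rw [div_le_div_iff₀ (by positivity) hd0]
      nlinarith
    have r2 : 0 ≤ Real.exp (2 * x) / (2 * PP ν x) := by positivity
    have r3 : 1 ≤ 1 / d := by
      rw [le_div_iff₀ hd0]
      linarith
    have r4 : 2 / d = 2 * (1 / d) := by ring
    rw [r4, abs_le]
    constructor <;> linarith
  -- the amplitudes
  have hamp : ∀ (B D : ℝ → ℂ), ContinuousOn D (Ici (xc ν)) →
      (∀ x, xc ν ≤ x → HasDerivAt B (D x) x ∧ ‖B x‖ ≤ C ∧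
        ‖D x‖ ≤ C * Real.exp (4 * x) * PP ν x ^ (-(5 / 2) : ℝ)) →
      (∀ x ∈ Icc a (a + d),
        HasDerivAt (fun y => (((Real.sqrt lam)⁻¹ * am ν y : ℝ) : ℂ) * B y)
          ((((Real.sqrt lam)⁻¹ * (am ν x * (1 - Real.exp (2 * x) / (2 * PP ν x))) : ℝ) : ℂ) *
            B x + (((Real.sqrt lam)⁻¹ * am ν x : ℝ) : ℂ) * D x) x ∧
        ‖(((Real.sqrt lam)⁻¹ * am ν x : ℝ) : ℂ) * B x‖ ≤ 6 * C + 13 ∧
        ‖(((Real.sqrt lam)⁻¹ * (am ν x * (1 - Real.exp (2 * x) / (2 * PP ν x))) : ℝ) : ℂ) *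
            B x + (((Real.sqrt lam)⁻¹ * am ν x : ℝ) : ℂ) * D x‖ ≤ (6 * C + 13) / d) ∧
      ContinuousOn (fun x => (((Real.sqrt lam)⁻¹ *
        (am ν x * (1 - Real.exp (2 * x) / (2 * PP ν x))) : ℝ) : ℂ) *
            B x + (((Real.sqrt lam)⁻¹ * am ν x : ℝ) : ℂ) * D x) (Icc a (a + d)) := by
    intro B D cD hBD
    constructor
    · intro x hxx
      have hPp := hP x hxx
      obtain ⟨w1, w2, w3⟩ := hBD x (hx x hxx)
      obtain ⟨m0, m1⟩ := ham x hxx
      have n1 : ‖(((Real.sqrt lam)⁻¹ * am ν x : ℝ) : ℂ)‖ ≤ 2 := by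
        rw [Complex.norm_real, Real.norm_eq_abs, abs_of_nonneg (by positivity),
          inv_mul_le_iff₀ hsl0]
        linarith
      have n2 : ‖(((Real.sqrt lam)⁻¹ * (am ν x * (1 - Real.exp (2 * x) / (2 * PP ν x))) : ℝ) :
          ℂ)‖ ≤ 2 * (2 / d) := by
        have e : (Real.sqrt lam)⁻¹ * (am ν x * (1 - Real.exp (2 * x) / (2 * PP ν x))) =
            ((Real.sqrt lam)⁻¹ * am ν x) * (1 - Real.exp (2 * x) / (2 * PP ν x)) := by ring
        rw [e, Complex.ofReal_mul, norm_mul]
        refine mul_le_mul n1 ?_ (norm_nonneg _) (by norm_num)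
        rw [Complex.norm_real]
        exact hbr x hxx
      refine ⟨?_, ?_, ?_⟩
      · have k1 := ((am_hd hPp).const_mul (Real.sqrt lam)⁻¹).ofReal_comp
        exact k1.mul w1
      · rw [norm_mul]
        have := mul_le_mul n1 w2 (norm_nonneg _) (by norm_num)
        linarith
      · have w4 : ‖D x‖ ≤ C * (1 / d) := by
          refine w3.trans ?_
          rw [mul_assoc]
          exact mul_le_mul_of_nonneg_left (hD x hxx) hC.le
        refine (norm_add_le _ _).trans ?_
        rw [norm_mul, norm_mul]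
        have v1 := mul_le_mul n2 w2 (norm_nonneg _) (by positivity)
        have v2 := mul_le_mul n1 w4 (norm_nonneg _) (by norm_num)
        have v3 : 2 * (2 / d) * C + 2 * (C * (1 / d)) = 6 * C / d := by ring
        have v4 : 6 * C / d ≤ (6 * C + 13) / d := by gcongr; linarith
        linarith
    · have kP : ContinuousOn (PP ν) (Icc a (a + d)) := (PP_cont ν).continuousOn
      have ka := am_cont (ν := ν) (s := Icc a (a + d)) hP
      have kB : ContinuousOn B (Icc a (a + d)) := fun x hxx =>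
        (hBD x (hx x hxx)).1.continuousAt.continuousWithinAt
      have kD : ContinuousOn D (Icc a (a + d)) := cD.mono fun x hxx => hx x hxx
      have ke : ContinuousOn (fun x : ℝ => 1 - Real.exp (2 * x) / (2 * PP ν x))
          (Icc a (a + d)) := by
        refine continuousOn_const.sub (ContinuousOn.div ?_ (continuousOn_const.mul kP) ?_)
        · exact (Real.continuous_exp.comp (continuous_const.mul continuous_id)).continuousOn
        · intro x hxx
          have := hP x hxx
          positivity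
      exact ((Complex.continuous_ofReal.comp_continuousOn
        (continuousOn_const.mul (ka.mul ke))).mul kB).add
        ((Complex.continuous_ofReal.comp_continuousOn (continuousOn_const.mul ka)).mul kD)
  have hb := hamp B1 D1 cD1 (fun x hxx =>
    ⟨(hB x hxx).2.1, (hB x hxx).2.2.2.1, (hB x hxx).2.2.2.2.2.1⟩)
  have hc := hamp B2 D2 cD2 (fun x hxx =>
    ⟨(hB x hxx).2.2.1, (hB x hxx).2.2.2.2.1, (hB x hxx).2.2.2.2.2.2.1⟩)
  refine ⟨Θ', Θ1, Θ2, _, _, _, _, ⟨q0, q1, ?_, ?_, ?_⟩, ?_,
    fun x hxx => ⟨(hb.1 x hxx).1, (hc.1 x hxx).1, (hb.1 x hxx).2.1, (hc.1 x hxx).2.1,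
      (hb.1 x hxx).2.2, (hc.1 x hxx).2.2, ?_⟩, hb.2, hc.2⟩
  · intro x
    refine le_trans ?_ (q2 x).1
    exact div_le_div_of_nonneg_left hl0.le (by positivity) (by linarith)
  · intro x
    refine (q2 x).2.trans ?_
    rw [div_le_iff₀ hpi]
    have k1 : 13 * lam ≤ (6 * C + 13) * lam := mul_le_mul_of_nonneg_right hA hl0.le
    have k2 : 13 * lam * 3 ≤ (6 * C + 13) * lam * Real.pi :=
      mul_le_mul k1 hpi3.le (by norm_num) (by positivity)
    linarith
  · intro x y
    refine (q3 x y).trans (mul_le_mul_of_nonneg_right ?_ (abs_nonneg _))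
    rw [div_le_div_iff₀ (by positivity) hd0]
    have k1 : 13 * lam ≤ (6 * C + 13) * lam := mul_le_mul_of_nonneg_right hA hl0.le
    have k2 : 13 * lam * (3 * d) ≤ (6 * C + 13) * lam * (Real.pi * d) :=
      mul_le_mul k1 (mul_le_mul_of_nonneg_right hpi3.le hd0.le) (by positivity) (by positivity)
    have : 0 < lam * d := by positivity
    linarith
  · intro x hxx
    have hld : 0 < lam * d := by positivity
    have u1 : lam * d / Real.pi * (Real.pi) = lam * d := by field_simp
    have u2 : 2 * lam / Real.pi * (d / 16) = lam * d / Real.pi / 8 := by ring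
    have u3 : 2 * lam / Real.pi * (d + d / 16) = lam * d / Real.pi * (17 / 8) := by ring
    have u4 : lam * d / Real.pi ≤ lam * d / 3 :=
      div_le_div_of_nonneg_left hld.le (by norm_num) hpi3.le
    have u5 : lam * d / 4 ≤ lam * d / Real.pi :=
      div_le_div_of_nonneg_left hld.le hpi (by linarith)
    have u6 : lam * d / (6 * C + 13) ≤ lam * d / 13 :=
      div_le_div_of_nonneg_left hld.le (by norm_num) hA
    have u7 : 0 ≤ 2 * lam / Real.pi := by positivity
    rcases le_total x a with h | h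
    · obtain ⟨v1, v2⟩ := hdiff x a h
      have v3 : 2 * lam / Real.pi * (a - x) ≤ 2 * lam / Real.pi * (d / 16) :=
        mul_le_mul_of_nonneg_left (by linarith [hxx.1]) u7
      have v4 : 0 ≤ lam / (4 * Real.pi) * (a - x) := mul_nonneg hm0.le (by linarith)
      rw [hF1] at v1 v2
      constructor
      · linarith
      · nlinarith
    · obtain ⟨v1, v2⟩ := hdiff a x h
      have v3 : 2 * lam / Real.pi * (x - a) ≤ 2 * lam / Real.pi * (d + d / 16) :=
        mul_le_mul_of_nonneg_left (by linarith [hxx.2]) u7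
      have v4 : 0 ≤ lam / (4 * Real.pi) * (x - a) := mul_nonneg hm0.le (by linarith)
      rw [hF1] at v1 v2
      constructor
      · linarith
      · nlinarith
  · rw [(q4 x hxx).1]
    have hJx := (hB x (hx x hxx)).2.2.2.2.2.2.2
    unfold kap
    rw [Complex.ofReal_mul, hJx]
    have e : ((Real.sqrt lam : ℝ) : ℂ) ≠ 0 := by
      exact_mod_cast hsl0.ne'
    unfold am
    push_cast
    field_simp

end Pool.Agent.CRR
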