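import Pool.Agent.CRR.Targets

/-!
CRR, QID: the identity for `Q = J'² + P J²`.
-/

set_option autoImplicit false

namespace Pool.Agent.CRR

open MeasureTheory Set Filter Topology
open scoped ENNReal NNReal

namespace QID_

/-- `J` is bounded on `(-∞, x]`. -/
lemma bdd {ν : ℝ} {J J' : ℝ → ℝ} (h : Sol ν J J') (x : ℝ) : ∃ B, ∀ y ≤ x, |J y| ≤ B := by
  obtain ⟨B, hB⟩ := h.bd
  have hc : Continuous J := continuous_iff_continuousAt.2 fun y => (h.d1 y).continuousAt
  obtain ⟨M, hM⟩ := (isCompact_Icc (a := 0) (b := x)).exists_bound_of_continuousOn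
    hc.continuousOn
  refine ⟨max B M, fun y hy => ?_⟩
  rcases le_total y 0 with h0 | h0
  · exact (hB y h0).trans (le_max_left _ _)
  · have := hM y ⟨h0, hy⟩
    rw [Real.norm_eq_abs] at this
    exact this.trans (le_max_right _ _)

lemma integ {ν : ℝ} {J J' : ℝ → ℝ} (h : Sol ν J J') (x : ℝ) :
    IntegrableOn (fun y => Real.exp (2 * y) * J y ^ 2) (Iic x) := by
  obtain ⟨B, hB⟩ := bdd h x
  have hc : Continuous J := continuous_iff_continuousAt.2 fun y => (h.d1 y).continuousAt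
  have h1 : IntegrableOn (fun y => B ^ 2 * Real.exp (2 * y)) (Iic x) :=
    (integrableOn_exp_mul_Iic (a := 2) (by norm_num) x).const_mul _
  refine Integrable.mono' h1 ?_ ?_
  · exact (by fun_prop : Continuous fun y => Real.exp (2 * y) * J y ^ 2).aestronglyMeasurable
  · refine (ae_restrict_iff' measurableSet_Iic).2 (Eventually.of_forall fun y hy => ?_)
    rw [Real.norm_eq_abs, abs_mul, abs_of_pos (Real.exp_pos _), abs_pow, mul_comm]
    have h2 := hB y hy
    have h3 : |J y| ^ 2 ≤ B ^ 2 := pow_le_pow_left₀ (abs_nonneg _) h2 2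
    exact mul_le_mul_of_nonneg_right h3 (Real.exp_pos _).le

lemma deriv_Q {ν : ℝ} {J J' : ℝ → ℝ} (h : Sol ν J J') (y : ℝ) :
    HasDerivAt (fun x => J' x ^ 2 + PP ν x * J x ^ 2) (2 * (Real.exp (2 * y) * J y ^ 2)) y := by
  have h0 : HasDerivAt (fun x => PP ν x) (2 * Real.exp (2 * y)) y := by
    have h1 : HasDerivAt (fun x : ℝ => 2 * x) 2 y := by
      simpa using (hasDerivAt_id y).const_mul 2
    have h2 := h1.exp.sub_const (ν ^ 2)
    rw [mul_comm] at h2
    exact h2
  have h3 := ((h.d2 y).pow 2).add (h0.mul ((h.d1 y).pow 2))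
  refine h3.congr_deriv ?_
  simp only [Nat.add_one_sub_one, pow_one, Nat.cast_ofNat, Pi.pow_apply]
  ring

lemma lim_Q (h1 : T_INF) {ν : ℝ} {J J' : ℝ → ℝ} (hν : 0 ≤ ν) (h : Sol ν J J') :
    Tendsto (fun x => J' x ^ 2 + PP ν x * J x ^ 2) atBot (𝓝 0) := by
  obtain ⟨hJ', hνJ⟩ := h1 ν J J' hν h
  obtain ⟨B, hB⟩ := h.bd
  have e0 : Tendsto (fun x : ℝ => Real.exp (2 * x)) atBot (𝓝 0) :=
    Real.tendsto_exp_atBot.comp (tendsto_id.const_mul_atBot (by norm_num))
  have e1 : Tendsto (fun x : ℝ => Real.exp (2 * x) * J x ^ 2) atBot (𝓝 0) := by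
    have e2 : Tendsto (fun x : ℝ => Real.exp (2 * x) * B ^ 2) atBot (𝓝 0) := by
      simpa using e0.mul_const (B ^ 2)
    refine tendsto_of_tendsto_of_tendsto_of_le_of_le' tendsto_const_nhds e2
      (Eventually.of_forall fun x => by positivity) ?_
    filter_upwards [eventually_le_atBot (0 : ℝ)] with x hx
    have h3 : J x ^ 2 ≤ B ^ 2 := by
      rw [← sq_abs (J x)]
      exact pow_le_pow_left₀ (abs_nonneg _) (hB x hx) 2
    exact mul_le_mul_of_nonneg_left h3 (Real.exp_pos _).le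
  have e3 := ((hJ'.pow 2).add e1).sub (hνJ.pow 2)
  simp only [ne_eq, OfNat.ofNat_ne_zero, not_false_eq_true, zero_pow, add_zero, sub_zero] at e3
  refine e3.congr fun x => ?_
  unfold PP
  ring

end QID_

open QID_

theorem p_QID (h1 : T_INF) : T_QID := by
  intro ν J J' hν h x
  have hi := integ h x
  have e : J' x ^ 2 + PP ν x * J x ^ 2 = 2 * ∫ y in Iic x, Real.exp (2 * y) * J y ^ 2 := by
    have h2 := integral_Iic_of_hasDerivAt_of_tendsto' (a := x) (m := 0)
      (f := fun x => J' x ^ 2 + PP ν x * J x ^ 2)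
      (f' := fun y => 2 * (Real.exp (2 * y) * J y ^ 2)) (fun y _ => deriv_Q h y)
      (hi.const_mul 2) (lim_Q h1 hν h)
    rw [integral_const_mul, sub_zero] at h2
    exact h2.symm
  refine ⟨?_, hi, e⟩
  rw [e]
  exact mul_nonneg (by norm_num) (setIntegral_nonneg measurableSet_Iic fun y _ => by positivity)

end Pool.Agent.CRR
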