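import Pool.Agent.CRR.Targets
import Pool.Agent.CRN.P_RMN
import Pool.Agent.CRN.P_ENN

set_option autoImplicit false

/-! CRR-RAD: the main theorem. -/

namespace Pool.Agent.CRR

open MeasureTheory FourierTransform Set Filter Topology
open scoped ENNReal NNReal ComplexConjugate
open Pool.Agent.MBS (E ex S Sstar)
open Pool.Agent.CAR (e1)
open Pool.Agent.CRN (IN sg rt Lam SH S1 Nice T_CARLS T_RAYN T_POLN T_AHN T_DSN T_HELN)

namespace RAD_

variable {n : ℕ}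

theorem f_cont {f : E n → ℂ} (hf : Nice f) : Continuous (𝓕 f) := Pool.Agent.CRN.ENN_.f_cont hf

theorem S_eq (h5 : T_DSN) (hn : 2 ≤ n) {f : E n → ℂ} (hf : Nice f) (x : E n) {R : ℝ}
    (hR : 0 ≤ R) : S f R x = ∫ r in (0 : ℝ)..R, S1 f r x := by
  rw [(h5 n f hn hf).2 x 0 R le_rfl hR, Pool.Agent.CRN.RMN_.S_zero (by omega), zero_add]

theorem S_cont (h5 : T_DSN) (hn : 2 ≤ n) {f : E n → ℂ} (hf : Nice f) {R : ℝ} (hR : 0 ≤ R) :
    Continuous (S f R) := by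
  have h : S f R = fun x => ∫ r in (0 : ℝ)..R, S1 f r x := funext fun x => S_eq h5 hn hf x hR
  rw [h]
  refine intervalIntegral.continuous_parametric_intervalIntegral_of_continuous' ?_ 0 R
  exact (h5 n f hn hf).1.comp continuous_swap

/-- coefficient of the ball sum on the sphere of radius `r` -/
noncomputable def Xc (Y : E n → ℂ) (f : E n → ℂ) (R r : ℝ) : ℂ :=
  ∫ θ, S f R (r • (θ : E n)) * conj (Y (θ : E n)) ∂(sg n)

theorem Xc_cont [IsFiniteMeasure (sg n)] (h5 : T_DSN) (hn : 2 ≤ n) {f : E n → ℂ} (hf : Nice f)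
    {Y : E n → ℂ} (hY : Continuous Y) {R : ℝ} (hR : 0 ≤ R) :
    Continuous (fun r : ℝ => Xc Y f R r) := by
  have h : Continuous (Function.uncurry fun (r : ℝ) (θ : Metric.sphere (0 : E n) 1) =>
      S f R (r • (θ : E n)) * conj (Y (θ : E n))) := by
    refine Continuous.mul ((S_cont h5 hn hf hR).comp (by fun_prop)) ?_
    exact Complex.continuous_conj.comp (hY.comp (by fun_prop))
  have h2 := continuous_parametric_integral_of_continuous (μ := sg n) h isCompact_univ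
  rw [Measure.restrict_univ] at h2
  exact h2

theorem Xc_eq [IsFiniteMeasure (sg n)] (h5 : T_DSN) (hn : 2 ≤ n) {f : E n → ℂ} (hf : Nice f)
    {Y : E n → ℂ} (hY : Continuous Y) {R : ℝ} (hR : 0 ≤ R) (r : ℝ) :
    Xc Y f R r = ∫ ρ in Ioc 0 R, co Y (𝓕 f) ρ r := by
  have e1 : ∀ θ : Metric.sphere (0 : E n) 1, S f R (r • (θ : E n)) * conj (Y (θ : E n)) =
      ∫ ρ in Ioc 0 R, S1 f ρ (r • (θ : E n)) * conj (Y (θ : E n)) := by
    intro θ
    rw [S_eq h5 hn hf _ hR, intervalIntegral.integral_of_le hR, integral_mul_const]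
  have h1 : Continuous (fun q : Metric.sphere (0 : E n) 1 × ℝ =>
      S1 f q.2 (r • (q.1 : E n)) * conj (Y (q.1 : E n))) := by
    refine Continuous.mul ?_ (Complex.continuous_conj.comp (hY.comp (by fun_prop)))
    exact (h5 n f hn hf).1.comp (f := fun q : Metric.sphere (0 : E n) 1 × ℝ =>
      (q.2, r • (q.1 : E n))) (by fun_prop)
  have h2 : IntegrableOn (fun q : Metric.sphere (0 : E n) 1 × ℝ =>
      S1 f q.2 (r • (q.1 : E n)) * conj (Y (q.1 : E n))) (univ ×ˢ Icc 0 R)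
      ((sg n).prod volume) :=
    h1.continuousOn.integrableOn_compact (isCompact_univ.prod isCompact_Icc)
  have h3 : Integrable (fun q : Metric.sphere (0 : E n) 1 × ℝ =>
      S1 f q.2 (r • (q.1 : E n)) * conj (Y (q.1 : E n)))
      ((sg n).prod (volume.restrict (Ioc 0 R))) := by
    have h4 := h2.mono_set (prod_mono (subset_refl univ) (Ioc_subset_Icc_self (a := (0 : ℝ))
      (b := R)))
    rw [IntegrableOn, ← Measure.prod_restrict, Measure.restrict_univ] at h4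
    exact h4
  calc Xc Y f R r = ∫ θ, (∫ ρ in Ioc 0 R, S1 f ρ (r • (θ : E n)) * conj (Y (θ : E n))) ∂(sg n) :=
        integral_congr_ae (Eventually.of_forall e1)
    _ = ∫ ρ in Ioc 0 R, ∫ θ, S1 f ρ (r • (θ : E n)) * conj (Y (θ : E n)) ∂(sg n) :=
        integral_integral_swap h3
    _ = ∫ ρ in Ioc 0 R, co Y (𝓕 f) ρ r := rfl

/-! ### changes of variables -/

theorem image_Iic (V : ℝ) : (fun v : ℝ => Real.exp v / (2 * Real.pi)) '' Iic V =
    Ioc 0 (Real.exp V / (2 * Real.pi)) := by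
  ext ρ
  constructor
  · rintro ⟨v, hv, rfl⟩
    exact ⟨by positivity, div_le_div_of_nonneg_right (Real.exp_le_exp.2 hv) (by positivity)⟩
  · rintro ⟨h0, h1⟩
    refine ⟨Real.log (2 * Real.pi * ρ), ?_, ?_⟩
    · rw [mem_Iic, Real.log_le_iff_le_exp (by positivity)]
      rw [le_div_iff₀ (by positivity)] at h1
      linarith
    · simp only []
      rw [Real.exp_log (by positivity)]
      field_simp

theorem image_univ : (fun v : ℝ => Real.exp v / (2 * Real.pi)) '' univ = Ioi 0 := by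
  ext ρ
  constructor
  · rintro ⟨v, hv, rfl⟩
    exact div_pos (Real.exp_pos v) (by positivity)
  · intro h0
    have h0' : 0 < ρ := h0
    refine ⟨Real.log (2 * Real.pi * ρ), mem_univ _, ?_⟩
    simp only []
    rw [Real.exp_log (by positivity)]
    field_simp

theorem inj : Function.Injective (fun v : ℝ => Real.exp v / (2 * Real.pi)) := by
  intro a b h
  have h2 : Real.exp a / (2 * Real.pi) = Real.exp b / (2 * Real.pi) := h
  rw [div_left_inj' (by positivity)] at h2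
  exact Real.exp_injective h2

theorem der (v : ℝ) : HasDerivAt (fun v : ℝ => Real.exp v / (2 * Real.pi))
    (Real.exp v / (2 * Real.pi)) v := (Real.hasDerivAt_exp v).div_const _

/-- `∫ dr/r = ∫ du` -/
theorem lint_log (φ : ℝ → ℝ≥0∞) :
    ∫⁻ r in Ioi (0 : ℝ), ENNReal.ofReal r⁻¹ * φ (Real.log r) = ∫⁻ u, φ u := by
  have h := lintegral_image_eq_lintegral_abs_deriv_mul (s := univ) MeasurableSet.univ
    (fun x _ => (Real.hasDerivAt_exp x).hasDerivWithinAt) Real.exp_injective.injOn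
    (fun r => ENNReal.ofReal r⁻¹ * φ (Real.log r))
  rw [Set.image_univ, Real.range_exp] at h
  rw [h, Measure.restrict_univ]
  refine lintegral_congr fun u => ?_
  rw [Real.log_exp, abs_of_pos (Real.exp_pos u), ← mul_assoc, ← ENNReal.ofReal_mul
    (Real.exp_pos u).le, mul_inv_cancel₀ (Real.exp_pos u).ne', ENNReal.ofReal_one, one_mul]

theorem lint_G (G : ℝ → ℂ) :
    ∫⁻ v : ℝ, ‖G (Real.exp v / (2 * Real.pi))‖ₑ ^ 2 =
      ∫⁻ ρ in Ioi (0 : ℝ), ‖G ρ‖ₑ ^ 2 * ENNReal.ofReal ρ⁻¹ := by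
  have h := lintegral_image_eq_lintegral_abs_deriv_mul (s := univ) MeasurableSet.univ
    (fun x _ => (der x).hasDerivWithinAt) inj.injOn
    (fun ρ => ‖G ρ‖ₑ ^ 2 * ENNReal.ofReal ρ⁻¹)
  rw [RAD_.image_univ] at h
  rw [h, Measure.restrict_univ]
  refine lintegral_congr fun u => ?_
  have hp : 0 < Real.exp u / (2 * Real.pi) := by positivity
  rw [abs_of_pos hp, mul_comm (‖G (Real.exp u / (2 * Real.pi))‖ₑ ^ 2), ← mul_assoc,
    ← ENNReal.ofReal_mul hp.le, mul_inv_cancel₀ hp.ne', ENNReal.ofReal_one, one_mul]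

/-- the integral in `ρ` in the logarithmic variables -/
theorem int_log (G : ℝ → ℂ) (J : ℝ → ℝ) {r R : ℝ} (hr : 0 < r) (hR : 0 < R) :
    ∫ ρ in Ioc 0 R, G ρ * (J (Real.log (2 * Real.pi * r * ρ)) : ℂ) =
      (((2 * Real.pi * r)⁻¹ : ℝ) : ℂ) * ∫ v in Iic (Real.log (2 * Real.pi * R)),
        kap J (Real.log r + v) * G (Real.exp v / (2 * Real.pi)) := by
  have hV : Real.exp (Real.log (2 * Real.pi * R)) / (2 * Real.pi) = R := by
    rw [Real.exp_log (by positivity)]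
    field_simp
  have h := integral_image_eq_integral_abs_deriv_smul (s := Iic (Real.log (2 * Real.pi * R)))
    measurableSet_Iic (fun x _ => (der x).hasDerivWithinAt) inj.injOn
    (fun ρ => G ρ * (J (Real.log (2 * Real.pi * r * ρ)) : ℂ))
  rw [image_Iic, hV] at h
  rw [h, ← integral_const_mul]
  refine integral_congr_ae (Eventually.of_forall fun v => ?_)
  simp only []
  have hp : 0 < Real.exp v / (2 * Real.pi) := by positivity
  have e1 : Real.log (2 * Real.pi * r * (Real.exp v / (2 * Real.pi))) = Real.log r + v := by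
    rw [show 2 * Real.pi * r * (Real.exp v / (2 * Real.pi)) = r * Real.exp v by field_simp,
      Real.log_mul hr.ne' (Real.exp_pos v).ne', Real.log_exp]
  rw [e1, abs_of_pos hp, Complex.real_smul]
  unfold kap
  rw [Real.exp_add, Real.exp_log hr]
  have hpi : (Real.pi : ℂ) ≠ 0 := by exact_mod_cast Real.pi_ne_zero
  have hrc : (r : ℂ) ≠ 0 := by exact_mod_cast hr.ne'
  push_cast
  field_simp

/-- the maximal function of a Hankel transform -/
noncomputable def HM (J : ℝ → ℝ) (g : ℝ → ℂ) (u : ℝ) : ℝ≥0∞ :=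
  ⨆ V : ℝ, ‖∫ v in Iic V, kap J (u + v) * g v‖ₑ

theorem enorm_real {x : ℝ} (hx : 0 ≤ x) : ‖(x : ℂ)‖ₑ = ENNReal.ofReal x := by
  rw [← ofReal_norm, Complex.norm_real, Real.norm_of_nonneg hx]

theorem pow_eq (hn : 2 ≤ n) {r : ℝ} (hr : 0 < r) :
    r ^ (n - 1) = r * (r ^ (((n : ℝ) - 2) / 2)) ^ 2 := by
  rw [← Real.rpow_natCast (r ^ (((n : ℝ) - 2) / 2)) 2, ← Real.rpow_mul hr.le]
  conv_rhs => rw [← Real.rpow_one r]
  rw [← Real.rpow_mul hr.le, one_mul, ← Real.rpow_add hr, ← Real.rpow_natCast]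
  congr 1
  rw [Nat.cast_sub (by omega)]
  push_cast
  ring

theorem Xc_le (hn : 2 ≤ n) {Y f : E n → ℂ} {J : ℝ → ℝ} {G : ℝ → ℂ} {r R : ℝ} (hr : 0 < r)
    (hR : 0 < R) (hX : Xc Y f R r = ∫ ρ in Ioc 0 R, co Y (𝓕 f) ρ r)
    (hG : ∀ ρ, 0 < ρ → ((r ^ (((n : ℝ) - 2) / 2) : ℝ) : ℂ) * co Y (𝓕 f) ρ r =
      G ρ * J (Real.log (2 * Real.pi * r * ρ))) :
    ENNReal.ofReal (r ^ (n - 1)) * ‖Xc Y f R r‖ₑ ^ 2 ≤
      ENNReal.ofReal r⁻¹ * HM J (fun v => G (Real.exp v / (2 * Real.pi))) (Real.log r) ^ 2 := by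
  have hw : 0 ≤ r ^ (((n : ℝ) - 2) / 2) := Real.rpow_nonneg hr.le _
  have e1 : ((r ^ (((n : ℝ) - 2) / 2) : ℝ) : ℂ) * Xc Y f R r =
      (((2 * Real.pi * r)⁻¹ : ℝ) : ℂ) * ∫ v in Iic (Real.log (2 * Real.pi * R)),
        kap J (Real.log r + v) * G (Real.exp v / (2 * Real.pi)) := by
    rw [hX, ← integral_const_mul, ← int_log G J hr hR]
    exact setIntegral_congr_fun measurableSet_Ioc fun ρ hρ => hG ρ hρ.1
  have h1 : r * ((2 * Real.pi * r)⁻¹) ^ 2 ≤ r⁻¹ := by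
    have hpi : 1 ≤ 2 * Real.pi := by linarith [Real.pi_gt_three]
    have h2 : r * ((2 * Real.pi * r)⁻¹) ^ 2 = ((2 * Real.pi) ^ 2)⁻¹ * r⁻¹ := by
      field_simp
    rw [h2]
    have h3 : ((2 * Real.pi) ^ 2)⁻¹ ≤ 1 := inv_le_one_of_one_le₀ (one_le_pow₀ hpi)
    calc ((2 * Real.pi) ^ 2)⁻¹ * r⁻¹ ≤ 1 * r⁻¹ := by gcongr
      _ = r⁻¹ := one_mul _
  calc ENNReal.ofReal (r ^ (n - 1)) * ‖Xc Y f R r‖ₑ ^ 2
      = ENNReal.ofReal r * ‖((r ^ (((n : ℝ) - 2) / 2) : ℝ) : ℂ) * Xc Y f R r‖ₑ ^ 2 := by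
        rw [pow_eq hn hr, ENNReal.ofReal_mul hr.le, ENNReal.ofReal_pow hw, enorm_mul,
          enorm_real hw]
        ring
    _ = ENNReal.ofReal (r * ((2 * Real.pi * r)⁻¹) ^ 2) *
        ‖∫ v in Iic (Real.log (2 * Real.pi * R)),
          kap J (Real.log r + v) * G (Real.exp v / (2 * Real.pi))‖ₑ ^ 2 := by
        have h0 : (0 : ℝ) ≤ (2 * Real.pi * r)⁻¹ := by positivity
        rw [e1, ENNReal.ofReal_mul hr.le, ENNReal.ofReal_pow h0, enorm_mul, enorm_real h0]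
        ring
    _ ≤ ENNReal.ofReal r⁻¹ *
        ‖∫ v in Iic (Real.log (2 * Real.pi * R)),
          kap J (Real.log r + v) * G (Real.exp v / (2 * Real.pi))‖ₑ ^ 2 := by gcongr
    _ ≤ _ := by
        refine mul_le_mul_right (pow_le_pow_left' ?_ 2) _
        exact le_iSup (fun V : ℝ => ‖∫ v in Iic V,
          kap J (Real.log r + v) * G (Real.exp v / (2 * Real.pi))‖ₑ) _

theorem Hm_le {CH : ℝ≥0} (hH : ∀ (ν : ℝ) (J J' : ℝ → ℝ) (g : ℝ → ℂ), 0 ≤ ν →
    NSol ν J J' → Measurable g →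
    ∫⁻ u, (⨆ V : ℝ, ‖∫ v in Iic V, kap J (u + v) * g v‖ₑ) ^ 2 ≤ CH * ∫⁻ v, ‖g v‖ₑ ^ 2)
    {l : ℝ} {J J' : ℝ → ℝ} {G : ℝ → ℂ} (hGm : Measurable G)
    (hNS : (∀ ρ, G ρ = 0) ∨ NSol (nu n l) J J') :
    ∫⁻ r in Ioi (0 : ℝ), ENNReal.ofReal r⁻¹ *
      HM J (fun v => G (Real.exp v / (2 * Real.pi))) (Real.log r) ^ 2 ≤
      CH * ∫⁻ ρ in Ioi (0 : ℝ), ‖G ρ‖ₑ ^ 2 * ENNReal.ofReal ρ⁻¹ := by
  rw [lint_log (fun u => HM J (fun v => G (Real.exp v / (2 * Real.pi))) u ^ 2), ← lint_G]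
  rcases hNS with h | h
  · have h0 : ∀ u, HM J (fun v => G (Real.exp v / (2 * Real.pi))) u = 0 := by
      intro u
      unfold HM
      simp only [h, mul_zero, integral_zero, enorm_zero, ciSup_const]
    simp only [h0, ne_eq, OfNat.ofNat_ne_zero, not_false_eq_true, zero_pow, lintegral_zero]
    exact zero_le
  · exact hH (nu n l) J J' _ (Real.sqrt_nonneg _) h (hGm.comp (by fun_prop))

end RAD_

open RAD_ in
theorem p_RAD (h1 : T_HANK) (h2 : T_EIG) (h3 : T_GM) (h4 : T_POLN) (h5 : T_DSN) : T_RAD := by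
  intro hCarl n hn
  obtain ⟨CH, hH⟩ := h1 hCarl
  obtain ⟨CG, hG⟩ := h3 n hn
  obtain ⟨N, Y, lam, hEB, hY⟩ := h2 n hn
  have hfin : IsFiniteMeasure (sg n) := (h4 n (by omega)).2.2
  refine ⟨CH * CG, fun f hf => ?_⟩
  have hpl : ∫⁻ ξ, ‖𝓕 f ξ‖ₑ ^ 2 = ∫⁻ x, ‖f x‖ₑ ^ 2 :=
    Pool.Agent.CRN.ENN_.plancherel hf.int hf.sq
  obtain ⟨A, hA⟩ : ∃ A : ℕ → ℝ → ℝ≥0∞, A = fun K r => ⨆ (R : ℝ) (_ : 0 < R),
    pn (Y K) (fun x => S f R (r • x)) := ⟨_, rfl⟩
  have hcS : ∀ R, 0 < R → ∀ r : ℝ, Continuous (fun x : E n => S f R (r • x)) := fun R hR r =>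
    (S_cont h5 hn hf hR.le).comp (by fun_prop)
  have hpn : ∀ (K : ℕ) (R r : ℝ), pn (Y K) (fun x => S f R (r • x)) =
      ∑ m, ‖Xc (Y K m) f R r‖ₑ ^ 2 := fun K R r => rfl
  have hA1 : ∀ r, (⨆ (R : ℝ) (_ : 0 < R), ∫⁻ θ, ‖S f R (r • (θ : E n))‖ₑ ^ 2 ∂(sg n)) ≤
      ⨆ K, A K r := by
    intro r
    refine iSup₂_le fun R hR => ?_
    refine (hY _ (hcS R hR r)).2.ge.trans (iSup_mono fun K => ?_)
    rw [hA]
    exact le_iSup₂_of_le R hR le_rfl
  have hAmono : Monotone A := by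
    refine monotone_nat_of_le_succ fun K r => ?_
    rw [hA]
    exact iSup₂_mono fun R hR => (hY _ (hcS R hR r)).1 K
  have hXm : ∀ (K : ℕ) (m : Fin (N K)) (R : ℝ), 0 < R →
      Continuous (fun r : ℝ => ‖Xc (Y K m) f R r‖ₑ ^ 2) := fun K m R hR =>
    (ENNReal.continuous_pow 2).comp (Xc_cont h5 hn hf ((hEB K).cont m) hR.le).enorm
  have hAm : ∀ K, Measurable (A K) := by
    intro K
    have hl : LowerSemicontinuous (A K) := by
      rw [hA]
      refine lowerSemicontinuous_biSup fun R hR => ?_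
      simp only [hpn]
      exact (continuous_finsetSum _ fun m _ => hXm K m R hR).lowerSemicontinuous
    exact hl.measurable
  have hpm : Measurable (fun r : ℝ => ENNReal.ofReal (r ^ (n - 1))) := by fun_prop
  have bound : ∀ K, ∫⁻ r in Ioi (0 : ℝ), A K r * ENNReal.ofReal (r ^ (n - 1)) ≤
      ((CH * CG : ℝ≥0) : ℝ≥0∞) * ∫⁻ x, ‖f x‖ₑ ^ 2 := by
    intro K
    obtain ⟨J, J', G, hGm, hNS, hco, hsum⟩ :=
      hG (N K) (Y K) (lam K) (𝓕 f) (hEB K) (f_cont hf)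
    obtain ⟨B, hB⟩ : ∃ B : Fin (N K) → ℝ → ℝ≥0∞, B = fun m r => ⨆ (R : ℝ) (_ : 0 < R),
      ‖Xc (Y K m) f R r‖ₑ ^ 2 := ⟨_, rfl⟩
    have hBm : ∀ m, Measurable (B m) := by
      intro m
      have hl : LowerSemicontinuous (B m) := by
        rw [hB]
        exact lowerSemicontinuous_biSup fun R hR => (hXm K m R hR).lowerSemicontinuous
      exact hl.measurable
    have hAB : ∀ r, A K r ≤ ∑ m, B m r := by
      intro r
      rw [hA]
      refine iSup₂_le fun R hR => ?_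
      rw [hpn, hB]
      exact Finset.sum_le_sum fun m _ => le_iSup₂_of_le R hR le_rfl
    have hB1 : ∀ m, ∀ r ∈ Ioi (0 : ℝ), B m r * ENNReal.ofReal (r ^ (n - 1)) ≤
        ENNReal.ofReal r⁻¹ *
          HM (J m) (fun v => G m (Real.exp v / (2 * Real.pi))) (Real.log r) ^ 2 := by
      intro m r hr
      rw [hB]
      simp only [ENNReal.iSup_mul]
      refine iSup₂_le fun R hR => ?_
      rw [mul_comm]
      exact Xc_le hn hr hR (Xc_eq h5 hn hf ((hEB K).cont m) hR.le r)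
        fun ρ hρ => hco m ρ r hρ hr
    calc ∫⁻ r in Ioi (0 : ℝ), A K r * ENNReal.ofReal (r ^ (n - 1))
        ≤ ∫⁻ r in Ioi (0 : ℝ), ∑ m, B m r * ENNReal.ofReal (r ^ (n - 1)) := by
          refine lintegral_mono fun r => ?_
          rw [← Finset.sum_mul]
          exact mul_le_mul_left (hAB r) _
      _ = ∑ m, ∫⁻ r in Ioi (0 : ℝ), B m r * ENNReal.ofReal (r ^ (n - 1)) :=
          lintegral_finsetSum _ fun m _ => (hBm m).mul hpm
      _ ≤ ∑ m, CH * ∫⁻ ρ in Ioi (0 : ℝ), ‖G m ρ‖ₑ ^ 2 * ENNReal.ofReal ρ⁻¹ := by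
          refine Finset.sum_le_sum fun m _ => ?_
          refine le_trans ?_ (Hm_le hH (hGm m) (hNS m))
          exact setLIntegral_mono' measurableSet_Ioi (hB1 m)
      _ = CH * ∑ m, ∫⁻ ρ in Ioi (0 : ℝ), ‖G m ρ‖ₑ ^ 2 * ENNReal.ofReal ρ⁻¹ := by
          rw [Finset.mul_sum]
      _ ≤ CH * (CG * ∫⁻ ξ, ‖𝓕 f ξ‖ₑ ^ 2) := by gcongr
      _ = ((CH * CG : ℝ≥0) : ℝ≥0∞) * ∫⁻ x, ‖f x‖ₑ ^ 2 := by
          rw [hpl]
          push_cast
          ring
  calc ∫⁻ r in Ioi (0 : ℝ), (⨆ (R : ℝ) (_ : 0 < R), ∫⁻ θ, ‖S f R (r • (θ : E n))‖ₑ ^ 2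
        ∂(sg n)) * ENNReal.ofReal (r ^ (n - 1))
      ≤ ∫⁻ r in Ioi (0 : ℝ), ⨆ K, A K r * ENNReal.ofReal (r ^ (n - 1)) := by
        refine lintegral_mono fun r => ?_
        rw [← ENNReal.iSup_mul]
        exact mul_le_mul_left (hA1 r) _
    _ = ⨆ K, ∫⁻ r in Ioi (0 : ℝ), A K r * ENNReal.ofReal (r ^ (n - 1)) := by
        refine lintegral_iSup (fun K => (hAm K).mul hpm) fun a b hab r => ?_
        exact mul_le_mul_left (hAmono hab r) _
    _ ≤ _ := iSup_le bound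

end Pool.Agent.CRR
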