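import Pool.Agent.CRR.Targets
import Pool.Agent.CRN.P_SERN

set_option autoImplicit false

/-!
# CRR: RAE, convergence in `L²` of almost every sphere
-/

namespace Pool.Agent.CRR

open MeasureTheory FourierTransform Set Filter Topology
open scoped ENNReal NNReal ComplexConjugate
open Pool.Agent.MBS (E ex S Sstar)
open Pool.Agent.CAR (e1)
open Pool.Agent.CRN (IN sg rt Lam SH S1 Nice T_CARLS T_RAYN T_POLN T_AHN T_DSN T_HELN)

namespace RAE_

open Pool.Agent.CRN.SERN_ (fc S_sub S_cont conv_good nice_sub ex_c ex_norm)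

variable {n : ℕ}

theorem esq (z : ℂ) : ‖z‖ₑ ^ 2 = ENNReal.ofReal (‖z‖ ^ 2) := by
  rw [← ofReal_norm, ENNReal.ofReal_pow (norm_nonneg z)]

theorem lint_eLp (f : E n → ℂ) : ∫⁻ x, ‖f x‖ₑ ^ 2 = eLpNorm f 2 ^ 2 := by
  rw [eLpNorm_eq_lintegral_rpow_enorm_toReal (by norm_num) (by norm_num)]
  simp only [ENNReal.toReal_ofNat, ENNReal.rpow_ofNat, one_div]
  rw [← ENNReal.rpow_natCast, ← ENNReal.rpow_mul]
  norm_num

theorem nice_schwartz (g : SchwartzMap (E n) ℂ) : Nice (g : E n → ℂ) :=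
  ⟨g.continuous.measurable, g.integrable, g.memLp 2⟩

theorem approx {u : E n → ℂ} (hu : Nice u) {d : ℝ} (hd : 0 < d) :
    ∃ g : E n → ℂ, Nice g ∧ Continuous g ∧ Nice (𝓕 g) ∧
      ∫⁻ x, ‖u x - g x‖ₑ ^ 2 ≤ ENNReal.ofReal d := by
  obtain ⟨g, hg1, hg2, hg3⟩ := MemLp.exist_eLpNorm_sub_le (μ := volume) (p := 2)
    (by norm_num) (by norm_num) hu.sq (Real.sqrt_pos.2 hd)
  have e1 : ((hg1.toSchwartzMap hg2 : SchwartzMap (E n) ℂ) : E n → ℂ) = g := by
    ext x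
    rfl
  refine ⟨g, ?_, ?_, ?_, ?_⟩
  · rw [← e1]
    exact nice_schwartz _
  · exact hg2.continuous
  · have e2 : 𝓕 g = ((𝓕 (hg1.toSchwartzMap hg2 : SchwartzMap (E n) ℂ) :
        SchwartzMap (E n) ℂ) : E n → ℂ) := by
      rw [SchwartzMap.fourier_coe, e1]
    rw [e2]
    exact nice_schwartz _
  · have h1 : ∫⁻ x, ‖u x - g x‖ₑ ^ 2 = eLpNorm (u - g) 2 ^ 2 := lint_eLp (u - g)
    rw [h1]
    refine le_trans (pow_le_pow_left' hg3 2) (le_of_eq ?_)
    rw [← ENNReal.ofReal_pow (Real.sqrt_nonneg d), Real.sq_sqrt hd.le]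

theorem sph_cont' {F : E n → ℂ} (hF : Continuous F) [IsFiniteMeasure (sg n)] :
    Continuous fun r : ℝ => ∫⁻ θ, ‖F (r • (θ : E n))‖ₑ ^ 2 ∂(sg n) := by
  have h1 : Continuous (fun p : ℝ × Metric.sphere (0 : E n) 1 => p.1 • (p.2 : E n)) :=
    continuous_fst.smul (continuous_subtype_val.comp continuous_snd)
  have hc : Continuous (fun p : ℝ × Metric.sphere (0 : E n) 1 =>
      ‖F (p.1 • (p.2 : E n))‖ ^ 2) := (hF.comp h1).norm.pow 2
  have e1 : (fun r : ℝ => ∫⁻ θ, ‖F (r • (θ : E n))‖ₑ ^ 2 ∂(sg n)) =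
      fun r : ℝ => ENNReal.ofReal (∫ θ, ‖F (r • (θ : E n))‖ ^ 2 ∂(sg n)) := by
    funext r
    have h2 : Continuous fun θ : Metric.sphere (0 : E n) 1 => ‖F (r • (θ : E n))‖ ^ 2 :=
      (hF.comp (continuous_subtype_val.const_smul r)).norm.pow 2
    have h3 : Integrable (fun θ : Metric.sphere (0 : E n) 1 => ‖F (r • (θ : E n))‖ ^ 2)
        (sg n) := h2.integrable_of_hasCompactSupport (HasCompactSupport.of_compactSpace _)
    have h4 := ofReal_integral_eq_lintegral_ofReal (μ := sg n)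
      (f := fun θ : Metric.sphere (0 : E n) 1 => ‖F (r • (θ : E n))‖ ^ 2) h3
      (ae_of_all _ fun θ => sq_nonneg _)
    rw [h4]
    exact lintegral_congr fun θ => esq _
  rw [e1]
  refine ENNReal.continuous_ofReal.comp ?_
  have h3 := continuous_parametric_integral_of_continuous (μ := sg n)
    (f := fun (r : ℝ) (θ : Metric.sphere (0 : E n) 1) => ‖F (r • (θ : E n))‖ ^ 2) hc
    (s := Set.univ) isCompact_univ
  simpa using h3

theorem sph_cont {u : E n → ℂ} (hu : Integrable u) (R : ℝ) [IsFiniteMeasure (sg n)] :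
    Continuous fun r : ℝ => ∫⁻ θ, ‖S u R (r • (θ : E n))‖ₑ ^ 2 ∂(sg n) :=
  sph_cont' (S_cont hu R)

theorem A_meas {u : E n → ℂ} (hu : Integrable u) [IsFiniteMeasure (sg n)] :
    Measurable fun r : ℝ => ⨆ (R : ℝ) (_ : 0 < R),
      ∫⁻ θ, ‖S u R (r • (θ : E n))‖ₑ ^ 2 ∂(sg n) := by
  refine LowerSemicontinuous.measurable ?_
  refine lowerSemicontinuous_iSup fun R => lowerSemicontinuous_iSup fun _ => ?_
  exact (sph_cont hu R).lowerSemicontinuous

theorem B_meas {u : E n → ℂ} (hu : Measurable u) [IsFiniteMeasure (sg n)] :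
    Measurable fun r : ℝ => ∫⁻ θ, ‖u (r • (θ : E n))‖ₑ ^ 2 ∂(sg n) := by
  have h1 : Continuous (fun p : ℝ × Metric.sphere (0 : E n) 1 => p.1 • (p.2 : E n)) :=
    continuous_fst.smul (continuous_subtype_val.comp continuous_snd)
  have h2 : Measurable (fun p : ℝ × Metric.sphere (0 : E n) 1 => ‖u (p.1 • (p.2 : E n))‖ₑ ^ 2) :=
    (hu.comp h1.measurable).enorm.pow_const 2
  exact h2.lintegral_prod_right'

theorem three (a b c : ℂ) : ‖a + b - c‖ₑ ^ 2 ≤ 3 * ‖a‖ₑ ^ 2 + 3 * ‖c‖ₑ ^ 2 + 3 * ‖b‖ₑ ^ 2 := by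
  rw [esq, esq, esq, esq]
  have h3 : (3 : ℝ≥0∞) = ENNReal.ofReal 3 := by norm_num
  rw [h3, ← ENNReal.ofReal_mul (by norm_num), ← ENNReal.ofReal_mul (by norm_num),
    ← ENNReal.ofReal_mul (by norm_num), ← ENNReal.ofReal_add (by positivity) (by positivity),
    ← ENNReal.ofReal_add (by positivity) (by positivity)]
  refine ENNReal.ofReal_le_ofReal ?_
  have h1 : ‖a + b - c‖ ≤ ‖a‖ + ‖b‖ + ‖c‖ :=
    (norm_sub_le _ _).trans (add_le_add_left (norm_add_le _ _) _)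
  have h2 : ‖a + b - c‖ ^ 2 ≤ (‖a‖ + ‖b‖ + ‖c‖) ^ 2 :=
    pow_le_pow_left₀ (norm_nonneg _) h1 2
  nlinarith [sq_nonneg (‖a‖ - ‖b‖), sq_nonneg (‖b‖ - ‖c‖), sq_nonneg (‖a‖ - ‖c‖)]

theorem S_bd (g : E n → ℂ) (hF : Integrable (𝓕 g)) (R : ℝ) (x : E n) :
    ‖S g R x‖ ≤ ∫ ξ, ‖𝓕 g ξ‖ := by
  unfold S
  refine (norm_integral_le_integral_norm _).trans ?_
  have h1 : ∀ ξ, ‖𝓕 g ξ * ex x ξ‖ = ‖𝓕 g ξ‖ := by
    intro ξ
    rw [norm_mul, ex_norm, mul_one]
  simp only [h1]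
  exact setIntegral_le_integral hF.norm (ae_of_all _ fun ξ => norm_nonneg _)

theorem g_conv {g : E n → ℂ} (hg : Nice g) (hc : Continuous g) (hF : Nice (𝓕 g))
    [IsFiniteMeasure (sg n)] (r : ℝ) :
    Tendsto (fun R : ℝ => ∫⁻ θ, ‖S g R (r • (θ : E n)) - g (r • (θ : E n))‖ₑ ^ 2 ∂(sg n))
      atTop (𝓝 0) := by
  set B : ℝ := ∫ ξ, ‖𝓕 g ξ‖ with hB
  have hB0 : 0 ≤ B := integral_nonneg fun ξ => norm_nonneg _
  have hlim : ∀ x, Tendsto (fun R : ℝ => S g R x) atTop (𝓝 (g x)) :=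
    fun x => conv_good hc hg.int hF.int x
  have hgB : ∀ x, ‖g x‖ ≤ B := fun x =>
    le_of_tendsto (hlim x).norm (Eventually.of_forall fun R => S_bd g hF.int R x)
  have h0 : (0 : ℝ≥0∞) = ∫⁻ _θ : Metric.sphere (0 : E n) 1, 0 ∂(sg n) := by simp
  rw [h0]
  refine tendsto_lintegral_filter_of_dominated_convergence
    (fun _ => ENNReal.ofReal ((2 * B) ^ 2)) ?_ ?_ ?_ ?_
  · refine Eventually.of_forall fun R => ?_
    have h1 : Continuous (fun θ : Metric.sphere (0 : E n) 1 => r • (θ : E n)) :=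
      continuous_subtype_val.const_smul r
    have h2 : Continuous (fun θ : Metric.sphere (0 : E n) 1 =>
        S g R (r • (θ : E n)) - g (r • (θ : E n))) :=
      ((S_cont hg.int R).comp h1).sub (hc.comp h1)
    exact (h2.measurable.enorm.pow_const 2)
  · refine Eventually.of_forall fun R => ae_of_all _ fun θ => ?_
    rw [esq]
    refine ENNReal.ofReal_le_ofReal (pow_le_pow_left₀ (norm_nonneg _) ?_ 2)
    calc ‖S g R (r • (θ : E n)) - g (r • (θ : E n))‖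
        ≤ ‖S g R (r • (θ : E n))‖ + ‖g (r • (θ : E n))‖ := norm_sub_le _ _
      _ ≤ B + B := add_le_add (S_bd g hF.int R _) (hgB _)
      _ = 2 * B := by ring
  · rw [lintegral_const]
    exact ENNReal.mul_ne_top ENNReal.ofReal_ne_top (measure_ne_top _ _)
  · refine ae_of_all _ fun θ => ?_
    have h1 : Tendsto (fun R : ℝ => S g R (r • (θ : E n)) - g (r • (θ : E n))) atTop (𝓝 0) := by
      have := (hlim (r • (θ : E n))).sub_const (g (r • (θ : E n)))
      rwa [sub_self] at this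
    have h2 := (continuous_enorm.tendsto (0 : ℂ)).comp h1
    rw [enorm_zero] at h2
    have h3 := (ENNReal.continuous_pow 2).tendsto 0 |>.comp h2
    simpa [Function.comp_def] using h3

end RAE_

open RAE_ in
/-- RAE. -/
theorem p_RAE (h1 : T_RAD) (h2 : T_POLN) : T_RAE := by
  intro hC n f hn hf
  obtain ⟨C, hC1⟩ := h1 hC n hn
  obtain ⟨hpol, -, hfin⟩ := h2 n (by omega)
  have hd : ∀ m : ℕ, (0 : ℝ) < (1 / 2) ^ m := fun m => by positivity
  choose g hg1 hg2 hg3 hg4 using fun m => approx hf (hd m)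
  have hu : ∀ m, Nice (fun x => f x - g m x) := fun m =>
    Pool.Agent.CRN.SERN_.nice_sub hf (hg1 m)
  set A : ℕ → ℝ → ℝ≥0∞ := fun m r => ⨆ (R : ℝ) (_ : 0 < R),
    ∫⁻ θ, ‖S (fun x => f x - g m x) R (r • (θ : E n))‖ₑ ^ 2 ∂(sg n) with hA
  set B : ℕ → ℝ → ℝ≥0∞ := fun m r =>
    ∫⁻ θ, ‖f (r • (θ : E n)) - g m (r • (θ : E n))‖ₑ ^ 2 ∂(sg n) with hB
  set w : ℝ → ℝ≥0∞ := fun r => ENNReal.ofReal (r ^ (n - 1)) with hw
  have hwm : Measurable w := by
    rw [hw]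
    exact ENNReal.measurable_ofReal.comp (by fun_prop)
  have hAm : ∀ m, Measurable (A m) := fun m => A_meas (hu m).int
  have hBm : ∀ m, Measurable (B m) := fun m => B_meas (hu m).meas
  have hA1 : ∀ m, ∫⁻ r in Ioi (0 : ℝ), A m r * w r ≤ C * ENNReal.ofReal ((1 / 2) ^ m) := by
    intro m
    refine (hC1 _ (hu m)).trans ?_
    gcongr
    exact hg4 m
  have hB1 : ∀ m, ∫⁻ r in Ioi (0 : ℝ), B m r * w r ≤ ENNReal.ofReal ((1 / 2) ^ m) := by
    intro m
    refine le_trans (le_of_eq ?_) (hg4 m)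
    rw [hpol (fun x => ‖f x - g m x‖ₑ ^ 2) ((hu m).meas.enorm.pow_const 2)]
    refine lintegral_congr fun r => ?_
    rw [lintegral_const_mul' _ _ ENNReal.ofReal_ne_top, mul_comm]
  have hsum : ∫⁻ r in Ioi (0 : ℝ), ∑' m, (A m r + B m r) * w r ≠ ⊤ := by
    rw [lintegral_tsum (f := fun m r => (A m r + B m r) * w r)
      fun m => (((hAm m).add (hBm m)).mul hwm).aemeasurable]
    have h3 : ∀ m, ∫⁻ r in Ioi (0 : ℝ), (A m r + B m r) * w r ≤
        (C + 1) * ENNReal.ofReal ((1 / 2) ^ m) := by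
      intro m
      have h4 : ∫⁻ r in Ioi (0 : ℝ), (A m r + B m r) * w r =
          ∫⁻ r in Ioi (0 : ℝ), A m r * w r + B m r * w r :=
        lintegral_congr fun r => add_mul _ _ _
      rw [h4, lintegral_add_left (f := fun r => A m r * w r) ((hAm m).mul hwm), add_mul,
        one_mul]
      exact add_le_add (hA1 m) (hB1 m)
    refine ne_top_of_le_ne_top ?_ (ENNReal.tsum_le_tsum h3)
    rw [ENNReal.tsum_mul_left]
    refine ENNReal.mul_ne_top (by simp) ?_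
    rw [← ENNReal.ofReal_tsum_of_nonneg (fun m => by positivity)
      (summable_geometric_of_lt_one (by norm_num) (by norm_num))]
    exact ENNReal.ofReal_ne_top
  have hmeas : Measurable fun r => ∑' m, (A m r + B m r) * w r :=
    Measurable.ennreal_tsum fun m => ((hAm m).add (hBm m)).mul hwm
  have hae := ae_lt_top hmeas hsum
  filter_upwards [hae, self_mem_ae_restrict measurableSet_Ioi] with r hr hr0
  have hr0' : (0 : ℝ) < r := hr0
  have ht : Tendsto (fun m => (A m r + B m r) * w r) atTop (𝓝 0) :=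
    ENNReal.tendsto_atTop_zero_of_tsum_ne_top hr.ne
  have hwr0 : w r ≠ 0 := (ENNReal.ofReal_pos.2 (by positivity)).ne'
  have hwrt : w r ≠ ⊤ := ENNReal.ofReal_ne_top
  have ht' : Tendsto (fun m => A m r + B m r) atTop (𝓝 0) := by
    have h5 := ENNReal.Tendsto.mul_const ht (Or.inr (ENNReal.inv_ne_top.2 hwr0))
    rw [zero_mul] at h5
    refine h5.congr fun m => ?_
    rw [mul_assoc, ENNReal.mul_inv_cancel hwr0 hwrt, mul_one]
  rw [ENNReal.tendsto_nhds_zero]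
  intro ε hε
  have hε6 : 0 < ε / 6 := ENNReal.div_pos hε.ne' (by norm_num)
  obtain ⟨m, hm⟩ := (ENNReal.tendsto_nhds_zero.1 ht' (ε / 6) hε6).exists
  have hgm := ENNReal.tendsto_nhds_zero.1 (g_conv (hg1 m) (hg2 m) (hg3 m) r) (ε / 6) hε6
  filter_upwards [hgm, eventually_gt_atTop 0] with R hR hR0
  have hpt : ∀ θ : Metric.sphere (0 : E n) 1,
      ‖S f R (r • (θ : E n)) - f (r • (θ : E n))‖ₑ ^ 2 ≤
      3 * ‖S (fun x => f x - g m x) R (r • (θ : E n))‖ₑ ^ 2 +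
        3 * ‖f (r • (θ : E n)) - g m (r • (θ : E n))‖ₑ ^ 2 +
        3 * ‖S (g m) R (r • (θ : E n)) - g m (r • (θ : E n))‖ₑ ^ 2 := by
    intro θ
    have h6 : S f R (r • (θ : E n)) - f (r • (θ : E n)) =
        S (fun x => f x - g m x) R (r • (θ : E n)) +
          (S (g m) R (r • (θ : E n)) - g m (r • (θ : E n))) -
          (f (r • (θ : E n)) - g m (r • (θ : E n))) := by
      rw [Pool.Agent.CRN.SERN_.S_sub hf.int (hg1 m).int]
      ring
    rw [h6]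
    exact three _ _ _
  have hr1 : Continuous (fun θ : Metric.sphere (0 : E n) 1 => r • (θ : E n)) :=
    continuous_subtype_val.const_smul r
  have hm1 : Measurable fun θ : Metric.sphere (0 : E n) 1 =>
      3 * ‖S (fun x => f x - g m x) R (r • (θ : E n))‖ₑ ^ 2 :=
    (((Pool.Agent.CRN.SERN_.S_cont (hu m).int R).comp hr1).measurable.enorm.pow_const
      2).const_mul 3
  have hm2 : Measurable fun θ : Metric.sphere (0 : E n) 1 =>
      3 * ‖f (r • (θ : E n)) - g m (r • (θ : E n))‖ₑ ^ 2 :=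
    ((((hu m).meas).comp hr1.measurable).enorm.pow_const 2).const_mul 3
  calc ∫⁻ θ, ‖S f R (r • (θ : E n)) - f (r • (θ : E n))‖ₑ ^ 2 ∂(sg n)
      ≤ ∫⁻ θ, (3 * ‖S (fun x => f x - g m x) R (r • (θ : E n))‖ₑ ^ 2 +
        3 * ‖f (r • (θ : E n)) - g m (r • (θ : E n))‖ₑ ^ 2 +
        3 * ‖S (g m) R (r • (θ : E n)) - g m (r • (θ : E n))‖ₑ ^ 2) ∂(sg n) :=
        lintegral_mono hpt
    _ = 3 * ∫⁻ θ, ‖S (fun x => f x - g m x) R (r • (θ : E n))‖ₑ ^ 2 ∂(sg n) + 3 * B m r +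
        3 * ∫⁻ θ, ‖S (g m) R (r • (θ : E n)) - g m (r • (θ : E n))‖ₑ ^ 2 ∂(sg n) := by
        rw [lintegral_add_left (f := fun θ : Metric.sphere (0 : E n) 1 =>
            3 * ‖S (fun x => f x - g m x) R (r • (θ : E n))‖ₑ ^ 2 +
            3 * ‖f (r • (θ : E n)) - g m (r • (θ : E n))‖ₑ ^ 2) (hm1.add hm2),
          lintegral_add_left hm1,
          lintegral_const_mul' _ _ (by norm_num), lintegral_const_mul' _ _ (by norm_num),
          lintegral_const_mul' _ _ (by norm_num)]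
    _ ≤ 3 * A m r + 3 * B m r + 3 * (ε / 6) := by
        gcongr
        exact le_iSup₂ (f := fun (R : ℝ) (_ : 0 < R) =>
          ∫⁻ θ, ‖S (fun x => f x - g m x) R (r • (θ : E n))‖ₑ ^ 2 ∂(sg n)) R hR0
    _ = 3 * (A m r + B m r) + 3 * (ε / 6) := by ring
    _ ≤ 3 * (ε / 6) + 3 * (ε / 6) := by gcongr
    _ = ε := by
        rw [← add_mul]
        rw [show (3 : ℝ≥0∞) + 3 = 6 by norm_num]
        exact ENNReal.mul_div_cancel (by norm_num) (by norm_num)

end Pool.Agent.CRR
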