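import Pool.Agent.CRR.Targets2

set_option autoImplicit false

/-!
# CRR-RCH: radii with small oscillation on the spheres about the origin, the final theorem
-/

namespace Pool.Agent.CRR

open MeasureTheory FourierTransform Set Filter Topology
open scoped ENNReal NNReal
open Pool.Agent.MBS (E ex S Sstar)
open Pool.Agent.CRN (Nice T_CARLS)

namespace RCH_

variable {n : ℕ}

lemma ex_cont : Continuous (fun p : E n × E n => ex p.1 p.2) := by
  unfold ex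
  fun_prop

lemma f_cont {f : E n → ℂ} (hf : Integrable f) : Continuous (𝓕 f) :=
  VectorFourier.fourierIntegral_continuous Real.continuous_fourierChar
    (by exact continuous_inner) hf

/-- the ball sums with a measurable choice of the radius are measurable -/
lemma S_meas {f : E n → ℂ} (hf : Integrable f) {ρ : E n → ℝ} (hρ : Measurable ρ) :
    Measurable (fun x => S f (ρ x) x) := by
  have h1 : StronglyMeasurable (fun p : E n × E n =>
      {q : E n × E n | ‖q.2‖ ≤ ρ q.1}.indicator (fun q => 𝓕 f q.2 * ex q.1 q.2) p) := by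
    refine StronglyMeasurable.indicator ?_ ?_
    · exact (((f_cont hf).comp continuous_snd).mul ex_cont).stronglyMeasurable
    · exact measurableSet_le measurable_snd.norm (hρ.comp measurable_fst)
  have h2 := h1.integral_prod_right' (ν := (volume : Measure (E n)))
  have h3 : (fun x => S f (ρ x) x) = fun x => ∫ ξ,
      {q : E n × E n | ‖q.2‖ ≤ ρ q.1}.indicator (fun q => 𝓕 f q.2 * ex q.1 q.2) (x, ξ) := by
    funext x
    unfold S
    rw [← integral_indicator Metric.isClosed_closedBall.measurableSet]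
    congr 1
    funext ξ
    by_cases h : ‖ξ‖ ≤ ρ x
    · rw [indicator_of_mem (by simpa using h), indicator_of_mem (by simpa using h)]
    · rw [indicator_of_notMem (by simpa using h), indicator_of_notMem (by simpa using h)]
  rw [h3]
  exact h2.measurable

lemma sq_add (a b : ℝ≥0∞) : (a + b) ^ 2 ≤ 2 * a ^ 2 + 2 * b ^ 2 := by
  have h := ENNReal.rpow_add_le_mul_rpow_add_rpow a b (p := 2) (by norm_num)
  have h2 : (2 : ℝ≥0∞) ^ ((2 : ℝ) - 1) = 2 := by norm_num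
  rw [h2] at h
  simp only [ENNReal.rpow_ofNat] at h
  rwa [mul_add] at h

lemma one_le_log (A : ℝ) (hA : 0 ≤ A) :
    (1 : ℝ≥0∞) ≤ 4 * ENNReal.ofReal (Real.log (2 + A) ^ 2) := by
  have h1 : (1 / 2 : ℝ) ≤ Real.log (2 + A) := by
    have h2 : Real.log 2 ≤ Real.log (2 + A) := Real.log_le_log (by norm_num) (by linarith)
    have h3 := Real.log_two_gt_d9
    linarith
  have h2 : (1 : ℝ) ≤ 4 * Real.log (2 + A) ^ 2 := by nlinarith
  have h3 : (4 : ℝ≥0∞) = ENNReal.ofReal 4 := by norm_num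
  rw [h3, ← ENNReal.ofReal_mul (by norm_num), ENNReal.one_le_ofReal]
  exact h2

end RCH_

theorem p_RCH (h1 : T_RLIN) (h2 : T_OSC) : T_RCH := by
  intro hC n hn
  obtain ⟨C1, h1⟩ := h1 hC n hn
  obtain ⟨C2, h2⟩ := h2 n hn
  refine ⟨8 * C1 + 2 * C2, fun A f R hA hf hR hR0 hosc => ?_⟩
  let e : E n := EuclideanSpace.single (⟨0, by omega⟩ : Fin n) (1 : ℝ)
  have he : ‖e‖ = 1 := by simp [e]
  let ρ : ℝ → ℝ := fun t => R (t • e)
  have hρ : Measurable ρ := hR.comp (by fun_prop)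
  have hρ0 : ∀ t, 0 < ρ t := fun t => hR0 _
  have a1 := h1 f ρ hf hρ hρ0
  have a2 := h2 A f hA hf
  have hd : ∀ x : E n, |R x - ρ ‖x‖| ≤ A / ‖x‖ := fun x =>
    hosc x (‖x‖ • e) (by rw [norm_smul, he, norm_norm, mul_one])
  have hpt : ∀ x : E n, ‖S f (R x) x‖ₑ ^ 2 ≤ 2 * ‖S f (ρ ‖x‖) x‖ₑ ^ 2 +
      2 * (⨆ (R : ℝ) (R' : ℝ) (_ : 0 < R ∧ 0 < R' ∧ |R - R'| ≤ A / ‖x‖),
        ‖S f R x - S f R' x‖ₑ) ^ 2 := by
    intro x
    have b1 : ‖S f (R x) x - S f (ρ ‖x‖) x‖ₑ ≤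
        ⨆ (R : ℝ) (R' : ℝ) (_ : 0 < R ∧ 0 < R' ∧ |R - R'| ≤ A / ‖x‖),
          ‖S f R x - S f R' x‖ₑ :=
      le_iSup_of_le (R x) (le_iSup_of_le (ρ ‖x‖)
        (le_iSup_of_le ⟨hR0 x, hρ0 ‖x‖, hd x⟩ le_rfl))
    have b2 : ‖S f (R x) x‖ₑ ≤ ‖S f (ρ ‖x‖) x‖ₑ + ‖S f (R x) x - S f (ρ ‖x‖) x‖ₑ := by
      have := enorm_add_le (S f (ρ ‖x‖) x) (S f (R x) x - S f (ρ ‖x‖) x)
      rwa [add_sub_cancel] at this
    refine (pow_le_pow_left' (b2.trans (add_le_add le_rfl b1)) 2).trans ?_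
    exact RCH_.sq_add _ _
  have hm : Measurable (fun x : E n => 2 * ‖S f (ρ ‖x‖) x‖ₑ ^ 2) :=
    ((RCH_.S_meas hf.int (hρ.comp measurable_norm)).enorm.pow_const 2).const_mul 2
  have h3 : ∫⁻ x, ‖S f (R x) x‖ₑ ^ 2 ≤
      2 * (∫⁻ x, ‖S f (ρ ‖x‖) x‖ₑ ^ 2) +
      2 * (∫⁻ x, (⨆ (R : ℝ) (R' : ℝ) (_ : 0 < R ∧ 0 < R' ∧ |R - R'| ≤ A / ‖x‖),
        ‖S f R x - S f R' x‖ₑ) ^ 2) := by
    refine (lintegral_mono hpt).trans ?_
    rw [lintegral_add_left hm, lintegral_const_mul' _ _ (by norm_num),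
      lintegral_const_mul' _ _ (by norm_num)]
  refine h3.trans ?_
  set L := ENNReal.ofReal (Real.log (2 + A) ^ 2) with hL
  set N := ∫⁻ x, ‖f x‖ₑ ^ 2 with hN
  have hone : (1 : ℝ≥0∞) ≤ 4 * L := RCH_.one_le_log A hA
  calc 2 * (∫⁻ x, ‖S f (ρ ‖x‖) x‖ₑ ^ 2) +
      2 * (∫⁻ x, (⨆ (R : ℝ) (R' : ℝ) (_ : 0 < R ∧ 0 < R' ∧ |R - R'| ≤ A / ‖x‖),
        ‖S f R x - S f R' x‖ₑ) ^ 2) ≤ 2 * (C1 * N) + 2 * (C2 * L * N) := by gcongr
    _ ≤ 2 * (C1 * N) * (4 * L) + 2 * (C2 * L * N) :=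
        add_le_add (le_mul_of_one_le_right' hone) le_rfl
    _ = ((8 * C1 + 2 * C2 : ℝ≥0) : ℝ≥0∞) * L * N := by
        push_cast
        ring

end Pool.Agent.CRR
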