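import Pool.Agent.CRR.Targets

set_option autoImplicit false

/-!
# CRR: the linearised form (RLIN)
-/

namespace Pool.Agent.CRR

open MeasureTheory FourierTransform Set Filter Topology
open scoped ENNReal NNReal ComplexConjugate
open Pool.Agent.MBS (E ex S Sstar)
open Pool.Agent.CAR (e1)
open Pool.Agent.CRN (IN sg rt Lam SH S1 Nice T_CARLS T_RAYN T_POLN T_AHN T_DSN T_HELN)

namespace RLIN_

theorem cont_ex {n : ℕ} : Continuous (fun p : E n × E n => ex p.1 p.2) := by
  unfold ex
  fun_prop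

theorem cont_fourier {n : ℕ} {f : E n → ℂ} (hf : Integrable f) : Continuous (𝓕 f) :=
  VectorFourier.fourierIntegral_continuous Real.continuous_fourierChar
    (by exact continuous_inner) hf

theorem meas {n : ℕ} {f : E n → ℂ} (hf : Integrable f) {ρ : ℝ → ℝ} (hρ : Measurable ρ) :
    Measurable fun x : E n => S f (ρ ‖x‖) x := by
  have h1 : Measurable fun p : E n × E n => if ‖p.2‖ ≤ ρ ‖p.1‖ then 𝓕 f p.2 * ex p.1 p.2 else 0 := by
    refine Measurable.ite (measurableSet_le measurable_snd.norm (hρ.comp measurable_fst.norm)) ?_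
      measurable_const
    exact ((cont_fourier hf).measurable.comp measurable_snd).mul cont_ex.measurable
  have h2 := (h1.stronglyMeasurable.integral_prod_right' (ν := (volume : Measure (E n)))).measurable
  have h3 : (fun x : E n => S f (ρ ‖x‖) x) = fun x : E n =>
      ∫ y, (if ‖y‖ ≤ ρ ‖x‖ then 𝓕 f y * ex x y else 0) := by
    funext x
    unfold S
    rw [← integral_indicator Metric.isClosed_closedBall.measurableSet]
    refine integral_congr_ae (Eventually.of_forall fun y => ?_)
    simp only [indicator, Metric.mem_closedBall, dist_zero_right]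
  rw [h3]
  exact h2

end RLIN_

theorem p_RLIN (h1 : T_RAD) (h2 : T_POLN) : T_RLIN := by
  intro hC n hn
  obtain ⟨C, h⟩ := h1 hC n hn
  refine ⟨C, fun f ρ hf hρ hpos => le_trans ?_ (h f hf)⟩
  have hm : Measurable fun x : E n => ‖S f (ρ ‖x‖) x‖ₑ ^ 2 :=
    (RLIN_.meas hf.int hρ).enorm.pow_const 2
  rw [(h2 n (by omega)).1 _ hm]
  refine setLIntegral_mono' measurableSet_Ioi fun r hr => ?_
  have hr0 : (0 : ℝ) < r := hr
  rw [lintegral_const_mul' _ _ ENNReal.ofReal_ne_top, mul_comm]
  refine mul_le_mul' ?_ le_rfl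
  refine le_trans (le_of_eq ?_) (le_iSup₂ (f := fun (R : ℝ) (_ : 0 < R) =>
    ∫⁻ θ, ‖S f R (r • (θ : E n))‖ₑ ^ 2 ∂(sg n)) (ρ r) (hpos r))
  refine lintegral_congr fun ω => ?_
  have hω : ‖r • (ω : E n)‖ = r := by
    rw [norm_smul, Real.norm_of_nonneg hr0.le, norm_eq_of_mem_sphere, mul_one]
  rw [hω]

end Pool.Agent.CRR
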