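import Pool.Agent.CRR.Targets2
import Pool.Agent.CRF.P_RMG

set_option autoImplicit false

/-!
# CRR, RMB: Rademacher-Menshov for annuli
-/

namespace Pool.Agent.CRR

open MeasureTheory FourierTransform Set Filter Topology
open scoped ENNReal NNReal
open Pool.Agent.MBS (E ex S Sstar)
open Pool.Agent.CRN (IN)
open Pool.Agent.CRN.RMN_ (chain_enorm sup_sq_le IN_cont planch An An_meas)
open Pool.Agent.CRF.RMG_ (Sg Sg_sub An_int)

namespace RMB_

variable {n : ℕ}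

/-- the annuli of the chain -/
def Bn (n b l i : ℕ) : Set (E n) :=
  An n ((b : ℝ) + ((i * 2 ^ l : ℕ) : ℝ)) ((b : ℝ) + (((i + 1) * 2 ^ l : ℕ) : ℝ))

theorem Bn_meas (b l i : ℕ) : MeasurableSet (Bn n b l i) := An_meas _ _

theorem Bn_disj (b l : ℕ) {i j : ℕ} (hij : i ≠ j) : Disjoint (Bn n b l i) (Bn n b l j) := by
  have key : ∀ i j : ℕ, i < j → Disjoint (Bn n b l i) (Bn n b l j) := by
    intro i j h
    rw [Set.disjoint_left]
    intro x hx hx'
    apply hx'.2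
    have h1 := hx.1
    rw [Metric.mem_closedBall] at h1 ⊢
    refine h1.trans ?_
    have h2 : (i + 1) * 2 ^ l ≤ j * 2 ^ l := Nat.mul_le_mul_right _ h
    have h3 : (((i + 1) * 2 ^ l : ℕ) : ℝ) ≤ ((j * 2 ^ l : ℕ) : ℝ) := by exact_mod_cast h2
    linarith
  rcases lt_or_gt_of_ne hij with h | h
  · exact key i j h
  · exact (key j i h).symm

theorem Sg_zero (b : ℕ) {g : E n → ℂ} (h0 : ∀ ξ ∈ Metric.closedBall (0 : E n) b, g ξ = 0)
    (x : E n) : Sg g (b : ℝ) x = 0 := by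
  rw [Sg]
  refine (setIntegral_congr_fun Metric.isClosed_closedBall.measurableSet
    (fun ξ hξ => ?_)).trans (integral_zero _ _)
  simp only [h0 ξ hξ, zero_mul]

theorem main (M b : ℕ) {g : E n → ℂ} (hg2 : MemLp g 2)
    (hz : ∀ ξ ∈ Metric.closedBall (0 : E n) b, g ξ = 0) :
    ∫⁻ x, (⨆ (j : ℕ) (_ : j ≤ 2 ^ M), ‖Sg g ((b : ℝ) + j) x‖ₑ) ^ 2 ≤
      ((1 : ℝ≥0) : ℝ≥0∞) * ((M : ℝ≥0∞) + 1) ^ 2 * ∫⁻ ξ, ‖g ξ‖ₑ ^ 2 := by
  have hm : ∀ l i : ℕ, Measurable fun x : E n =>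
      ‖IN ((Bn n b l i).indicator g) x‖ₑ ^ 2 :=
    fun l i => (IN_cont (An_int hg2 _ _)).measurable.enorm.pow_const 2
  have hpt : ∀ x : E n, (⨆ (j : ℕ) (_ : j ≤ 2 ^ M), ‖Sg g ((b : ℝ) + j) x‖ₑ) ^ 2 ≤
      ((M : ℝ≥0∞) + 1) * ∑ l ∈ Finset.range (M + 1), ∑ i ∈ Finset.range (2 ^ M),
        ‖IN ((Bn n b l i).indicator g) x‖ₑ ^ 2 := by
    intro x
    refine sup_sq_le fun j hj => ?_
    have h0 : Sg g ((b : ℝ) + ((0 : ℕ) : ℝ)) x = 0 := by
      rw [Nat.cast_zero, add_zero]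
      exact Sg_zero b hz x
    have h1 := chain_enorm (fun j : ℕ => Sg g ((b : ℝ) + j) x) h0 hj
    refine h1.trans (le_of_eq ?_)
    congr 1
    refine Finset.sum_congr rfl fun l _ => Finset.sum_congr rfl fun i _ => ?_
    rw [Sg_sub hg2 (by
      have h2 : i * 2 ^ l ≤ (i + 1) * 2 ^ l := Nat.mul_le_mul_right _ (Nat.le_succ i)
      have h3 : ((i * 2 ^ l : ℕ) : ℝ) ≤ (((i + 1) * 2 ^ l : ℕ) : ℝ) := by exact_mod_cast h2
      linarith)]
    rfl
  have hsum : ∀ l : ℕ, ∑ i ∈ Finset.range (2 ^ M), ∫⁻ x,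
      ‖IN ((Bn n b l i).indicator g) x‖ₑ ^ 2 ≤ ∫⁻ ξ, ‖g ξ‖ₑ ^ 2 := by
    intro l
    calc ∑ i ∈ Finset.range (2 ^ M), ∫⁻ x, ‖IN ((Bn n b l i).indicator g) x‖ₑ ^ 2
        = ∑ i ∈ Finset.range (2 ^ M), ∫⁻ ξ in Bn n b l i, ‖g ξ‖ₑ ^ 2 := by
          refine Finset.sum_congr rfl fun i _ => ?_
          have hBi : Integrable ((Bn n b l i).indicator g) volume := An_int hg2 _ _
          rw [planch hBi (hg2.indicator (Bn_meas _ _ _)),
            ← lintegral_indicator (Bn_meas _ _ _)]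
          refine lintegral_congr fun ξ => ?_
          by_cases hξ : ξ ∈ Bn n b l i
          · rw [indicator_of_mem hξ, indicator_of_mem hξ]
          · rw [indicator_of_notMem hξ, indicator_of_notMem hξ]
            simp
      _ = ∫⁻ ξ in ⋃ i ∈ Finset.range (2 ^ M), Bn n b l i, ‖g ξ‖ₑ ^ 2 := by
          rw [lintegral_biUnion_finset (fun i _ j _ hij => Bn_disj b l hij)
            (fun i _ => Bn_meas _ _ _)]
      _ ≤ ∫⁻ ξ, ‖g ξ‖ₑ ^ 2 := setLIntegral_le_lintegral _ _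
  calc ∫⁻ x, (⨆ (j : ℕ) (_ : j ≤ 2 ^ M), ‖Sg g ((b : ℝ) + j) x‖ₑ) ^ 2
      ≤ ∫⁻ x, ((M : ℝ≥0∞) + 1) * ∑ l ∈ Finset.range (M + 1), ∑ i ∈ Finset.range (2 ^ M),
        ‖IN ((Bn n b l i).indicator g) x‖ₑ ^ 2 := lintegral_mono hpt
    _ = ((M : ℝ≥0∞) + 1) * ∑ l ∈ Finset.range (M + 1), ∑ i ∈ Finset.range (2 ^ M), ∫⁻ x,
        ‖IN ((Bn n b l i).indicator g) x‖ₑ ^ 2 := by
        rw [lintegral_const_mul _ (Finset.measurable_sum _ fun l _ =>
          Finset.measurable_sum _ fun i _ => hm l i),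
          lintegral_finsetSum _ fun l _ => Finset.measurable_sum _ fun i _ => hm l i]
        congr 1
        refine Finset.sum_congr rfl fun l _ => ?_
        rw [lintegral_finsetSum _ fun i _ => hm l i]
    _ ≤ ((M : ℝ≥0∞) + 1) * ∑ l ∈ Finset.range (M + 1), ∫⁻ ξ, ‖g ξ‖ₑ ^ 2 := by
        gcongr with l hl
        exact hsum l
    _ = ((1 : ℝ≥0) : ℝ≥0∞) * ((M : ℝ≥0∞) + 1) ^ 2 * ∫⁻ ξ, ‖g ξ‖ₑ ^ 2 := by
        rw [Finset.sum_const, Finset.card_range, nsmul_eq_mul]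
        push_cast
        ring

end RMB_

open RMB_ in
theorem p_RMB : T_RMB := by
  intro n hn
  refine ⟨1, ?_⟩
  intro M b g hg
  obtain ⟨A, hA⟩ : ∃ A : Set (E n), A = Metric.closedBall (0 : E n) ((b : ℝ) + 2 ^ M) \
    Metric.closedBall (0 : E n) b := ⟨_, rfl⟩
  have hAm : MeasurableSet A := by
    rw [hA]
    exact Metric.isClosed_closedBall.measurableSet.diff Metric.isClosed_closedBall.measurableSet
  rw [← hA]
  have hind : ∫⁻ ξ, ‖A.indicator g ξ‖ₑ ^ 2 = ∫⁻ ξ in A, ‖g ξ‖ₑ ^ 2 := by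
    rw [← lintegral_indicator hAm]
    refine lintegral_congr fun ξ => ?_
    by_cases hξ : ξ ∈ A
    · rw [indicator_of_mem hξ, indicator_of_mem hξ]
    · rw [indicator_of_notMem hξ, indicator_of_notMem hξ]
      simp
  have hSg : ∀ j : ℕ, j ≤ 2 ^ M → ∀ x : E n,
      ∫ ξ in Metric.closedBall (0 : E n) ((b : ℝ) + j) \ Metric.closedBall (0 : E n) b,
        g ξ * ex x ξ = Sg (A.indicator g) ((b : ℝ) + j) x := by
    intro j hj x
    rw [Sg]
    have hj' : (j : ℝ) ≤ 2 ^ M := by exact_mod_cast hj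
    rw [← integral_indicator (Metric.isClosed_closedBall.measurableSet.diff
      Metric.isClosed_closedBall.measurableSet),
      ← integral_indicator Metric.isClosed_closedBall.measurableSet]
    refine integral_congr_ae (Filter.Eventually.of_forall fun ξ => ?_)
    by_cases h1 : ξ ∈ Metric.closedBall (0 : E n) ((b : ℝ) + j)
    · by_cases h2 : ξ ∈ Metric.closedBall (0 : E n) b
      · have h3 : ξ ∉ A := by
          rw [hA]
          exact fun h => h.2 h2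
        simp only [indicator_of_mem h1]
        rw [indicator_of_notMem (fun h => h.2 h2), indicator_of_notMem h3, zero_mul]
      · have h3 : ξ ∈ A := by
          rw [hA]
          refine ⟨?_, h2⟩
          rw [Metric.mem_closedBall] at h1 ⊢
          linarith
        simp only [indicator_of_mem h1]
        rw [indicator_of_mem (show ξ ∈ Metric.closedBall (0 : E n) ((b : ℝ) + j) \
          Metric.closedBall (0 : E n) b from ⟨h1, h2⟩), indicator_of_mem h3]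
    · simp only [indicator_of_notMem h1]
      rw [indicator_of_notMem (fun h => h1 h.1)]
  have hsup : ∀ x : E n, (⨆ (j : ℕ) (_ : j ≤ 2 ^ M),
      ‖∫ ξ in Metric.closedBall (0 : E n) ((b : ℝ) + j) \ Metric.closedBall (0 : E n) b,
        g ξ * ex x ξ‖ₑ) = ⨆ (j : ℕ) (_ : j ≤ 2 ^ M),
      ‖Sg (A.indicator g) ((b : ℝ) + j) x‖ₑ := by
    intro x
    refine iSup_congr fun j => iSup_congr fun hj => ?_
    rw [hSg j hj x]
  simp_rw [hsup]
  by_cases htop : ∫⁻ ξ in A, ‖g ξ‖ₑ ^ 2 = ⊤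
  · rw [htop, ENNReal.mul_top]
    · exact le_top
    · simp
  · have hg2 : MemLp (A.indicator g) 2 := by
      refine ⟨(hg.indicator hAm).aestronglyMeasurable, ?_⟩
      rw [eLpNorm_lt_top_iff_lintegral_rpow_enorm_lt_top (by norm_num) (by norm_num)]
      simp only [ENNReal.toReal_ofNat, ENNReal.rpow_ofNat]
      rw [hind]
      exact lt_top_iff_ne_top.2 htop
    rw [← hind]
    refine main M b hg2 fun ξ hξ => ?_
    rw [indicator_of_notMem]
    rw [hA]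
    exact fun h => h.2 hξ

end Pool.Agent.CRR
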