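import Pool.Agent.CRR.Targets

set_option autoImplicit false

/-! CRR-SD: decay of the strips. -/

namespace Pool.Agent.CRR

open MeasureTheory Set Filter Topology
open scoped ENNReal NNReal
open Pool.Agent.CAR (e1)
open Pool.Agent.CRN (T_CARLS)

namespace SD_

theorem e1n (x : ℝ) : ‖e1 x‖ = 1 := by
  unfold e1
  rw [show (2 * Real.pi * Complex.I * (x : ℂ) : ℂ) = ((2 * Real.pi * x : ℝ) : ℂ) * Complex.I
    from by push_cast; ring]
  exact Complex.norm_exp_ofReal_mul_I _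

theorem e1c : Continuous e1 := by
  unfold e1; fun_prop

theorem fh_cont {H : ℝ → ℂ} (hH : HH H) : Continuous (fh H) := by
  unfold fh
  refine continuous_of_dominated (bound := fun s => ‖H s‖) ?_ ?_ hH.int.norm ?_
  · intro v
    exact (hH.meas.mul (e1c.measurable.comp (by fun_prop))).aestronglyMeasurable
  · intro v
    refine Eventually.of_forall fun s => ?_
    rw [norm_mul, e1n, mul_one]
  · refine Eventually.of_forall fun s => ?_
    exact continuous_const.mul (e1c.comp (by fun_prop))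

theorem stripD_mono {A A' a d lam : ℝ} {κ : ℝ → ℂ} (hA : 0 < A) (hAA : A ≤ A') (hd : 0 < d)
    (hl : 0 ≤ lam) (h : StripD A a d lam κ) : StripD A' a d lam κ := by
  obtain ⟨Θ, Θ1, Θ2, b, c, b', c', hP, h1, h2, h3, h4⟩ := h
  have hA' : 0 < A' := hA.trans_le hAA
  refine ⟨Θ, Θ1, Θ2, b, c, b', c', ⟨hP.d1, hP.d2, fun x => ?_, fun x => ?_, fun x y => ?_⟩,
    fun x hx => ⟨?_, ?_⟩, fun x hx => ?_, h3, h4⟩
  · exact (div_le_div_of_nonneg_left hl hA hAA).trans (hP.lo x)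
  · exact (hP.hi x).trans (by gcongr)
  · exact (hP.lip x y).trans (by gcongr)
  · exact (div_le_div_of_nonneg_left (mul_nonneg hl hd.le) hA hAA).trans (h1 x hx).1
  · exact (h1 x hx).2.trans (by gcongr)
  · obtain ⟨g1, g2, g3, g4, g5, g6, g7⟩ := h2 x hx
    exact ⟨g1, g2, g3.trans hAA, g4.trans hAA, g5.trans (by gcongr), g6.trans (by gcongr), g7⟩

end SD_

open SD_ in
theorem p_SD (h1 : T_SEQ) (h2 : T_PHS) (h3 : T_VCR) (h4 : T_DEC) : T_SD := by
  intro hC
  obtain ⟨A0, hA0, hP⟩ := h2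
  obtain ⟨A, hA⟩ : ∃ A : ℝ, A = max A0 16 := ⟨_, rfl⟩
  have hA1 : A0 ≤ A := by rw [hA]; exact le_max_left _ _
  have hA16 : 16 ≤ A := by rw [hA]; exact le_max_right _ _
  have hAone : 1 ≤ A := by linarith
  obtain ⟨C1, hC1⟩ := h3 hC A hAone
  obtain ⟨C2, hC2⟩ := h4 hC A hAone
  refine ⟨C1 * C2, fun ν J J' k j H hν hN hH hb => ?_⟩
  obtain ⟨-, -, hseq⟩ := h1 ν hν
  obtain ⟨-, hd, -, -, hl, -, -, -, h250, -, -⟩ := hseq k
  have hsl : 0 < Real.sqrt (la ν k) := Real.sqrt_pos.2 hl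
  have hss : Real.sqrt (la ν k) ^ 2 = la ν k := Real.sq_sqrt hl.le
  have hw0 : 0 < ww ν k := by unfold ww; positivity
  have hw2 : ww ν k ^ 2 * la ν k = 1 / 16 := by
    unfold ww
    rw [div_pow, inv_pow, hss]
    field_simp
    norm_num
  have hwd : ww ν k ≤ de ν k / 32 := by
    have h5 : 8 ≤ Real.sqrt (la ν k) * de ν k := by
      refine (pow_le_pow_iff_left₀ (by norm_num) (by positivity) two_ne_zero).1 ?_
      rw [mul_pow, hss]
      linarith
    unfold ww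
    have h6 : (Real.sqrt (la ν k))⁻¹ * 8 ≤ de ν k := by
      rw [inv_mul_le_iff₀ hsl]
      exact h5
    linarith
  have hinv : 1 / A ≤ 1 / 16 := one_div_le_one_div_of_le (by norm_num) hA16
  have hS : StripD A (aa ν k) (de ν k) (la ν k) (kap J) :=
    stripD_mono (by linarith) hA1 hd hl.le (hP ν J J' k hν hN)
  have key := hC1 (aa ν k) (de ν k) (la ν k) (ww ν k) (kap J) (fh H) hd hl hS hw0 hwd
    (by rw [hw2]; exact hinv) (by rw [hw2]; norm_num) (fh_cont hH)
  refine key.trans ?_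
  have key2 := hC2 ν k j H hν hH hb
  calc (C1 : ℝ≥0∞) * ∑' i : ℤ, ∫⁻ X in {X : ℝ | la ν k * de ν k / A ≤ |X| ∧
        |X| ≤ A * (la ν k * de ν k)}, NN (ww ν k) (fh H) i X ^ 2
      ≤ C1 * (C2 * ENNReal.ofReal ((9 / 10) ^ (k - j + (j - k))) * ∫⁻ s, ‖H s‖ₑ ^ 2) := by
        refine mul_le_mul_right ?_ _
        exact key2
    _ = _ := by
        push_cast
        ring

end Pool.Agent.CRR
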