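import Pool.Agent.CRR.Targets

set_option autoImplicit false

/-!
# CRR, target SEQ: the parameters
-/

namespace Pool.Agent.CRR

open MeasureTheory FourierTransform Set Filter Topology
open scoped ENNReal NNReal ComplexConjugate

namespace SEQ_

theorem exp_third (x : ℝ) : Real.exp (x / 3) ^ 3 = Real.exp x := by
  rw [← Real.exp_nat_mul]
  congr 1
  push_cast
  ring

theorem exp_four (x : ℝ) : Real.exp (4 * x / 3) = Real.exp (x / 3) ^ 4 := by
  rw [← Real.exp_nat_mul]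
  congr 1
  push_cast
  ring

theorem exp_two (x : ℝ) : Real.exp (2 * x) = Real.exp x ^ 2 := by
  rw [← Real.exp_nat_mul]
  push_cast
  rfl

/-- The estimate (1). -/
theorem one {ν x : ℝ} (hν : 0 ≤ ν) (hx : xc ν ≤ x) :
    100 * Real.exp (4 * x / 3) ≤ PP ν x ∧ 3000 ≤ Real.exp x := by
  set s : ℝ := (1 + ν) ^ (1 / 3 : ℝ) with hs
  have hs0 : 0 ≤ s := Real.rpow_nonneg (by linarith) _
  have hs3 : s ^ 3 = 1 + ν := by
    rw [hs, ← Real.rpow_natCast, ← Real.rpow_mul (by linarith)]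
    norm_num
  have hs1 : 1 ≤ s := Real.one_le_rpow (by linarith) (by norm_num)
  have ht : ν + 3000 * s ≤ Real.exp x := by
    have h1 : xc ν = Real.log (ν + 3000 * s) := rfl
    have h2 : 0 < ν + 3000 * s := by linarith
    rw [h1] at hx
    calc ν + 3000 * s = Real.exp (Real.log (ν + 3000 * s)) := (Real.exp_log h2).symm
      _ ≤ Real.exp x := Real.exp_le_exp.2 hx
  refine ⟨?_, by linarith⟩
  rw [exp_four, PP, exp_two]
  have h3 := exp_third x
  set w : ℝ := Real.exp (x / 3) with hw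
  set t : ℝ := Real.exp x with htd
  have hw0 : 0 < w := Real.exp_pos _
  have ht0 : 0 < t := Real.exp_pos _
  rw [show w ^ 4 = w * t by rw [← h3]; ring]
  rcases le_or_gt w (30 * s) with h | h
  · have h4 : 3000 * s * t ≤ (t - ν) * (t + ν) := by
      have h5 : 3000 * s ≤ t - ν := by linarith
      have h6 : t ≤ t + ν := by linarith
      exact mul_le_mul h5 h6 ht0.le (by linarith)
    have h7 : 100 * (w * t) ≤ 3000 * s * t := by nlinarith
    nlinarith
  · have h4 : 30 * s ^ 3 * 900 ≤ t := by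
      rw [← h3]
      have : (30 * s) ^ 3 ≤ w ^ 3 := pow_le_pow_left₀ (by positivity) h.le 3
      nlinarith
    rw [hs3] at h4
    have h5 : ν ≤ t / 2 := by linarith
    have h6 : ν ^ 2 ≤ t ^ 2 / 4 := by nlinarith
    have h7 : 900 ≤ w ^ 2 := by nlinarith
    have h8 : 200 * (w * t) ≤ t ^ 2 := by
      have h9 : 200 * w ≤ t := by
        rw [← h3]
        nlinarith
      nlinarith
    nlinarith

/-- the number `2 δ` at the point `a` -/
noncomputable def dd (ν a : ℝ) : ℝ := 1 - ν ^ 2 * Real.exp (-(2 * a))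

theorem PP_eq (ν a : ℝ) : PP ν a = Real.exp (2 * a) * dd ν a := by
  unfold PP dd
  rw [mul_sub, mul_one, mul_left_comm, ← Real.exp_add]
  simp

theorem dd_le (ν a : ℝ) : dd ν a ≤ 1 := by
  unfold dd
  have := Real.exp_pos (-(2 * a))
  nlinarith [mul_nonneg (sq_nonneg ν) this.le]

theorem dd_pos {ν a : ℝ} (hν : 0 ≤ ν) (ha : xc ν ≤ a) : 0 < dd ν a := by
  have h1 := (one hν ha).1
  rw [PP_eq] at h1
  have h2 := Real.exp_pos (4 * a / 3)
  have h3 := Real.exp_pos (2 * a)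
  by_contra h
  push Not at h
  nlinarith

theorem dd_mono (ν : ℝ) {a b : ℝ} (h : a ≤ b) : dd ν a ≤ dd ν b := by
  unfold dd
  have : Real.exp (-(2 * b)) ≤ Real.exp (-(2 * a)) := Real.exp_le_exp.2 (by linarith)
  have := mul_le_mul_of_nonneg_left this (sq_nonneg ν)
  linarith

/-- the value of `P` at the next point -/
theorem PP_next (ν a : ℝ) :
    PP ν (a + dd ν a / 2) = Real.exp (2 * a) * (Real.exp (dd ν a) - 1 + dd ν a) := by
  have h1 := PP_eq ν a
  have h2 : Real.exp (2 * (a + dd ν a / 2)) = Real.exp (2 * a) * Real.exp (dd ν a) := by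
    rw [← Real.exp_add]
    congr 1
    ring
  unfold PP at h1 ⊢
  rw [h2]
  linarith

theorem exp_bd {d : ℝ} (h0 : 0 < d) (h1 : d ≤ 1) :
    1 + d + d ^ 2 / 2 ≤ Real.exp d ∧ Real.exp d ≤ 1 + d + d ^ 2 := by
  refine ⟨Real.quadratic_le_exp_of_nonneg h0.le, ?_⟩
  have := Real.abs_exp_sub_one_sub_id_le (x := d) (by rw [abs_of_pos h0]; exact h1)
  have := (abs_le.1 this).2
  linarith

theorem PP_step {ν a : ℝ} (hν : 0 ≤ ν) (ha : xc ν ≤ a) :
    (2 + dd ν a / 2) * PP ν a ≤ PP ν (a + dd ν a / 2) ∧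
      PP ν (a + dd ν a / 2) ≤ 3 * PP ν a := by
  rw [PP_next, PP_eq]
  have h0 := dd_pos hν ha
  have h1 := dd_le ν a
  obtain ⟨h2, h3⟩ := exp_bd h0 h1
  have h4 := Real.exp_pos (2 * a)
  constructor
  · have : (2 + dd ν a / 2) * dd ν a ≤ Real.exp (dd ν a) - 1 + dd ν a := by nlinarith
    nlinarith
  · have : Real.exp (dd ν a) - 1 + dd ν a ≤ 3 * dd ν a := by nlinarith
    nlinarith

theorem PP_pos {ν a : ℝ} (hν : 0 ≤ ν) (ha : xc ν ≤ a) : 0 < PP ν a := by
  rw [PP_eq]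
  exact mul_pos (Real.exp_pos _) (dd_pos hν ha)

/-- `M` at the point `a` -/
theorem M_eq {ν a : ℝ} (hν : 0 ≤ ν) (ha : xc ν ≤ a) :
    Real.exp (2 * a) / Real.sqrt (PP ν a) * (dd ν a / 2) ^ 2 =
      Real.sqrt (PP ν a) ^ 3 / (4 * Real.exp (2 * a)) := by
  have h1 := Real.exp_pos (2 * a)
  have h2 := PP_pos hν ha
  have h3 : 0 < Real.sqrt (PP ν a) := Real.sqrt_pos.2 h2
  have h4 : Real.sqrt (PP ν a) ^ 2 = PP ν a := Real.sq_sqrt h2.le
  have h5 : dd ν a = Real.sqrt (PP ν a) ^ 2 / Real.exp (2 * a) := by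
    rw [h4, PP_eq]
    field_simp
  rw [h5]
  field_simp
  ring

theorem sqrt_cube {ν a : ℝ} (hν : 0 ≤ ν) (ha : xc ν ≤ a) :
    1000 * Real.exp (2 * a) ≤ Real.sqrt (PP ν a) ^ 3 := by
  have h1 := (one hν ha).1
  rw [exp_four] at h1
  have h2 : 10 * Real.exp (a / 3) ^ 2 ≤ Real.sqrt (PP ν a) := by
    apply Real.le_sqrt_of_sq_le
    nlinarith
  have h3 : (10 * Real.exp (a / 3) ^ 2) ^ 3 ≤ Real.sqrt (PP ν a) ^ 3 :=
    pow_le_pow_left₀ (by positivity) h2 3
  have h4 : Real.exp (2 * a) = Real.exp (a / 3) ^ 6 := by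
    rw [exp_two, ← exp_third a]
    ring
  rw [h4]
  nlinarith

theorem poly {d : ℝ} (h0 : 0 < d) (h1 : d ≤ 1) :
    25 / 16 * (1 + d + d ^ 2) ^ 2 ≤ (2 + d / 2) ^ 3 := by
  have h2 : d ^ 2 ≤ d := by nlinarith
  have h3 : d ^ 3 ≤ d := by nlinarith
  have h4 : d ^ 4 ≤ d := by nlinarith [mul_nonneg h0.le h0.le, sq_nonneg (d ^ 2)]
  nlinarith

theorem cube_step {ν a : ℝ} (hν : 0 ≤ ν) (ha : xc ν ≤ a) :
    5 / 4 * Real.exp (dd ν a) * Real.sqrt (PP ν a) ^ 3 ≤
      Real.sqrt (PP ν (a + dd ν a / 2)) ^ 3 := by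
  have h0 := dd_pos hν ha
  have h1 := dd_le ν a
  have hP := PP_pos hν ha
  obtain ⟨h2, h3⟩ := exp_bd h0 h1
  obtain ⟨h4, h5⟩ := PP_step hν ha
  have hP' : 0 < PP ν (a + dd ν a / 2) := lt_of_lt_of_le (by positivity) h4
  rw [← pow_le_pow_iff_left₀ (by positivity) (by positivity) (two_ne_zero)]
  have e1 : (Real.sqrt (PP ν (a + dd ν a / 2)) ^ 3) ^ 2 = PP ν (a + dd ν a / 2) ^ 3 := by
    rw [← pow_mul, mul_comm, pow_mul, Real.sq_sqrt hP'.le]
  have e2 : (5 / 4 * Real.exp (dd ν a) * Real.sqrt (PP ν a) ^ 3) ^ 2 =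
      25 / 16 * Real.exp (dd ν a) ^ 2 * PP ν a ^ 3 := by
    rw [mul_pow, ← pow_mul, mul_comm 3 2, pow_mul, Real.sq_sqrt hP.le]
    ring
  rw [e1, e2]
  have h6 : ((2 + dd ν a / 2) * PP ν a) ^ 3 ≤ PP ν (a + dd ν a / 2) ^ 3 :=
    pow_le_pow_left₀ (by positivity) h4 3
  have h7 : 25 / 16 * Real.exp (dd ν a) ^ 2 ≤ (2 + dd ν a / 2) ^ 3 := by
    have h8 : Real.exp (dd ν a) ^ 2 ≤ (1 + dd ν a + dd ν a ^ 2) ^ 2 :=
      pow_le_pow_left₀ (Real.exp_pos _).le h3 2
    have h9 := poly h0 h1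
    linarith
  calc 25 / 16 * Real.exp (dd ν a) ^ 2 * PP ν a ^ 3 ≤ (2 + dd ν a / 2) ^ 3 * PP ν a ^ 3 :=
        mul_le_mul_of_nonneg_right h7 (by positivity)
    _ = ((2 + dd ν a / 2) * PP ν a) ^ 3 := by ring
    _ ≤ _ := h6

theorem aa_succ (ν : ℝ) (k : ℕ) : aa ν (k + 1) = aa ν k + dd ν (aa ν k) / 2 := rfl

theorem xc_le {ν : ℝ} (hν : 0 ≤ ν) (k : ℕ) : xc ν ≤ aa ν k := by
  induction k with
  | zero => exact le_refl _
  | succ k ih =>
    rw [aa_succ]
    have := dd_pos hν ih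
    linarith

theorem aa_lower {ν : ℝ} (hν : 0 ≤ ν) (k : ℕ) :
    aa ν 0 + k * (dd ν (aa ν 0) / 2) ≤ aa ν k := by
  induction k with
  | zero => simp
  | succ k ih =>
    rw [aa_succ]
    have h1 : dd ν (aa ν 0) ≤ dd ν (aa ν k) := dd_mono ν (xc_le hν k)
    push_cast
    linarith

theorem si_eq {ν : ℝ} (hν : 0 ≤ ν) (k : ℕ) : si ν k = Real.sqrt (PP ν (aa ν k)) / 2 := by
  have ha := xc_le hν k
  have h1 := Real.exp_pos (2 * aa ν k)
  have h2 := PP_pos hν ha
  have h3 : 0 < Real.sqrt (PP ν (aa ν k)) := Real.sqrt_pos.2 h2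
  have h4 : Real.sqrt (PP ν (aa ν k)) ^ 2 = PP ν (aa ν k) := Real.sq_sqrt h2.le
  have h5 : dd ν (aa ν k) = Real.sqrt (PP ν (aa ν k)) ^ 2 / Real.exp (2 * aa ν k) := by
    rw [h4, PP_eq]
    field_simp
  change Real.exp (2 * aa ν k) / Real.sqrt (PP ν (aa ν k)) * (dd ν (aa ν k) / 2) = _
  rw [h5]
  field_simp

end SEQ_

open SEQ_ in
/-- Target SEQ. -/
theorem p_SEQ : T_SEQ := by
  intro ν hν
  refine ⟨fun x hx => one hν hx, ?_, fun k => ?_⟩
  · refine tendsto_atTop_mono (aa_lower hν) ?_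
    refine tendsto_atTop_add_const_left _ _ ?_
    exact tendsto_natCast_atTop_atTop.atTop_mul_const (half_pos (dd_pos hν (xc_le hν 0)))
  · have ha := xc_le hν k
    have ha' := xc_le hν (k + 1)
    have hd := dd_pos hν ha
    have hd1 := dd_le ν (aa ν k)
    have hP := PP_pos hν ha
    have hP' := PP_pos hν ha'
    have hR : 0 < Real.sqrt (PP ν (aa ν k)) := Real.sqrt_pos.2 hP
    have hR' : 0 < Real.sqrt (PP ν (aa ν (k + 1))) := Real.sqrt_pos.2 hP'
    have hE := Real.exp_pos (2 * aa ν k)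
    obtain ⟨h1, h2⟩ := PP_step hν ha
    rw [← aa_succ] at h1 h2
    have h3 := cube_step hν ha
    rw [← aa_succ] at h3
    have hM : la ν k * de ν k ^ 2 =
        Real.sqrt (PP ν (aa ν k)) ^ 3 / (4 * Real.exp (2 * aa ν k)) := M_eq hν ha
    have hM' : la ν (k + 1) * de ν (k + 1) ^ 2 =
        Real.sqrt (PP ν (aa ν (k + 1))) ^ 3 / (4 * Real.exp (2 * aa ν (k + 1))) := M_eq hν ha'
    have hE' : Real.exp (2 * aa ν (k + 1)) = Real.exp (2 * aa ν k) * Real.exp (dd ν (aa ν k)) := by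
      rw [aa_succ, ← Real.exp_add]
      congr 1
      ring
    refine ⟨ha, half_pos hd, ?_, rfl, div_pos hE hR, si_eq hν k, ?_, ?_, ?_, ?_,
      fun x hx => ⟨?_, ?_, ?_⟩⟩
    · change dd ν (aa ν k) / 2 ≤ 1 / 2
      linarith
    · rw [si_eq hν k, si_eq hν (k + 1)]
      have h4 : 7 / 5 * Real.sqrt (PP ν (aa ν k)) ≤ Real.sqrt (PP ν (aa ν (k + 1))) := by
        apply Real.le_sqrt_of_sq_le
        rw [mul_pow, Real.sq_sqrt hP.le]
        nlinarith
      linarith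
    · rw [si_eq hν k, si_eq hν (k + 1)]
      have h4 : Real.sqrt (PP ν (aa ν (k + 1))) ≤ 2 * Real.sqrt (PP ν (aa ν k)) := by
        rw [Real.sqrt_le_left (by positivity), mul_pow, Real.sq_sqrt hP.le]
        nlinarith
      linarith
    · rw [hM, le_div_iff₀ (by positivity)]
      have := sqrt_cube hν ha
      linarith
    · rw [hM, hM', hE', ← mul_div_assoc, div_le_div_iff₀ (by positivity) (by positivity)]
      have hx := Real.exp_pos (dd ν (aa ν k))
      nlinarith [mul_le_mul_of_nonneg_left h3 hE.le]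
    · unfold PP
      have : Real.exp (2 * aa ν k) ≤ Real.exp (2 * x) := Real.exp_le_exp.2 (by linarith [hx.1])
      linarith
    · have h4 : PP ν x ≤ PP ν (aa ν (k + 1)) := by
        unfold PP
        have : Real.exp (2 * x) ≤ Real.exp (2 * aa ν (k + 1)) :=
          Real.exp_le_exp.2 (by linarith [hx.2])
        linarith
      linarith
    · have h4 : x ≤ aa ν k + 1 / 2 := by
        have := hx.2
        rw [aa_succ] at this
        linarith
      have h5 := (exp_bd (d := 1 / 2) (by norm_num) (by norm_num)).2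
      have h6 : Real.exp x ≤ Real.exp (aa ν k) * Real.exp (1 / 2) := by
        rw [← Real.exp_add]
        exact Real.exp_le_exp.2 h4
      have h7 := Real.exp_pos (aa ν k)
      nlinarith

end Pool.Agent.CRR
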