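import Pool.Agent.CRR.Targets
import Pool.Agent.CRR.P_HANK

set_option autoImplicit false

/-!
# CRR: sums of whole strips (target TAIL)

The differences between the multipliers `Σ_{k<n} m_k` and `1_{|s| < R_n} Σ_k m_k` decay
geometrically in the distance between `n` and the index of the band of `s`, so the maximal
function of the differences is bounded by their square function, which is estimated by Plancherel's
theorem.
-/

namespace Pool.Agent.CRR

open MeasureTheory FourierTransform Set Filter Topology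
open scoped ENNReal NNReal ComplexConjugate
open Pool.Agent.CAR (e1)
open Pool.Agent.CRN (T_CARLS)

namespace TAIL_

/-! ### geometric sums -/

theorem g1 {r : ℝ} (h0 : 0 ≤ r) (h1 : r < 1) (j : ℕ) : ∀ n ≤ j,
    ∑ k ∈ Finset.range n, r ^ (j - k) ≤ r ^ (j - n) * (r / (1 - r)) := by
  have h2 : 0 < 1 - r := by linarith
  intro n
  induction n with
  | zero =>
    intro _
    rw [Finset.range_zero, Finset.sum_empty]
    positivity
  | succ n ih =>
    intro hn
    have h3 := ih (by omega)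
    have e : j - n = (j - (n + 1)) + 1 := by omega
    rw [Finset.sum_range_succ, e, pow_succ]
    rw [e, pow_succ] at h3
    have e2 : r ^ (j - (n + 1)) * r * (r / (1 - r)) + r ^ (j - (n + 1)) * r =
        r ^ (j - (n + 1)) * (r / (1 - r)) := by
      field_simp
      ring
    linarith

theorem g3 {r : ℝ} (h0 : 0 ≤ r) (h1 : r < 1) (n : ℕ) :
    ∑ k ∈ Finset.range n, r ^ k ≤ 1 / (1 - r) := by
  rw [one_div, ← tsum_geometric_of_lt_one h0 h1]
  exact (summable_geometric_of_lt_one h0 h1).sum_le_tsum _ fun k _ => pow_nonneg h0 k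

theorem g2 {q : ℝ} (h0 : 0 ≤ q) (h1 : q < 1) (j N : ℕ) :
    ∑ n ∈ Finset.range N, q ^ (n - j + (j - n)) ≤ 2 / (1 - q) := by
  have h2 : 0 < 1 - q := by linarith
  have h3 : ∀ n ≤ j, ∑ k ∈ Finset.range n, q ^ (k - j + (j - k)) ≤ 1 / (1 - q) := by
    intro n hn
    calc ∑ k ∈ Finset.range n, q ^ (k - j + (j - k))
        = ∑ k ∈ Finset.range n, q ^ (j - k) := by
          refine Finset.sum_congr rfl fun k hk => ?_
          rw [Finset.mem_range] at hk
          congr 1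
          omega
      _ ≤ q ^ (j - n) * (q / (1 - q)) := g1 h0 h1 j n hn
      _ ≤ 1 * (1 / (1 - q)) := by
          gcongr
          exact pow_le_one₀ h0 h1.le
      _ = _ := one_mul _
  have h4 : (2 : ℝ) / (1 - q) = 1 / (1 - q) + 1 / (1 - q) := by ring
  have h5 : 0 ≤ 1 / (1 - q) := by positivity
  rcases le_total N j with h | h
  · have := h3 N h
    linarith
  · obtain ⟨i, rfl⟩ := Nat.exists_eq_add_of_le h
    rw [Finset.sum_range_add]
    have h6 := h3 j le_rfl
    have h7 : ∑ x ∈ Finset.range i, q ^ (j + x - j + (j - (j + x))) ≤ 1 / (1 - q) := by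
      calc ∑ x ∈ Finset.range i, q ^ (j + x - j + (j - (j + x)))
          = ∑ x ∈ Finset.range i, q ^ x := by
            refine Finset.sum_congr rfl fun x _ => ?_
            congr 1
            omega
        _ ≤ _ := g3 h0 h1 i
    linarith

/-- sums of a sequence which decays from the index `j` in both directions -/
theorem seq {a : ℕ → ℂ} {c r : ℝ} {j : ℕ} (hc : 0 ≤ c) (h0 : 0 ≤ r) (h1 : r < 1)
    (h : ∀ k, ‖a k‖ ≤ c * r ^ (k - j + (j - k))) :
    Summable a ∧ ‖∑' k, a k‖ ≤ 2 * c / (1 - r) ∧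
    ∀ n, ‖∑ k ∈ Finset.range n, a k - (if j < n then ∑' k, a k else 0)‖ ≤
      c / (1 - r) * r ^ (n - j + (j - n)) := by
  have h2 : 0 < 1 - r := by linarith
  have hs1 : ∀ n, j ≤ n → ∀ k, ‖a (k + n)‖ ≤ c * r ^ (n - j) * r ^ k := by
    intro n hn k
    refine (h (k + n)).trans (le_of_eq ?_)
    rw [mul_assoc, ← pow_add]
    congr 2
    omega
  have hg : ∀ n, HasSum (fun k => c * r ^ (n - j) * r ^ k) (c * r ^ (n - j) * (1 - r)⁻¹) :=
    fun n => (hasSum_geometric_of_lt_one h0 h1).mul_left _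
  have hs : Summable a := by
    refine (summable_nat_add_iff j).1 ?_
    exact Summable.of_norm_bounded (hg j).summable (hs1 j le_rfl)
  have ht : ∀ n, j ≤ n → ‖∑' k, a (k + n)‖ ≤ c / (1 - r) * r ^ (n - j) := by
    intro n hn
    refine (tsum_of_norm_bounded (hg n) (hs1 n hn)).trans (le_of_eq ?_)
    rw [div_eq_mul_inv]
    ring
  have hf : ∀ n ≤ j, ‖∑ k ∈ Finset.range n, a k‖ ≤ c / (1 - r) * r ^ (j - n) := by
    intro n hn
    calc ‖∑ k ∈ Finset.range n, a k‖ ≤ ∑ k ∈ Finset.range n, ‖a k‖ := norm_sum_le _ _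
      _ ≤ ∑ k ∈ Finset.range n, c * r ^ (j - k) := by
          refine Finset.sum_le_sum fun k hk => (h k).trans (le_of_eq ?_)
          rw [Finset.mem_range] at hk
          congr 2
          omega
      _ = c * ∑ k ∈ Finset.range n, r ^ (j - k) := by rw [Finset.mul_sum]
      _ ≤ c * (r ^ (j - n) * (r / (1 - r))) := by
          gcongr
          exact g1 h0 h1 j n hn
      _ ≤ c * (r ^ (j - n) * (1 / (1 - r))) := by
          gcongr
      _ = _ := by ring
  refine ⟨hs, ?_, fun n => ?_⟩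
  · rw [← hs.sum_add_tsum_nat_add j]
    refine (norm_add_le _ _).trans ?_
    have h3 := hf j le_rfl
    have h4 := ht j le_rfl
    rw [Nat.sub_self, pow_zero, mul_one] at h3 h4
    have : 2 * c / (1 - r) = c / (1 - r) + c / (1 - r) := by ring
    linarith
  · split_ifs with hj
    · have e : ∑ k ∈ Finset.range n, a k - ∑' k, a k = -∑' k, a (k + n) := by
        rw [← hs.sum_add_tsum_nat_add n]
        ring
      rw [e, norm_neg]
      refine (ht n hj.le).trans (le_of_eq ?_)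
      congr 2
      omega
    · rw [sub_zero]
      refine (hf n (not_lt.1 hj)).trans (le_of_eq ?_)
      congr 2
      omega

/-! ### bands -/

/-- `R n` with `j(s) < n ↔ |s| < R n` -/
noncomputable def R (ν : ℝ) (n : ℕ) : ℝ := if n = 0 then 0 else si ν (n - 1)

theorem bands {ν : ℝ} (h0 : ∀ k, 0 < si ν k) (h1 : ∀ k, 7 / 5 * si ν k ≤ si ν (k + 1)) :
    ∃ j : ℝ → ℕ, (∀ s, s ∈ band ν (j s)) ∧ ∀ s n, j s < n ↔ |s| < R ν n := by
  classical
  have hmono : Monotone (si ν) := monotone_nat_of_le_succ fun k => by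
    have := h0 k
    have := h1 k
    linarith
  have hpow : ∀ k : ℕ, (7 / 5 : ℝ) ^ k * si ν 0 ≤ si ν k := by
    intro k
    induction k with
    | zero => simp
    | succ k ih =>
      refine le_trans ?_ (h1 k)
      rw [pow_succ]
      linarith
  have hunb : ∀ s : ℝ, ∃ k, |s| < si ν k := by
    intro s
    obtain ⟨k, hk⟩ := pow_unbounded_of_one_lt (|s| / si ν 0) (show (1 : ℝ) < 7 / 5 by norm_num)
    refine ⟨k, lt_of_lt_of_le ?_ (hpow k)⟩
    rwa [div_lt_iff₀ (h0 0)] at hk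
  refine ⟨fun s => Nat.find (hunb s), fun s => ⟨?_, Nat.find_spec (hunb s)⟩, fun s n => ?_⟩
  · by_cases hz : Nat.find (hunb s) = 0
    · exact Or.inl hz
    · refine Or.inr ?_
      have := Nat.find_min (hunb s) (m := Nat.find (hunb s) - 1) (by omega)
      exact not_lt.1 this
  · rcases n with _ | n
    · have := abs_nonneg s
      simp only [R, if_true, Nat.not_lt_zero, false_iff, not_lt]
      exact this
    · simp only [R, Nat.succ_ne_zero, if_false, Nat.add_sub_cancel]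
      rw [Nat.lt_succ_iff, Nat.find_le_iff]
      constructor
      · rintro ⟨m, hm, hs⟩
        exact hs.trans_le (hmono hm)
      · intro hs
        exact ⟨n, le_rfl, hs⟩

/-! ### the main part -/

theorem e1_norm (x : ℝ) : ‖e1 x‖ = 1 := by
  unfold e1
  rw [show (2 * Real.pi * Complex.I * (x : ℂ) : ℂ) = ((2 * Real.pi * x : ℝ) : ℂ) * Complex.I
    from by push_cast; ring]
  exact Complex.norm_exp_ofReal_mul_I _

theorem e1_cont : Continuous e1 := by
  unfold e1
  fun_prop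

theorem car1 {G : ℝ → ℂ} (h2 : Integrable G) (u R : ℝ) :
    ‖∫ s in {s | |s| < R}, G s * e1 (-(u * s))‖ₑ ≤
      2 * ⨆ m : ℝ, ‖∫ ξ in Iio m, G ξ * e1 (-u * ξ)‖ₑ := by
  have e : {s : ℝ | |s| < R} = Ioo (-R) R := by
    ext s
    rw [Set.mem_ofPred_eq, abs_lt, mem_Ioo]
  have e2 : ∀ s, G s * e1 (-(u * s)) = G s * e1 (-u * s) := fun s => by rw [neg_mul]
  simp only [e, e2]
  rcases le_or_gt R 0 with h | h
  · rw [Ioo_eq_empty (by intro h0; linarith), Measure.restrict_empty, integral_zero_measure,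
      enorm_zero]
    exact zero_le
  · have hi : Integrable fun s => G s * e1 (-u * s) :=
      h2.mul_bdd (c := 1) (e1_cont.comp
        (continuous_const.mul continuous_id)).aestronglyMeasurable
        (ae_of_all _ fun s => (e1_norm _).le)
    have h3 := setIntegral_union (μ := volume) (f := fun s => G s * e1 (-u * s))
      (s := Iic (-R)) (t := Ioo (-R) R) (Set.disjoint_left.2 fun x hx hx2 =>
        absurd hx2.1 (not_lt.2 hx)) measurableSet_Ioo hi.integrableOn hi.integrableOn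
    rw [Iic_union_Ioo_eq_Iio (by linarith : -R < R), integral_Iic_eq_integral_Iio] at h3
    have h4 : ∫ s in Ioo (-R) R, G s * e1 (-u * s) =
        (∫ s in Iio R, G s * e1 (-u * s)) - ∫ s in Iio (-R), G s * e1 (-u * s) := by
      rw [h3]
      ring
    rw [h4, two_mul]
    refine enorm_sub_le.trans (add_le_add ?_ ?_)
    · exact le_iSup (fun m : ℝ => ‖∫ ξ in Iio m, G ξ * e1 (-u * ξ)‖ₑ) R
    · exact le_iSup (fun m : ℝ => ‖∫ ξ in Iio m, G ξ * e1 (-u * ξ)‖ₑ) (-R)

theorem neg_lint (F : ℝ → ℝ≥0∞) : ∫⁻ u, F (-u) = ∫⁻ u, F u :=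
  (Measure.measurePreserving_neg (volume : Measure ℝ)).lintegral_comp_emb
    (MeasurableEquiv.neg ℝ).measurableEmbedding F

theorem fourier_eq (G : ℝ → ℂ) (u : ℝ) : 𝓕 G u = ∫ s, G s * e1 (-(u * s)) := by
  rw [Real.fourier_eq']
  unfold e1
  refine integral_congr_ae (Eventually.of_forall fun s => ?_)
  simp only [smul_eq_mul]
  rw [mul_comm]
  congr 2
  simp only [RCLike.inner_apply, conj_trivial]
  push_cast
  ring

theorem memLp_of {G : ℝ → ℂ} (h1 : Integrable G) (h2 : Integrable fun s => ‖G s‖ ^ 2) :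
    MemLp G 2 volume := (memLp_two_iff_integrable_sq_norm h1.aestronglyMeasurable).2 h2

theorem fourier_cont {g : ℝ → ℂ} (hg : Integrable g) : Continuous (𝓕 g) :=
  VectorFourier.fourierIntegral_continuous Real.continuous_fourierChar
    (by simp only [innerₗ_apply_apply]; fun_prop) hg

/-- multiplication by a bounded function -/
theorem mul_HH {H E : ℝ → ℂ} (hH : HH H) (hE : Measurable E) {B : ℝ}
    (hB : ∀ s, ‖E s‖ ≤ B) : HH (fun s => H s * E s) := by
  refine ⟨hH.meas.mul hE, hH.int.mul_bdd (c := B) hE.aestronglyMeasurable (ae_of_all _ hB), ?_⟩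
  have h : Integrable fun s => ‖H s‖ ^ 2 * ‖E s‖ ^ 2 := by
    refine hH.sq.mul_bdd (c := B ^ 2) (hE.norm.pow_const 2).aestronglyMeasurable
      (ae_of_all _ fun s => ?_)
    rw [Real.norm_of_nonneg (by positivity)]
    exact pow_le_pow_left₀ (norm_nonneg _) (hB s) 2
  refine h.congr (ae_of_all _ fun s => ?_)
  simp only [norm_mul, mul_pow]

end TAIL_

open TAIL_ in
/-- TAIL. -/
theorem p_TAIL (h1 : T_SEQ) (_h2 : T_SD) (h3 : T_MUL) : T_TAIL := by
  intro hCar
  obtain ⟨C, hC0, hM⟩ := h3 hCar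
  obtain ⟨CC, hCC⟩ := hCar
  obtain ⟨r, hr0, hr1, hr2⟩ : ∃ r : ℝ, 0 ≤ r ∧ r < 1 ∧ r ^ 2 = 9 / 10 := by
    refine ⟨Real.sqrt (9 / 10), Real.sqrt_nonneg _, ?_, Real.sq_sqrt (by norm_num)⟩
    rw [Real.sqrt_lt' one_pos]
    norm_num
  obtain ⟨c, hc0, hc2⟩ : ∃ c : ℝ, 0 ≤ c ∧ c ^ 2 = C :=
    ⟨Real.sqrt C, Real.sqrt_nonneg _, Real.sq_sqrt hC0.le⟩
  have h1r : 0 < 1 - r := by linarith
  refine ⟨8 * CC * ((2 * c / (1 - r)) ^ 2).toNNReal + 2 * ((c / (1 - r)) ^ 2 * 20).toNNReal,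
    fun ν J J' H hν hJ hH => ?_⟩
  obtain ⟨-, -, hS⟩ := h1 ν hν
  have hsi0 : ∀ k, 0 < si ν k := fun k => mul_pos (hS k).2.2.2.2.1 (hS k).2.1
  have hsi1 : ∀ k, 7 / 5 * si ν k ≤ si ν (k + 1) := fun k => (hS k).2.2.2.2.2.2.1
  obtain ⟨j, hj1, hj2⟩ := bands hsi0 hsi1
  have hmc : ∀ k, Continuous (mk ν J k) := fun k => (hM ν J J' k hν hJ).1
  have hFA := fun k => (hM ν J J' k hν hJ).2.1
  have hbd : ∀ s k, ‖mk ν J k s‖ ≤ c * r ^ (k - j s + (j s - k)) := by
    intro s k
    have h := (hM ν J J' k hν hJ).2.2 (j s) s (hj1 s)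
    refine abs_le_of_sq_le_sq' ?_ (by positivity) |>.2
    rw [mul_pow, hc2, ← pow_mul, mul_comm _ 2, pow_mul, hr2]
    exact h
  have hbd1 : ∀ s k, ‖mk ν J k s‖ ≤ c := fun s k => (hbd s k).trans
    (mul_le_of_le_one_right hc0 (pow_le_one₀ hr0 hr1.le))
  have hsq := fun s => seq hc0 hr0 hr1 (hbd s)
  -- the full multiplier
  let m : ℝ → ℂ := fun s => ∑' k, mk ν J k s
  have hm : Measurable m := by
    refine measurable_of_tendsto_metrizable (f := fun n s => ∑ k ∈ Finset.range n, mk ν J k s)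
      (fun n => ?_) (tendsto_pi_nhds.2 fun s => (hsq s).1.hasSum.tendsto_sum_nat)
    exact Finset.measurable_fun_sum _ fun k _ => (hmc k).measurable
  have hmb : ∀ s, ‖m s‖ ≤ 2 * c / (1 - r) := fun s => (hsq s).2.1
  have hA : ∀ n, MeasurableSet {s : ℝ | |s| < R ν n} := fun n =>
    measurableSet_lt measurable_norm measurable_const
  -- the differences
  let E : ℕ → ℝ → ℂ := fun n s => ∑ k ∈ Finset.range n, mk ν J k s -
    {s : ℝ | |s| < R ν n}.indicator m s
  have hE : ∀ n, Measurable (E n) := fun n =>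
    (Finset.measurable_fun_sum _ fun k _ => (hmc k).measurable).sub (hm.indicator (hA n))
  have hEb : ∀ n s, ‖E n s‖ ≤ c / (1 - r) * r ^ (n - j s + (j s - n)) := by
    intro n s
    have h := (hsq s).2.2 n
    have e : {s : ℝ | |s| < R ν n}.indicator m s = if j s < n then ∑' k, mk ν J k s else 0 := by
      by_cases hs : |s| < R ν n
      · rw [if_pos ((hj2 s n).2 hs), indicator_of_mem (show s ∈ {s : ℝ | |s| < R ν n} from hs)]
      · rw [if_neg (fun h0 => hs ((hj2 s n).1 h0)),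
          indicator_of_notMem (show s ∉ {s : ℝ | |s| < R ν n} from hs)]
    show ‖∑ k ∈ Finset.range n, mk ν J k s - {s : ℝ | |s| < R ν n}.indicator m s‖ ≤ _
    rw [e]
    exact h
  have hEb1 : ∀ n s, ‖E n s‖ ≤ c / (1 - r) := fun n s => (hEb n s).trans
    (mul_le_of_le_one_right (by positivity) (pow_le_one₀ hr0 hr1.le))
  have hHm : HH fun s => H s * m s := mul_HH hH hm hmb
  have hHE : ∀ n, HH fun s => H s * E n s := fun n => mul_HH hH (hE n) (hEb1 n)
  -- decomposition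
  let Y : ℕ → ℝ → ℂ := fun n u => 𝓕 (fun s => H s * E n s) u
  have hdec : ∀ n u, ∑ k ∈ Finset.range n, FA (kap J) (aa ν k) (de ν k) (fh H) u =
      (∫ s in {s : ℝ | |s| < R ν n}, H s * m s * e1 (-(u * s))) + Y n u := by
    intro n u
    have hi : ∀ {G : ℝ → ℂ}, Integrable G → Integrable fun s => G s * e1 (-(u * s)) := fun hG =>
      hG.mul_bdd (c := 1) (e1_cont.comp
        (continuous_const.mul continuous_id).neg).aestronglyMeasurable
        (ae_of_all _ fun s => (e1_norm _).le)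
    have hik : ∀ k, Integrable fun s => H s * mk ν J k s := fun k =>
      (mul_HH hH (hmc k).measurable fun s => hbd1 s k).int
    show _ = _ + 𝓕 (fun s => H s * E n s) u
    rw [fourier_eq, ← integral_indicator (hA n), ← integral_add
      ((hi hHm.int).indicator (hA n)) (hi (hHE n).int)]
    simp only [hFA _ H u hH]
    rw [← integral_finsetSum _ fun k _ => hi (hik k)]
    refine integral_congr_ae (ae_of_all _ fun s => ?_)
    simp only [E]
    rw [← Finset.sum_mul, ← Finset.mul_sum]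
    by_cases hs : s ∈ {s : ℝ | |s| < R ν n}
    · rw [indicator_of_mem hs, indicator_of_mem hs]
      ring
    · rw [indicator_of_notMem hs, indicator_of_notMem hs]
      ring
  let M : ℝ → ℝ≥0∞ := fun u => ⨆ m' : ℝ, ‖∫ ξ in Iio m', H ξ * m ξ * e1 (u * ξ)‖ₑ
  have hYm : ∀ n, Measurable fun u => ‖Y n u‖ₑ ^ 2 := fun n =>
    ((fourier_cont (hHE n).int).measurable.enorm).pow_const 2
  have hpt : ∀ u, (⨆ n : ℕ, ‖∑ k ∈ Finset.range n,
      FA (kap J) (aa ν k) (de ν k) (fh H) u‖ₑ) ^ 2 ≤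
      8 * M (-u) ^ 2 + 2 * ∑' n, ‖Y n u‖ₑ ^ 2 := by
    intro u
    have h4 : ∀ n, ‖∑ k ∈ Finset.range n, FA (kap J) (aa ν k) (de ν k) (fh H) u‖ₑ ^ 2 ≤
        8 * M (-u) ^ 2 + 2 * ∑' n, ‖Y n u‖ₑ ^ 2 := by
      intro n
      rw [hdec]
      calc ‖(∫ s in {s : ℝ | |s| < R ν n}, H s * m s * e1 (-(u * s))) + Y n u‖ₑ ^ 2
          ≤ (2 * M (-u) + ‖Y n u‖ₑ) ^ 2 := by
            gcongr
            refine (enorm_add_le _ _).trans (add_le_add_left ?_ _)
            exact car1 hHm.int u (R ν n)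
        _ ≤ 2 * (2 * M (-u)) ^ 2 + 2 * ‖Y n u‖ₑ ^ 2 := HANK_.two _ _
        _ = 8 * M (-u) ^ 2 + 2 * ‖Y n u‖ₑ ^ 2 := by ring
        _ ≤ _ := by
            gcongr
            exact ENNReal.le_tsum n
    calc (⨆ n : ℕ, ‖∑ k ∈ Finset.range n, FA (kap J) (aa ν k) (de ν k) (fh H) u‖ₑ) ^ 2
        ≤ ((8 * M (-u) ^ 2 + 2 * ∑' n, ‖Y n u‖ₑ ^ 2) ^ (1 / (2 : ℝ))) ^ 2 := by
          gcongr
          exact iSup_le fun n => HANK_.le_sqrt (h4 n)
      _ = _ := HANK_.sqrt_sq _
  -- the two estimates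
  have hI : ∫⁻ u, M (-u) ^ 2 ≤ CC * (((2 * c / (1 - r)) ^ 2).toNNReal * ∫⁻ s, ‖H s‖ₑ ^ 2) := by
    rw [neg_lint fun u => M u ^ 2]
    refine (hCC (fun s => H s * m s) hHm.meas hHm.int hHm.sq).trans ?_
    gcongr
    rw [← lintegral_const_mul' _ _ ENNReal.coe_ne_top]
    refine lintegral_mono fun s => ?_
    rw [enorm_mul, mul_pow, mul_comm]
    gcongr
    rw [← ofReal_norm, ← ENNReal.ofReal_pow (norm_nonneg _)]
    exact ENNReal.ofReal_le_ofReal (pow_le_pow_left₀ (norm_nonneg _) (hmb s) 2)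
  have hII : ∫⁻ u, ∑' n, ‖Y n u‖ₑ ^ 2 ≤
      ((c / (1 - r)) ^ 2 * 20).toNNReal * ∫⁻ s, ‖H s‖ₑ ^ 2 := by
    rw [lintegral_tsum fun n => (hYm n).aemeasurable]
    have e : ∀ n, ∫⁻ u, ‖Y n u‖ₑ ^ 2 = ∫⁻ s, ‖H s‖ₑ ^ 2 * ‖E n s‖ₑ ^ 2 := by
      intro n
      show ∫⁻ u, ‖𝓕 (fun s => H s * E n s) u‖ₑ ^ 2 = _
      rw [HANK_.plancherel (hHE n).int (memLp_of (hHE n).int (hHE n).sq)]
      refine lintegral_congr fun s => ?_
      rw [enorm_mul, mul_pow]
    simp only [e]
    have hme : ∀ n, Measurable fun s => ‖H s‖ₑ ^ 2 * ‖E n s‖ₑ ^ 2 := fun n =>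
      (hH.meas.enorm.pow_const 2).mul ((hE n).enorm.pow_const 2)
    rw [← lintegral_tsum fun n => (hme n).aemeasurable,
      ← lintegral_const_mul' _ _ ENNReal.coe_ne_top]
    refine lintegral_mono fun s => ?_
    rw [ENNReal.tsum_mul_left, mul_comm]
    gcongr
    have h5 : ∀ n, ‖E n s‖ₑ ^ 2 ≤ ENNReal.ofReal ((c / (1 - r)) ^ 2 *
        (9 / 10) ^ (n - j s + (j s - n))) := by
      intro n
      rw [← ofReal_norm, ← ENNReal.ofReal_pow (norm_nonneg _)]
      refine ENNReal.ofReal_le_ofReal ?_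
      refine (pow_le_pow_left₀ (norm_nonneg _) (hEb n s) 2).trans (le_of_eq ?_)
      rw [mul_pow, ← pow_mul, mul_comm _ 2, pow_mul, hr2]
    refine (ENNReal.tsum_le_tsum h5).trans ?_
    rw [ENNReal.tsum_eq_iSup_nat]
    refine iSup_le fun N => ?_
    rw [← ENNReal.ofReal_sum_of_nonneg fun n _ => by positivity, ← Finset.mul_sum]
    refine ENNReal.ofReal_le_ofReal ?_
    gcongr
    refine (g2 (by norm_num) (by norm_num) (j s) N).trans (by norm_num)
  calc ∫⁻ u, (⨆ n : ℕ, ‖∑ k ∈ Finset.range n, FA (kap J) (aa ν k) (de ν k) (fh H) u‖ₑ) ^ 2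
      ≤ ∫⁻ u, (8 * M (-u) ^ 2 + 2 * ∑' n, ‖Y n u‖ₑ ^ 2) := lintegral_mono hpt
    _ = 8 * (∫⁻ u, M (-u) ^ 2) + 2 * (∫⁻ u, ∑' n, ‖Y n u‖ₑ ^ 2) := by
        rw [lintegral_add_right, lintegral_const_mul' _ _ (by norm_num),
          lintegral_const_mul' _ _ (by norm_num)]
        exact (Measurable.tsum hYm).const_mul 2
    _ ≤ 8 * (CC * (((2 * c / (1 - r)) ^ 2).toNNReal * ∫⁻ s, ‖H s‖ₑ ^ 2)) +
        2 * (((c / (1 - r)) ^ 2 * 20).toNNReal * ∫⁻ s, ‖H s‖ₑ ^ 2) := by
        gcongr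
    _ = _ := by
        push_cast
        ring


end Pool.Agent.CRR
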