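import Pool.Agent.CRR.Targets

set_option autoImplicit false

/-!
# CRR: UNI, uniqueness of the bounded solution up to a factor
-/

namespace Pool.Agent.CRR

open MeasureTheory FourierTransform Set Filter Topology
open scoped ENNReal NNReal ComplexConjugate
open Pool.Agent.MBS (E ex S Sstar)
open Pool.Agent.CAR (e1)
open Pool.Agent.CRN (IN sg rt Lam SH S1 Nice T_CARLS T_RAYN T_POLN T_AHN T_DSN T_HELN)

namespace UNI_

/-- a solution of a linear equation of order two with zero data vanishes -/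
theorem zero_of_data (P y y' : ℝ → ℝ) (hP : Continuous P) (h1 : ∀ x, HasDerivAt y (y' x) x)
    (h2 : ∀ x, HasDerivAt y' (-(P x) * y x) x) (x₀ : ℝ) (h0 : y x₀ = 0) (h0' : y' x₀ = 0)
    (x : ℝ) : y x = 0 ∧ y' x = 0 := by
  obtain ⟨M, hM⟩ := (isCompact_uIcc (a := x₀) (b := x)).exists_bound_of_continuousOn
    hP.continuousOn
  have hE : ∀ t, HasDerivAt (fun t => y t ^ 2 + y' t ^ 2)
      (2 * y t * y' t + 2 * y' t * (-(P t) * y t)) t := by
    intro t
    have e1 := (h1 t).pow 2
    have e2 := (h2 t).pow 2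
    have e3 := e1.add e2
    refine e3.congr_deriv ?_
    push_cast
    ring
  have hb : ∀ t ∈ uIcc x₀ x, |2 * y t * y' t + 2 * y' t * (-(P t) * y t)| ≤
      (1 + M) * (y t ^ 2 + y' t ^ 2) := by
    intro t ht
    have hm : |P t| ≤ M := hM t ht
    have e1 : 2 * y t * y' t + 2 * y' t * (-(P t) * y t) = (1 - P t) * (2 * y t * y' t) := by
      ring
    have e2 : |1 - P t| ≤ 1 + M := by
      have := abs_le.1 hm
      exact abs_le.2 ⟨by linarith, by linarith⟩
    have e3 : |2 * y t * y' t| ≤ y t ^ 2 + y' t ^ 2 := by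
      rw [abs_le]
      constructor
      · nlinarith [sq_nonneg (y t + y' t)]
      · nlinarith [sq_nonneg (y t - y' t)]
    rw [e1, abs_mul]
    have h4 : 0 ≤ |1 - P t| := abs_nonneg _
    exact mul_le_mul e2 e3 (abs_nonneg _) (h4.trans e2)
  have key : y x ^ 2 + y' x ^ 2 ≤ 0 := by
    rcases le_total x₀ x with hx | hx
    · rw [uIcc_of_le hx] at hb
      have hg : ∀ t, HasDerivAt (fun t => (y t ^ 2 + y' t ^ 2) * Real.exp (-(1 + M) * t))
          ((2 * y t * y' t + 2 * y' t * (-(P t) * y t)) * Real.exp (-(1 + M) * t) +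
            (y t ^ 2 + y' t ^ 2) * (Real.exp (-(1 + M) * t) * (-(1 + M)))) t := by
        intro t
        have e1 : HasDerivAt (fun t : ℝ => -(1 + M) * t) (-(1 + M)) t := by
          simpa using (hasDerivAt_id t).const_mul (-(1 + M))
        exact (hE t).mul e1.exp
      have hanti : AntitoneOn (fun t => (y t ^ 2 + y' t ^ 2) * Real.exp (-(1 + M) * t))
          (Icc x₀ x) := by
        refine antitoneOn_of_deriv_nonpos (convex_Icc _ _) ?_ ?_ ?_
        · exact fun t _ => (hg t).continuousAt.continuousWithinAt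
        · exact fun t _ => (hg t).differentiableAt.differentiableWithinAt
        · intro t ht
          rw [interior_Icc] at ht
          rw [(hg t).deriv]
          have e2 := (abs_le.1 (hb t (Ioo_subset_Icc_self ht))).2
          have e3 := Real.exp_pos (-(1 + M) * t)
          nlinarith
      have e4 := hanti (left_mem_Icc.2 hx) (right_mem_Icc.2 hx) hx
      simp only [h0, h0'] at e4
      have e5 := Real.exp_pos (-(1 + M) * x)
      by_contra hcon
      push Not at hcon
      have e6 : 0 < (y x ^ 2 + y' x ^ 2) * Real.exp (-(1 + M) * x) := mul_pos hcon e5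
      have e7 : ((0 : ℝ) ^ 2 + 0 ^ 2) * Real.exp (-(1 + M) * x₀) = 0 := by ring
      linarith
    · rw [uIcc_of_ge hx] at hb
      have hg : ∀ t, HasDerivAt (fun t => (y t ^ 2 + y' t ^ 2) * Real.exp ((1 + M) * t))
          ((2 * y t * y' t + 2 * y' t * (-(P t) * y t)) * Real.exp ((1 + M) * t) +
            (y t ^ 2 + y' t ^ 2) * (Real.exp ((1 + M) * t) * (1 + M))) t := by
        intro t
        have e1 : HasDerivAt (fun t : ℝ => (1 + M) * t) (1 + M) t := by
          simpa using (hasDerivAt_id t).const_mul (1 + M)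
        exact (hE t).mul e1.exp
      have hmono : MonotoneOn (fun t => (y t ^ 2 + y' t ^ 2) * Real.exp ((1 + M) * t))
          (Icc x x₀) := by
        refine monotoneOn_of_deriv_nonneg (convex_Icc _ _) ?_ ?_ ?_
        · exact fun t _ => (hg t).continuousAt.continuousWithinAt
        · exact fun t _ => (hg t).differentiableAt.differentiableWithinAt
        · intro t ht
          rw [interior_Icc] at ht
          rw [(hg t).deriv]
          have e2 := (abs_le.1 (hb t (Ioo_subset_Icc_self ht))).1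
          have e3 := Real.exp_pos ((1 + M) * t)
          nlinarith
      have e4 := hmono (left_mem_Icc.2 hx) (right_mem_Icc.2 hx) hx
      simp only [h0, h0'] at e4
      have e5 := Real.exp_pos ((1 + M) * x)
      by_contra hcon
      push Not at hcon
      have e6 : 0 < (y x ^ 2 + y' x ^ 2) * Real.exp ((1 + M) * x) := mul_pos hcon e5
      have e7 : ((0 : ℝ) ^ 2 + 0 ^ 2) * Real.exp ((1 + M) * x₀) = 0 := by ring
      linarith
  constructor
  · nlinarith [sq_nonneg (y x), sq_nonneg (y' x)]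
  · nlinarith [sq_nonneg (y x), sq_nonneg (y' x)]

theorem cont_PP (ν : ℝ) : Continuous (PP ν) := by
  unfold PP
  fun_prop

end UNI_

open UNI_ in
theorem p_UNI (h1 : T_INF) : T_UNI := by
  intro ν Z Z' J J' hν hZ hJ ⟨x₀, hx₀⟩
  obtain ⟨hJ', -⟩ := h1 ν J J' hν hJ
  obtain ⟨hZ', -⟩ := h1 ν Z Z' hν hZ
  obtain ⟨BJ, hBJ⟩ := hJ.bd
  obtain ⟨BZ, hBZ⟩ := hZ.bd
  have hW : ∀ x, HasDerivAt (fun x => Z x * J' x - Z' x * J x) 0 x := by
    intro x
    have e1 := ((hZ.d1 x).mul (hJ.d2 x)).sub ((hZ.d2 x).mul (hJ.d1 x))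
    refine e1.congr_deriv ?_
    ring
  have hconst : ∀ x, Z x * J' x - Z' x * J x = Z x₀ * J' x₀ - Z' x₀ * J x₀ := by
    intro x
    exact is_const_of_deriv_eq_zero (fun x => (hW x).differentiableAt)
      (fun x => (hW x).deriv) x x₀
  have hlim : Tendsto (fun x => Z x * J' x - Z' x * J x) atBot (𝓝 0) := by
    have e1 : Tendsto (fun x => BZ * |J' x| + BJ * |Z' x|) atBot (𝓝 0) := by
      have e2 := (hJ'.abs.const_mul BZ).add (hZ'.abs.const_mul BJ)
      simpa using e2
    refine squeeze_zero_norm' ?_ e1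
    filter_upwards [eventually_le_atBot (0 : ℝ)] with x hx
    rw [Real.norm_eq_abs]
    calc |Z x * J' x - Z' x * J x| ≤ |Z x * J' x| + |Z' x * J x| := abs_sub _ _
      _ = |Z x| * |J' x| + |J x| * |Z' x| := by rw [abs_mul, abs_mul, mul_comm |Z' x|]
      _ ≤ BZ * |J' x| + BJ * |Z' x| :=
        add_le_add (mul_le_mul_of_nonneg_right (hBZ x hx) (abs_nonneg _))
          (mul_le_mul_of_nonneg_right (hBJ x hx) (abs_nonneg _))
  have hzero : Z x₀ * J' x₀ - Z' x₀ * J x₀ = 0 := by
    have e1 : Tendsto (fun x => Z x * J' x - Z' x * J x) atBot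
        (𝓝 (Z x₀ * J' x₀ - Z' x₀ * J x₀)) := by
      rw [show (fun x => Z x * J' x - Z' x * J x) =
        fun _ => Z x₀ * J' x₀ - Z' x₀ * J x₀ from funext hconst]
      exact tendsto_const_nhds
    exact tendsto_nhds_unique e1 hlim
  refine ⟨Z x₀ / J x₀, ?_⟩
  set c := Z x₀ / J x₀ with hc
  have hy1 : ∀ x, HasDerivAt (fun x => Z x - c * J x) (Z' x - c * J' x) x := fun x =>
    (hZ.d1 x).sub ((hJ.d1 x).const_mul c)
  have hy2 : ∀ x, HasDerivAt (fun x => Z' x - c * J' x) (-(PP ν x) * (Z x - c * J x)) x := by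
    intro x
    refine ((hZ.d2 x).sub ((hJ.d2 x).const_mul c)).congr_deriv ?_
    ring
  have hd0 : Z x₀ - c * J x₀ = 0 := by
    rw [hc]
    field_simp
    ring
  have hd1 : Z' x₀ - c * J' x₀ = 0 := by
    have e1 : J x₀ * (Z' x₀ - c * J' x₀) = 0 := by
      rw [hc]
      field_simp
      linarith
    rcases mul_eq_zero.1 e1 with h | h
    · exact absurd h hx₀
    · exact h
  intro x
  obtain ⟨e1, e2⟩ := zero_of_data (PP ν) (fun x => Z x - c * J x) (fun x => Z' x - c * J' x)
    (cont_PP ν) hy1 hy2 x₀ hd0 hd1 x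
  exact ⟨by linarith, by linarith⟩

end Pool.Agent.CRR
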