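import Pool.Agent.CRR.Targets

set_option autoImplicit false

/-!
# CRR.VCR: one strip of the kernel (square function of windows, linearised phases)
-/

namespace Pool.Agent.CRR

open MeasureTheory FourierTransform Set Filter Topology
open scoped ENNReal NNReal ComplexConjugate
open Pool.Agent.CAR (e1)
open Pool.Agent.CRN (T_CARLS)

theorem VCR_e1c : Continuous e1 := by
  unfold e1
  fun_prop

theorem VCR_e1n (x : ℝ) : ‖e1 x‖ = 1 := by
  unfold e1
  rw [Complex.norm_exp]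
  simp

theorem VCR_e1a (x y : ℝ) : e1 (x + y) = e1 x * e1 y := by
  unfold e1
  rw [← Complex.exp_add]
  push_cast
  ring_nf

theorem VCR_e1d (x : ℝ) : HasDerivAt e1 (2 * Real.pi * Complex.I * e1 x) x := by
  have h1 : HasDerivAt (fun y : ℝ => 2 * Real.pi * Complex.I * (y : ℂ))
      (2 * Real.pi * Complex.I * 1) x := by
    apply HasDerivAt.const_mul
    exact Complex.ofRealCLM.hasDerivAt
  have h2 := h1.cexp
  unfold e1
  convert h2 using 1
  ring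

theorem VCR_nnm (w : ℝ) (h : ℝ → ℂ) (i : ℤ) (hh : Continuous h) : Measurable (NN w h i) := by
  have key : LowerSemicontinuous (NN w h i) := by
    unfold NN
    apply lowerSemicontinuous_iSup
    intro V
    have h1 : Continuous fun X : ℝ =>
        ‖∫ v in Ioc (i * w) (min V ((i + 1) * w)), h v * e1 (X * v)‖ₑ := by
      apply Continuous.enorm
      simp_rw [← integral_Icc_eq_integral_Ioc]
      have hc := VCR_e1c
      exact continuous_parametric_integral_of_continuous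
        (f := fun X v : ℝ => h v * e1 (X * v)) (by unfold Function.uncurry; fun_prop) isCompact_Icc
    exact h1.lowerSemicontinuous
  exact key.measurable

theorem VCR_thc (A lam d : ℝ) (Θ Θ1 Θ2 : ℝ → ℝ) (hP : Ph A lam d Θ Θ1 Θ2) :
    Continuous Θ ∧ Continuous Θ1 :=
  ⟨continuous_iff_continuousAt.2 fun x => (hP.d1 x).continuousAt,
    continuous_iff_continuousAt.2 fun x => (hP.d2 x).continuousAt⟩

/-- the local quantity -/
noncomputable def VCR_Q (a d w : ℝ) (Θ1 : ℝ → ℝ) (h : ℝ → ℂ) (s u : ℝ) : ℝ≥0∞ :=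
  ∑' i : ℤ, (Icc (a - d / 16) (a + d + d / 16)).indicator
    (fun x => NN w h i (s * Θ1 x) ^ 2) (u + i * w)

theorem VCR_Qm1 (a d w s : ℝ) (Θ1 : ℝ → ℝ) (h : ℝ → ℂ) (i : ℤ) (hh : Continuous h)
    (hc : Continuous Θ1) : Measurable fun u : ℝ => (Icc (a - d / 16) (a + d + d / 16)).indicator
    (fun x => NN w h i (s * Θ1 x) ^ 2) (u + i * w) := by
  have h1 : Measurable fun x => NN w h i (s * Θ1 x) ^ 2 :=
    ((VCR_nnm w h i hh).comp (hc.measurable.const_mul s)).pow_const 2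
  exact (h1.indicator measurableSet_Icc).comp (measurable_id.add_const _)

theorem VCR_Qm (a d w s : ℝ) (Θ1 : ℝ → ℝ) (h : ℝ → ℂ) (hh : Continuous h)
    (hc : Continuous Θ1) : Measurable (VCR_Q a d w Θ1 h s) := by
  unfold VCR_Q
  exact Measurable.tsum fun i => VCR_Qm1 a d w s Θ1 h i hh hc

theorem VCR_Qint (A lam a d w s : ℝ) (Θ Θ1 Θ2 : ℝ → ℝ) (h : ℝ → ℂ) (hA : 1 ≤ A) (hl : 0 < lam)
    (hd : 0 < d) (hs : s = 1 ∨ s = -1) (hP : Ph A lam d Θ Θ1 Θ2) (hh : Continuous h)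
    (hr : ∀ x ∈ Icc (a - d / 16) (a + d + d / 16), lam * d / A ≤ Θ1 x ∧ Θ1 x ≤ A * (lam * d)) :
    ∫⁻ u, VCR_Q a d w Θ1 h s u ≤ ENNReal.ofReal (A / lam) *
      ∑' i : ℤ, ∫⁻ X in {X : ℝ | lam * d / A ≤ |X| ∧ |X| ≤ A * (lam * d)}, NN w h i X ^ 2 := by
  have hc1 : Continuous Θ1 := (VCR_thc A lam d Θ Θ1 Θ2 hP).2
  have hs1 : |s| = 1 := by rcases hs with rfl | rfl <;> simp
  have hs0 : s ≠ 0 := by rintro rfl; simp at hs1
  have hpos : ∀ x, 0 < Θ2 x := fun x => lt_of_lt_of_le (by positivity) (hP.lo x)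
  have hmono : StrictMono Θ1 := strictMono_of_deriv_pos fun x => by
    rw [(hP.d2 x).deriv]; exact hpos x
  unfold VCR_Q
  rw [lintegral_tsum fun i => (VCR_Qm1 a d w s Θ1 h i hh hc1).aemeasurable, ← ENNReal.tsum_mul_left]
  refine ENNReal.tsum_le_tsum fun i => ?_
  rw [lintegral_add_right_eq_self (fun u => (Icc (a - d / 16) (a + d + d / 16)).indicator
    (fun x => NN w h i (s * Θ1 x) ^ 2) u), lintegral_indicator measurableSet_Icc]
  have hinj : InjOn (fun x => s * Θ1 x) (Icc (a - d / 16) (a + d + d / 16)) := by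
    intro x _ y _ hxy
    exact hmono.injective (mul_left_cancel₀ hs0 hxy)
  have h1 := lintegral_image_eq_lintegral_abs_deriv_mul
    (measurableSet_Icc : MeasurableSet (Icc (a - d / 16) (a + d + d / 16)))
    (f' := fun x => s * Θ2 x)
    (fun x _ => ((hP.d2 x).const_mul s).hasDerivWithinAt) hinj (fun X => NN w h i X ^ 2)
  calc ∫⁻ x in Icc (a - d / 16) (a + d + d / 16), NN w h i (s * Θ1 x) ^ 2
      ≤ ∫⁻ x in Icc (a - d / 16) (a + d + d / 16), ENNReal.ofReal (A / lam) *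
        (ENNReal.ofReal |s * Θ2 x| * NN w h i (s * Θ1 x) ^ 2) := by
        refine lintegral_mono fun x => ?_
        rw [← mul_assoc, ← ENNReal.ofReal_mul (by positivity), abs_mul, hs1, one_mul,
          abs_of_pos (hpos x)]
        have h2 : 1 ≤ A / lam * Θ2 x := by
          have := mul_le_mul_of_nonneg_left (hP.lo x) (by positivity : 0 ≤ A / lam)
          have h3 : A / lam * (lam / A) = 1 := by field_simp
          rwa [h3] at this
        calc NN w h i (s * Θ1 x) ^ 2 = ENNReal.ofReal 1 * NN w h i (s * Θ1 x) ^ 2 := by simp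
          _ ≤ _ := by gcongr
    _ = ENNReal.ofReal (A / lam) * ∫⁻ x in Icc (a - d / 16) (a + d + d / 16),
        (ENNReal.ofReal |s * Θ2 x| * NN w h i (s * Θ1 x) ^ 2) :=
        lintegral_const_mul' _ _ ENNReal.ofReal_ne_top
    _ = ENNReal.ofReal (A / lam) *
        ∫⁻ X in (fun x => s * Θ1 x) '' (Icc (a - d / 16) (a + d + d / 16)), NN w h i X ^ 2 := by
        rw [h1]
    _ ≤ _ := by
        gcongr
        rintro _ ⟨x, hx, rfl⟩
        have h2 := hr x hx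
        have h3 : 0 < Θ1 x := lt_of_lt_of_le (by positivity) h2.1
        simp only [Set.mem_ofPred_eq, abs_mul, hs1, one_mul, abs_of_pos h3]
        exact h2

theorem VCR_sqrt (x Q : ℝ≥0∞) (hx : x ^ 2 ≤ Q) : x ≤ Q ^ (1 / 2 : ℝ) := by
  have h1 : x = (x ^ 2) ^ (1 / 2 : ℝ) := by
    rw [← ENNReal.rpow_natCast, ← ENNReal.rpow_mul]
    norm_num
  rw [h1]
  exact ENNReal.rpow_le_rpow hx (by norm_num)

theorem VCR_sq (Q : ℝ≥0∞) : (Q ^ (1 / 2 : ℝ)) ^ 2 = Q := by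
  rw [← ENNReal.rpow_natCast, ← ENNReal.rpow_mul]
  norm_num

theorem VCR_Qle (a d w s u : ℝ) (Θ1 : ℝ → ℝ) (h : ℝ → ℂ) (i : ℤ)
    (hu : u + i * w ∈ Icc (a - d / 16) (a + d + d / 16)) :
    NN w h i (s * Θ1 (u + i * w)) ≤ VCR_Q a d w Θ1 h s u ^ (1 / 2 : ℝ) := by
  apply VCR_sqrt
  unfold VCR_Q
  refine le_trans (le_of_eq ?_) (ENNReal.le_tsum i)
  rw [indicator_of_mem hu]

/-- windows: the conclusion of WIN -/
def VCR_W (A : ℝ) (C : ℝ≥0) : Prop := ∀ (lam d w : ℝ)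
  (Θ Θ1 Θ2 : ℝ → ℝ) (s u : ℝ) (i : ℤ) (V1 V2 : ℝ) (b b' h : ℝ → ℂ), Ph A lam d Θ Θ1 Θ2 →
  0 < lam → 0 < d → 0 < w → w ≤ d → w ^ 2 * lam ≤ 1 → (s = 1 ∨ s = -1) → Continuous h →
  i * w ≤ V1 → V1 ≤ V2 → V2 ≤ (i + 1) * w →
  (∀ x ∈ Icc (u + V1) (u + V2), HasDerivAt b (b' x) x ∧ ‖b x‖ ≤ A ∧ ‖b' x‖ ≤ A / w) →
  ContinuousOn b' (Icc (u + V1) (u + V2)) →
    ‖∫ v in Ioc V1 V2, e1 (s * Θ (u + v)) * b (u + v) * h v‖ₑ ≤ C * NN w h i (s * Θ1 (u + i * w))

/-- the context -/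
structure VCR_X (A a d lam w s : ℝ) (Θ Θ1 Θ2 : ℝ → ℝ) (b b' h : ℝ → ℂ) : Prop where
  hA : 1 ≤ A
  hd : 0 < d
  hl : 0 < lam
  hw : 0 < w
  hwd : w ≤ d / 32
  hwl : w ^ 2 * lam ≤ 1
  hwA : 1 / A ≤ w ^ 2 * lam
  hs : s = 1 ∨ s = -1
  hP : Ph A lam d Θ Θ1 Θ2
  hr : ∀ x ∈ Icc (a - d / 16) (a + d + d / 16), lam * d / A ≤ Θ1 x ∧ Θ1 x ≤ A * (lam * d)
  hb : ∀ x ∈ Icc a (a + d), HasDerivAt b (b' x) x ∧ ‖b x‖ ≤ A ∧ ‖b' x‖ ≤ A / d
  hb' : ContinuousOn b' (Icc a (a + d))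
  hh : Continuous h

section
variable {A a d lam w s : ℝ} {Θ Θ1 Θ2 : ℝ → ℝ} {b b' h : ℝ → ℂ}

theorem VCR_fc (X : VCR_X A a d lam w s Θ Θ1 Θ2 b b' h) (u W1 W2 : ℝ)
    (h1 : a - u ≤ W1) (h12 : W1 ≤ W2) (h2 : W2 ≤ a + d - u) :
    IntervalIntegrable (fun v => e1 (s * Θ (u + v)) * b (u + v) * h v) volume W1 W2 := by
  apply ContinuousOn.intervalIntegrable
  rw [uIcc_of_le h12]
  have hc := VCR_e1c
  have ht := (VCR_thc A lam d Θ Θ1 Θ2 X.hP).1
  have hh := X.hh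
  refine ContinuousOn.mul (ContinuousOn.mul (by fun_prop) ?_) hh.continuousOn
  have hb : ContinuousOn b (Icc a (a + d)) :=
    fun x hx => (X.hb x hx).1.continuousAt.continuousWithinAt
  refine hb.comp (by fun_prop) ?_
  intro v hv
  constructor <;> linarith [hv.1, hv.2]

/-- one window -/
theorem VCR_one (C : ℝ≥0) (hW : VCR_W A C) (X : VCR_X A a d lam w s Θ Θ1 Θ2 b b' h)
    (u W1 W2 : ℝ) (i : ℤ) (h1 : a - u ≤ W1) (h12 : W1 ≤ W2) (h2 : W2 ≤ a + d - u)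
    (hi1 : i * w ≤ W1) (hi2 : W2 ≤ (i + 1) * w) :
    ‖∫ v in W1..W2, e1 (s * Θ (u + v)) * b (u + v) * h v‖ₑ ≤
      C * VCR_Q a d w Θ1 h s u ^ (1 / 2 : ℝ) := by
  have hw := X.hw
  have hd := X.hd
  have hwd := X.hwd
  have hA := X.hA
  rw [intervalIntegral.integral_of_le h12]
  refine (hW lam d w Θ Θ1 Θ2 s u i W1 W2 b b' h X.hP X.hl X.hd X.hw (by linarith) X.hwl X.hs X.hh
    hi1 h12 hi2 ?_ ?_).trans ?_
  · intro x hx
    have hx' : x ∈ Icc a (a + d) := ⟨by linarith [hx.1], by linarith [hx.2]⟩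
    obtain ⟨e1, e2, e3⟩ := X.hb x hx'
    refine ⟨e1, e2, e3.trans ?_⟩
    gcongr
    linarith
  · refine X.hb'.mono ?_
    intro x hx
    exact ⟨by linarith [hx.1], by linarith [hx.2]⟩
  · gcongr
    apply VCR_Qle
    constructor <;> linarith

/-- short intervals -/
theorem VCR_short1 (C : ℝ≥0) (hW : VCR_W A C) (X : VCR_X A a d lam w s Θ Θ1 Θ2 b b' h)
    (u W1 W2 : ℝ) (h1 : a - u ≤ W1) (h12 : W1 ≤ W2) (h2 : W2 ≤ a + d - u) (h3 : W2 ≤ W1 + w) :
    ‖∫ v in W1..W2, e1 (s * Θ (u + v)) * b (u + v) * h v‖ₑ ≤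
      2 * (C * VCR_Q a d w Θ1 h s u ^ (1 / 2 : ℝ)) := by
  have hw := X.hw
  set i : ℤ := ⌊W1 / w⌋ with hi
  have hi1 : (i : ℝ) * w ≤ W1 := by
    have := Int.floor_le (W1 / w)
    rwa [← hi, le_div_iff₀ hw] at this
  have hi2 : W1 < ((i : ℝ) + 1) * w := by
    have := Int.lt_floor_add_one (W1 / w)
    rwa [← hi, div_lt_iff₀ hw] at this
  rcases le_total W2 (((i : ℝ) + 1) * w) with h4 | h4
  · refine (VCR_one C hW X u W1 W2 i h1 h12 h2 hi1 h4).trans ?_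
    rw [two_mul]
    exact le_self_add
  · rw [← intervalIntegral.integral_add_adjacent_intervals
      (VCR_fc X u W1 (((i : ℝ) + 1) * w) h1 hi2.le (by linarith))
      (VCR_fc X u (((i : ℝ) + 1) * w) W2 (by linarith) h4 h2)]
    refine (enorm_add_le _ _).trans ?_
    rw [two_mul]
    refine add_le_add (VCR_one C hW X u W1 _ i h1 hi2.le (by linarith) hi1 le_rfl)
      (VCR_one C hW X u _ W2 (i + 1) (by linarith) h4 h2 ?_ ?_)
    · push_cast
      exact le_rfl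
    · push_cast
      linarith

theorem VCR_short2 (C : ℝ≥0) (hW : VCR_W A C) (X : VCR_X A a d lam w s Θ Θ1 Θ2 b b' h)
    (u W1 W2 : ℝ) (h1 : a - u ≤ W1) (h12 : W1 ≤ W2) (h2 : W2 ≤ a + d - u) (h3 : W2 ≤ W1 + 2 * w) :
    ‖∫ v in W1..W2, e1 (s * Θ (u + v)) * b (u + v) * h v‖ₑ ≤
      4 * (C * VCR_Q a d w Θ1 h s u ^ (1 / 2 : ℝ)) := by
  have hw := X.hw
  rcases le_total W2 (W1 + w) with h4 | h4
  · refine (VCR_short1 C hW X u W1 W2 h1 h12 h2 h4).trans ?_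
    gcongr
    norm_num
  · rw [← intervalIntegral.integral_add_adjacent_intervals
      (VCR_fc X u W1 (W1 + w) h1 (by linarith) (by linarith))
      (VCR_fc X u (W1 + w) W2 (by linarith) h4 h2)]
    refine (enorm_add_le _ _).trans ?_
    refine (add_le_add (VCR_short1 C hW X u W1 _ h1 (by linarith) (by linarith) le_rfl)
      (VCR_short1 C hW X u _ W2 (by linarith) h4 h2 (by linarith))).trans (le_of_eq ?_)
    ring

/-- the integral over a window -/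
noncomputable def VCR_I (Θ : ℝ → ℝ) (h : ℝ → ℂ) (s w y u : ℝ) : ℂ :=
  ∫ v in y..(y + w), e1 (s * Θ (u + v)) * h v

/-- the maximal sum over full windows -/
noncomputable def VCR_Z (Θ : ℝ → ℝ) (h : ℝ → ℂ) (s w : ℝ) (i0 : ℤ) (N : ℕ) (u : ℝ) : ℝ≥0∞ :=
  ⨆ (j : ℕ) (_ : j ≤ N), ‖∑ k ∈ Finset.range j, VCR_I Θ h s w ((i0 + k) * w) u‖ₑ

/-- Abel summation -/
theorem VCR_abel (N j : ℕ) (hj : j ≤ N) (β z : ℕ → ℂ) (B D Z : ℝ≥0∞)
    (hβ : ∀ k ≤ N, ‖β k‖ₑ ≤ B) (hD : ∀ k < N, ‖β (k + 1) - β k‖ₑ ≤ D)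
    (hZ : ∀ m ≤ N, ‖∑ k ∈ Finset.range m, z k‖ₑ ≤ Z) :
    ‖∑ k ∈ Finset.range j, β k * z k‖ₑ ≤ B * Z + N * D * Z := by
  have key : ∀ j : ℕ, ∑ k ∈ Finset.range j, β k * z k = β j * (∑ k ∈ Finset.range j, z k) -
      ∑ k ∈ Finset.range j, (β (k + 1) - β k) * ∑ l ∈ Finset.range (k + 1), z l := by
    intro j
    induction j with
    | zero => simp
    | succ j ih =>
      rw [Finset.sum_range_succ, ih, Finset.sum_range_succ (fun k => (β (k + 1) - β k) *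
        ∑ l ∈ Finset.range (k + 1), z l), Finset.sum_range_succ z j]
      ring
  rw [key j]
  refine (enorm_sub_le).trans (add_le_add ?_ ?_)
  · rw [enorm_mul]
    exact mul_le_mul' (hβ j hj) (hZ j hj)
  · refine (enorm_sum_le _ _).trans ?_
    calc ∑ k ∈ Finset.range j, ‖(β (k + 1) - β k) * ∑ l ∈ Finset.range (k + 1), z l‖ₑ
        ≤ ∑ k ∈ Finset.range j, D * Z := by
          refine Finset.sum_le_sum fun k hk => ?_
          rw [enorm_mul]
          have hk' := Finset.mem_range.1 hk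
          exact mul_le_mul' (hD k (by omega)) (hZ (k + 1) (by omega))
      _ = j * (D * Z) := by simp
      _ ≤ N * D * Z := by
          rw [mul_assoc]
          gcongr

theorem VCR_mv (X : VCR_X A a d lam w s Θ Θ1 Θ2 b b' h) (x y : ℝ) (hx : x ∈ Icc a (a + d))
    (hy : y ∈ Icc a (a + d)) : ‖b y - b x‖ ≤ A / d * |y - x| := by
  have h1 := Convex.norm_image_sub_le_of_norm_hasDerivWithin_le (f := b) (f' := b')
    (s := Icc a (a + d)) (C := A / d) (fun z hz => (X.hb z hz).1.hasDerivWithinAt)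
    (fun z hz => (X.hb z hz).2.2) (convex_Icc _ _) hx hy
  rwa [Real.norm_eq_abs] at h1

/-- the remainder in a window -/
theorem VCR_rem (C : ℝ≥0) (hW : VCR_W A C) (X : VCR_X A a d lam w s Θ Θ1 Θ2 b b' h)
    (u y : ℝ) (i : ℤ) (hy : y = i * w) (h1 : a ≤ u + y) (h2 : u + (y + w) ≤ a + d) :
    ‖(∫ v in y..(y + w), e1 (s * Θ (u + v)) * b (u + v) * h v) - b (u + y) * VCR_I Θ h s w y u‖ₑ ≤
      ENNReal.ofReal (w / d) * (C * VCR_Q a d w Θ1 h s u ^ (1 / 2 : ℝ)) := by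
  have hw := X.hw
  have hd := X.hd
  have hwd := X.hwd
  have hA := X.hA
  have hc := VCR_e1c
  have ht := (VCR_thc A lam d Θ Θ1 Θ2 X.hP).1
  have hh := X.hh
  have hyw : y ≤ y + w := by linarith
  have e1' : (∫ v in y..(y + w), e1 (s * Θ (u + v)) * b (u + v) * h v) -
      b (u + y) * VCR_I Θ h s w y u = ((w / d : ℝ) : ℂ) *
        ∫ v in Ioc y (y + w), e1 (s * Θ (u + v)) *
          ((fun x => ((d / w : ℝ) : ℂ) * (b x - b (u + y))) (u + v)) * h v := by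
    unfold VCR_I
    rw [← intervalIntegral.integral_of_le hyw, ← intervalIntegral.integral_const_mul,
      ← intervalIntegral.integral_const_mul, ← intervalIntegral.integral_sub]
    · apply intervalIntegral.integral_congr
      intro v _
      have h3 : ((w / d : ℝ) : ℂ) * ((d / w : ℝ) : ℂ) = 1 := by
        rw [← Complex.ofReal_mul]
        have : w / d * (d / w) = 1 := by field_simp
        rw [this]; simp
      simp only
      linear_combination (-(e1 (s * Θ (u + v)) * (b (u + v) - b (u + y)) * h v)) * h3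
    · exact VCR_fc X u y (y + w) (by linarith) hyw (by linarith)
    · apply Continuous.intervalIntegrable
      fun_prop
  rw [e1', enorm_mul]
  have h4 : ‖((w / d : ℝ) : ℂ)‖ₑ = ENNReal.ofReal (w / d) := by
    rw [← ofReal_norm, Complex.norm_real, Real.norm_of_nonneg (by positivity)]
  rw [h4]
  gcongr
  refine (hW lam d w Θ Θ1 Θ2 s u i y (y + w) (fun x => ((d / w : ℝ) : ℂ) * (b x - b (u + y)))
    (fun x => ((d / w : ℝ) : ℂ) * b' x) h X.hP X.hl X.hd X.hw (by linarith) X.hwl X.hs X.hh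
    hy.ge hyw (by rw [hy]; linarith) ?_ ?_).trans ?_
  · intro x hx
    have hx' : x ∈ Icc a (a + d) := ⟨by linarith [hx.1], by linarith [hx.2]⟩
    obtain ⟨g1, g2, g3⟩ := X.hb x hx'
    refine ⟨(g1.sub_const _).const_mul _, ?_, ?_⟩
    · have h5 := VCR_mv X (u + y) x ⟨by linarith, by linarith⟩ hx'
      have h6 : |x - (u + y)| ≤ w := by
        rw [abs_le]; constructor <;> linarith [hx.1, hx.2]
      rw [norm_mul, Complex.norm_real, Real.norm_of_nonneg (by positivity)]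
      calc d / w * ‖b x - b (u + y)‖ ≤ d / w * (A / d * w) := by
            gcongr
            exact h5.trans (by gcongr)
        _ = A := by field_simp
    · rw [norm_mul, Complex.norm_real, Real.norm_of_nonneg (by positivity)]
      calc d / w * ‖b' x‖ ≤ d / w * (A / d) := by gcongr
        _ = A / w := by field_simp
  · apply ContinuousOn.mul continuousOn_const
    refine X.hb'.mono ?_
    intro x hx
    exact ⟨by linarith [hx.1], by linarith [hx.2]⟩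
  · gcongr
    apply VCR_Qle
    rw [← hy]
    constructor <;> linarith

/-- the position of the full windows -/
structure VCR_F (a d w : ℝ) (p i0 : ℤ) (N : ℕ) : Prop where
  f1 : a ≤ (p + i0) * w
  f2 : (p + i0) * w ≤ a + w
  f3 : (p + i0 + N + 1) * w ≤ a + d
  f4 : a + d ≤ (p + i0 + N + 2) * w

theorem VCR_full (C : ℝ≥0) (hW : VCR_W A C) (X : VCR_X A a d lam w s Θ Θ1 Θ2 b b' h)
    (p i0 : ℤ) (N : ℕ) (hF : VCR_F a d w p i0 N) (u : ℝ) (hu1 : p * w ≤ u) (hu2 : u ≤ (p + 1) * w)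
    (j : ℕ) (hj : j ≤ N) :
    ‖∫ v in (i0 * w)..((i0 + j) * w), e1 (s * Θ (u + v)) * b (u + v) * h v‖ₑ ≤
      C * VCR_Q a d w Θ1 h s u ^ (1 / 2 : ℝ) +
        2 * ENNReal.ofReal A * VCR_Z Θ h s w i0 N u := by
  have hw := X.hw
  have hd := X.hd
  have hwd := X.hwd
  have hA := X.hA
  obtain ⟨f1, f2, f3, f4⟩ := hF
  set y : ℕ → ℝ := fun k => (i0 + k) * w with hy
  have hlo : ∀ k : ℕ, a ≤ u + y k := by
    intro k
    have : (0 : ℝ) ≤ k * w := by positivity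
    simp only [hy]
    linarith
  have hup : ∀ k : ℕ, k ≤ N → u + (y k + w) ≤ a + d + w := by
    intro k hk
    have h5 : (k : ℝ) ≤ N := by exact_mod_cast hk
    have : (k : ℝ) * w ≤ N * w := by gcongr
    simp only [hy]
    linarith
  have hup' : ∀ k : ℕ, k ≤ N → u + y k ≤ a + d := by
    intro k hk
    linarith [hup k hk]
  have hys : ∀ k : ℕ, y (k + 1) = y k + w := by
    intro k
    simp only [hy]
    push_cast
    ring
  have hsum : ∫ v in (i0 * w)..((i0 + j) * w), e1 (s * Θ (u + v)) * b (u + v) * h v =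
      ∑ k ∈ Finset.range j, ∫ v in (y k)..(y k + w), e1 (s * Θ (u + v)) * b (u + v) * h v := by
    have h6 := intervalIntegral.sum_integral_adjacent_intervals (a := y) (n := j) (μ := volume)
      (f := fun v => e1 (s * Θ (u + v)) * b (u + v) * h v) (fun k hk => VCR_fc X u _ _
        (by linarith [hlo k]) (by rw [hys]; linarith) (by linarith [hup' (k + 1) (by omega)]))
    have h7 : y 0 = i0 * w := by simp [hy]
    rw [h7] at h6
    rw [← h6]
    refine Finset.sum_congr rfl fun k _ => ?_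
    rw [hys]
  rw [hsum]
  have hsplit : ∑ k ∈ Finset.range j, ∫ v in (y k)..(y k + w),
      e1 (s * Θ (u + v)) * b (u + v) * h v =
      ∑ k ∈ Finset.range j, ((∫ v in (y k)..(y k + w), e1 (s * Θ (u + v)) * b (u + v) * h v) -
        b (u + y k) * VCR_I Θ h s w (y k) u) +
      ∑ k ∈ Finset.range j, b (u + y k) * VCR_I Θ h s w (y k) u := by
    rw [← Finset.sum_add_distrib]
    exact Finset.sum_congr rfl fun k _ => by ring
  rw [hsplit]
  refine (enorm_add_le _ _).trans (add_le_add ?_ ?_)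
  · refine (enorm_sum_le _ _).trans ?_
    calc ∑ k ∈ Finset.range j, ‖(∫ v in (y k)..(y k + w),
          e1 (s * Θ (u + v)) * b (u + v) * h v) - b (u + y k) * VCR_I Θ h s w (y k) u‖ₑ
        ≤ ∑ k ∈ Finset.range j, ENNReal.ofReal (w / d) *
            (C * VCR_Q a d w Θ1 h s u ^ (1 / 2 : ℝ)) := by
          refine Finset.sum_le_sum fun k hk => ?_
          have hk' := Finset.mem_range.1 hk
          refine VCR_rem C hW X u (y k) (i0 + k) (by simp [hy]) (hlo k) ?_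
          rw [← hys]
          exact hup' (k + 1) (by omega)
      _ = (j * ENNReal.ofReal (w / d)) * (C * VCR_Q a d w Θ1 h s u ^ (1 / 2 : ℝ)) := by
          simp [mul_assoc]
      _ ≤ 1 * (C * VCR_Q a d w Θ1 h s u ^ (1 / 2 : ℝ)) := by
          gcongr
          have h8 : (j : ℝ≥0∞) = ENNReal.ofReal (j : ℝ) := by simp
          rw [h8, ← ENNReal.ofReal_mul (by positivity)]
          rw [← ENNReal.ofReal_one]
          apply ENNReal.ofReal_le_ofReal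
          rw [mul_div_assoc', div_le_one hd]
          have h5 : (j : ℝ) ≤ N := by exact_mod_cast hj
          have : (j : ℝ) * w ≤ N * w := by gcongr
          linarith
      _ = _ := one_mul _
  · refine (VCR_abel N j hj (fun k => b (u + y k)) (fun k => VCR_I Θ h s w (y k) u)
      (ENNReal.ofReal A) (ENNReal.ofReal (A / d * w)) (VCR_Z Θ h s w i0 N u) ?_ ?_ ?_).trans ?_
    · intro k hk
      rw [← ofReal_norm]
      exact ENNReal.ofReal_le_ofReal (X.hb _ ⟨hlo k, hup' k hk⟩).2.1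
    · intro k hk
      rw [← ofReal_norm]
      refine ENNReal.ofReal_le_ofReal ((VCR_mv X _ _ ⟨hlo k, hup' k (by omega)⟩
        ⟨hlo (k + 1), hup' (k + 1) (by omega)⟩).trans ?_)
      gcongr
      rw [hys]
      rw [show u + (y k + w) - (u + y k) = w by ring, abs_of_pos hw]
    · intro m hm
      unfold VCR_Z
      exact le_iSup₂_of_le m hm le_rfl
    · rw [← add_mul]
      gcongr
      have h8 : (N : ℝ≥0∞) = ENNReal.ofReal (N : ℝ) := by simp
      rw [h8, ← ENNReal.ofReal_mul (by positivity), two_mul]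
      gcongr
      have : (N : ℝ) * (A / d * w) = A * ((N * w) / d) := by field_simp
      rw [this]
      have h9 : (N * w) / d ≤ 1 := by
        rw [div_le_one hd]
        linarith
      calc A * ((N * w) / d) ≤ A * 1 := by gcongr
        _ = A := mul_one A

/-- all truncations -/
theorem VCR_pt1 (C : ℝ≥0) (hW : VCR_W A C) (X : VCR_X A a d lam w s Θ Θ1 Θ2 b b' h)
    (p i0 : ℤ) (N : ℕ) (hF : VCR_F a d w p i0 N) (u : ℝ) (hu1 : p * w ≤ u) (hu2 : u ≤ (p + 1) * w)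
    (W : ℝ) (h1 : a - u ≤ W) (h2 : W ≤ a + d - u) :
    ‖∫ v in (a - u)..W, e1 (s * Θ (u + v)) * b (u + v) * h v‖ₑ ≤
      9 * (C * VCR_Q a d w Θ1 h s u ^ (1 / 2 : ℝ)) +
        2 * ENNReal.ofReal A * VCR_Z Θ h s w i0 N u := by
  have hw := X.hw
  have hd := X.hd
  have hwd := X.hwd
  have hA := X.hA
  have hfull := VCR_full C hW X p i0 N hF u hu1 hu2
  obtain ⟨f1, f2, f3, f4⟩ := hF
  obtain ⟨j, hj, hj1, hj2⟩ : ∃ j : ℕ, j ≤ N ∧ W ≤ (i0 + j) * w + 2 * w ∧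
      (i0 + j) * w ≤ W + 2 * w := by
    rcases lt_or_ge W (i0 * w) with hc | hc
    · refine ⟨0, Nat.zero_le _, ?_, ?_⟩
      · simp only [Nat.cast_zero, add_zero]; linarith
      · simp only [Nat.cast_zero, add_zero]; linarith
    · rcases le_or_gt ((i0 + N) * w) W with hc2 | hc2
      · refine ⟨N, le_rfl, ?_, ?_⟩
        · linarith
        · linarith
      · refine ⟨⌊W / w - i0⌋₊, ?_, ?_, ?_⟩
        · have h5 : W / w - i0 < N + 1 := by
            have : W / w < i0 + N := by rw [div_lt_iff₀ hw]; exact hc2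
            linarith
          have h6 : 0 ≤ W / w - i0 := by
            have : (i0 : ℝ) ≤ W / w := by rw [le_div_iff₀ hw]; exact hc
            linarith
          have := (Nat.floor_lt h6 (n := N + 1)).2 (by push_cast; exact h5)
          omega
        · have := Nat.lt_floor_add_one (W / w - i0)
          have h7 : W / w < i0 + ⌊W / w - i0⌋₊ + 1 := by linarith
          rw [div_lt_iff₀ hw] at h7
          linarith
        · have h6 : 0 ≤ W / w - i0 := by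
            have : (i0 : ℝ) ≤ W / w := by rw [le_div_iff₀ hw]; exact hc
            linarith
          have := Nat.floor_le h6
          have h7 : (i0 : ℝ) + ⌊W / w - i0⌋₊ ≤ W / w := by linarith
          rw [le_div_iff₀ hw] at h7
          linarith
  have h5 : (j : ℝ) ≤ N := by exact_mod_cast hj
  have h5' : (j : ℝ) * w ≤ N * w := by gcongr
  have h0 : (0 : ℝ) ≤ j * w := by positivity
  have hI1 := VCR_fc X u (a - u) (i0 * w) le_rfl (by linarith) (by linarith)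
  have hI2 := VCR_fc X u (i0 * w) ((i0 + j) * w) (by linarith) (by linarith) (by linarith)
  have hlast : ‖∫ v in ((i0 + j) * w)..W, e1 (s * Θ (u + v)) * b (u + v) * h v‖ₑ ≤
      4 * (C * VCR_Q a d w Θ1 h s u ^ (1 / 2 : ℝ)) ∧
      IntervalIntegrable (fun v => e1 (s * Θ (u + v)) * b (u + v) * h v) volume
        ((i0 + j) * w) W := by
    rcases le_total ((i0 + j) * w) W with hc | hc
    · exact ⟨VCR_short2 C hW X u _ W (by linarith) hc h2 hj1,
        VCR_fc X u _ W (by linarith) hc h2⟩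
    · rw [intervalIntegral.integral_symm, enorm_neg]
      exact ⟨VCR_short2 C hW X u W _ h1 hc (by linarith) hj2,
        (VCR_fc X u W _ h1 hc (by linarith)).symm⟩
  rw [← intervalIntegral.integral_add_adjacent_intervals hI1 (hI2.trans hlast.2),
    ← intervalIntegral.integral_add_adjacent_intervals hI2 hlast.2]
  refine (enorm_add_le _ _).trans ((add_le_add (VCR_short2 C hW X u _ _ le_rfl (by linarith)
    (by linarith) (by linarith)) ((enorm_add_le _ _).trans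
      (add_le_add (hfull j hj) hlast.1))).trans (le_of_eq ?_))
  ring

end

/-! ### averaging -/

/-- the amplitude of a window -/
noncomputable def VCR_a (Θ : ℝ → ℝ) (h : ℝ → ℂ) (s w y u : ℝ) : ℂ :=
  ∫ v in y..(y + w), e1 (s * (Θ (u + v) - Θ (u + y))) * h v

/-- its derivative -/
noncomputable def VCR_D (Θ Θ1 : ℝ → ℝ) (h : ℝ → ℂ) (s w y u : ℝ) : ℂ :=
  ∫ v in y..(y + w), (2 * Real.pi * Complex.I * e1 (s * (Θ (u + v) - Θ (u + y)))) *
    ((s * (Θ1 (u + v) - Θ1 (u + y)) : ℝ) : ℂ) * h v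

theorem VCR_aI (Θ : ℝ → ℝ) (h : ℝ → ℂ) (s w y u : ℝ) :
    VCR_I Θ h s w y u = VCR_a Θ h s w y u * e1 (s * Θ (u + y)) := by
  unfold VCR_I VCR_a
  rw [← intervalIntegral.integral_mul_const]
  apply intervalIntegral.integral_congr
  intro v _
  simp only
  have h1 : e1 (s * Θ (u + v)) = e1 (s * (Θ (u + v) - Θ (u + y))) * e1 (s * Θ (u + y)) := by
    rw [← VCR_e1a]; congr 1; ring
  rw [h1]; ring

theorem VCR_ac (Θ : ℝ → ℝ) (h : ℝ → ℂ) (s w y : ℝ) (ht : Continuous Θ) (hh : Continuous h) :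
    Continuous (VCR_a Θ h s w y) := by
  have hc := VCR_e1c
  unfold VCR_a
  apply intervalIntegral.continuous_parametric_intervalIntegral_of_continuous'
  unfold Function.uncurry
  fun_prop

theorem VCR_Ic (Θ : ℝ → ℝ) (h : ℝ → ℂ) (s w y : ℝ) (ht : Continuous Θ) (hh : Continuous h) :
    Continuous (VCR_I Θ h s w y) := by
  have hc := VCR_e1c
  unfold VCR_I
  apply intervalIntegral.continuous_parametric_intervalIntegral_of_continuous'
  unfold Function.uncurry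
  fun_prop

theorem VCR_Dc (Θ Θ1 : ℝ → ℝ) (h : ℝ → ℂ) (s w y : ℝ) (ht : Continuous Θ) (ht1 : Continuous Θ1)
    (hh : Continuous h) : Continuous (VCR_D Θ Θ1 h s w y) := by
  have hc := VCR_e1c
  unfold VCR_D
  apply intervalIntegral.continuous_parametric_intervalIntegral_of_continuous'
  unfold Function.uncurry
  fun_prop

theorem VCR_lip (A lam d : ℝ) (Θ Θ1 Θ2 : ℝ → ℝ) (hP : Ph A lam d Θ Θ1 Θ2) (hl : 0 < lam)
    (hA : 1 ≤ A) (x y : ℝ) : |Θ1 y - Θ1 x| ≤ A * lam * |y - x| := by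
  have h1 := Convex.norm_image_sub_le_of_norm_hasDerivWithin_le (f := Θ1) (f' := Θ2)
    (s := univ) (C := A * lam) (fun z _ => (hP.d2 z).hasDerivWithinAt)
    (fun z _ => by
      have h2 := hP.lo z
      have h3 : 0 < lam / A := by positivity
      rw [Real.norm_of_nonneg (by linarith)]
      exact hP.hi z) convex_univ (mem_univ x) (mem_univ y)
  rwa [Real.norm_eq_abs, Real.norm_eq_abs] at h1

theorem VCR_aD (A lam d : ℝ) (Θ Θ1 Θ2 : ℝ → ℝ) (hP : Ph A lam d Θ Θ1 Θ2) (hl : 0 < lam)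
    (hA : 1 ≤ A) (h : ℝ → ℂ) (s w y u : ℝ) (hs : s = 1 ∨ s = -1) (hw : 0 < w)
    (hh : Continuous h) :
    HasDerivAt (VCR_a Θ h s w y) (VCR_D Θ Θ1 h s w y u) u := by
  have hc := VCR_e1c
  have ht := (VCR_thc A lam d Θ Θ1 Θ2 hP).1
  have ht1 := (VCR_thc A lam d Θ Θ1 Θ2 hP).2
  have hs1 : |s| = 1 := by rcases hs with rfl | rfl <;> simp
  unfold VCR_a VCR_D
  refine (intervalIntegral.hasDerivAt_integral_of_dominated_loc_of_deriv_le
    (F := fun u v => e1 (s * (Θ (u + v) - Θ (u + y))) * h v)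
    (F' := fun u v => (2 * Real.pi * Complex.I * e1 (s * (Θ (u + v) - Θ (u + y)))) *
    ((s * (Θ1 (u + v) - Θ1 (u + y)) : ℝ) : ℂ) * h v)
    (bound := fun v => 2 * Real.pi * (A * lam * w) * ‖h v‖) (s := univ) Filter.univ_mem
    ?_ ?_ ?_ ?_ ?_ ?_).2
  · refine Eventually.of_forall fun x => ?_
    apply Continuous.aestronglyMeasurable
    fun_prop
  · apply Continuous.intervalIntegrable
    fun_prop
  · apply Continuous.aestronglyMeasurable
    fun_prop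
  · refine Eventually.of_forall fun v hv x _ => ?_
    rw [uIoc_of_le (by linarith)] at hv
    rw [norm_mul, norm_mul, norm_mul, VCR_e1n, Complex.norm_real, Real.norm_eq_abs, abs_mul, hs1]
    have h1 : ‖(2 * Real.pi * Complex.I : ℂ)‖ = 2 * Real.pi := by
      simp [abs_of_pos Real.pi_pos]
    rw [h1]
    have h2 := VCR_lip A lam d Θ Θ1 Θ2 hP hl hA (x + y) (x + v)
    have h3 : |x + v - (x + y)| ≤ w := by
      rw [abs_le]; constructor <;> linarith [hv.1, hv.2]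
    have h4 : |Θ1 (x + v) - Θ1 (x + y)| ≤ A * lam * w := h2.trans (by gcongr)
    calc 2 * Real.pi * 1 * (1 * |Θ1 (x + v) - Θ1 (x + y)|) * ‖h v‖
        ≤ 2 * Real.pi * 1 * (1 * (A * lam * w)) * ‖h v‖ := by gcongr
      _ = _ := by ring
  · apply Continuous.intervalIntegrable
    fun_prop
  · refine Eventually.of_forall fun v _ x _ => ?_
    apply HasDerivAt.mul_const
    have h5 : HasDerivAt (fun x => s * (Θ (x + v) - Θ (x + y)))
        (s * (Θ1 (x + v) - Θ1 (x + y))) x := by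
      apply HasDerivAt.const_mul
      exact ((hP.d1 (x + v)).comp_add_const x v).sub ((hP.d1 (x + y)).comp_add_const x y)
    have h6 := (VCR_e1d (s * (Θ (x + v) - Θ (x + y)))).scomp x h5
    simp only [Function.comp_def] at h6
    have h7 : (2 * Real.pi * Complex.I * e1 (s * (Θ (x + v) - Θ (x + y)))) *
        ((s * (Θ1 (x + v) - Θ1 (x + y)) : ℝ) : ℂ) = (s * (Θ1 (x + v) - Θ1 (x + y))) •
        (2 * Real.pi * Complex.I * e1 (s * (Θ (x + v) - Θ (x + y)))) := by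
      rw [Complex.real_smul]; ring
    rw [h7]
    exact h6

theorem VCR_ab (A : ℝ) (C : ℝ≥0) (hW : VCR_W A C) (lam d : ℝ) (Θ Θ1 Θ2 : ℝ → ℝ)
    (hP : Ph A lam d Θ Θ1 Θ2) (hl : 0 < lam) (hd : 0 < d) (hA : 1 ≤ A) (h : ℝ → ℂ)
    (s w u : ℝ) (i : ℤ) (hs : s = 1 ∨ s = -1) (hw : 0 < w) (hwd : w ≤ d)
    (hwl : w ^ 2 * lam ≤ 1) (hh : Continuous h) :
    ‖VCR_a Θ h s w (i * w) u‖ₑ ≤ C * NN w h i (s * Θ1 (u + i * w)) := by
  have h1 : ‖VCR_a Θ h s w (i * w) u‖ₑ = ‖VCR_I Θ h s w (i * w) u‖ₑ := by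
    rw [VCR_aI, enorm_mul]
    have : ‖e1 (s * Θ (u + i * w))‖ₑ = 1 := by
      rw [← ofReal_norm, VCR_e1n]; simp
    rw [this, mul_one]
  rw [h1]
  unfold VCR_I
  rw [intervalIntegral.integral_of_le (by linarith)]
  have h2 := hW lam d w Θ Θ1 Θ2 s u i (i * w) (i * w + w) (fun _ => 1) (fun _ => 0) h hP hl hd hw
    hwd hwl hs hh le_rfl (by linarith) (by linarith) (fun x _ =>
      ⟨hasDerivAt_const x (1 : ℂ), by simpa using hA, by simp; positivity⟩)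
    continuousOn_const
  simpa using h2

theorem VCR_Db (A : ℝ) (C : ℝ≥0) (hW : VCR_W A C) (lam d : ℝ) (Θ Θ1 Θ2 : ℝ → ℝ)
    (hP : Ph A lam d Θ Θ1 Θ2) (hl : 0 < lam) (hd : 0 < d) (hA : 1 ≤ A) (h : ℝ → ℂ)
    (s w u : ℝ) (i : ℤ) (hs : s = 1 ∨ s = -1) (hw : 0 < w) (hwd : w ≤ d)
    (hwl : w ^ 2 * lam ≤ 1) (hh : Continuous h) :
    ‖VCR_D Θ Θ1 h s w (i * w) u‖ₑ ≤
      ENNReal.ofReal (2 * Real.pi / w) * (C * NN w h i (s * Θ1 (u + i * w))) := by
  have hc := VCR_e1c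
  have ht := (VCR_thc A lam d Θ Θ1 Θ2 hP).1
  have ht1 := (VCR_thc A lam d Θ Θ1 Θ2 hP).2
  have hs1 : |s| = 1 := by rcases hs with rfl | rfl <;> simp
  have e2 : VCR_D Θ Θ1 h s w (i * w) u = (2 * Real.pi * Complex.I * ((s / w : ℝ) : ℂ) *
      e1 (-(s * Θ (u + i * w)))) * ∫ v in Ioc (i * w) (i * w + w), e1 (s * Θ (u + v)) *
      ((fun x => ((w * (Θ1 x - Θ1 (u + i * w)) : ℝ) : ℂ)) (u + v)) * h v := by
    unfold VCR_D
    rw [← intervalIntegral.integral_of_le (by linarith), ← intervalIntegral.integral_const_mul]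
    apply intervalIntegral.integral_congr
    intro v _
    simp only
    have h1 : e1 (s * (Θ (u + v) - Θ (u + i * w))) =
        e1 (-(s * Θ (u + i * w))) * e1 (s * Θ (u + v)) := by
      rw [← VCR_e1a]; congr 1; ring
    rw [h1]
    have hw0 : (w : ℂ) ≠ 0 := by exact_mod_cast hw.ne'
    push_cast
    field_simp
  rw [e2, enorm_mul]
  have h4 : ‖(2 * Real.pi * Complex.I * ((s / w : ℝ) : ℂ) *
      e1 (-(s * Θ (u + i * w))))‖ₑ = ENNReal.ofReal (2 * Real.pi / w) := by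
    rw [← ofReal_norm, norm_mul, VCR_e1n, norm_mul, Complex.norm_real, Real.norm_eq_abs,
      abs_div, hs1, abs_of_pos hw]
    congr 1
    simp [abs_of_pos Real.pi_pos]
    ring
  rw [h4]
  gcongr
  refine hW lam d w Θ Θ1 Θ2 s u i (i * w) (i * w + w)
    (fun x => ((w * (Θ1 x - Θ1 (u + i * w)) : ℝ) : ℂ))
    (fun x => ((w * Θ2 x : ℝ) : ℂ)) h hP hl hd hw hwd hwl hs hh
    le_rfl (by linarith) (by linarith) ?_ ?_
  · intro x hx
    refine ⟨?_, ?_, ?_⟩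
    · exact (((hP.d2 x).sub_const _).const_mul w).ofReal_comp
    · rw [Complex.norm_real, Real.norm_eq_abs, abs_mul, abs_of_pos hw]
      have h2 := VCR_lip A lam d Θ Θ1 Θ2 hP hl hA (u + i * w) x
      have h3 : |x - (u + i * w)| ≤ w := by
        rw [abs_le]; constructor <;> linarith [hx.1, hx.2]
      calc w * |Θ1 x - Θ1 (u + i * w)| ≤ w * (A * lam * w) := by
            gcongr
            exact h2.trans (by gcongr)
        _ = A * (w ^ 2 * lam) := by ring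
        _ ≤ A * 1 := by gcongr
        _ = A := mul_one A
    · have h2 := hP.lo x
      have h3 : 0 < lam / A := by positivity
      rw [Complex.norm_real, Real.norm_of_nonneg (mul_nonneg hw.le (by linarith))]
      rw [le_div_iff₀ hw]
      calc w * Θ2 x * w ≤ w * (A * lam) * w := by
            gcongr
            exact hP.hi x
        _ = A * (w ^ 2 * lam) := by ring
        _ ≤ A * 1 := by gcongr
        _ = A := mul_one A
  · apply Continuous.continuousOn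
    have ht2 : Continuous Θ2 := by
      have : LipschitzWith (Real.toNNReal (A * lam / d)) Θ2 := by
        apply LipschitzWith.of_dist_le_mul
        intro x y
        rw [Real.dist_eq, Real.dist_eq, Real.coe_toNNReal _ (by positivity)]
        exact hP.lip x y
      exact this.continuous
    fun_prop

/-- Cauchy-Schwarz -/
theorem VCR_cs (x w : ℝ) (f : ℝ → ℝ≥0∞) (hf : Measurable f) :
    (∫⁻ t in Icc x (x + w), f t) ^ 2 ≤ ENNReal.ofReal w * ∫⁻ t in Icc x (x + w), f t ^ 2 := by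
  have h1 := ENNReal.lintegral_mul_le_Lp_mul_Lq (volume.restrict (Icc x (x + w)))
    Real.HolderConjugate.two_two (f := fun _ => 1) (g := f) aemeasurable_const hf.aemeasurable
  simp only [Pi.mul_apply, one_mul, ENNReal.one_rpow, lintegral_const, Measure.restrict_apply,
    MeasurableSet.univ, univ_inter, Real.volume_Icc] at h1
  have h2 : x + w - x = w := by ring
  rw [h2] at h1
  calc (∫⁻ t in Icc x (x + w), f t) ^ 2 ≤ (ENNReal.ofReal w ^ (1 / 2 : ℝ) *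
        (∫⁻ t in Icc x (x + w), f t ^ (2 : ℝ)) ^ (1 / 2 : ℝ)) ^ 2 := by gcongr
    _ = ENNReal.ofReal w * ∫⁻ t in Icc x (x + w), f t ^ 2 := by
      rw [mul_pow, VCR_sq, VCR_sq]
      congr 1
      apply lintegral_congr
      intro t
      rw [← ENNReal.rpow_natCast]
      norm_num

theorem VCR_two (x y : ℝ≥0∞) : (x + y) ^ 2 ≤ 2 * x ^ 2 + 2 * y ^ 2 := by
  have h1 := ENNReal.rpow_add_le_mul_rpow_add_rpow x y (p := 2) (by norm_num)
  have h2 : ((2 : ℝ≥0∞) ^ ((2 : ℝ) - 1)) = 2 := by norm_num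
  rw [h2] at h1
  have h3 : ∀ z : ℝ≥0∞, z ^ (2 : ℝ) = z ^ 2 := fun z => by
    rw [← ENNReal.rpow_natCast]; norm_num
  rw [h3, h3, h3] at h1
  rw [← mul_add]
  exact h1

/-- sums with frozen amplitudes -/
noncomputable def VCR_S (Θ : ℝ → ℝ) (s w y : ℝ) (N : ℕ) (a : ℕ → ℂ) (u : ℝ) : ℝ≥0∞ :=
  ⨆ (j : ℕ) (_ : j ≤ N), ‖∑ i ∈ Finset.range j, a i * e1 (s * Θ (u + (y + i * w)))‖ₑ

theorem VCR_Sm (Θ : ℝ → ℝ) (s w y : ℝ) (N : ℕ) (a : ℕ → ℝ → ℂ) (ht : Continuous Θ)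
    (ha : ∀ i, Continuous (a i)) :
    Measurable fun z : ℝ × ℝ => VCR_S Θ s w y N (fun i => a i z.1) z.2 := by
  have hc := VCR_e1c
  unfold VCR_S
  refine Measurable.iSup fun j => Measurable.iSup fun _ => ?_
  apply Continuous.measurable
  apply Continuous.enorm
  refine continuous_finsetSum _ fun i _ => ?_
  have := ha i
  fun_prop

theorem VCR_Sm1 (Θ : ℝ → ℝ) (s w y : ℝ) (N : ℕ) (a : ℕ → ℂ) (ht : Continuous Θ) :
    Measurable fun u : ℝ => VCR_S Θ s w y N a u := by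
  have hc := VCR_e1c
  unfold VCR_S
  refine Measurable.iSup fun j => Measurable.iSup fun _ => ?_
  apply Continuous.measurable
  apply Continuous.enorm
  refine continuous_finsetSum _ fun i _ => ?_
  fun_prop

/-- the conclusion of ACR -/
def VCR_AC (A : ℝ) (C : ℝ≥0) : Prop := ∀ (lam d w : ℝ) (Θ Θ1 Θ2 : ℝ → ℝ)
  (s x y : ℝ) (N : ℕ) (a : ℕ → ℂ), Ph A lam d Θ Θ1 Θ2 → 0 < lam → 0 < d → 0 < w →
  1 / A ≤ w ^ 2 * lam → w ^ 2 * lam ≤ 1 → (N : ℝ) * w ≤ 2 * d → (s = 1 ∨ s = -1) →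
    ∫⁻ u in Icc x (x + w), (⨆ (j : ℕ) (_ : j ≤ N),
      ‖∑ i ∈ Finset.range j, a i * e1 (s * Θ (u + (y + i * w)))‖ₑ) ^ 2 ≤
      C * ENNReal.ofReal w * ∑ i ∈ Finset.range N, ‖a i‖ₑ ^ 2

/-- the sum of squares -/
noncomputable def VCR_q (Θ1 : ℝ → ℝ) (h : ℝ → ℂ) (s w : ℝ) (i0 : ℤ) (N : ℕ) (u : ℝ) : ℝ≥0∞ :=
  ∑ k ∈ Finset.range N, NN w h (i0 + k) (s * Θ1 (u + (i0 + k) * w)) ^ 2

theorem VCR_qm (Θ1 : ℝ → ℝ) (h : ℝ → ℂ) (s w : ℝ) (i0 : ℤ) (N : ℕ) (hh : Continuous h)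
    (hc : Continuous Θ1) : Measurable (VCR_q Θ1 h s w i0 N) := by
  unfold VCR_q
  refine Finset.measurable_sum _ fun k _ => ?_
  apply Measurable.pow_const
  apply (VCR_nnm w h (i0 + k) hh).comp
  apply Continuous.measurable
  fun_prop

theorem VCR_Zpt (A : ℝ) (lam d : ℝ) (Θ Θ1 Θ2 : ℝ → ℝ)
    (hP : Ph A lam d Θ Θ1 Θ2) (hl : 0 < lam) (hA : 1 ≤ A) (h : ℝ → ℂ)
    (s w : ℝ) (i0 : ℤ) (N : ℕ) (hs : s = 1 ∨ s = -1) (hw : 0 < w)
    (hh : Continuous h) (x u u' : ℝ) (hu : u ∈ Icc x (x + w)) (hu' : u' ∈ Icc x (x + w)) :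
    VCR_Z Θ h s w i0 N u ≤
      VCR_S Θ s w (i0 * w) N (fun k => VCR_a Θ h s w ((i0 + k) * w) u') u +
      ∫⁻ t in Icc x (x + w),
        VCR_S Θ s w (i0 * w) N (fun k => VCR_D Θ Θ1 h s w ((i0 + k) * w) t) u := by
  have hc := VCR_e1c
  have ht := (VCR_thc A lam d Θ Θ1 Θ2 hP).1
  have ht1 := (VCR_thc A lam d Θ Θ1 Θ2 hP).2
  unfold VCR_Z
  refine iSup₂_le fun j hj => ?_
  have h1 : ∀ k : ℕ, VCR_I Θ h s w ((i0 + k) * w) u =
      VCR_a Θ h s w ((i0 + k) * w) u' * e1 (s * Θ (u + (i0 * w + k * w))) +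
      ∫ t in u'..u, VCR_D Θ Θ1 h s w ((i0 + k) * w) t * e1 (s * Θ (u + (i0 * w + k * w))) := by
    intro k
    rw [VCR_aI, intervalIntegral.integral_mul_const]
    have h2 := intervalIntegral.integral_eq_sub_of_hasDerivAt
      (fun t _ => VCR_aD A lam d Θ Θ1 Θ2 hP hl hA h s w ((i0 + k) * w) t hs hw hh)
      ((VCR_Dc Θ Θ1 h s w ((i0 + k) * w) ht ht1 hh).intervalIntegrable u' u)
    rw [h2, ← add_mul (i0 : ℝ) k w]
    ring
  have h3 : ∑ k ∈ Finset.range j, VCR_I Θ h s w ((i0 + k) * w) u =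
      ∑ k ∈ Finset.range j,
        VCR_a Θ h s w ((i0 + k) * w) u' * e1 (s * Θ (u + (i0 * w + k * w))) +
      ∫ t in u'..u, ∑ k ∈ Finset.range j,
        VCR_D Θ Θ1 h s w ((i0 + k) * w) t * e1 (s * Θ (u + (i0 * w + k * w))) := by
    rw [intervalIntegral.integral_finsetSum, ← Finset.sum_add_distrib]
    · exact Finset.sum_congr rfl fun k _ => h1 k
    · intro k _
      exact ((VCR_Dc Θ Θ1 h s w ((i0 + k) * w) ht ht1 hh).mul continuous_const).intervalIntegrable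
        _ _
  rw [h3]
  refine (enorm_add_le _ _).trans (add_le_add ?_ ?_)
  · unfold VCR_S
    exact le_iSup₂_of_le (f := fun (j : ℕ) (_ : j ≤ N) => ‖∑ k ∈ Finset.range j,
        VCR_a Θ h s w ((i0 + k) * w) u' * e1 (s * Θ (u + (i0 * w + k * w)))‖ₑ) j hj le_rfl
  · have h4 : ‖∫ t in u'..u, ∑ k ∈ Finset.range j,
        VCR_D Θ Θ1 h s w ((i0 + k) * w) t * e1 (s * Θ (u + (i0 * w + k * w)))‖ₑ =
        ‖∫ t in uIoc u' u, ∑ k ∈ Finset.range j,
        VCR_D Θ Θ1 h s w ((i0 + k) * w) t * e1 (s * Θ (u + (i0 * w + k * w)))‖ₑ := by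
      rw [← ofReal_norm, ← ofReal_norm, intervalIntegral.norm_intervalIntegral_eq]
    rw [h4]
    refine (enorm_integral_le_lintegral_enorm _).trans ?_
    have h5 : uIoc u' u ⊆ Icc x (x + w) := by
      intro t ht
      rw [mem_uIoc] at ht
      rcases ht with ht | ht
      · exact ⟨by linarith [ht.1, hu'.1], by linarith [ht.2, hu.2]⟩
      · exact ⟨by linarith [ht.1, hu.1], by linarith [ht.2, hu'.2]⟩
    refine (lintegral_mono_set h5).trans (lintegral_mono fun t => ?_)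
    unfold VCR_S
    exact le_iSup₂_of_le (f := fun (j : ℕ) (_ : j ≤ N) => ‖∑ k ∈ Finset.range j,
        VCR_D Θ Θ1 h s w ((i0 + k) * w) t * e1 (s * Θ (u + (i0 * w + k * w)))‖ₑ) j hj le_rfl

theorem VCR_avg (x w : ℝ) (hw : 0 < w) (Z q : ℝ → ℝ≥0∞) (S1 S2 : ℝ → ℝ → ℝ≥0∞)
    (c1 c2 K2 : ℝ≥0∞) (hq : Measurable q) (hm1 : ∀ t, Measurable (S1 t))
    (hm2 : Measurable fun z : ℝ × ℝ => S2 z.1 z.2)
    (hpt : ∀ u ∈ Icc x (x + w), ∀ t ∈ Icc x (x + w), Z u ≤ S1 t u + ∫⁻ t in Icc x (x + w), S2 t u)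
    (hS1 : ∀ t, ∫⁻ u in Icc x (x + w), S1 t u ^ 2 ≤ c1 * ENNReal.ofReal w * q t)
    (hS2 : ∀ t, ∫⁻ u in Icc x (x + w), S2 t u ^ 2 ≤ K2 * q t)
    (hK : ENNReal.ofReal w * K2 ≤ c2) :
    ∫⁻ u in Icc x (x + w), Z u ^ 2 ≤ (2 * (c1 + c2)) * ∫⁻ u in Icc x (x + w), q u := by
  have hw0 : ENNReal.ofReal w ≠ 0 := by simpa using hw
  have hwt : ENNReal.ofReal w ≠ ⊤ := ENNReal.ofReal_ne_top
  have hL : ∫⁻ u in Icc x (x + w), (∫⁻ t in Icc x (x + w), S2 t u) ^ 2 ≤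
      c2 * ∫⁻ u in Icc x (x + w), q u := by
    calc ∫⁻ u in Icc x (x + w), (∫⁻ t in Icc x (x + w), S2 t u) ^ 2
        ≤ ∫⁻ u in Icc x (x + w), ENNReal.ofReal w * ∫⁻ t in Icc x (x + w), S2 t u ^ 2 := by
          refine lintegral_mono fun u => ?_
          have h1 : Measurable fun t => S2 t u := hm2.comp (measurable_id.prodMk measurable_const)
          exact VCR_cs x w _ h1
      _ = ENNReal.ofReal w * ∫⁻ u in Icc x (x + w), ∫⁻ t in Icc x (x + w), S2 t u ^ 2 :=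
          lintegral_const_mul' _ _ hwt
      _ = ENNReal.ofReal w * ∫⁻ t in Icc x (x + w), ∫⁻ u in Icc x (x + w), S2 t u ^ 2 := by
          rw [lintegral_lintegral_swap]
          apply Measurable.aemeasurable
          have h1 := (hm2.comp measurable_swap).pow_const 2
          exact h1
      _ ≤ ENNReal.ofReal w * ∫⁻ t in Icc x (x + w), K2 * q t := by
          gcongr with t
          exact hS2 t
      _ = (ENNReal.ofReal w * K2) * ∫⁻ t in Icc x (x + w), q t := by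
          rw [lintegral_const_mul _ hq]
          ring
      _ ≤ _ := by gcongr
  have hfix : ∀ t ∈ Icc x (x + w), ∫⁻ u in Icc x (x + w), Z u ^ 2 ≤
      2 * (c1 * ENNReal.ofReal w * q t) + 2 * (c2 * ∫⁻ u in Icc x (x + w), q u) := by
    intro t ht
    calc ∫⁻ u in Icc x (x + w), Z u ^ 2
        ≤ ∫⁻ u in Icc x (x + w), (2 * S1 t u ^ 2 +
          2 * (∫⁻ t in Icc x (x + w), S2 t u) ^ 2) := by
          refine setLIntegral_mono' measurableSet_Icc fun u hu => ?_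
          refine le_trans ?_ (VCR_two _ _)
          gcongr
          exact hpt u hu t ht
      _ = 2 * (∫⁻ u in Icc x (x + w), S1 t u ^ 2) +
          2 * ∫⁻ u in Icc x (x + w), (∫⁻ t in Icc x (x + w), S2 t u) ^ 2 := by
          rw [lintegral_add_left (((hm1 t).pow_const 2).const_mul 2),
            lintegral_const_mul' _ _ (by norm_num), lintegral_const_mul' _ _ (by norm_num)]
      _ ≤ _ := by
          gcongr
          exact hS1 t
  have hvol : ENNReal.ofReal w = volume (Icc x (x + w)) := by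
    rw [Real.volume_Icc]; congr 1; ring
  have havg : ENNReal.ofReal w * ∫⁻ u in Icc x (x + w), Z u ^ 2 ≤
      ENNReal.ofReal w * ((2 * (c1 + c2)) * ∫⁻ u in Icc x (x + w), q u) := by
    calc ENNReal.ofReal w * ∫⁻ u in Icc x (x + w), Z u ^ 2
        = ∫⁻ _ in Icc x (x + w), (∫⁻ u in Icc x (x + w), Z u ^ 2) := by
          rw [lintegral_const, Measure.restrict_apply_univ, ← hvol, mul_comm]
      _ ≤ ∫⁻ t in Icc x (x + w), (2 * (c1 * ENNReal.ofReal w * q t) +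
          2 * (c2 * ∫⁻ u in Icc x (x + w), q u)) :=
          setLIntegral_mono' measurableSet_Icc hfix
      _ = (∫⁻ t in Icc x (x + w), (2 * c1 * ENNReal.ofReal w) * q t) +
          ∫⁻ _ in Icc x (x + w), 2 * (c2 * ∫⁻ u in Icc x (x + w), q u) := by
          rw [← lintegral_add_right _ measurable_const]
          refine lintegral_congr fun t => ?_
          ring
      _ = (2 * c1 * ENNReal.ofReal w) * (∫⁻ t in Icc x (x + w), q t) +
          2 * (c2 * ∫⁻ u in Icc x (x + w), q u) * ENNReal.ofReal w := by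
          rw [lintegral_const_mul _ hq, lintegral_const, Measure.restrict_apply_univ, ← hvol]
      _ = _ := by ring
  exact (ENNReal.mul_le_mul_iff_right hw0 hwt).1 havg

theorem VCR_Zb (A : ℝ) (C C' : ℝ≥0) (hW : VCR_W A C) (hC : VCR_AC A C') (lam d : ℝ)
    (Θ Θ1 Θ2 : ℝ → ℝ) (hP : Ph A lam d Θ Θ1 Θ2) (hl : 0 < lam) (hd : 0 < d) (hA : 1 ≤ A)
    (h : ℝ → ℂ) (s w : ℝ) (i0 : ℤ) (N : ℕ) (hs : s = 1 ∨ s = -1) (hw : 0 < w) (hwd : w ≤ d)
    (hwl : w ^ 2 * lam ≤ 1) (hwA : 1 / A ≤ w ^ 2 * lam) (hN : (N : ℝ) * w ≤ 2 * d)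
    (hh : Continuous h) (x : ℝ) :
    ∫⁻ u in Icc x (x + w), VCR_Z Θ h s w i0 N u ^ 2 ≤
      (2 * (((C' * C ^ 2 : ℝ≥0) : ℝ≥0∞) +
        ((Real.toNNReal (2 * Real.pi) ^ 2 * C' * C ^ 2 : ℝ≥0) : ℝ≥0∞))) *
        ∫⁻ u in Icc x (x + w), VCR_q Θ1 h s w i0 N u := by
  have ht := (VCR_thc A lam d Θ Θ1 Θ2 hP).1
  have ht1 := (VCR_thc A lam d Θ Θ1 Θ2 hP).2
  refine VCR_avg x w hw (VCR_Z Θ h s w i0 N) (VCR_q Θ1 h s w i0 N)
    (fun t u => VCR_S Θ s w (i0 * w) N (fun k => VCR_a Θ h s w ((i0 + k) * w) t) u)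
    (fun t u => VCR_S Θ s w (i0 * w) N (fun k => VCR_D Θ Θ1 h s w ((i0 + k) * w) t) u)
    ((C' * C ^ 2 : ℝ≥0) : ℝ≥0∞) ((Real.toNNReal (2 * Real.pi) ^ 2 * C' * C ^ 2 : ℝ≥0) : ℝ≥0∞)
    (C' * ENNReal.ofReal w * (ENNReal.ofReal (2 * Real.pi / w) ^ 2 * C ^ 2))
    (VCR_qm Θ1 h s w i0 N hh ht1) ?_ ?_ ?_ ?_ ?_ ?_
  · intro t
    exact VCR_Sm1 Θ s w (i0 * w) N (fun k => VCR_a Θ h s w ((i0 + k) * w) t) ht
  · exact VCR_Sm Θ s w (i0 * w) N (fun k t => VCR_D Θ Θ1 h s w ((i0 + k) * w) t) ht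
      (fun k => VCR_Dc Θ Θ1 h s w ((i0 + k) * w) ht ht1 hh)
  · intro u hu t ht'
    exact VCR_Zpt A lam d Θ Θ1 Θ2 hP hl hA h s w i0 N hs hw hh x u t hu ht'
  · intro t
    refine (hC lam d w Θ Θ1 Θ2 s x (i0 * w) N
      (fun k => VCR_a Θ h s w ((i0 + k) * w) t) hP hl hd hw hwA hwl hN hs).trans ?_
    have h1 : ∑ k ∈ Finset.range N, ‖VCR_a Θ h s w ((i0 + k) * w) t‖ₑ ^ 2 ≤
        C ^ 2 * VCR_q Θ1 h s w i0 N t := by
      unfold VCR_q
      rw [Finset.mul_sum]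
      refine Finset.sum_le_sum fun k _ => ?_
      have h1 := VCR_ab A C hW lam d Θ Θ1 Θ2 hP hl hd hA h s w t (i0 + k) hs hw hwd hwl hh
      push_cast at h1
      rw [← mul_pow]
      gcongr
    calc (C' : ℝ≥0∞) * ENNReal.ofReal w *
          ∑ k ∈ Finset.range N, ‖VCR_a Θ h s w ((i0 + k) * w) t‖ₑ ^ 2
        ≤ C' * ENNReal.ofReal w * (C ^ 2 * VCR_q Θ1 h s w i0 N t) := by gcongr
      _ = _ := by push_cast; ring
  · intro t
    refine (hC lam d w Θ Θ1 Θ2 s x (i0 * w) N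
      (fun k => VCR_D Θ Θ1 h s w ((i0 + k) * w) t) hP hl hd hw hwA hwl hN hs).trans ?_
    have h1 : ∑ k ∈ Finset.range N, ‖VCR_D Θ Θ1 h s w ((i0 + k) * w) t‖ₑ ^ 2 ≤
        ENNReal.ofReal (2 * Real.pi / w) ^ 2 * (C ^ 2 * VCR_q Θ1 h s w i0 N t) := by
      unfold VCR_q
      rw [Finset.mul_sum, Finset.mul_sum]
      refine Finset.sum_le_sum fun k _ => ?_
      have h1 := VCR_Db A C hW lam d Θ Θ1 Θ2 hP hl hd hA h s w t (i0 + k) hs hw hwd hwl hh
      push_cast at h1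
      rw [← mul_pow, ← mul_pow]
      gcongr
    calc (C' : ℝ≥0∞) * ENNReal.ofReal w *
          ∑ k ∈ Finset.range N, ‖VCR_D Θ Θ1 h s w ((i0 + k) * w) t‖ₑ ^ 2
        ≤ C' * ENNReal.ofReal w *
          (ENNReal.ofReal (2 * Real.pi / w) ^ 2 * (C ^ 2 * VCR_q Θ1 h s w i0 N t)) := by gcongr
      _ = _ := by ring
  · have h1 : ENNReal.ofReal w * (C' * ENNReal.ofReal w *
        (ENNReal.ofReal (2 * Real.pi / w) ^ 2 * C ^ 2)) =
        (ENNReal.ofReal w * ENNReal.ofReal (2 * Real.pi / w)) ^ 2 * C' * C ^ 2 := by ring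
    rw [h1, ← ENNReal.ofReal_mul hw.le]
    have h2 : w * (2 * Real.pi / w) = 2 * Real.pi := by field_simp
    rw [h2]
    apply le_of_eq
    push_cast
    rfl

theorem VCR_FS (A a d lam w : ℝ) (Θ Θ1 Θ2 : ℝ → ℝ) (b b' c c' h κ : ℝ → ℂ)
    (X1 : VCR_X A a d lam w 1 Θ Θ1 Θ2 b b' h) (X2 : VCR_X A a d lam w (-1) Θ Θ1 Θ2 c c' h)
    (hκ : ∀ x ∈ Icc a (a + d), κ x = Real.sqrt lam * (e1 (Θ x) * b x + e1 (-Θ x) * c x))
    (u V1 V2 : ℝ) (G1 G2 : ℝ≥0∞)
    (hG1 : ∀ W, a - u ≤ W → W ≤ a + d - u →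
      ‖∫ v in (a - u)..W, e1 (1 * Θ (u + v)) * b (u + v) * h v‖ₑ ≤ G1)
    (hG2 : ∀ W, a - u ≤ W → W ≤ a + d - u →
      ‖∫ v in (a - u)..W, e1 ((-1) * Θ (u + v)) * c (u + v) * h v‖ₑ ≤ G2) :
    ‖FS κ a d h u V1 V2‖ₑ ≤ ENNReal.ofReal (Real.sqrt lam) * (2 * (G1 + G2)) := by
  have hd := X1.hd
  have hset : (Ioc V1 V2 ∩ {v | u + v ∈ Ico a (a + d)} : Set ℝ) =ᵐ[volume]
      (Ioc (max V1 (a - u)) (min V2 (a + d - u)) : Set ℝ) := by
    have h1 : {v | u + v ∈ Ico a (a + d)} = Ico (a - u) (a + d - u) := by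
      ext v
      simp only [Set.mem_ofPred_eq, mem_Ico]
      constructor
      · rintro ⟨h1, h2⟩; constructor <;> linarith
      · rintro ⟨h1, h2⟩; constructor <;> linarith
    rw [h1, ← Ioc_inter_Ioc]
    exact (ae_eq_refl _).inter Ico_ae_eq_Ioc
  unfold FS
  rw [setIntegral_congr_set hset]
  set W1 := max V1 (a - u) with hW1
  set W2 := min V2 (a + d - u) with hW2
  have h1 : a - u ≤ W1 := le_max_right _ _
  have h2 : W2 ≤ a + d - u := min_le_right _ _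
  rcases le_or_gt W1 W2 with h12 | h12
  swap
  · rw [Ioc_eq_empty (by linarith)]
    simp
  rw [← intervalIntegral.integral_of_le h12]
  have e1' : ∫ v in W1..W2, κ (u + v) * h v = (Real.sqrt lam : ℂ) *
      ((∫ v in W1..W2, e1 (1 * Θ (u + v)) * b (u + v) * h v) +
        ∫ v in W1..W2, e1 ((-1) * Θ (u + v)) * c (u + v) * h v) := by
    rw [← intervalIntegral.integral_add (VCR_fc X1 u W1 W2 h1 h12 h2)
      (VCR_fc X2 u W1 W2 h1 h12 h2), ← intervalIntegral.integral_const_mul]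
    apply intervalIntegral.integral_congr
    intro v hv
    rw [uIcc_of_le h12] at hv
    simp only
    rw [hκ (u + v) ⟨by linarith [hv.1], by linarith [hv.2]⟩, one_mul, neg_one_mul]
    ring
  have hdiff : ∀ (s : ℝ) (b b' : ℝ → ℂ) (X : VCR_X A a d lam w s Θ Θ1 Θ2 b b' h) (G : ℝ≥0∞),
      (∀ W, a - u ≤ W → W ≤ a + d - u →
      ‖∫ v in (a - u)..W, e1 (s * Θ (u + v)) * b (u + v) * h v‖ₑ ≤ G) →
      ‖∫ v in W1..W2, e1 (s * Θ (u + v)) * b (u + v) * h v‖ₑ ≤ 2 * G := by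
    intro s b b' X G hG
    rw [← intervalIntegral.integral_interval_sub_left
      (VCR_fc X u (a - u) W2 le_rfl (by linarith) h2)
      (VCR_fc X u (a - u) W1 le_rfl (by linarith) (by linarith)), two_mul]
    exact (enorm_sub_le).trans (add_le_add (hG W2 (by linarith) h2) (hG W1 h1 (by linarith)))
  rw [e1', enorm_mul]
  have h4 : ‖(Real.sqrt lam : ℂ)‖ₑ = ENNReal.ofReal (Real.sqrt lam) := by
    rw [← ofReal_norm, Complex.norm_real, Real.norm_of_nonneg (Real.sqrt_nonneg _)]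
  rw [h4]
  gcongr
  refine (enorm_add_le _ _).trans ?_
  rw [mul_add]
  exact add_le_add (hdiff 1 b b' X1 G1 hG1) (hdiff (-1) c c' X2 G2 hG2)

theorem VCR_qQ (a d w s : ℝ) (Θ1 : ℝ → ℝ) (h : ℝ → ℂ) (hw : 0 < w)
    (hwd : w ≤ d / 32)
    (p i0 : ℤ) (N : ℕ) (hF : VCR_F a d w p i0 N) (u : ℝ) (hu1 : p * w ≤ u)
    (hu2 : u ≤ (p + 1) * w) :
    VCR_q Θ1 h s w i0 N u ≤ VCR_Q a d w Θ1 h s u := by
  obtain ⟨f1, f2, f3, f4⟩ := hF
  unfold VCR_q VCR_Q
  have hinj : Function.Injective fun k : ℕ => i0 + (k : ℤ) := by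
    intro k l hkl
    simp only at hkl
    omega
  refine le_trans ?_ (ENNReal.tsum_comp_le_tsum_of_injective hinj _)
  refine le_trans ?_ (ENNReal.sum_le_tsum (Finset.range N))
  refine Finset.sum_le_sum fun k hk => ?_
  have hk' : (k : ℝ) + 1 ≤ N := by exact_mod_cast Finset.mem_range.1 hk
  have h1 : ((k : ℝ) + 1) * w ≤ N * w := by gcongr
  have h0 : (0 : ℝ) ≤ k * w := by positivity
  rw [indicator_of_mem]
  · push_cast
    exact le_rfl
  · push_cast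
    constructor <;> linarith

theorem VCR_exF (a d w : ℝ) (hw : 0 < w) (hwd : w ≤ d / 32) (p : ℤ) :
    ∃ (i0 : ℤ) (N : ℕ), VCR_F a d w p i0 N := by
  have hx : ((⌈a / w⌉ : ℤ) : ℝ) < a / w + 1 := Int.ceil_lt_add_one _
  have hx' : a / w ≤ ((⌈a / w⌉ : ℤ) : ℝ) := Int.le_ceil _
  have hy : ((⌊(a + d) / w⌋ : ℤ) : ℝ) ≤ (a + d) / w := Int.floor_le _
  have hy' : (a + d) / w < ((⌊(a + d) / w⌋ : ℤ) : ℝ) + 1 := Int.lt_floor_add_one _
  set m := ⌈a / w⌉
  set n := ⌊(a + d) / w⌋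
  have hdw : 32 ≤ d / w := by
    rw [le_div_iff₀ hw]; linarith
  have hadd : (a + d) / w = a / w + d / w := by ring
  have hnm : m + 1 ≤ n := by
    have : (m : ℝ) + 1 < n + 1 := by rw [hadd] at hy'; linarith
    have h2 : m + 1 < n + 1 := by exact_mod_cast this
    omega
  obtain ⟨N, hN⟩ : ∃ N : ℕ, (N : ℤ) = n - m - 1 := ⟨(n - m - 1).toNat, by omega⟩
  have hN' : (N : ℝ) = n - m - 1 := by exact_mod_cast hN
  refine ⟨m - p, N, ?_, ?_, ?_, ?_⟩
  · push_cast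
    rw [div_le_iff₀ hw] at hx'
    linarith
  · push_cast
    have : (m : ℝ) * w < (a / w + 1) * w := by gcongr
    have h2 : (a / w + 1) * w = a + w := by field_simp
    linarith
  · push_cast
    rw [hN']
    rw [le_div_iff₀ hw] at hy
    linarith
  · push_cast
    rw [hN']
    rw [div_lt_iff₀ hw] at hy'
    linarith

theorem VCR_lin (U : Set ℝ) (l x y : ℝ≥0∞) (f1 g1 f2 g2 : ℝ → ℝ≥0∞) (h1 : Measurable f1)
    (h2 : Measurable g1) (h3 : Measurable f2) (h4 : Measurable g2) :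
    ∫⁻ u in U, l * (x * f1 u + y * g1 u + (x * f2 u + y * g2 u)) =
      l * ((x * (∫⁻ u in U, f1 u) + y * (∫⁻ u in U, g1 u)) +
        (x * (∫⁻ u in U, f2 u) + y * ∫⁻ u in U, g2 u)) := by
  have m1 : Measurable fun u => x * f1 u := h1.const_mul _
  have m2 : Measurable fun u => y * g1 u := h2.const_mul _
  have m3 : Measurable fun u => x * f2 u := h3.const_mul _
  have m4 : Measurable fun u => y * g2 u := h4.const_mul _
  have m5 : Measurable fun u => x * f1 u + y * g1 u := m1.add m2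
  have m6 : Measurable fun u => x * f2 u + y * g2 u := m3.add m4
  have m7 : Measurable fun u => x * f1 u + y * g1 u + (x * f2 u + y * g2 u) := m5.add m6
  rw [lintegral_const_mul _ m7, lintegral_add_left m5, lintegral_add_left m1,
    lintegral_add_left m3, lintegral_const_mul _ h1, lintegral_const_mul _ h2,
    lintegral_const_mul _ h3, lintegral_const_mul _ h4]

/-- one block of `u` -/
theorem VCR_blk (A : ℝ) (C C' : ℝ≥0) (hW : VCR_W A C) (hC : VCR_AC A C')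
    (a d lam w : ℝ) (Θ Θ1 Θ2 : ℝ → ℝ) (b b' c c' h κ : ℝ → ℂ)
    (X1 : VCR_X A a d lam w 1 Θ Θ1 Θ2 b b' h) (X2 : VCR_X A a d lam w (-1) Θ Θ1 Θ2 c c' h)
    (hκ : ∀ x ∈ Icc a (a + d), κ x = Real.sqrt lam * (e1 (Θ x) * b x + e1 (-Θ x) * c x))
    (K : ℝ≥0) (hK : K = 2 * (C' * C ^ 2 + Real.toNNReal (2 * Real.pi) ^ 2 * C' * C ^ 2)) (p : ℤ) :
    ∫⁻ u in Icc (p * w) (p * w + w), (⨆ (V1 : ℝ) (V2 : ℝ), ‖FS κ a d h u V1 V2‖ₑ) ^ 2 ≤
      ENNReal.ofReal lam * (1296 * C ^ 2 + 64 * ENNReal.ofReal A ^ 2 * K) *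
        ((∫⁻ u in Icc (p * w) (p * w + w), VCR_Q a d w Θ1 h 1 u) +
          ∫⁻ u in Icc (p * w) (p * w + w), VCR_Q a d w Θ1 h (-1) u) := by
  have hw := X1.hw
  have hd := X1.hd
  have hwd := X1.hwd
  have hA := X1.hA
  have hl := X1.hl
  have ht := (VCR_thc A lam d Θ Θ1 Θ2 X1.hP).1
  have ht1 := (VCR_thc A lam d Θ Θ1 Θ2 X1.hP).2
  obtain ⟨i0, N, hF⟩ := VCR_exF a d w hw hwd p
  have hN : (N : ℝ) * w ≤ 2 * d := by
    obtain ⟨f1, f2, f3, f4⟩ := hF
    nlinarith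
  set U := Icc (p * w) (p * w + w) with hU
  have hmQ : ∀ s, Measurable (VCR_Q a d w Θ1 h s) := fun s => VCR_Qm a d w s Θ1 h X1.hh ht1
  have hmZ : ∀ s, Measurable (VCR_Z Θ h s w i0 N) := by
    intro s
    unfold VCR_Z
    refine Measurable.iSup fun j => Measurable.iSup fun _ => ?_
    apply Continuous.measurable
    apply Continuous.enorm
    exact continuous_finsetSum _ fun k _ => VCR_Ic Θ h s w _ ht X1.hh
  have hpt : ∀ u ∈ U, (⨆ (V1 : ℝ) (V2 : ℝ), ‖FS κ a d h u V1 V2‖ₑ) ^ 2 ≤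
      ENNReal.ofReal lam * (1296 * C ^ 2 * VCR_Q a d w Θ1 h 1 u +
        64 * ENNReal.ofReal A ^ 2 * VCR_Z Θ h 1 w i0 N u ^ 2 +
        (1296 * C ^ 2 * VCR_Q a d w Θ1 h (-1) u +
        64 * ENNReal.ofReal A ^ 2 * VCR_Z Θ h (-1) w i0 N u ^ 2)) := by
    intro u hu
    have hu1 : p * w ≤ u := hu.1
    have hu2 : u ≤ (p + 1) * w := by linarith [hu.2]
    set G : ℝ → ℝ≥0∞ := fun s => 9 * (C * VCR_Q a d w Θ1 h s u ^ (1 / 2 : ℝ)) +
        2 * ENNReal.ofReal A * VCR_Z Θ h s w i0 N u with hG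
    have hsup : (⨆ (V1 : ℝ) (V2 : ℝ), ‖FS κ a d h u V1 V2‖ₑ) ≤
        ENNReal.ofReal (Real.sqrt lam) * (2 * (G 1 + G (-1))) :=
      iSup₂_le fun V1 V2 => VCR_FS A a d lam w Θ Θ1 Θ2 b b' c c' h κ X1 X2 hκ u V1 V2 (G 1)
        (G (-1)) (fun W h1 h2 => VCR_pt1 C hW X1 p i0 N hF u hu1 hu2 W h1 h2)
        (fun W h1 h2 => VCR_pt1 C hW X2 p i0 N hF u hu1 hu2 W h1 h2)
    have hG2 : ∀ s, G s ^ 2 ≤ 162 * C ^ 2 * VCR_Q a d w Θ1 h s u +
        8 * ENNReal.ofReal A ^ 2 * VCR_Z Θ h s w i0 N u ^ 2 := by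
      intro s
      refine (VCR_two _ _).trans (le_of_eq ?_)
      rw [mul_pow, mul_pow, VCR_sq]
      ring
    calc (⨆ (V1 : ℝ) (V2 : ℝ), ‖FS κ a d h u V1 V2‖ₑ) ^ 2
        ≤ (ENNReal.ofReal (Real.sqrt lam) * (2 * (G 1 + G (-1)))) ^ 2 := by gcongr
      _ = ENNReal.ofReal (Real.sqrt lam) ^ 2 * (4 * (G 1 + G (-1)) ^ 2) := by ring
      _ = ENNReal.ofReal lam * (4 * (G 1 + G (-1)) ^ 2) := by
          rw [← ENNReal.ofReal_pow (Real.sqrt_nonneg _), Real.sq_sqrt hl.le]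
      _ ≤ ENNReal.ofReal lam * (4 * (2 * (162 * C ^ 2 * VCR_Q a d w Θ1 h 1 u +
        8 * ENNReal.ofReal A ^ 2 * VCR_Z Θ h 1 w i0 N u ^ 2) +
          2 * (162 * C ^ 2 * VCR_Q a d w Θ1 h (-1) u +
        8 * ENNReal.ofReal A ^ 2 * VCR_Z Θ h (-1) w i0 N u ^ 2))) := by
          gcongr
          refine (VCR_two _ _).trans ?_
          gcongr
          · exact hG2 1
          · exact hG2 (-1)
      _ = _ := by ring
  have hZ : ∀ s, (s = 1 ∨ s = -1) → ∫⁻ u in U, VCR_Z Θ h s w i0 N u ^ 2 ≤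
      K * ∫⁻ u in U, VCR_Q a d w Θ1 h s u := by
    intro s hs
    refine (VCR_Zb A C C' hW hC lam d Θ Θ1 Θ2 X1.hP hl hd hA h s w i0 N hs hw (by linarith)
      X1.hwl X1.hwA hN X1.hh (p * w)).trans ?_
    have h1 : (2 * (((C' * C ^ 2 : ℝ≥0) : ℝ≥0∞) +
        ((Real.toNNReal (2 * Real.pi) ^ 2 * C' * C ^ 2 : ℝ≥0) : ℝ≥0∞))) = (K : ℝ≥0∞) := by
      rw [hK]; push_cast; rfl
    rw [h1]
    gcongr 1
    refine setLIntegral_mono' measurableSet_Icc fun u hu => ?_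
    exact VCR_qQ a d w s Θ1 h hw hwd p i0 N hF u hu.1 (by linarith [hu.2])
  have hl' : ENNReal.ofReal lam ≠ ⊤ := ENNReal.ofReal_ne_top
  calc ∫⁻ u in U, (⨆ (V1 : ℝ) (V2 : ℝ), ‖FS κ a d h u V1 V2‖ₑ) ^ 2
      ≤ ∫⁻ u in U, ENNReal.ofReal lam * (1296 * C ^ 2 * VCR_Q a d w Θ1 h 1 u +
        64 * ENNReal.ofReal A ^ 2 * VCR_Z Θ h 1 w i0 N u ^ 2 +
        (1296 * C ^ 2 * VCR_Q a d w Θ1 h (-1) u +
        64 * ENNReal.ofReal A ^ 2 * VCR_Z Θ h (-1) w i0 N u ^ 2)) :=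
        setLIntegral_mono' measurableSet_Icc hpt
    _ = ENNReal.ofReal lam * ((1296 * C ^ 2 * (∫⁻ u in U, VCR_Q a d w Θ1 h 1 u) +
        64 * ENNReal.ofReal A ^ 2 * (∫⁻ u in U, VCR_Z Θ h 1 w i0 N u ^ 2)) +
        (1296 * C ^ 2 * (∫⁻ u in U, VCR_Q a d w Θ1 h (-1) u) +
        64 * ENNReal.ofReal A ^ 2 * ∫⁻ u in U, VCR_Z Θ h (-1) w i0 N u ^ 2)) := by
        exact VCR_lin U _ _ _ _ _ _ _ (hmQ 1) ((hmZ 1).pow_const 2) (hmQ (-1))
          ((hmZ (-1)).pow_const 2)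
    _ ≤ ENNReal.ofReal lam * ((1296 * C ^ 2 * (∫⁻ u in U, VCR_Q a d w Θ1 h 1 u) +
        64 * ENNReal.ofReal A ^ 2 * (K * ∫⁻ u in U, VCR_Q a d w Θ1 h 1 u)) +
        (1296 * C ^ 2 * (∫⁻ u in U, VCR_Q a d w Θ1 h (-1) u) +
        64 * ENNReal.ofReal A ^ 2 * (K * ∫⁻ u in U, VCR_Q a d w Θ1 h (-1) u))) := by
        gcongr
        · exact hZ 1 (Or.inl rfl)
        · exact hZ (-1) (Or.inr rfl)
    _ = _ := by ring

theorem VCR_cover (w : ℝ) (hw : 0 < w) (f : ℝ → ℝ≥0∞) :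
    ∫⁻ u, f u = ∑' p : ℤ, ∫⁻ u in Icc (p * w) (p * w + w), f u := by
  have h1 : ∀ p : ℤ, Ico (0 + p • w) (0 + (p + 1) • w) = Ico (p * w) (p * w + w) := by
    intro p
    simp only [zsmul_eq_mul, zero_add]
    push_cast
    rw [add_mul, one_mul]
  have h2 := iUnion_Ico_add_zsmul hw 0
  have h3 := pairwise_disjoint_Ico_add_zsmul (0 : ℝ) w
  simp only [h1] at h2 h3
  rw [← setLIntegral_univ, ← h2, lintegral_iUnion (fun p => measurableSet_Ico) h3]
  refine tsum_congr fun p => ?_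
  rw [Measure.restrict_congr_set Ico_ae_eq_Icc]

theorem p_VCR (h1 : Pool.Agent.CRL.T_ABL) (h2 : T_WIN) (h3 : T_ACR) : T_VCR := by
  intro hcar A hA
  obtain ⟨C, hW⟩ := h2 h1 A hA
  obtain ⟨C', hAC⟩ := h3 hcar A hA
  obtain ⟨K, hK⟩ : ∃ K : ℝ≥0,
    K = 2 * (C' * C ^ 2 + Real.toNNReal (2 * Real.pi) ^ 2 * C' * C ^ 2) := ⟨_, rfl⟩
  refine ⟨2 * Real.toNNReal A * (1296 * C ^ 2 + 64 * Real.toNNReal A ^ 2 * K), ?_⟩
  intro a d lam w κ h hd hl hS hw hwd hwA hwl hh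
  obtain ⟨Θ, Θ1, Θ2, b, c, b', c', hP, hr, hbc, hb', hc'⟩ := hS
  have X1 : VCR_X A a d lam w 1 Θ Θ1 Θ2 b b' h :=
    ⟨hA, hd, hl, hw, hwd, hwl, hwA, Or.inl rfl, hP, hr, fun x hx =>
      ⟨(hbc x hx).1, (hbc x hx).2.2.1, (hbc x hx).2.2.2.2.1⟩, hb', hh⟩
  have X2 : VCR_X A a d lam w (-1) Θ Θ1 Θ2 c c' h :=
    ⟨hA, hd, hl, hw, hwd, hwl, hwA, Or.inr rfl, hP, hr, fun x hx =>
      ⟨(hbc x hx).2.1, (hbc x hx).2.2.2.1, (hbc x hx).2.2.2.2.2.1⟩, hc', hh⟩
  have hκ := fun x hx => (hbc x hx).2.2.2.2.2.2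
  set T := ∑' i : ℤ, ∫⁻ X in {X : ℝ | lam * d / A ≤ |X| ∧ |X| ≤ A * (lam * d)}, NN w h i X ^ 2
  have hQ : ∀ s, (s = 1 ∨ s = -1) → ∫⁻ u, VCR_Q a d w Θ1 h s u ≤ ENNReal.ofReal (A / lam) * T :=
    fun s hs => VCR_Qint A lam a d w s Θ Θ1 Θ2 h hA hl hd hs hP hh hr
  rw [VCR_cover w hw]
  calc ∑' p : ℤ, ∫⁻ u in Icc (p * w) (p * w + w),
        (⨆ (V1 : ℝ) (V2 : ℝ), ‖FS κ a d h u V1 V2‖ₑ) ^ 2
      ≤ ∑' p : ℤ, ENNReal.ofReal lam * (1296 * C ^ 2 + 64 * ENNReal.ofReal A ^ 2 * K) *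
        ((∫⁻ u in Icc (p * w) (p * w + w), VCR_Q a d w Θ1 h 1 u) +
          ∫⁻ u in Icc (p * w) (p * w + w), VCR_Q a d w Θ1 h (-1) u) :=
        ENNReal.tsum_le_tsum fun p => VCR_blk A C C' hW hAC a d lam w Θ Θ1 Θ2 b b' c c' h κ
          X1 X2 hκ K hK p
    _ = ENNReal.ofReal lam * (1296 * C ^ 2 + 64 * ENNReal.ofReal A ^ 2 * K) *
        ((∫⁻ u, VCR_Q a d w Θ1 h 1 u) + ∫⁻ u, VCR_Q a d w Θ1 h (-1) u) := by
        rw [ENNReal.tsum_mul_left, ENNReal.tsum_add, ← VCR_cover w hw, ← VCR_cover w hw]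
    _ ≤ ENNReal.ofReal lam * (1296 * C ^ 2 + 64 * ENNReal.ofReal A ^ 2 * K) *
        (ENNReal.ofReal (A / lam) * T + ENNReal.ofReal (A / lam) * T) := by
        gcongr
        · exact hQ 1 (Or.inl rfl)
        · exact hQ (-1) (Or.inr rfl)
    _ = 2 * (ENNReal.ofReal lam * ENNReal.ofReal (A / lam)) *
        (1296 * C ^ 2 + 64 * ENNReal.ofReal A ^ 2 * K) * T := by ring
    _ = _ := by
        rw [← ENNReal.ofReal_mul hl.le]
        have h5 : lam * (A / lam) = A := by field_simp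
        rw [h5]
        push_cast
        rfl

end Pool.Agent.CRR
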