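import Pool.Agent.CRR.Targets

set_option autoImplicit false

/-!
# CRR: inside a window (target WIN)
-/

namespace Pool.Agent.CRR

open MeasureTheory FourierTransform Set Filter Topology
open scoped ENNReal NNReal ComplexConjugate
open Pool.Agent.CAR (e1)

namespace WIN_

theorem norm_e1 (x : ℝ) : ‖e1 x‖ = 1 := by
  rw [e1, show 2 * (Real.pi : ℂ) * Complex.I * (x : ℂ) = ((2 * Real.pi * x : ℝ) : ℂ) * Complex.I by
    push_cast; ring]
  exact Complex.norm_exp_ofReal_mul_I _

theorem continuous_e1 : Continuous e1 := by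
  unfold e1
  fun_prop

theorem e1_add (x y : ℝ) : e1 (x + y) = e1 x * e1 y := by
  rw [e1, e1, e1, ← Complex.exp_add]
  congr 1
  push_cast
  ring

theorem deriv_e1 {f : ℝ → ℝ} {f' x : ℝ} (hf : HasDerivAt f f' x) :
    HasDerivAt (fun v => e1 (f v)) (2 * Real.pi * Complex.I * f' * e1 (f x)) x := by
  have h1 : HasDerivAt (fun v => 2 * (Real.pi : ℂ) * Complex.I * ((f v : ℝ) : ℂ))
      (2 * Real.pi * Complex.I * f') x := (hf.ofReal_comp).const_mul _
  have h2 := h1.cexp
  unfold e1
  convert h2 using 1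
  ring

/-- the first derivative of the phase varies by at most `A lam w` on a window -/
theorem th1 {A lam d : ℝ} {Θ Θ1 Θ2 : ℝ → ℝ} (h : Ph A lam d Θ Θ1 Θ2) (hA : 1 ≤ A)
    (hl : 0 < lam) (x y : ℝ) : |Θ1 x - Θ1 y| ≤ A * lam * |x - y| := by
  have h1 : ∀ z ∈ (univ : Set ℝ), HasDerivWithinAt Θ1 (Θ2 z) univ z :=
    fun z _ => (h.d2 z).hasDerivWithinAt
  have h2 : ∀ z ∈ (univ : Set ℝ), ‖Θ2 z‖ ≤ A * lam := by
    intro z _
    rw [Real.norm_eq_abs, abs_of_nonneg]
    · exact h.hi z
    · exact le_trans (by positivity) (h.lo z)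
  have h3 := convex_univ.norm_image_sub_le_of_norm_hasDerivWithin_le h1 h2 (mem_univ y)
    (mem_univ x)
  simpa [Real.norm_eq_abs] using h3

theorem shift {f : ℝ → ℝ} {f' u v : ℝ} (hf : HasDerivAt f f' (u + v)) :
    HasDerivAt (fun v => f (u + v)) f' v := by
  simpa using hf.comp_const_add u v

theorem shiftC {f : ℝ → ℂ} {f' : ℂ} {u v : ℝ} (hf : HasDerivAt f f' (u + v)) :
    HasDerivAt (fun v => f (u + v)) f' v := by
  simpa using hf.comp_const_add u v

end WIN_

open WIN_ in
/-- WIN. -/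
theorem p_WIN : T_WIN := by
  intro hABL A hA
  have hpi := Real.pi_pos
  set B : ℝ := 2 * Real.pi * A ^ 2 + A with hB
  have hA0 : 0 < A := by linarith
  have hB0 : 0 < B := by positivity
  refine ⟨(2 * (A + 2 * B)).toNNReal, ?_⟩
  intro lam d w Θ Θ1 Θ2 s u i V1 V2 b b' h hPh hlam hd hw hwd hwl hs hh hV1 hV12 hV2 hb hb'
  set y : ℝ := i * w with hy
  set X : ℝ := s * Θ1 (u + y) with hX
  have hC0 : 0 < 2 * (A + 2 * B) := by positivity
  by_cases hN : NN w h i X = ⊤
  · rw [hN, ENNReal.mul_top]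
    · exact le_top
    · simpa using hC0
  set N : ℝ := (NN w h i X).toReal with hNdef
  have hs1 : |s| = 1 := by
    rcases hs with rfl | rfl <;> simp
  -- the function `D`
  set D : ℝ → ℂ := fun v => h v * e1 (X * v) with hD
  have hDc : Continuous D := hh.mul (continuous_e1.comp (continuous_const.mul continuous_id))
  have hDi : ∀ a b : ℝ, IntegrableOn D (Ioc a b) := fun a b =>
    (hDc.integrableOn_Icc).mono_set Ioc_subset_Icc_self
  have hyV : y ≤ V1 := hV1
  have hpart : ∀ V : ℝ, V ≤ (i + 1) * w → ‖∫ v in Ioc y V, D v‖ ≤ N := by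
    intro V hV
    have h1 : ‖∫ v in Ioc y V, D v‖ₑ ≤ NN w h i X := by
      rw [NN]
      refine le_trans (le_of_eq ?_) (le_iSup _ V)
      rw [min_eq_left hV]
    rw [hNdef, ← toReal_enorm]
    exact ENNReal.toReal_mono hN h1
  have hM : ∀ t ∈ Icc V1 V2, ‖∫ v in Ioc V1 t, D v‖ ≤ 2 * N := by
    intro t ht
    have e : ∫ v in Ioc V1 t, D v = (∫ v in Ioc y t, D v) - ∫ v in Ioc y V1, D v := by
      rw [← Ioc_union_Ioc_eq_Ioc hyV ht.1, setIntegral_union (Ioc_disjoint_Ioc_of_le le_rfl)
        measurableSet_Ioc (hDi _ _) (hDi _ _)]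
      ring
    rw [e]
    refine (norm_sub_le _ _).trans ?_
    have h1 := hpart t (ht.2.trans hV2)
    have h2 := hpart V1 (hV12.trans hV2)
    linarith
  -- the function `U`
  set Ef : ℝ → ℝ := fun v => Θ (u + v) - Θ (u + y) - (v - y) * Θ1 (u + y) with hEf
  set E' : ℝ → ℝ := fun v => Θ1 (u + v) - Θ1 (u + y) with hE'
  set U : ℝ → ℂ := fun v => e1 (s * Ef v) * b (u + v) with hU
  set U' : ℝ → ℂ := fun v => 2 * Real.pi * Complex.I * ((s * E' v : ℝ) : ℂ) * e1 (s * Ef v) *
    b (u + v) + e1 (s * Ef v) * b' (u + v) with hU'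
  have hEd : ∀ v, HasDerivAt Ef (E' v) v := by
    intro v
    have h1 := shift (hPh.d1 (u + v))
    have h2 : HasDerivAt (fun v => (v - y) * Θ1 (u + y)) (1 * Θ1 (u + y)) v :=
      ((hasDerivAt_id v).sub_const y).mul_const _
    have h3 := (h1.sub_const (Θ (u + y))).sub h2
    rw [one_mul] at h3
    exact h3
  have hmem : ∀ v ∈ Icc V1 V2, u + v ∈ Icc (u + V1) (u + V2) := fun v hv =>
    ⟨by linarith [hv.1], by linarith [hv.2]⟩
  have hUd : ∀ v ∈ Icc V1 V2, HasDerivAt U (U' v) v := by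
    intro v hv
    have h1 := deriv_e1 ((hEd v).const_mul s)
    have h2 := shiftC (hb _ (hmem v hv)).1
    exact h1.mul h2
  have hEc : Continuous Ef := continuous_iff_continuousAt.2 fun v => (hEd v).continuousAt
  have hΘ1c : Continuous Θ1 := continuous_iff_continuousAt.2 fun v => (hPh.d2 v).continuousAt
  have hE'c : Continuous E' := by
    rw [hE']
    fun_prop
  have hbc : ContinuousOn (fun v => b (u + v)) (Icc V1 V2) := fun v hv =>
    (shiftC (hb _ (hmem v hv)).1).continuousAt.continuousWithinAt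
  have hb'c : ContinuousOn (fun v => b' (u + v)) (Icc V1 V2) :=
    hb'.comp (continuous_const.add continuous_id).continuousOn hmem
  have hee : Continuous fun v => e1 (s * Ef v) :=
    continuous_e1.comp (continuous_const.mul hEc)
  have hU'c : ContinuousOn U' (Icc V1 V2) := by
    have h1 : Continuous fun v => 2 * Real.pi * Complex.I * ((s * E' v : ℝ) : ℂ) * e1 (s * Ef v) :=
      (continuous_const.mul (Complex.continuous_ofReal.comp (continuous_const.mul hE'c))).mul hee
    exact (h1.continuousOn.mul hbc).add (hee.continuousOn.mul hb'c)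
  -- bound for `U'`
  have hU'b : ∀ v ∈ Icc V1 V2, ‖U' v‖ ≤ 2 * Real.pi * (A * lam * w) * A + A / w := by
    intro v hv
    have h1 : ‖U' v‖ ≤ 2 * Real.pi * |E' v| * ‖b (u + v)‖ + ‖b' (u + v)‖ := by
      rw [hU']
      refine (norm_add_le _ _).trans (le_of_eq ?_)
      simp only [norm_mul, norm_e1, Complex.norm_I, Complex.norm_real, Real.norm_eq_abs, hs1,
        abs_mul]
      rw [abs_of_pos hpi]
      simp
    have h2 : |E' v| ≤ A * lam * w := by
      have h3 := th1 hPh hA hlam (u + v) (u + y)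
      refine h3.trans ?_
      have h4 : |u + v - (u + y)| ≤ w := by
        rw [abs_of_nonneg (by linarith [hv.1])]
        have := hv.2
        linarith
      exact mul_le_mul_of_nonneg_left h4 (by positivity)
    obtain ⟨-, h5, h6⟩ := hb _ (hmem v hv)
    refine h1.trans (add_le_add ?_ h6)
    exact mul_le_mul (mul_le_mul_of_nonneg_left h2 (by positivity)) h5 (norm_nonneg _)
      (by positivity)
  have hUB : (∫ v in Ioc V1 V2, ‖U' v‖) ≤ B := by
    have h1 : ‖∫ v in Ioc V1 V2, ‖U' v‖‖ ≤ (2 * Real.pi * (A * lam * w) * A + A / w) *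
        volume.real (Ioc V1 V2) := by
      apply norm_setIntegral_le_of_norm_le_const
      · rw [Real.volume_Ioc]
        exact ENNReal.ofReal_lt_top
      · intro v hv
        rw [norm_norm]
        exact hU'b v (Ioc_subset_Icc_self hv)
    rw [Real.volume_real_Ioc_of_le hV12] at h1
    refine (le_abs_self _).trans (h1.trans ?_)
    have h2 : V2 - V1 ≤ w := by
      have : (i + 1) * w = y + w := by rw [hy]; ring
      linarith
    calc (2 * Real.pi * (A * lam * w) * A + A / w) * (V2 - V1)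
        ≤ (2 * Real.pi * (A * lam * w) * A + A / w) * w :=
          mul_le_mul_of_nonneg_left h2 (by positivity)
      _ = 2 * Real.pi * A ^ 2 * (w ^ 2 * lam) + A := by
          field_simp
      _ ≤ B := by
          rw [hB]
          have : 2 * Real.pi * A ^ 2 * (w ^ 2 * lam) ≤ 2 * Real.pi * A ^ 2 * 1 :=
            mul_le_mul_of_nonneg_left hwl (by positivity)
          linarith
  have key := hABL D U U' V1 V2 (2 * N) B hV12 (hDi _ _) hUd hU'c hM hUB
  have hUa : ‖U V1‖ ≤ A := by
    rw [hU]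
    simp only [norm_mul, norm_e1, one_mul]
    exact (hb _ (hmem V1 ⟨le_rfl, hV12⟩)).2.1
  have hN0 : 0 ≤ N := ENNReal.toReal_nonneg
  have e : ∫ v in Ioc V1 V2, e1 (s * Θ (u + v)) * b (u + v) * h v =
      e1 (s * (Θ (u + y) - y * Θ1 (u + y))) * ∫ v in Ioc V1 V2, D v * U v := by
    rw [← integral_const_mul]
    refine setIntegral_congr_fun measurableSet_Ioc fun v _ => ?_
    have h1 : e1 (s * Θ (u + v)) = e1 (s * (Θ (u + y) - y * Θ1 (u + y))) * e1 (X * v) *
        e1 (s * Ef v) := by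
      rw [← e1_add, ← e1_add]
      congr 1
      rw [hX, hEf]
      ring
    simp only [hD, hU]
    rw [h1]
    ring
  have hfin : ‖∫ v in Ioc V1 V2, e1 (s * Θ (u + v)) * b (u + v) * h v‖ ≤
      2 * (A + 2 * B) * N := by
    rw [e, norm_mul, norm_e1, one_mul]
    refine key.trans ?_
    calc 2 * N * (‖U V1‖ + 2 * B) ≤ 2 * N * (A + 2 * B) :=
          mul_le_mul_of_nonneg_left (by linarith) (by linarith)
      _ = 2 * (A + 2 * B) * N := by ring
  rw [← ofReal_norm]
  refine (ENNReal.ofReal_le_ofReal hfin).trans (le_of_eq ?_)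
  rw [ENNReal.ofReal_mul hC0.le, hNdef, ENNReal.ofReal_toReal hN]
  rfl

end Pool.Agent.CRR
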