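import Pool.Agent.CRR.Targets

set_option autoImplicit false

/-!
# WKB: the Liouville-Green representation of the solutions of Bessel's equation
-/

namespace Pool.Agent.CRR

open MeasureTheory FourierTransform Set Filter Topology
open scoped ENNReal NNReal ComplexConjugate
open Pool.Agent.CAR (e1)

namespace WKB_

theorem norm_e1 (x : ℝ) : ‖e1 x‖ = 1 := by
  unfold e1
  rw [show 2 * (Real.pi : ℂ) * Complex.I * (x : ℂ) = ((2 * Real.pi * x : ℝ) : ℂ) * Complex.I by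
    push_cast; ring]
  exact Complex.norm_exp_ofReal_mul_I _

theorem e1_neg_mul (x : ℝ) : e1 (-x) * e1 x = 1 := by
  unfold e1
  rw [← Complex.exp_add]
  push_cast
  rw [show 2 * (Real.pi : ℂ) * Complex.I * (-(x : ℂ)) + 2 * (Real.pi : ℂ) * Complex.I * (x : ℂ) = 0
    by ring, Complex.exp_zero]

theorem cont_e1 : Continuous e1 := by unfold e1; fun_prop

theorem d_e1 (x : ℝ) : HasDerivAt e1 (2 * Real.pi * Complex.I * e1 x) x := by
  have h1 : HasDerivAt (fun x : ℝ => 2 * (Real.pi : ℂ) * Complex.I * (x : ℂ))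
      (2 * Real.pi * Complex.I * 1) x :=
    (Complex.ofRealCLM.hasDerivAt (x := x)).const_mul _
  have h2 : HasDerivAt e1 _ x := h1.cexp
  refine h2.congr_deriv ?_
  unfold e1
  ring

/-- `P^{1/4}` -/
noncomputable def q (ν x : ℝ) : ℝ := Real.sqrt (Real.sqrt (PP ν x))

theorem q_pos {ν x : ℝ} (h : 0 < PP ν x) : 0 < q ν x := Real.sqrt_pos.2 (Real.sqrt_pos.2 h)

theorem q_sq {ν x : ℝ} : q ν x ^ 2 = Real.sqrt (PP ν x) := Real.sq_sqrt (Real.sqrt_nonneg _)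

theorem q_four {ν x : ℝ} (h : 0 < PP ν x) : q ν x ^ 4 = PP ν x := by
  rw [show q ν x ^ 4 = (q ν x ^ 2) ^ 2 by ring, q_sq, Real.sq_sqrt h.le]

theorem d_PP (ν x : ℝ) : HasDerivAt (PP ν) (2 * Real.exp (2 * x)) x := by
  have h1 : HasDerivAt (fun x : ℝ => 2 * x) (2 * 1) x := (hasDerivAt_id x).const_mul 2
  have h2 : HasDerivAt (PP ν) _ x := h1.exp.sub_const (ν ^ 2)
  exact h2.congr_deriv (by ring)

theorem cont_PP (ν : ℝ) : Continuous (PP ν) := by unfold PP; fun_prop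

theorem cont_q (ν : ℝ) : Continuous (q ν) := by
  unfold q
  exact Real.continuous_sqrt.comp (Real.continuous_sqrt.comp (cont_PP ν))

theorem d_q {ν x : ℝ} (h : 0 < PP ν x) :
    HasDerivAt (q ν) (Real.exp (2 * x) / (2 * q ν x ^ 3)) x := by
  have h2 := (d_PP ν x).sqrt h.ne'
  have h3 : HasDerivAt (q ν) _ x := h2.sqrt (Real.sqrt_pos.2 h).ne'
  have hq := q_pos h
  refine h3.congr_deriv ?_
  rw [← q_sq, show Real.sqrt (q ν x ^ 2) = q ν x from Real.sqrt_sq hq.le]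
  field_simp

/-- `P' / (4 P^{3/2})` -/
noncomputable def kk (ν x : ℝ) : ℝ := Real.exp (2 * x) / (2 * q ν x ^ 6)

theorem d_exp (x : ℝ) : HasDerivAt (fun x : ℝ => Real.exp (2 * x)) (2 * Real.exp (2 * x)) x := by
  have h1 : HasDerivAt (fun x : ℝ => 2 * x) (2 * 1) x := (hasDerivAt_id x).const_mul 2
  exact h1.exp.congr_deriv (by ring)

theorem d_kk {ν x : ℝ} (h : 0 < PP ν x) : HasDerivAt (kk ν)
    (Real.exp (2 * x) / q ν x ^ 6 - 3 / 2 * Real.exp (2 * x) ^ 2 / q ν x ^ 10) x := by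
  have hq := q_pos h
  have h0 : 2 * q ν x ^ 6 ≠ 0 := by positivity
  have h1 : HasDerivAt (kk ν) _ x := (d_exp x).div (((d_q h).pow 6).const_mul 2) h0
  refine h1.congr_deriv ?_
  field_simp
  ring

/-- `P^{1/4} J` -/
noncomputable def YY (ν : ℝ) (J : ℝ → ℝ) (x : ℝ) : ℝ := q ν x * J x

/-- `Y' / √P` -/
noncomputable def Y1 (ν : ℝ) (J J' : ℝ → ℝ) (x : ℝ) : ℝ := J' x / q ν x + kk ν x * (q ν x * J x)

/-- the error -/
noncomputable def psi (ν x : ℝ) : ℝ :=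
  5 / 4 * Real.exp (2 * x) ^ 2 / q ν x ^ 10 - Real.exp (2 * x) / q ν x ^ 6

theorem d_YY {ν x : ℝ} {J J' : ℝ → ℝ} (h : 0 < PP ν x) (hJ : HasDerivAt J (J' x) x) :
    HasDerivAt (YY ν J) (q ν x ^ 2 * Y1 ν J J' x) x := by
  have hq := q_pos h
  have h1 : HasDerivAt (YY ν J) _ x := (d_q h).mul hJ
  refine h1.congr_deriv ?_
  unfold Y1 kk
  field_simp
  ring

theorem d_Y1 {ν x : ℝ} {J J' : ℝ → ℝ} (h : 0 < PP ν x) (hJ : HasDerivAt J (J' x) x)
    (hJ' : HasDerivAt J' (-(PP ν x) * J x) x) :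
    HasDerivAt (Y1 ν J J') (-(q ν x ^ 2 * YY ν J x) - psi ν x * YY ν J x) x := by
  have hq := q_pos h
  have h1 : HasDerivAt (Y1 ν J J') _ x :=
    (hJ'.div (d_q h) hq.ne').add ((d_kk h).mul ((d_q h).mul hJ))
  refine h1.congr_deriv ?_
  change (-(PP ν x) * J x * q ν x - J' x * (Real.exp (2 * x) / (2 * q ν x ^ 3))) / q ν x ^ 2 +
      ((Real.exp (2 * x) / q ν x ^ 6 - 3 / 2 * Real.exp (2 * x) ^ 2 / q ν x ^ 10) *
        (q ν x * J x) +
        kk ν x * (Real.exp (2 * x) / (2 * q ν x ^ 3) * J x + q ν x * J' x)) = _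
  rw [← q_four h]
  unfold YY psi kk
  field_simp
  ring

theorem kk_le {ν x : ℝ} (h : 100 * Real.exp (4 * x / 3) ≤ PP ν x) : kk ν x ≤ 1 / 2000 := by
  have hP : 0 < PP ν x := lt_of_lt_of_le (by positivity) h
  have hq := q_pos hP
  have h1 : Real.exp (4 * x / 3) = Real.exp (2 * x / 3) ^ 2 := by
    rw [← Real.exp_nat_mul]; congr 1; push_cast; ring
  have h2 : Real.exp (2 * x) = Real.exp (2 * x / 3) ^ 3 := by
    rw [← Real.exp_nat_mul]; congr 1; push_cast; ring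
  have ha : 0 < Real.exp (2 * x / 3) := Real.exp_pos _
  rw [h1, ← q_four hP] at h
  have h3 : 10 * Real.exp (2 * x / 3) ≤ q ν x ^ 2 := by
    refine le_of_sq_le_sq ?_ (by positivity)
    calc (10 * Real.exp (2 * x / 3)) ^ 2 = 100 * Real.exp (2 * x / 3) ^ 2 := by ring
      _ ≤ q ν x ^ 4 := h
      _ = (q ν x ^ 2) ^ 2 := by ring
  have h4 : 1000 * Real.exp (2 * x) ≤ q ν x ^ 6 := by
    calc 1000 * Real.exp (2 * x) = (10 * Real.exp (2 * x / 3)) ^ 3 := by rw [h2]; ring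
      _ ≤ (q ν x ^ 2) ^ 3 := pow_le_pow_left₀ (by positivity) h3 3
      _ = q ν x ^ 6 := by ring
  unfold kk
  rw [div_le_iff₀ (by positivity)]
  linarith

theorem kk_nonneg (ν x : ℝ) : 0 ≤ kk ν x := by
  unfold kk q
  positivity

theorem psi_le {ν x : ℝ} (h : 0 < PP ν x) :
    |psi ν x| ≤ 9 / 4 * (Real.exp (2 * x) ^ 2 / q ν x ^ 10) := by
  have hq := q_pos h
  have h1 : q ν x ^ 4 ≤ Real.exp (2 * x) := by
    rw [q_four h]; unfold PP; nlinarith [sq_nonneg ν]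
  have h2 : Real.exp (2 * x) / q ν x ^ 6 ≤ Real.exp (2 * x) ^ 2 / q ν x ^ 10 := by
    rw [div_le_div_iff₀ (by positivity) (by positivity)]
    have h3 : 0 ≤ Real.exp (2 * x) * q ν x ^ 6 := by positivity
    calc Real.exp (2 * x) * q ν x ^ 10 = Real.exp (2 * x) * q ν x ^ 6 * q ν x ^ 4 := by ring
      _ ≤ Real.exp (2 * x) * q ν x ^ 6 * Real.exp (2 * x) := mul_le_mul_of_nonneg_left h1 h3
      _ = Real.exp (2 * x) ^ 2 * q ν x ^ 6 := by ring
  have h4 : 0 ≤ Real.exp (2 * x) / q ν x ^ 6 := by positivity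
  have h5 : 0 ≤ Real.exp (2 * x) ^ 2 / q ν x ^ 10 := by positivity
  unfold psi
  rw [mul_div_assoc, abs_le]
  constructor <;> linarith

theorem rp1 {ν x : ℝ} (h : 0 < PP ν x) : PP ν x ^ (-(1 / 4) : ℝ) = (q ν x)⁻¹ := by
  have hq := q_pos h
  rw [← q_four h, ← Real.rpow_natCast (q ν x) 4, ← Real.rpow_mul hq.le, ← Real.rpow_neg_one]
  norm_num

theorem rp2 {ν x : ℝ} (h : 0 < PP ν x) : PP ν x ^ (-(5 / 2) : ℝ) = (q ν x ^ 10)⁻¹ := by
  have hq := q_pos h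
  rw [← q_four h, ← Real.rpow_natCast (q ν x) 4, ← Real.rpow_mul hq.le,
    ← Real.rpow_natCast (q ν x) 10, ← Real.rpow_neg hq.le]
  norm_num

theorem abs_le_of_sq {a : ℝ} (h : a ^ 2 ≤ 2) : |a| ≤ 3 / 2 := by
  rw [abs_le]
  constructor <;> nlinarith

theorem d_B1 {ν x : ℝ} {J J' Θ : ℝ → ℝ} (h : 0 < PP ν x) (hJ : HasDerivAt J (J' x) x)
    (hJ' : HasDerivAt J' (-(PP ν x) * J x) x)
    (hΘ : HasDerivAt Θ (Real.sqrt (PP ν x) / (2 * Real.pi)) x) :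
    HasDerivAt (fun x => 1 / 2 * (e1 (-Θ x) * ((YY ν J x : ℂ) - Complex.I * (Y1 ν J J' x : ℂ))))
      (Complex.I / 2 * (e1 (-Θ x) * ((psi ν x * YY ν J x : ℝ) : ℂ))) x := by
  have he : HasDerivAt (fun x => e1 (-Θ x))
      (((-(Real.sqrt (PP ν x) / (2 * Real.pi)) : ℝ)) • (2 * Real.pi * Complex.I * e1 (-Θ x))) x :=
    HasDerivAt.scomp x (h := fun x => -Θ x) (d_e1 (-Θ x)) hΘ.neg
  have h1 := (d_YY h hJ).ofReal_comp
  have h2 := (d_Y1 h hJ hJ').ofReal_comp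
  have h3 : HasDerivAt
      (fun x => 1 / 2 * (e1 (-Θ x) * ((YY ν J x : ℂ) - Complex.I * (Y1 ν J J' x : ℂ)))) _ x :=
    (he.mul (h1.sub (h2.const_mul Complex.I))).const_mul (1 / 2)
  refine h3.congr_deriv ?_
  change 1 / 2 * ((((-(Real.sqrt (PP ν x) / (2 * Real.pi)) : ℝ)) •
      (2 * Real.pi * Complex.I * e1 (-Θ x))) * ((YY ν J x : ℂ) - Complex.I * (Y1 ν J J' x : ℂ)) +
      e1 (-Θ x) * (((q ν x ^ 2 * Y1 ν J J' x : ℝ) : ℂ) -
        Complex.I * ((-(q ν x ^ 2 * YY ν J x) - psi ν x * YY ν J x : ℝ) : ℂ))) = _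
  have hpi : (Real.pi : ℂ) ≠ 0 := by exact_mod_cast Real.pi_ne_zero
  have h4 : ((-(Real.sqrt (PP ν x) / (2 * Real.pi)) : ℝ)) • (2 * Real.pi * Complex.I * e1 (-Θ x)) =
      -(Complex.I * (q ν x : ℂ) ^ 2 * e1 (-Θ x)) := by
    rw [← q_sq, Complex.real_smul]
    push_cast
    field_simp
  rw [h4]
  push_cast
  linear_combination ((1 / 2) * e1 (-Θ x) * (q ν x : ℂ) ^ 2 * (Y1 ν J J' x : ℂ)) * Complex.I_sq

theorem d_B2 {ν x : ℝ} {J J' Θ : ℝ → ℝ} (h : 0 < PP ν x) (hJ : HasDerivAt J (J' x) x)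
    (hJ' : HasDerivAt J' (-(PP ν x) * J x) x)
    (hΘ : HasDerivAt Θ (Real.sqrt (PP ν x) / (2 * Real.pi)) x) :
    HasDerivAt (fun x => 1 / 2 * (e1 (Θ x) * ((YY ν J x : ℂ) + Complex.I * (Y1 ν J J' x : ℂ))))
      (-(Complex.I / 2 * (e1 (Θ x) * ((psi ν x * YY ν J x : ℝ) : ℂ)))) x := by
  have he : HasDerivAt (fun x => e1 (Θ x))
      (((Real.sqrt (PP ν x) / (2 * Real.pi) : ℝ)) • (2 * Real.pi * Complex.I * e1 (Θ x))) x :=
    HasDerivAt.scomp x (d_e1 (Θ x)) hΘ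
  have h1 := (d_YY h hJ).ofReal_comp
  have h2 := (d_Y1 h hJ hJ').ofReal_comp
  have h3 : HasDerivAt
      (fun x => 1 / 2 * (e1 (Θ x) * ((YY ν J x : ℂ) + Complex.I * (Y1 ν J J' x : ℂ)))) _ x :=
    (he.mul (h1.add (h2.const_mul Complex.I))).const_mul (1 / 2)
  refine h3.congr_deriv ?_
  change 1 / 2 * ((((Real.sqrt (PP ν x) / (2 * Real.pi) : ℝ)) •
      (2 * Real.pi * Complex.I * e1 (Θ x))) * ((YY ν J x : ℂ) + Complex.I * (Y1 ν J J' x : ℂ)) +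
      e1 (Θ x) * (((q ν x ^ 2 * Y1 ν J J' x : ℝ) : ℂ) +
        Complex.I * ((-(q ν x ^ 2 * YY ν J x) - psi ν x * YY ν J x : ℝ) : ℂ))) = _
  have hpi : (Real.pi : ℂ) ≠ 0 := by exact_mod_cast Real.pi_ne_zero
  have h4 : ((Real.sqrt (PP ν x) / (2 * Real.pi) : ℝ)) • (2 * Real.pi * Complex.I * e1 (Θ x)) =
      Complex.I * (q ν x : ℂ) ^ 2 * e1 (Θ x) := by
    rw [← q_sq, Complex.real_smul]
    push_cast
    field_simp
  rw [h4]
  push_cast
  linear_combination ((1 / 2) * e1 (Θ x) * (q ν x : ℂ) ^ 2 * (Y1 ν J J' x : ℂ)) * Complex.I_sq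

end WKB_

open WKB_ in
/-- WKB. -/
theorem p_WKB (h1 : T_SEQ) (h2 : T_ENR) : T_WKB := by
  refine ⟨3, by norm_num, fun ν J J' hν hN => ?_⟩
  have hsol := hN.sol
  have hP : ∀ x, xc ν ≤ x → 0 < PP ν x := fun x hx =>
    lt_of_lt_of_le (by positivity) ((h1 ν hν).1 x hx).1
  set Θ : ℝ → ℝ := fun x => ∫ t in (xc ν)..x, Real.sqrt (PP ν t) / (2 * Real.pi) with hΘ
  have hcont : Continuous fun t => Real.sqrt (PP ν t) / (2 * Real.pi) :=
    (Real.continuous_sqrt.comp (cont_PP ν)).div_const _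
  have dΘ : ∀ x, HasDerivAt Θ (Real.sqrt (PP ν x) / (2 * Real.pi)) x := fun x =>
    (hcont.integral_hasStrictDerivAt (xc ν) x).hasDerivAt
  have cΘ : Continuous Θ := continuous_iff_continuousAt.2 fun x => (dΘ x).continuousAt
  have cJ : Continuous J := continuous_iff_continuousAt.2 fun x => (hsol.d1 x).continuousAt
  have cpsi : ContinuousOn (fun x => psi ν x * YY ν J x) (Ici (xc ν)) := by
    unfold psi YY
    have hq0 : ∀ x ∈ Ici (xc ν), q ν x ≠ 0 := fun x hx => (q_pos (hP x hx)).ne'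
    have c1 : Continuous fun x : ℝ => Real.exp (2 * x) := by fun_prop
    refine ContinuousOn.mul (ContinuousOn.sub ?_ ?_) ((cont_q ν).mul cJ).continuousOn
    · exact ((c1.pow 2).const_mul _ |>.continuousOn).div ((cont_q ν).pow 10).continuousOn
        fun x hx => pow_ne_zero _ (hq0 x hx)
    · exact c1.continuousOn.div ((cont_q ν).pow 6).continuousOn
        fun x hx => pow_ne_zero _ (hq0 x hx)
  refine ⟨Θ, fun x => 1 / 2 * (e1 (-Θ x) * ((YY ν J x : ℂ) - Complex.I * (Y1 ν J J' x : ℂ))),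
    fun x => 1 / 2 * (e1 (Θ x) * ((YY ν J x : ℂ) + Complex.I * (Y1 ν J J' x : ℂ))),
    fun x => Complex.I / 2 * (e1 (-Θ x) * ((psi ν x * YY ν J x : ℝ) : ℂ)),
    fun x => -(Complex.I / 2 * (e1 (Θ x) * ((psi ν x * YY ν J x : ℝ) : ℂ))), ?_, ?_, ?_⟩
  · exact continuousOn_const.mul (((cont_e1.comp cΘ.neg).continuousOn).mul
      (Complex.continuous_ofReal.comp_continuousOn cpsi))
  · exact (continuousOn_const.mul (((cont_e1.comp cΘ).continuousOn).mul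
      (Complex.continuous_ofReal.comp_continuousOn cpsi))).neg
  intro x hx
  have hPx := hP x hx
  have hq := q_pos hPx
  have hE : E2 ν J J' x ≤ 2 := by
    have h3 := h2 ν J J' x (xc ν) hν hsol hx le_rfl
    rw [hN.nrm] at h3
    linarith
  unfold E2 at hE
  rw [← q_sq] at hE
  have hY : |YY ν J x| ≤ 3 / 2 := by
    apply abs_le_of_sq
    have h3 : 0 ≤ J' x ^ 2 / q ν x ^ 2 := by positivity
    unfold YY
    calc (q ν x * J x) ^ 2 = q ν x ^ 2 * J x ^ 2 := by ring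
      _ ≤ 2 := by linarith
  have hJq : |J' x / q ν x| ≤ 3 / 2 := by
    apply abs_le_of_sq
    have h3 : 0 ≤ q ν x ^ 2 * J x ^ 2 := by positivity
    rw [div_pow]
    linarith
  have hk := kk_le ((h1 ν hν).1 x hx).1
  have hk0 := kk_nonneg ν x
  have hY1 : |Y1 ν J J' x| ≤ 2 := by
    have h3 : |kk ν x * YY ν J x| ≤ 1 / 2000 * (3 / 2) := by
      rw [abs_mul, abs_of_nonneg hk0]
      exact mul_le_mul hk hY (abs_nonneg _) (by norm_num)
    calc |Y1 ν J J' x| ≤ |J' x / q ν x| + |kk ν x * YY ν J x| := abs_add_le _ _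
      _ ≤ 2 := by linarith
  have hpsi : |psi ν x * YY ν J x| ≤ 4 * (Real.exp (4 * x) * PP ν x ^ (-(5 / 2) : ℝ)) := by
    have h4 : Real.exp (4 * x) = Real.exp (2 * x) ^ 2 := by
      rw [← Real.exp_nat_mul]; congr 1; push_cast; ring
    rw [abs_mul, rp2 hPx, h4, ← div_eq_mul_inv]
    have h5 : 0 ≤ Real.exp (2 * x) ^ 2 / q ν x ^ 10 := by positivity
    calc |psi ν x| * |YY ν J x| ≤ 9 / 4 * (Real.exp (2 * x) ^ 2 / q ν x ^ 10) * (3 / 2) :=
          mul_le_mul (psi_le hPx) hY (abs_nonneg _) (by positivity)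
      _ ≤ 4 * (Real.exp (2 * x) ^ 2 / q ν x ^ 10) := by linarith
  have hX0 : 0 ≤ Real.exp (4 * x) * PP ν x ^ (-(5 / 2) : ℝ) := by positivity
  have hI : ‖Complex.I * (Y1 ν J J' x : ℂ)‖ ≤ 2 := by
    rw [norm_mul, Complex.norm_I, one_mul, Complex.norm_real]
    exact hY1
  have hYc : ‖(YY ν J x : ℂ)‖ ≤ 3 / 2 := by rw [Complex.norm_real]; exact hY
  have hD : ∀ t : ℝ, ‖Complex.I / 2 * (e1 t * ((psi ν x * YY ν J x : ℝ) : ℂ))‖ ≤
      3 * Real.exp (4 * x) * PP ν x ^ (-(5 / 2) : ℝ) := by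
    intro t
    rw [norm_mul, norm_mul, norm_div, Complex.norm_I, norm_e1, one_mul, Complex.norm_real,
      Real.norm_eq_abs, Complex.norm_ofNat]
    linarith
  refine ⟨dΘ x, d_B1 hPx (hsol.d1 x) (hsol.d2 x) (dΘ x), d_B2 hPx (hsol.d1 x) (hsol.d2 x) (dΘ x),
    ?_, ?_, hD _, ?_, ?_⟩
  · rw [norm_mul, norm_mul, norm_e1, one_mul]
    have h3 := norm_sub_le (YY ν J x : ℂ) (Complex.I * (Y1 ν J J' x : ℂ))
    have h4 : ‖(1 / 2 : ℂ)‖ = 1 / 2 := by norm_num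
    rw [h4]
    linarith
  · rw [norm_mul, norm_mul, norm_e1, one_mul]
    have h3 := norm_add_le (YY ν J x : ℂ) (Complex.I * (Y1 ν J J' x : ℂ))
    have h4 : ‖(1 / 2 : ℂ)‖ = 1 / 2 := by norm_num
    rw [h4]
    linarith
  · rw [norm_neg]
    exact hD _
  · have h3 := e1_neg_mul (Θ x)
    have h4 : ((PP ν x ^ (-(1 / 4) : ℝ) : ℝ) : ℂ) * (YY ν J x : ℂ) = (J x : ℂ) := by
      rw [rp1 hPx, ← Complex.ofReal_mul]
      unfold YY
      rw [← mul_assoc, inv_mul_cancel₀ hq.ne', one_mul]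
    rw [← h4]
    linear_combination (-((PP ν x ^ (-(1 / 4) : ℝ) : ℝ) : ℂ) * (YY ν J x : ℂ)) * h3

end Pool.Agent.CRR
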