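import Pool.Agent.CRR.Targets2
import Pool.Agent.CRN.P_RMN
import Pool.Agent.CRN.P_LOWN

set_option autoImplicit false

/-!
# Block WRM: all windows of length `2^M` on the ball `|x| ≤ 2`
-/

namespace Pool.Agent.CRR

open MeasureTheory FourierTransform Set Filter Topology
open scoped ENNReal NNReal
open Pool.Agent.MBS (E ex S Sstar)
open Pool.Agent.CRN (IN S1 Nice T_AHN T_DSN)
open Pool.Agent.CRN.RMN_ (IN_cont An An_meas An_int An_disj S_sub)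
open Pool.Agent.CRN.LOWN_ (cs_one le_sqrt sqrt_sq sq_add plancherel fourier_cont)

namespace WRM_

variable {n : ℕ}

theorem ann {f : E n → ℂ} (hg : Continuous (𝓕 f)) {a b : ℝ} (hab : a ≤ b) (x : E n) :
    ∫ ξ in Metric.closedBall (0 : E n) b \ Metric.closedBall (0 : E n) a, 𝓕 f ξ * ex x ξ =
      S f b x - S f a x := by
  rw [S_sub hg hab, IN]
  have h4 : Metric.closedBall (0 : E n) b \ Metric.closedBall (0 : E n) a = An n a b := rfl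
  rw [h4, ← integral_indicator (An_meas a b)]
  refine integral_congr_ae (Filter.Eventually.of_forall fun ξ => ?_)
  by_cases hξ : ξ ∈ An n a b
  · simp only [indicator_of_mem hξ]
  · simp only [indicator_of_notMem hξ, zero_mul]

/-- the maximal function of the block `k` -/
noncomputable def U (M : ℕ) (f : E n → ℂ) (k : ℕ) (x : E n) : ℝ≥0∞ :=
  ⨆ (j : ℕ) (_ : j ≤ 2 ^ M), ‖∫ ξ in Metric.closedBall (0 : E n) (((k * 2 ^ M : ℕ) : ℝ) + j) \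
      Metric.closedBall (0 : E n) ((k * 2 ^ M : ℕ) : ℝ), 𝓕 f ξ * ex x ξ‖ₑ

theorem le_U {f : E n → ℂ} (hg : Continuous (𝓕 f)) (M k : ℕ) (x : E n) {j : ℕ} (hj : j ≤ 2 ^ M) :
    ‖S f (((k * 2 ^ M : ℕ) : ℝ) + j) x - S f ((k * 2 ^ M : ℕ) : ℝ) x‖ₑ ≤ U M f k x := by
  rw [← ann hg (le_add_of_nonneg_right (Nat.cast_nonneg j)) x]
  exact le_iSup₂_of_le (f := fun (j : ℕ) (_ : j ≤ 2 ^ M) =>
    ‖∫ ξ in Metric.closedBall (0 : E n) (((k * 2 ^ M : ℕ) : ℝ) + j) \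
      Metric.closedBall (0 : E n) ((k * 2 ^ M : ℕ) : ℝ), 𝓕 f ξ * ex x ξ‖ₑ) j hj le_rfl

theorem U_meas {f : E n → ℂ} (hg : Continuous (𝓕 f)) (M k : ℕ) : Measurable (U M f k) := by
  unfold U
  refine Measurable.iSup fun j => Measurable.iSup_Prop _ ?_
  have h1 : (fun x : E n => ‖∫ ξ in Metric.closedBall (0 : E n) (((k * 2 ^ M : ℕ) : ℝ) + j) \
      Metric.closedBall (0 : E n) ((k * 2 ^ M : ℕ) : ℝ), 𝓕 f ξ * ex x ξ‖ₑ) =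
      fun x : E n => ‖IN ((An n ((k * 2 ^ M : ℕ) : ℝ) (((k * 2 ^ M : ℕ) : ℝ) + j)).indicator
        (𝓕 f)) x‖ₑ := by
    funext x
    rw [ann hg (le_add_of_nonneg_right (Nat.cast_nonneg j)) x,
      S_sub hg (le_add_of_nonneg_right (Nat.cast_nonneg j))]
  rw [h1]
  exact (IN_cont (An_int hg _ _)).measurable.enorm

/-- left end of the block of `R` -/
noncomputable def lb (M : ℕ) (R : ℝ) : ℝ := ((⌊R⌋₊ / 2 ^ M * 2 ^ M : ℕ) : ℝ)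

/-- the majorant -/
noncomputable def K (M : ℕ) (f : E n → ℂ) (x : E n) : ℝ≥0∞ :=
  4 * ∑' k : ℕ, U M f k x ^ 2 + 4 * ∫⁻ r in Ioi (0 : ℝ), ‖S1 f r x‖ₑ ^ 2

theorem U_le_K (M : ℕ) (f : E n → ℂ) (k : ℕ) (x : E n) : U M f k x ^ 2 ≤ K M f x := by
  unfold K
  calc U M f k x ^ 2 ≤ ∑' k : ℕ, U M f k x ^ 2 := ENNReal.le_tsum k
    _ = 1 * ∑' k : ℕ, U M f k x ^ 2 := (one_mul _).symm
    _ ≤ 4 * ∑' k : ℕ, U M f k x ^ 2 := mul_le_mul_left (by norm_num) _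
    _ ≤ _ := le_self_add

theorem block {f : E n → ℂ} (hg : Continuous (𝓕 f))
    (hc : Continuous (fun p : ℝ × E n => S1 f p.1 p.2))
    (hd : ∀ (x : E n) (a b : ℝ), 0 ≤ a → a ≤ b → S f b x = S f a x + ∫ r in a..b, S1 f r x)
    (M : ℕ) (x : E n) {R : ℝ} (hR0 : 0 ≤ R) :
    ‖S f R x - S f (lb M R) x‖ₑ ≤ (K M f x) ^ (1 / (2 : ℝ)) := by
  refine le_sqrt ?_
  have hcx : Continuous fun r : ℝ => S1 f r x := hc.comp (Continuous.prodMk_left x)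
  set m : ℕ := ⌊R⌋₊ with hm
  have hj1 : (m : ℝ) ≤ R := Nat.floor_le hR0
  have hj2 : R < (m : ℝ) + 1 := Nat.lt_floor_add_one R
  set k : ℕ := m / 2 ^ M with hk
  set j : ℕ := m % 2 ^ M with hj
  have hjlt : j ≤ 2 ^ M := (Nat.mod_lt _ (by positivity)).le
  have hmk : m = k * 2 ^ M + j := by
    rw [hk, hj, mul_comm]
    exact (Nat.div_add_mod _ _).symm
  have hlb : lb M R = ((k * 2 ^ M : ℕ) : ℝ) := rfl
  have h0 : (m : ℝ) = ((k * 2 ^ M : ℕ) : ℝ) + j := by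
    rw [hmk]
    push_cast
    ring
  have h1 : ‖S f R x - S f (lb M R) x‖ₑ ≤
      U M f k x + ∫⁻ r in Ioc (m : ℝ) R, ‖S1 f r x‖ₑ := by
    rw [hd x m R (Nat.cast_nonneg m) hj1, intervalIntegral.integral_of_le hj1, hlb]
    have e : S f (m : ℝ) x + (∫ r in Ioc (m : ℝ) R, S1 f r x) - S f ((k * 2 ^ M : ℕ) : ℝ) x =
        (S f (((k * 2 ^ M : ℕ) : ℝ) + j) x - S f ((k * 2 ^ M : ℕ) : ℝ) x) +
        ∫ r in Ioc (m : ℝ) R, S1 f r x := by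
      rw [← h0]
      ring
    rw [e]
    exact (enorm_add_le _ _).trans (add_le_add (le_U hg M k x hjlt)
      (enorm_integral_le_lintegral_enorm _))
  have h2 : (∫⁻ r in Ioc (m : ℝ) R, ‖S1 f r x‖ₑ) ^ 2 ≤
      ∫⁻ r in Ioi (0 : ℝ), ‖S1 f r x‖ₑ ^ 2 := by
    refine (cs_one hcx.measurable.enorm hj2.le).trans (lintegral_mono_set ?_)
    intro r hr
    exact lt_of_le_of_lt (Nat.cast_nonneg m) hr.1
  calc ‖S f R x - S f (lb M R) x‖ₑ ^ 2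
      ≤ (U M f k x + ∫⁻ r in Ioc (m : ℝ) R, ‖S1 f r x‖ₑ) ^ 2 := pow_le_pow_left' h1 2
    _ ≤ 4 * U M f k x ^ 2 + 4 * (∫⁻ r in Ioc (m : ℝ) R, ‖S1 f r x‖ₑ) ^ 2 := sq_add _ _
    _ ≤ K M f x := add_le_add (mul_le_mul_right (ENNReal.le_tsum (f := fun k => U M f k x ^ 2) k) _)
        (mul_le_mul_right h2 _)

theorem ends {f : E n → ℂ} (hg : Continuous (𝓕 f)) (M : ℕ) (x : E n) {R R' : ℝ} (hR : 0 ≤ R)
    (h1 : R ≤ R') (h2 : R' ≤ R + 2 ^ M) :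
    ‖S f (lb M R') x - S f (lb M R) x‖ₑ ≤ (K M f x) ^ (1 / (2 : ℝ)) := by
  have hpos : 0 < 2 ^ M := by positivity
  have hf1 : ⌊R⌋₊ ≤ ⌊R'⌋₊ := Nat.floor_mono h1
  have hk1 : ⌊R⌋₊ / 2 ^ M ≤ ⌊R'⌋₊ / 2 ^ M := Nat.div_le_div_right hf1
  have hk2 : ⌊R'⌋₊ / 2 ^ M ≤ ⌊R⌋₊ / 2 ^ M + 1 := by
    have h3 : ⌊R⌋₊ < (⌊R⌋₊ / 2 ^ M + 1) * 2 ^ M := by
      have := Nat.lt_div_mul_add (a := ⌊R⌋₊) hpos
      linarith
    have h4 : ⌊R'⌋₊ ≤ ⌊R⌋₊ + 2 ^ M := by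
      have h5 := Nat.floor_mono h2
      have h6 : ⌊R + 2 ^ M⌋₊ = ⌊R⌋₊ + 2 ^ M := by
        have := Nat.floor_add_natCast hR (2 ^ M)
        push_cast at this
        exact this
      rwa [h6] at h5
    have h7 : ⌊R'⌋₊ < (⌊R⌋₊ / 2 ^ M + 1 + 1) * 2 ^ M := by
      calc ⌊R'⌋₊ ≤ ⌊R⌋₊ + 2 ^ M := h4
        _ < (⌊R⌋₊ / 2 ^ M + 1) * 2 ^ M + 2 ^ M := by omega
        _ = _ := by ring
    have := (Nat.div_lt_iff_lt_mul hpos).2 h7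
    omega
  refine le_sqrt ?_
  rcases Nat.lt_or_ge (⌊R⌋₊ / 2 ^ M) (⌊R'⌋₊ / 2 ^ M) with h | h
  · have h8 : ⌊R'⌋₊ / 2 ^ M = ⌊R⌋₊ / 2 ^ M + 1 := by omega
    have h9 : lb M R' = ((⌊R⌋₊ / 2 ^ M * 2 ^ M : ℕ) : ℝ) + (2 ^ M : ℕ) := by
      unfold lb
      rw [h8]
      push_cast
      ring
    rw [h9, show lb M R = ((⌊R⌋₊ / 2 ^ M * 2 ^ M : ℕ) : ℝ) from rfl]
    exact (pow_le_pow_left' (le_U hg M _ x le_rfl) 2).trans (U_le_K M f _ x)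
  · have h8 : ⌊R'⌋₊ / 2 ^ M = ⌊R⌋₊ / 2 ^ M := le_antisymm h hk1
    have h9 : lb M R' = lb M R := by
      unfold lb
      rw [h8]
    rw [h9, sub_self]
    simp

theorem pair {f : E n → ℂ} (hg : Continuous (𝓕 f))
    (hc : Continuous (fun p : ℝ × E n => S1 f p.1 p.2))
    (hd : ∀ (x : E n) (a b : ℝ), 0 ≤ a → a ≤ b → S f b x = S f a x + ∫ r in a..b, S1 f r x)
    (M : ℕ) (x : E n) {R R' : ℝ} (hR : 0 ≤ R) (h1 : R ≤ R') (h2 : R' ≤ R + 2 ^ M) :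
    ‖S f R' x - S f R x‖ₑ ≤ 3 * (K M f x) ^ (1 / (2 : ℝ)) := by
  have a1 := block hg hc hd M x hR
  have a2 := block hg hc hd M x (hR.trans h1)
  have a3 := ends hg M x hR h1 h2
  have e : S f R' x - S f R x = (S f R' x - S f (lb M R') x) +
      (S f (lb M R') x - S f (lb M R) x) + (S f (lb M R) x - S f R x) := by ring
  rw [e]
  have a4 : ‖S f (lb M R) x - S f R x‖ₑ = ‖S f R x - S f (lb M R) x‖ₑ := by
    rw [← enorm_neg, neg_sub]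
  calc _ ≤ ‖S f R' x - S f (lb M R') x‖ₑ + ‖S f (lb M R') x - S f (lb M R) x‖ₑ +
        ‖S f (lb M R) x - S f R x‖ₑ :=
        (enorm_add_le _ _).trans (add_le_add (enorm_add_le _ _) le_rfl)
    _ ≤ (K M f x) ^ (1 / (2 : ℝ)) + (K M f x) ^ (1 / (2 : ℝ)) + (K M f x) ^ (1 / (2 : ℝ)) := by
        rw [a4]
        exact add_le_add (add_le_add a2 a3) a1
    _ = _ := by ring

theorem pointwise {f : E n → ℂ} (hg : Continuous (𝓕 f))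
    (hc : Continuous (fun p : ℝ × E n => S1 f p.1 p.2))
    (hd : ∀ (x : E n) (a b : ℝ), 0 ≤ a → a ≤ b → S f b x = S f a x + ∫ r in a..b, S1 f r x)
    (M : ℕ) (x : E n) :
    (⨆ (R : ℝ) (R' : ℝ) (_ : 0 ≤ R ∧ 0 ≤ R' ∧ |R - R'| ≤ 2 ^ M), ‖S f R x - S f R' x‖ₑ) ^ 2 ≤
      9 * K M f x := by
  have h : (⨆ (R : ℝ) (R' : ℝ) (_ : 0 ≤ R ∧ 0 ≤ R' ∧ |R - R'| ≤ 2 ^ M),
      ‖S f R x - S f R' x‖ₑ) ≤ 3 * (K M f x) ^ (1 / (2 : ℝ)) := by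
    refine iSup_le fun R => iSup₂_le fun R' h => ?_
    obtain ⟨h0, h0', h1⟩ := h
    rw [abs_le] at h1
    rcases le_total R R' with h2 | h2
    · rw [← enorm_neg, neg_sub]
      exact pair hg hc hd M x h0 h2 (by linarith)
    · exact pair hg hc hd M x h0' h2 (by linarith)
  calc _ ≤ (3 * (K M f x) ^ (1 / (2 : ℝ))) ^ 2 := pow_le_pow_left' h 2
    _ = _ := by
      rw [mul_pow, sqrt_sq]
      norm_num

theorem An_eq (M k : ℕ) : Metric.closedBall (0 : E n) (((k * 2 ^ M : ℕ) : ℝ) + 2 ^ M) \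
      Metric.closedBall (0 : E n) ((k * 2 ^ M : ℕ) : ℝ) =
    An n ((k * 2 ^ M : ℕ) : ℝ) (((k + 1) * 2 ^ M : ℕ) : ℝ) := by
  unfold An
  congr 2
  push_cast
  ring

theorem sum_ann (M : ℕ) (g : E n → ℂ) :
    ∑' k : ℕ, ∫⁻ ξ in Metric.closedBall (0 : E n) (((k * 2 ^ M : ℕ) : ℝ) + 2 ^ M) \
      Metric.closedBall (0 : E n) ((k * 2 ^ M : ℕ) : ℝ), ‖g ξ‖ₑ ^ 2 ≤ ∫⁻ ξ, ‖g ξ‖ₑ ^ 2 := by
  simp only [An_eq]
  rw [← lintegral_iUnion (fun k => An_meas _ _) (fun i j hij => An_disj M hij)]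
  exact setLIntegral_le_lintegral _ _

end WRM_

open WRM_ in
theorem p_WRM (h1 : T_RMB) (h2 : T_AHN) (h3 : T_DSN) : T_WRM := by
  intro n hn
  obtain ⟨C1, hC1⟩ := h1 n (by omega)
  obtain ⟨C2, hC2⟩ := h2 n hn
  refine ⟨36 * C1 + 36 * C2, fun M f hf => ?_⟩
  obtain ⟨hc, hd⟩ := h3 n f hn hf
  have hg : Continuous (𝓕 f) := fourier_cont hf.int
  have hm2 : Measurable fun p : E n × ℝ => ‖S1 f p.2 p.1‖ₑ ^ 2 :=
    (hc.comp (continuous_snd.prodMk continuous_fst)).measurable.enorm.pow_const 2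
  have hb : Measurable fun x : E n => 4 * ∫⁻ r in Ioi (0 : ℝ), ‖S1 f r x‖ₑ ^ 2 :=
    (hm2.lintegral_prod_right').const_mul 4
  have hA : ∫⁻ x in Metric.closedBall (0 : E n) 2, 4 * ∑' k : ℕ, U M f k x ^ 2 ≤
      4 * (C1 * ((M : ℝ≥0∞) + 1) ^ 2 * ∫⁻ x, ‖f x‖ₑ ^ 2) := by
    rw [lintegral_const_mul' _ _ (by norm_num)]
    refine mul_le_mul_right ?_ _
    rw [lintegral_tsum fun k => ((U_meas hg M k).pow_const 2).aemeasurable,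
      ← plancherel hf.int hf.sq]
    calc ∑' k : ℕ, ∫⁻ x in Metric.closedBall (0 : E n) 2, U M f k x ^ 2
        ≤ ∑' k : ℕ, C1 * ((M : ℝ≥0∞) + 1) ^ 2 *
          ∫⁻ ξ in Metric.closedBall (0 : E n) (((k * 2 ^ M : ℕ) : ℝ) + 2 ^ M) \
            Metric.closedBall (0 : E n) ((k * 2 ^ M : ℕ) : ℝ), ‖𝓕 f ξ‖ₑ ^ 2 :=
          ENNReal.tsum_le_tsum fun k => (setLIntegral_le_lintegral _ _).trans
            (hC1 M (k * 2 ^ M) (𝓕 f) hg.measurable)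
      _ = C1 * ((M : ℝ≥0∞) + 1) ^ 2 * ∑' k : ℕ,
          ∫⁻ ξ in Metric.closedBall (0 : E n) (((k * 2 ^ M : ℕ) : ℝ) + 2 ^ M) \
            Metric.closedBall (0 : E n) ((k * 2 ^ M : ℕ) : ℝ), ‖𝓕 f ξ‖ₑ ^ 2 :=
          ENNReal.tsum_mul_left
      _ ≤ _ := mul_le_mul_right (sum_ann M (𝓕 f)) _
  have hB : ∫⁻ x in Metric.closedBall (0 : E n) 2,
      4 * ∫⁻ r in Ioi (0 : ℝ), ‖S1 f r x‖ₑ ^ 2 ≤ 4 * (C2 * ∫⁻ x, ‖f x‖ₑ ^ 2) := by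
    rw [lintegral_const_mul' _ _ (by norm_num), lintegral_lintegral_swap hm2.aemeasurable]
    refine mul_le_mul_right ?_ _
    rw [← plancherel hf.int hf.sq]
    exact hC2 (𝓕 f) hg.measurable
  have hone : (1 : ℝ≥0∞) ≤ ((M : ℝ≥0∞) + 1) ^ 2 := by
    refine one_le_pow₀ ?_
    exact le_add_self
  calc ∫⁻ x in Metric.closedBall (0 : E n) 2,
        (⨆ (R : ℝ) (R' : ℝ) (_ : 0 ≤ R ∧ 0 ≤ R' ∧ |R - R'| ≤ 2 ^ M), ‖S f R x - S f R' x‖ₑ) ^ 2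
      ≤ ∫⁻ x in Metric.closedBall (0 : E n) 2, 9 * K M f x :=
        lintegral_mono fun x => pointwise hg hc hd M x
    _ = 9 * ∫⁻ x in Metric.closedBall (0 : E n) 2, (4 * ∑' k : ℕ, U M f k x ^ 2 +
          4 * ∫⁻ r in Ioi (0 : ℝ), ‖S1 f r x‖ₑ ^ 2) := lintegral_const_mul' _ _ (by norm_num)
    _ = 9 * ((∫⁻ x in Metric.closedBall (0 : E n) 2, 4 * ∑' k : ℕ, U M f k x ^ 2) +
          ∫⁻ x in Metric.closedBall (0 : E n) 2,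
          4 * ∫⁻ r in Ioi (0 : ℝ), ‖S1 f r x‖ₑ ^ 2) := by rw [lintegral_add_right _ hb]
    _ ≤ 9 * (4 * (C1 * ((M : ℝ≥0∞) + 1) ^ 2 * ∫⁻ x, ‖f x‖ₑ ^ 2) +
        4 * (C2 * ∫⁻ x, ‖f x‖ₑ ^ 2)) := mul_le_mul_right (add_le_add hA hB) _
    _ ≤ 9 * (4 * (C1 * ((M : ℝ≥0∞) + 1) ^ 2 * ∫⁻ x, ‖f x‖ₑ ^ 2) +
        4 * (C2 * (((M : ℝ≥0∞) + 1) ^ 2 * ∫⁻ x, ‖f x‖ₑ ^ 2))) := by
        gcongr
        calc ∫⁻ x, ‖f x‖ₑ ^ 2 = 1 * ∫⁻ x, ‖f x‖ₑ ^ 2 := (one_mul _).symm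
          _ ≤ _ := mul_le_mul_left hone _
    _ = _ := by push_cast; ring

end Pool.Agent.CRR
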