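import Pool.Agent.CAR.P_CARL
import Pool.Agent.CRL.P_ABL
import Pool.Agent.CRN.All
import Pool.Agent.CRR.P_ACR
import Pool.Agent.CRR.P_AHT
import Pool.Agent.CRR.P_DCAR
import Pool.Agent.CRR.P_DEC
import Pool.Agent.CRR.P_DIA
import Pool.Agent.CRR.P_EIG
import Pool.Agent.CRR.P_ENR
import Pool.Agent.CRR.P_FOR
import Pool.Agent.CRR.P_GM
import Pool.Agent.CRR.P_HANK
import Pool.Agent.CRR.P_HI
import Pool.Agent.CRR.P_INF
import Pool.Agent.CRR.P_LOW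
import Pool.Agent.CRR.P_MUL
import Pool.Agent.CRR.P_NRM
import Pool.Agent.CRR.P_ODEN
import Pool.Agent.CRR.P_OFD
import Pool.Agent.CRR.P_OSC
import Pool.Agent.CRR.P_PART
import Pool.Agent.CRR.P_PHS
import Pool.Agent.CRR.P_QID
import Pool.Agent.CRR.P_RAD
import Pool.Agent.CRR.P_RAE
import Pool.Agent.CRR.P_RCH
import Pool.Agent.CRR.P_RLIN
import Pool.Agent.CRR.P_RMB
import Pool.Agent.CRR.P_SD
import Pool.Agent.CRR.P_SEQ
import Pool.Agent.CRR.P_SYM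
import Pool.Agent.CRR.P_TAIL
import Pool.Agent.CRR.P_UNI
import Pool.Agent.CRR.P_VCR
import Pool.Agent.CRR.P_WIN
import Pool.Agent.CRR.P_WKB
import Pool.Agent.CRR.P_WRM

set_option autoImplicit false

/-!
# CRR: assembly (MP_ee701d_an): ball partial sums with a radial choice of the radius
-/

namespace Pool.Agent.CRR

theorem q_CARLS : Pool.Agent.CRN.T_CARLS := Pool.Agent.CAR.p_CARLS

theorem q_DCAR : T_DCAR := p_DCAR Pool.Agent.CRN.p_RAYN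

theorem q_ACR : T_ACR := p_ACR q_DCAR

theorem q_VCR : T_VCR := p_VCR Pool.Agent.CRL.p_ABL p_WIN q_ACR

theorem q_UNI : T_UNI := p_UNI p_INF

theorem q_QID : T_QID := p_QID p_INF

theorem q_FOR : T_FOR := p_FOR p_INF q_QID

theorem q_ENR : T_ENR := p_ENR p_SEQ

theorem q_LOW : T_LOW := p_LOW p_SEQ p_INF q_QID q_FOR

theorem q_WKB : T_WKB := p_WKB p_SEQ q_ENR

theorem q_PHS : T_PHS := p_PHS p_SEQ q_WKB

theorem q_DIA : T_DIA := p_DIA Pool.Agent.CRN.p_RAYN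

theorem q_DEC : T_DEC := p_DEC p_SEQ p_OFD q_DIA

theorem q_SD : T_SD := p_SD p_SEQ q_PHS q_VCR q_DEC

theorem q_MUL : T_MUL := p_MUL p_SEQ q_SD

theorem q_PART : T_PART := p_PART p_SEQ q_SD

theorem q_TAIL : T_TAIL := p_TAIL p_SEQ q_SD q_MUL

theorem q_HI : T_HI := p_HI p_SEQ q_PART q_TAIL

theorem q_HANK : T_HANK := p_HANK q_LOW q_HI

theorem q_EIG : T_EIG := p_EIG p_SYM

theorem q_ODEN : T_ODEN := p_ODEN Pool.Agent.CRN.p_HELN

theorem q_AHT : T_AHT := p_AHT Pool.Agent.CRN.q_AHN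

theorem q_GM : T_GM := p_GM p_SEQ q_UNI p_NRM q_QID q_ENR q_ODEN q_AHT Pool.Agent.CRN.p_POLN

theorem q_RAD : T_RAD := p_RAD q_HANK q_EIG q_GM Pool.Agent.CRN.p_POLN Pool.Agent.CRN.q_DSN

theorem q_RLIN : T_RLIN := p_RLIN q_RAD Pool.Agent.CRN.p_POLN

theorem q_RAE : T_RAE := p_RAE q_RAD Pool.Agent.CRN.p_POLN

theorem q_WRM : T_WRM := p_WRM p_RMB Pool.Agent.CRN.q_AHN Pool.Agent.CRN.q_DSN

theorem q_OSC : T_OSC := p_OSC q_WRM Pool.Agent.CRN.q_OFFN Pool.Agent.CRN.p_SHL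

theorem q_RCH : T_RCH := p_RCH q_RLIN q_OSC

end Pool.Agent.CRR
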