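import Pool.Agent.CRN.Targets
import Pool.Agent.CRL.Targets2

set_option autoImplicit false

/-!
# CRR: ball partial sums with a radial choice of the radius (MP_ee701d_an): definitions

The theorem: for all `n ≥ 2` and ALL `f ∈ L²(ℝⁿ)`, `∫_0^∞ sup_R (∫_{S^{n-1}} |S_R f(rω)|² dσ(ω)) r^{n-1} dr ≤ C ∫ |f|²`,
i.e. `∫ |S_{R(|x|)} f(x)|² dx ≤ C ∫ |f|²` for every measurable function `R(|x|)` of `|x|`. It is the Carleson theorem for the
Hankel transform of order `ν`, uniformly in `ν ≥ 0`, in the variables `u = log r`, `v = log (2πρ)`, `x = u + v`: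
the kernel is `κ(x) = e^x J(x)`, `J'' = -(e^{2x} - ν²) J` (Bessel's equation).
-/

namespace Pool.Agent.CRR

open MeasureTheory FourierTransform Set Filter Topology
open scoped ENNReal NNReal ComplexConjugate
open Pool.Agent.MBS (E ex S Sstar)
open Pool.Agent.CAR (e1)
open Pool.Agent.CRN (IN sg rt Lam SH S1 Nice T_CARLS)

/-! ### Bessel's equation in the logarithmic variable -/

/-- `P(x) = e^{2x} - ν²` -/
noncomputable def PP (ν x : ℝ) : ℝ := Real.exp (2 * x) - ν ^ 2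

/-- real solutions of `J'' = -P J` which are bounded at `-∞` -/
structure Sol (ν : ℝ) (J J' : ℝ → ℝ) : Prop where
  d1 : ∀ x, HasDerivAt J (J' x) x
  d2 : ∀ x, HasDerivAt J' (-(PP ν x) * J x) x
  bd : ∃ B, ∀ x ≤ 0, |J x| ≤ B

/-- beginning of the oscillatory region -/
noncomputable def xc (ν : ℝ) : ℝ := Real.log (ν + 3000 * (1 + ν) ^ (1 / 3 : ℝ))

/-- energy -/
noncomputable def E2 (ν : ℝ) (J J' : ℝ → ℝ) (x : ℝ) : ℝ :=
  J' x ^ 2 / Real.sqrt (PP ν x) + Real.sqrt (PP ν x) * J x ^ 2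

/-- the normalised solutions -/
structure NSol (ν : ℝ) (J J' : ℝ → ℝ) : Prop where
  sol : Sol ν J J'
  nrm : E2 ν J J' (xc ν) = 1

/-- the kernel -/
noncomputable def kap (J : ℝ → ℝ) (x : ℝ) : ℂ := ((Real.exp x * J x : ℝ) : ℂ)

/-- the strips `[a_k, a_{k+1})` -/
noncomputable def aa (ν : ℝ) : ℕ → ℝ
  | 0 => xc ν
  | (k + 1) => aa ν k + (1 - ν ^ 2 * Real.exp (-(2 * aa ν k))) / 2

/-- length of the strip -/
noncomputable def de (ν : ℝ) (k : ℕ) : ℝ := (1 - ν ^ 2 * Real.exp (-(2 * aa ν k))) / 2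

/-- size of the second derivative of the phase on the strip -/
noncomputable def la (ν : ℝ) (k : ℕ) : ℝ := Real.exp (2 * aa ν k) / Real.sqrt (PP ν (aa ν k))

/-- frequency of the strip; `si = la de = √P(a_k) / 2` -/
noncomputable def si (ν : ℝ) (k : ℕ) : ℝ := la ν k * de ν k

/-- window length of the strip -/
noncomputable def ww (ν : ℝ) (k : ℕ) : ℝ := (Real.sqrt (la ν k))⁻¹ / 4

/-- the frequency bands: `band 0 = {|s| < σ_0}`, `band (j+1) = {σ_j ≤ |s| < σ_{j+1}}` -/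
def band (ν : ℝ) (j : ℕ) : Set ℝ := {s | (j = 0 ∨ si ν (j - 1) ≤ |s|) ∧ |s| < si ν j}

/-! ### windows, phases -/

/-- `∫ H(s) e^{2 π i v s} ds` -/
noncomputable def fh (H : ℝ → ℂ) (v : ℝ) : ℂ := ∫ s, H s * e1 (v * s)

/-- maximal partial integrals on the window `(i w, (i+1) w]` at the frequency `X` -/
noncomputable def NN (w : ℝ) (h : ℝ → ℂ) (i : ℤ) (X : ℝ) : ℝ≥0∞ :=
  ⨆ V : ℝ, ‖∫ v in Ioc (i * w) (min V ((i + 1) * w)), h v * e1 (X * v)‖ₑ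

/-- a phase with second derivative of size `lam`, varying at the scale `d` -/
structure Ph (A lam d : ℝ) (Θ Θ1 Θ2 : ℝ → ℝ) : Prop where
  d1 : ∀ x, HasDerivAt Θ (Θ1 x) x
  d2 : ∀ x, HasDerivAt Θ1 (Θ2 x) x
  lo : ∀ x, lam / A ≤ Θ2 x
  hi : ∀ x, Θ2 x ≤ A * lam
  lip : ∀ x y, |Θ2 x - Θ2 y| ≤ A * lam / d * |x - y|

/-- `κ` on the strip `[a, a+d]`: two oscillating terms with phases `±Θ` -/
def StripD (A a d lam : ℝ) (κ : ℝ → ℂ) : Prop :=
  ∃ (Θ Θ1 Θ2 : ℝ → ℝ) (b c b' c' : ℝ → ℂ), Ph A lam d Θ Θ1 Θ2 ∧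
    (∀ x ∈ Icc (a - d / 16) (a + d + d / 16), lam * d / A ≤ Θ1 x ∧ Θ1 x ≤ A * (lam * d)) ∧
    (∀ x ∈ Icc a (a + d), HasDerivAt b (b' x) x ∧ HasDerivAt c (c' x) x ∧ ‖b x‖ ≤ A ∧ ‖c x‖ ≤ A ∧
      ‖b' x‖ ≤ A / d ∧ ‖c' x‖ ≤ A / d ∧
      κ x = Real.sqrt lam * (e1 (Θ x) * b x + e1 (-Θ x) * c x)) ∧
    ContinuousOn b' (Icc a (a + d)) ∧ ContinuousOn c' (Icc a (a + d))

/-- the part of the strip `[a, a+d)` in the truncated convolution -/
noncomputable def FS (κ : ℝ → ℂ) (a d : ℝ) (h : ℝ → ℂ) (u V1 V2 : ℝ) : ℂ :=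
  ∫ v in Ioc V1 V2 ∩ {v | u + v ∈ Ico a (a + d)}, κ (u + v) * h v

/-- the whole strip -/
noncomputable def FA (κ : ℝ → ℂ) (a d : ℝ) (h : ℝ → ℂ) (u : ℝ) : ℂ :=
  ∫ v in {v | u + v ∈ Ico a (a + d)}, κ (u + v) * h v

/-- admissible functions on the Fourier side -/
structure HH (H : ℝ → ℂ) : Prop where
  meas : Measurable H
  int : Integrable H
  sq : Integrable (fun s => ‖H s‖ ^ 2)

end Pool.Agent.CRR
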