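import Pool.Agent.CRR.Targets

set_option autoImplicit false

/-!
# CRR, LOW: the kernel is integrable up to the oscillatory region, uniformly in the order
-/

namespace Pool.Agent.CRR

open MeasureTheory FourierTransform Set Filter Topology
open scoped ENNReal NNReal ComplexConjugate

namespace LOW_

/-- the parameters -/
theorem par (ν : ℝ) (hν : 0 ≤ ν) : ∃ c : ℝ, 1 ≤ c ∧ c ^ 3 = 1 + ν ∧
    Real.exp (xc ν) = ν + 3000 * c ∧ c ^ 4 ≤ PP ν (xc ν) ∧ PP ν (xc ν) ≤ 10 ^ 7 * c ^ 4 := by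
  obtain ⟨c, hc⟩ : ∃ c : ℝ, c = (1 + ν) ^ (1 / 3 : ℝ) := ⟨_, rfl⟩
  have h1 : 1 ≤ c := by
    rw [hc]
    exact Real.one_le_rpow (by linarith) (by norm_num)
  have h3 : c ^ 3 = 1 + ν := by
    rw [hc, ← Real.rpow_natCast, ← Real.rpow_mul (by linarith)]
    norm_num
  have he : Real.exp (xc ν) = ν + 3000 * c := by
    unfold xc
    rw [← hc, Real.exp_log]
    linarith
  have hP : PP ν (xc ν) = (ν + 3000 * c) ^ 2 - ν ^ 2 := by
    unfold PP
    rw [two_mul, Real.exp_add, he]
    ring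
  have hν' : ν = c ^ 3 - 1 := by linarith
  have e : PP ν (xc ν) = 6000 * c ^ 4 - 6000 * c + 9000000 * c ^ 2 := by
    rw [hP, hν']
    ring
  have h2 : c ≤ c ^ 2 := by nlinarith
  have h4 : c ^ 2 ≤ c ^ 4 := pow_le_pow_right₀ h1 (by norm_num)
  refine ⟨c, h1, h3, he, ?_, ?_⟩
  · rw [e]
    linarith
  · rw [e]
    linarith

/-- values at the beginning of the oscillatory region -/
theorem start {ν : ℝ} {J J' : ℝ → ℝ} (h : NSol ν J J') {c : ℝ} (hc : 1 ≤ c)
    (h1 : c ^ 4 ≤ PP ν (xc ν)) (h2 : PP ν (xc ν) ≤ 10 ^ 7 * c ^ 4) :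
    J' (xc ν) ^ 2 + PP ν (xc ν) * J (xc ν) ^ 2 ≤ 3200 * c ^ 2 ∧ |J (xc ν)| ≤ 1 / c := by
  have hc0 : 0 < c := by linarith
  have hP : 0 < PP ν (xc ν) := lt_of_lt_of_le (by positivity) h1
  obtain ⟨R, hR⟩ : ∃ R : ℝ, R = Real.sqrt (PP ν (xc ν)) := ⟨_, rfl⟩
  have hR0 : 0 < R := by
    rw [hR]
    exact Real.sqrt_pos.mpr hP
  have hR2 : R ^ 2 = PP ν (xc ν) := by
    rw [hR]
    exact Real.sq_sqrt hP.le
  have hn := h.nrm
  unfold E2 at hn
  rw [← hR] at hn
  have e1 : J' (xc ν) ^ 2 + R ^ 2 * J (xc ν) ^ 2 = R := by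
    have e3 : (J' (xc ν) ^ 2 / R + R * J (xc ν) ^ 2) * R = R := by rw [hn, one_mul]
    have e2 : (J' (xc ν) ^ 2 / R + R * J (xc ν) ^ 2) * R =
        J' (xc ν) ^ 2 + R ^ 2 * J (xc ν) ^ 2 := by
      field_simp
    linarith
  have hRlow : c ^ 2 ≤ R := by
    rw [hR]
    apply Real.le_sqrt_of_sq_le
    calc (c ^ 2) ^ 2 = c ^ 4 := by ring
      _ ≤ _ := h1
  have hRup : R ≤ 3200 * c ^ 2 := by
    rw [hR]
    apply Real.sqrt_le_iff.mpr
    refine ⟨by positivity, h2.trans ?_⟩
    have : (3200 * c ^ 2) ^ 2 = 10240000 * c ^ 4 := by ring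
    rw [this]
    have : 0 ≤ c ^ 4 := by positivity
    linarith
  refine ⟨by rw [← hR2, e1]; exact hRup, ?_⟩
  have h3 : R * J (xc ν) ^ 2 ≤ 1 := by
    have : 0 ≤ J' (xc ν) ^ 2 / R := by positivity
    linarith
  have h4 : c ^ 2 * J (xc ν) ^ 2 ≤ 1 :=
    le_trans (mul_le_mul_of_nonneg_right hRlow (sq_nonneg _)) h3
  rw [le_div_iff₀ hc0]
  have h5 : (|J (xc ν)| * c) ^ 2 ≤ 1 := by
    rw [mul_pow, sq_abs]
    linarith
  exact (pow_le_one_iff_of_nonneg (by positivity) (by norm_num)).mp h5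

/-- the quadratic form is nondecreasing -/
theorem mono (hQ : T_QID) {ν : ℝ} {J J' : ℝ → ℝ} (hν : 0 ≤ ν) (h : Sol ν J J') {x y : ℝ}
    (hxy : x ≤ y) :
    J' x ^ 2 + PP ν x * J x ^ 2 ≤ J' y ^ 2 + PP ν y * J y ^ 2 := by
  obtain ⟨-, hx, ex⟩ := hQ ν J J' hν h x
  obtain ⟨-, hy, ey⟩ := hQ ν J J' hν h y
  rw [ex, ey]
  apply mul_le_mul_of_nonneg_left _ (by norm_num)
  exact setIntegral_mono_set hy (Eventually.of_forall fun s => by positivity)
    (Iic_subset_Iic.mpr hxy).eventuallyLE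

theorem lint {K m b : ℝ} (hK : 0 ≤ K) (hm : 0 < m) :
    ∫⁻ x in Iic b, ENNReal.ofReal (K * Real.exp (m * x)) =
      ENNReal.ofReal (K * (Real.exp (m * b) / m)) := by
  rw [← ofReal_integral_eq_lintegral_ofReal ((integrableOn_exp_mul_Iic hm b).const_mul K)
    (Eventually.of_forall fun x => by positivity), integral_const_mul, integral_exp_mul_Iic hm]

theorem monoOn {f f' : ℝ → ℝ} {a b : ℝ} (hab : a ≤ b) (hf : ∀ x, HasDerivAt f (f' x) x)
    (h : ∀ x ∈ Icc a b, 0 ≤ f' x) : f a ≤ f b := by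
  have := monotoneOn_of_deriv_nonneg (convex_Icc a b)
    (fun x _ => (hf x).continuousAt.continuousWithinAt)
    (fun x _ => (hf x).differentiableAt.differentiableWithinAt)
    (fun x hx => by rw [(hf x).deriv]; exact h x (interior_subset hx))
  exact this (left_mem_Icc.mpr hab) (right_mem_Icc.mpr hab) hab

/-- no growth in the forbidden region -/
theorem forb (hF : T_FOR) {ν : ℝ} {J J' : ℝ → ℝ} (hν : 0 ≤ ν) (h : Sol ν J J') {x y : ℝ}
    (hxy : x ≤ y) (hP : PP ν y ≤ 0) : |J x| ≤ |J y| := by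
  have h1 := hF ν J J' x y hν h hxy hP
  refine h1.trans ?_
  apply mul_le_of_le_one_right (abs_nonneg _)
  rw [Real.exp_le_one_iff]
  have := intervalIntegral.integral_nonneg (μ := volume) hxy
    (fun s _ => Real.sqrt_nonneg (-(PP ν s)))
  linarith

theorem PP_mono (ν : ℝ) {x y : ℝ} (h : x ≤ y) : PP ν x ≤ PP ν y := by
  unfold PP
  have : Real.exp (2 * x) ≤ Real.exp (2 * y) := Real.exp_le_exp.mpr (by linarith)
  linarith

theorem PP_log {ν : ℝ} (h : 0 < ν) : PP ν (Real.log ν) = 0 := by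
  unfold PP
  rw [two_mul, Real.exp_add, Real.exp_log h]
  ring

theorem PP_ge (ν x : ℝ) : -(ν ^ 2) ≤ PP ν x := by
  unfold PP
  have := Real.exp_pos (2 * x)
  linarith

theorem expd (x : ℝ) : HasDerivAt (fun x : ℝ => Real.exp (2 * x)) (2 * Real.exp (2 * x)) x := by
  have h1 : HasDerivAt (fun x : ℝ => 2 * x) 2 x := by
    simpa using (hasDerivAt_id x).const_mul (2 : ℝ)
  have h2 := h1.exp
  have h3 : Real.exp (2 * x) * 2 = 2 * Real.exp (2 * x) := by ring
  rwa [h3] at h2

/-- from the bound for the derivative to the bound for the function -/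
theorem lipe {J J' : ℝ → ℝ} (hJ : ∀ x, HasDerivAt J (J' x) x) {S y z : ℝ} (hyz : y ≤ z)
    (hb : ∀ x ∈ Icc y z, |J' x| ≤ S * Real.exp x) (hS : 0 ≤ S) :
    |J y| ≤ |J z| + S * Real.exp z := by
  have e1 : ∀ x, HasDerivAt (fun x => S * Real.exp x) (S * Real.exp x) x :=
    fun x => (Real.hasDerivAt_exp x).const_mul S
  have h1 := monoOn hyz (fun x => (e1 x).add (hJ x)) (fun x hx => by
    have := (abs_le.mp (hb x hx)).1
    linarith)
  have h2 := monoOn hyz (fun x => (e1 x).sub (hJ x)) (fun x hx => by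
    have := (abs_le.mp (hb x hx)).2
    linarith)
  simp only [Pi.add_apply, Pi.sub_apply] at h1 h2
  have h3 : 0 ≤ S * Real.exp y := mul_nonneg hS (Real.exp_pos _).le
  rw [abs_le]
  have h4 := neg_abs_le (J z)
  have h5 := le_abs_self (J z)
  constructor <;> linarith

theorem lipc {J J' : ℝ → ℝ} (hJ : ∀ x, HasDerivAt J (J' x) x) {S y z : ℝ} (hyz : y ≤ z)
    (hb : ∀ x ∈ Icc y z, |J' x| ≤ S) : |J y| ≤ |J z| + S * (z - y) := by
  have e1 : ∀ x, HasDerivAt (fun x => S * x) S x := fun x => by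
    simpa using (hasDerivAt_id x).const_mul S
  have h1 := monoOn hyz (fun x => (e1 x).add (hJ x)) (fun x hx => by
    have := (abs_le.mp (hb x hx)).1
    linarith)
  have h2 := monoOn hyz (fun x => (e1 x).sub (hJ x)) (fun x hx => by
    have := (abs_le.mp (hb x hx)).2
    linarith)
  simp only [Pi.add_apply, Pi.sub_apply] at h1 h2
  rw [abs_le]
  have h4 := neg_abs_le (J z)
  have h5 := le_abs_self (J z)
  constructor <;> linarith

/-- orders less than `1`, left of `-1` -/
theorem left (hQ : T_QID) (hF : T_FOR) {ν : ℝ} {J J' : ℝ → ℝ} (hν : 0 ≤ ν) (h : Sol ν J J') :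
    ∀ x ≤ (-1 : ℝ), |J x| ≤ 2 * |J (-1)| := by
  obtain ⟨B, hB⟩ := h.bd
  have hbdd : BddAbove (range fun y : Iic (-1 : ℝ) => |J y|) := by
    refine ⟨B, ?_⟩
    rintro _ ⟨y, rfl⟩
    exact hB y (le_trans y.2 (by norm_num))
  obtain ⟨S, hSdef⟩ : ∃ S : ℝ, S = ⨆ y : Iic (-1 : ℝ), |J y| := ⟨_, rfl⟩
  have hS : ∀ y ≤ (-1 : ℝ), |J y| ≤ S := by
    intro y hy
    rw [hSdef]
    exact le_ciSup hbdd ⟨y, hy⟩
  have hS0 : 0 ≤ S := (abs_nonneg _).trans (hS (-1) le_rfl)
  have hA : ∀ s ≤ (-1 : ℝ), 0 ≤ PP ν s → |J' s| ≤ S * Real.exp s := by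
    intro s hs hP
    obtain ⟨-, hi, he⟩ := hQ ν J J' hν h s
    have h1 : ∫ y in Iic s, Real.exp (2 * y) * J y ^ 2 ≤
        ∫ y in Iic s, Real.exp (2 * y) * S ^ 2 := by
      apply setIntegral_mono_on hi
        ((integrableOn_exp_mul_Iic (by norm_num : (0 : ℝ) < 2) s).mul_const (S ^ 2))
        measurableSet_Iic
      intro y hy
      apply mul_le_mul_of_nonneg_left _ (Real.exp_pos _).le
      rw [← sq_abs (J y)]
      exact pow_le_pow_left₀ (abs_nonneg _) (hS y (le_trans hy hs)) 2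
    rw [integral_mul_const, integral_exp_mul_Iic (by norm_num : (0 : ℝ) < 2)] at h1
    have h2 : J' s ^ 2 ≤ (S * Real.exp s) ^ 2 := by
      have e1 : (S * Real.exp s) ^ 2 = Real.exp (2 * s) * S ^ 2 := by
        rw [two_mul, Real.exp_add]
        ring
      rw [e1]
      have h3 : 0 ≤ PP ν s * J s ^ 2 := mul_nonneg hP (sq_nonneg _)
      linarith
    exact abs_le_of_sq_le_sq h2 (mul_nonneg hS0 (Real.exp_pos _).le)
  have hexp : Real.exp (-1) ≤ 1 / 2 := by
    have h1 := Real.add_one_le_exp (1 : ℝ)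
    rw [Real.exp_neg, inv_eq_one_div]
    apply one_div_le_one_div_of_le (by norm_num)
    linarith
  have hBd : ∀ y ≤ (-1 : ℝ), 0 ≤ PP ν y → |J y| ≤ |J (-1)| + S / 2 := by
    intro y hy hP
    have h1 := lipe h.d1 hy (fun x hx => hA x hx.2 (hP.trans (PP_mono ν hx.1))) hS0
    have h2 := mul_le_mul_of_nonneg_left hexp hS0
    linarith
  have hC : ∀ y ≤ (-1 : ℝ), |J y| ≤ |J (-1)| + S / 2 := by
    intro y hy
    rcases le_or_gt 0 (PP ν y) with hP | hP
    · exact hBd y hy hP
    · rcases le_or_gt (PP ν (-1)) 0 with hP1 | hP1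
      · have := forb hF hν h hy hP1
        linarith
      · have hν0 : 0 < ν := by
          rcases hν.lt_or_eq with h0 | h0
          · exact h0
          · exfalso
            unfold PP at hP
            rw [← h0] at hP
            have := Real.exp_pos (2 * y)
            linarith [hP]
        have hz := PP_log hν0
        have h1 : y ≤ Real.log ν := by
          by_contra hlt
          push Not at hlt
          have := PP_mono ν hlt.le
          linarith
        have h2 : Real.log ν ≤ -1 := by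
          by_contra hlt
          push Not at hlt
          have := PP_mono ν hlt.le
          linarith
        have h3 := forb hF hν h h1 hz.le
        have h4 := hBd _ h2 hz.ge
        linarith
  have hS1 : S ≤ |J (-1)| + S / 2 := by
    conv_lhs => rw [hSdef]
    have : Nonempty (Iic (-1 : ℝ)) := ⟨⟨-1, mem_Iic.mpr le_rfl⟩⟩
    exact ciSup_le fun y => hC y y.2
  intro x hx
  have := hS x hx
  linarith

/-- orders less than `1` -/
theorem small (hQ : T_QID) (hF : T_FOR) {ν : ℝ} {J J' : ℝ → ℝ} (hν : 0 ≤ ν) (hν1 : ν < 1)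
    (h : NSol ν J J') : Real.exp (xc ν) ≤ 6001 ∧ ∀ x ≤ xc ν, |J x| ≤ 4000000 := by
  obtain ⟨c, hc, hc3, he, hP1, hP2⟩ := par ν hν
  obtain ⟨hs1, hs2⟩ := start h hc hP1 hP2
  have hc2 : c ≤ 2 := by
    have : c ≤ c ^ 3 := by nlinarith [mul_nonneg (by linarith : 0 ≤ c) (by linarith : 0 ≤ c - 1)]
    linarith
  have hE : Real.exp (xc ν) ≤ 6001 := by
    rw [he]
    linarith
  refine ⟨hE, ?_⟩
  have hE2 : Real.exp (2 * xc ν) ≤ 6001 ^ 2 := by
    rw [two_mul, Real.exp_add]
    have := Real.exp_pos (xc ν)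
    nlinarith
  have hJc : J (xc ν) ^ 2 ≤ 1 := by
    have h1 : |J (xc ν)| ≤ 1 := hs2.trans (by
      rw [div_le_one (by linarith)]
      exact hc)
    rw [← sq_abs]
    exact pow_le_one₀ (abs_nonneg _) h1
  have hd : ∀ x ≤ xc ν, J' x ^ 2 ≤ 12800 + J x ^ 2 := by
    intro x hx
    have h1 := mono hQ hν h.sol hx
    have h2 := PP_ge ν x
    have h3 : ν ^ 2 ≤ 1 := by nlinarith
    have h4 : -(J x ^ 2) ≤ PP ν x * J x ^ 2 := by
      have := mul_le_mul_of_nonneg_right (by linarith : (-1 : ℝ) ≤ PP ν x) (sq_nonneg (J x))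
      linarith
    have h5 : c ^ 2 ≤ 4 := by nlinarith
    linarith
  have hmid : ∀ x, -1 ≤ x → x ≤ xc ν → |J x| ≤ 2000000 := by
    intro x hx1 hx2
    have hder : ∀ x, HasDerivAt (fun x => (J x ^ 2 + 6400) * Real.exp (2 * x))
        ((2 * (J x * J' x)) * Real.exp (2 * x) + (J x ^ 2 + 6400) * (2 * Real.exp (2 * x))) x := by
      intro x
      have h1 : HasDerivAt (fun x => J x ^ 2 + 6400) (2 * (J x * J' x)) x := by
        have h0 := ((h.sol.d1 x).fun_pow 2).add_const (6400 : ℝ)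
        refine h0.congr_deriv ?_
        push_cast
        ring
      exact h1.mul (expd x)
    have h1 := monoOn hx2 hder (fun y hy => by
      have h2 := hd y hy.2
      have h3 : 0 < Real.exp (2 * y) := Real.exp_pos _
      have h4 : 0 ≤ 2 * (J y * J' y) + 2 * (J y ^ 2 + 6400) := by
        nlinarith [sq_nonneg (J y + J' y)]
      have h5 : 2 * (J y * J' y) * Real.exp (2 * y) + (J y ^ 2 + 6400) * (2 * Real.exp (2 * y)) =
          (2 * (J y * J' y) + 2 * (J y ^ 2 + 6400)) * Real.exp (2 * y) := by ring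
      rw [h5]
      exact mul_nonneg h4 h3.le)
    have h2 : (1 : ℝ) / 8 ≤ Real.exp (2 * x) := by
      have h3 : Real.exp (2 * (-1)) ≤ Real.exp (2 * x) := Real.exp_le_exp.mpr (by linarith)
      refine le_trans ?_ h3
      have h4 : (2 * (-1) : ℝ) = -(1 + 1) := by norm_num
      rw [h4, Real.exp_neg, Real.exp_add, inv_eq_one_div]
      apply one_div_le_one_div_of_le
      · positivity
      · have h5 := Real.exp_one_lt_d9
        have h6 := Real.exp_pos 1
        nlinarith
    have h3 : (J x ^ 2 + 6400) * (1 / 8) ≤ 6401 * 6001 ^ 2 := by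
      have a1 : (J x ^ 2 + 6400) * (1 / 8) ≤ (J x ^ 2 + 6400) * Real.exp (2 * x) :=
        mul_le_mul_of_nonneg_left h2 (by positivity)
      have a2 : (J (xc ν) ^ 2 + 6400) * Real.exp (2 * xc ν) ≤ 6401 * 6001 ^ 2 :=
        mul_le_mul (by linarith) hE2 (Real.exp_pos _).le (by norm_num)
      linarith
    apply abs_le_of_sq_le_sq _ (by norm_num)
    linarith
  have hxc : -1 ≤ xc ν := by
    by_contra hlt
    push Not at hlt
    have h1 : Real.exp (xc ν) ≤ 1 := Real.exp_le_one_iff.mpr (by linarith)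
    rw [he] at h1
    linarith
  intro x hx
  rcases le_or_gt (-1) x with h1 | h1
  · have := hmid x h1 hx
    linarith
  · have h2 := left hQ hF hν h.sol x h1.le
    have h3 := hmid (-1) le_rfl hxc
    linarith

/-- orders at least `1`: between `log ν` and `xc ν` -/
theorem mid (hQ : T_QID) {ν : ℝ} {J J' : ℝ → ℝ} (hν : 1 ≤ ν) (h : NSol ν J J') {c : ℝ}
    (hc : 1 ≤ c) (hc3 : c ^ 3 = 1 + ν) (he : Real.exp (xc ν) = ν + 3000 * c)
    (hP1 : c ^ 4 ≤ PP ν (xc ν)) (hP2 : PP ν (xc ν) ≤ 10 ^ 7 * c ^ 4) :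
    Real.log ν ≤ xc ν ∧ xc ν - Real.log ν ≤ 6000 / c ^ 2 ∧
    ∀ x, Real.log ν ≤ x → x ≤ xc ν → |J x| ≤ 342001 / c := by
  obtain ⟨hs1, hs2⟩ := start h hc hP1 hP2
  have hν0 : 0 < ν := by linarith
  have hc0 : 0 < c := by linarith
  have hb : Real.log ν ≤ xc ν := by
    rw [Real.log_le_iff_le_exp hν0, he]
    linarith
  have hlen : xc ν - Real.log ν ≤ 6000 / c ^ 2 := by
    have h1 : Real.exp (xc ν) = ν * Real.exp (xc ν - Real.log ν) := by
      rw [Real.exp_sub, Real.exp_log hν0]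
      field_simp
    have h2 := Real.add_one_le_exp (xc ν - Real.log ν)
    have h3 := mul_le_mul_of_nonneg_left h2 hν0.le
    rw [← h1, he] at h3
    rw [le_div_iff₀ (by positivity)]
    have h4 : ν * (xc ν - Real.log ν) ≤ 3000 * c := by linarith
    have h5 : c ^ 3 * (xc ν - Real.log ν) ≤ 6000 * c := by
      have h6 : c ^ 3 ≤ 2 * ν := by linarith
      have h7 : 0 ≤ xc ν - Real.log ν := by linarith
      have := mul_le_mul_of_nonneg_right h6 h7
      linarith
    have h8 : c ^ 3 * (xc ν - Real.log ν) = (xc ν - Real.log ν) * c ^ 2 * c := by ring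
    rw [h8] at h5
    exact le_of_mul_le_mul_right h5 hc0
  refine ⟨hb, hlen, ?_⟩
  intro x hx1 hx2
  have hd : ∀ y ∈ Icc x (xc ν), |J' y| ≤ 57 * c := by
    intro y hy
    have h1 := mono hQ (by linarith) h.sol hy.2
    have h2 : 0 ≤ PP ν y := by
      rw [← PP_log hν0]
      exact PP_mono ν (hx1.trans hy.1)
    have h3 : 0 ≤ PP ν y * J y ^ 2 := mul_nonneg h2 (sq_nonneg _)
    apply abs_le_of_sq_le_sq _ (by positivity)
    have h4 : (57 * c) ^ 2 = 3249 * c ^ 2 := by ring
    rw [h4]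
    have h5 : 0 ≤ c ^ 2 := by positivity
    linarith
  have h1 := lipc h.sol.d1 hx2 hd
  have h2 : 57 * c * (xc ν - x) ≤ 342000 / c := by
    have h3 : xc ν - x ≤ 6000 / c ^ 2 := by linarith
    have h4 := mul_le_mul_of_nonneg_left h3 (by positivity : 0 ≤ 57 * c)
    have h5 : 57 * c * (6000 / c ^ 2) = 342000 / c := by
      field_simp
      norm_num
    linarith
  have h6 : (342001 : ℝ) / c = 1 / c + 342000 / c := by ring
  rw [h6]
  linarith

/-- orders at least `1`: left of `log ν` -/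
theorem far (hF : T_FOR) {ν : ℝ} {J J' : ℝ → ℝ} (hν : 1 ≤ ν) (h : Sol ν J J') {c : ℝ}
    (hc : 1 ≤ c) (hc3 : c ^ 3 = 1 + ν) (x : ℝ) (hx : x ≤ Real.log ν) :
    |J x| ≤ |J (Real.log ν)| * Real.exp ((1 - c ^ 2 * (Real.log ν - x)) / 3) := by
  have hν0 : 0 < ν := by linarith
  have hc0 : 0 < c := by linarith
  obtain ⟨b, hb⟩ : ∃ b : ℝ, b = Real.log ν := ⟨_, rfl⟩
  rw [← hb] at hx ⊢
  have hPb : PP ν b = 0 := by
    rw [hb]
    exact PP_log hν0
  have hexpb : Real.exp b = ν := by
    rw [hb]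
    exact Real.exp_log hν0
  obtain ⟨y, hy⟩ : ∃ y : ℝ, y = b - 1 / c ^ 2 := ⟨_, rfl⟩
  have hyb : y ≤ b := by
    rw [hy]
    have : 0 < 1 / c ^ 2 := by positivity
    linarith
  rcases le_or_gt x y with hxy | hxy
  · have h1 := hF ν J J' x y (by linarith) h hxy (hPb ▸ PP_mono ν hyb)
    have h2 := forb hF (by linarith) h hyb hPb.le
    have h3 : (y - x) * (c ^ 2 / 3) ≤ ∫ s in x..y, Real.sqrt (-(PP ν s)) := by
      have a1 : ∫ s in x..y, (c ^ 2 / 3 : ℝ) ≤ ∫ s in x..y, Real.sqrt (-(PP ν s)) := by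
        apply intervalIntegral.integral_mono_on hxy (continuous_const.intervalIntegrable _ _)
        · apply Continuous.intervalIntegrable
          unfold PP
          fun_prop
        · intro s hs
          apply Real.le_sqrt_of_sq_le
          have b1 : Real.exp (2 * s) ≤ Real.exp (2 * y) := Real.exp_le_exp.mpr (by linarith [hs.2])
          have b2 : Real.exp (2 * y) = ν ^ 2 * Real.exp (-(2 / c ^ 2)) := by
            rw [← hexpb, ← Real.exp_nat_mul, ← Real.exp_add, hy]
            congr 1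
            push_cast
            ring
          have b3 : Real.exp (-(2 / c ^ 2)) ≤ 1 - (2 / 3) / c ^ 2 := by
            have d1 := Real.add_one_le_exp (2 / c ^ 2)
            have d2 : 0 < 2 / c ^ 2 + 1 := by positivity
            rw [Real.exp_neg]
            have d3 : (Real.exp (2 / c ^ 2))⁻¹ ≤ (2 / c ^ 2 + 1)⁻¹ := inv_anti₀ d2 d1
            refine d3.trans ?_
            have d4 : (2 / c ^ 2 + 1)⁻¹ = 1 - 2 / (c ^ 2 + 2) := by
              field_simp
              ring
            rw [d4]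
            have d5 : (2 / 3) / c ^ 2 ≤ 2 / (c ^ 2 + 2) := by
              rw [div_le_div_iff₀ (by positivity) (by positivity)]
              have : 1 ≤ c ^ 2 := by nlinarith
              nlinarith
            linarith
          have b4 : ν ^ 2 * Real.exp (-(2 / c ^ 2)) ≤ ν ^ 2 * (1 - (2 / 3) / c ^ 2) :=
            mul_le_mul_of_nonneg_left b3 (sq_nonneg _)
          have b5 : (c ^ 3 / 2) ^ 2 ≤ ν ^ 2 := by
            apply pow_le_pow_left₀ (by positivity)
            linarith
          have b6 : (c ^ 2 / 3) ^ 2 ≤ ν ^ 2 * ((2 / 3) / c ^ 2) := by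
            have d1 : (c ^ 3 / 2) ^ 2 * ((2 / 3) / c ^ 2) ≤ ν ^ 2 * ((2 / 3) / c ^ 2) :=
              mul_le_mul_of_nonneg_right b5 (by positivity)
            refine le_trans ?_ d1
            have d2 : (c ^ 3 / 2) ^ 2 * ((2 / 3) / c ^ 2) = c ^ 4 / 6 := by
              field_simp
              ring
            rw [d2]
            have d3 : 0 ≤ c ^ 4 := by positivity
            have d4 : (c ^ 2 / 3) ^ 2 = c ^ 4 / 9 := by ring
            rw [d4]
            linarith
          show (c ^ 2 / 3) ^ 2 ≤ -(PP ν s)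
          unfold PP
          linarith
      rw [intervalIntegral.integral_const, smul_eq_mul] at a1
      exact a1
    have h4 : Real.exp (-∫ s in x..y, Real.sqrt (-(PP ν s))) ≤
        Real.exp ((1 - c ^ 2 * (b - x)) / 3) := by
      apply Real.exp_le_exp.mpr
      have h5 : (1 - c ^ 2 * (b - x)) / 3 = -((y - x) * (c ^ 2 / 3)) := by
        rw [hy]
        field_simp
        ring
      rw [h5]
      linarith
    exact h1.trans (mul_le_mul h2 h4 (Real.exp_pos _).le (abs_nonneg _))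
  · have h2 := forb hF (by linarith) h hx hPb.le
    refine h2.trans (le_mul_of_one_le_right (abs_nonneg _) ?_)
    apply Real.one_le_exp
    have h3 : c ^ 2 * (b - x) ≤ 1 := by
      have h4 : b - x ≤ 1 / c ^ 2 := by
        rw [hy] at hxy
        linarith
      calc c ^ 2 * (b - x) ≤ c ^ 2 * (1 / c ^ 2) :=
            mul_le_mul_of_nonneg_left h4 (by positivity)
        _ = 1 := by field_simp
    linarith

theorem kap_enorm (J : ℝ → ℝ) (x : ℝ) : ‖kap J x‖ₑ = ENNReal.ofReal (Real.exp x * |J x|) := by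
  unfold kap
  rw [← ofReal_norm, Complex.norm_real, Real.norm_eq_abs, abs_mul, Real.abs_exp]

end LOW_

open LOW_ in
theorem p_LOW (_h1 : T_SEQ) (_h2 : T_INF) (h3 : T_QID) (h4 : T_FOR) : T_LOW := by
  refine ⟨Real.toNNReal (10 ^ 13), ?_⟩
  intro ν J J' hν h
  show ∫⁻ x in Iic (xc ν), ‖kap J x‖ₑ ≤ ENNReal.ofReal (10 ^ 13)
  rcases lt_or_ge ν 1 with hν1 | hν1
  · obtain ⟨hE, hb⟩ := small h3 h4 hν hν1 h
    calc ∫⁻ x in Iic (xc ν), ‖kap J x‖ₑ
        ≤ ∫⁻ x in Iic (xc ν), ENNReal.ofReal (4000000 * Real.exp (1 * x)) := by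
          apply setLIntegral_mono' measurableSet_Iic
          intro x hx
          rw [kap_enorm]
          apply ENNReal.ofReal_le_ofReal
          rw [one_mul, mul_comm]
          exact mul_le_mul_of_nonneg_right (hb x hx) (Real.exp_pos _).le
      _ = ENNReal.ofReal (4000000 * (Real.exp (1 * xc ν) / 1)) := lint (by norm_num) one_pos
      _ ≤ ENNReal.ofReal (10 ^ 13) := by
          apply ENNReal.ofReal_le_ofReal
          rw [one_mul, div_one]
          linarith
  · obtain ⟨c, hc, hc3, he, hP1, hP2⟩ := par ν hν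
    obtain ⟨hb, hlen, hmid⟩ := mid h3 hν1 h hc hc3 he hP1 hP2
    have hfar := far h4 hν1 h.sol hc hc3
    have hν0 : 0 < ν := by linarith
    have hc0 : 0 < c := by linarith
    obtain ⟨b, hbd⟩ : ∃ b : ℝ, b = Real.log ν := ⟨_, rfl⟩
    rw [← hbd] at hb hlen hmid hfar
    have hexpb : Real.exp b = ν := by
      rw [hbd]
      exact Real.exp_log hν0
    have hJb : |J b| ≤ 342001 / c := hmid b le_rfl hb
    have hI : ∫⁻ x in Iic b, ‖kap J x‖ₑ ≤ ENNReal.ofReal 3000000 := by
      have hm : 0 < c ^ 2 / 3 := by positivity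
      obtain ⟨K, hK⟩ : ∃ K : ℝ, K = ν * (342001 / c) * Real.exp ((1 - c ^ 2 * b) / 3) := ⟨_, rfl⟩
      have hK0 : 0 ≤ K := by
        rw [hK]
        positivity
      calc ∫⁻ x in Iic b, ‖kap J x‖ₑ
          ≤ ∫⁻ x in Iic b, ENNReal.ofReal (K * Real.exp (c ^ 2 / 3 * x)) := by
            apply setLIntegral_mono' measurableSet_Iic
            intro x hx
            rw [kap_enorm]
            apply ENNReal.ofReal_le_ofReal
            have a1 := hfar x hx
            have a2 : |J x| ≤ 342001 / c * Real.exp ((1 - c ^ 2 * (b - x)) / 3) :=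
              a1.trans (mul_le_mul_of_nonneg_right hJb (Real.exp_pos _).le)
            have a3 : Real.exp x ≤ ν := by
              rw [← hexpb]
              exact Real.exp_le_exp.mpr hx
            have a4 := mul_le_mul a3 a2 (abs_nonneg _) hν0.le
            refine a4.trans (le_of_eq ?_)
            rw [hK]
            have a5 : (1 - c ^ 2 * (b - x)) / 3 = (1 - c ^ 2 * b) / 3 + c ^ 2 / 3 * x := by ring
            rw [a5, Real.exp_add]
            ring
        _ = ENNReal.ofReal (K * (Real.exp (c ^ 2 / 3 * b) / (c ^ 2 / 3))) := lint hK0 hm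
        _ ≤ ENNReal.ofReal 3000000 := by
            apply ENNReal.ofReal_le_ofReal
            have a1 : K * (Real.exp (c ^ 2 / 3 * b) / (c ^ 2 / 3)) =
                3 * 342001 * Real.exp (1 / 3) * (ν / c ^ 3) := by
              rw [hK]
              have a2 : Real.exp (1 / 3) = Real.exp ((1 - c ^ 2 * b) / 3) *
                  Real.exp (c ^ 2 / 3 * b) := by
                rw [← Real.exp_add]
                congr 1
                ring
              rw [a2]
              field_simp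
            rw [a1]
            have a3 : ν / c ^ 3 ≤ 1 := by
              rw [div_le_one (by positivity)]
              linarith
            have a4 : Real.exp (1 / 3) ≤ 2.8 := by
              have d1 : Real.exp (1 / 3) ≤ Real.exp 1 := Real.exp_le_exp.mpr (by norm_num)
              have d2 := Real.exp_one_lt_d9
              linarith
            have a5 : 0 ≤ ν / c ^ 3 := by positivity
            have a6 := Real.exp_pos (1 / 3)
            have a7 : Real.exp (1 / 3) * (ν / c ^ 3) ≤ 2.8 * 1 :=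
              mul_le_mul a4 a3 a5 (by norm_num)
            nlinarith
    have hII : ∫⁻ x in Icc b (xc ν), ‖kap J x‖ₑ ≤ ENNReal.ofReal (7 * 10 ^ 12) := by
      calc ∫⁻ x in Icc b (xc ν), ‖kap J x‖ₑ
          ≤ ∫⁻ _x in Icc b (xc ν), ENNReal.ofReal ((3001 * c ^ 3) * (342001 / c)) := by
            apply setLIntegral_mono' measurableSet_Icc
            intro x hx
            rw [kap_enorm]
            apply ENNReal.ofReal_le_ofReal
            have a1 : Real.exp x ≤ 3001 * c ^ 3 := by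
              have d1 : Real.exp x ≤ Real.exp (xc ν) := Real.exp_le_exp.mpr hx.2
              rw [he] at d1
              have d2 : c ≤ c ^ 3 := by
                nlinarith [mul_nonneg hc0.le (by linarith : 0 ≤ c - 1)]
              linarith
            exact mul_le_mul a1 (hmid x hx.1 hx.2) (abs_nonneg _) (by positivity)
        _ = ENNReal.ofReal ((3001 * c ^ 3) * (342001 / c)) * ENNReal.ofReal (xc ν - b) := by
            rw [setLIntegral_const, Real.volume_Icc]
        _ = ENNReal.ofReal ((3001 * c ^ 3) * (342001 / c) * (xc ν - b)) := by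
            rw [← ENNReal.ofReal_mul (by positivity)]
        _ ≤ ENNReal.ofReal (7 * 10 ^ 12) := by
            apply ENNReal.ofReal_le_ofReal
            have a1 := mul_le_mul_of_nonneg_left hlen
              (by positivity : 0 ≤ (3001 * c ^ 3) * (342001 / c))
            refine a1.trans ?_
            have a2 : 3001 * c ^ 3 * (342001 / c) * (6000 / c ^ 2) = 3001 * 342001 * 6000 := by
              field_simp
            rw [a2]
            norm_num
    calc ∫⁻ x in Iic (xc ν), ‖kap J x‖ₑ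
        ≤ ∫⁻ x in Iic b ∪ Icc b (xc ν), ‖kap J x‖ₑ := by
          apply lintegral_mono_set
          intro x hx
          rcases le_or_gt x b with h5 | h5
          · exact Or.inl h5
          · exact Or.inr ⟨h5.le, hx⟩
      _ ≤ (∫⁻ x in Iic b, ‖kap J x‖ₑ) + ∫⁻ x in Icc b (xc ν), ‖kap J x‖ₑ :=
          lintegral_union_le _ _ _
      _ ≤ ENNReal.ofReal 3000000 + ENNReal.ofReal (7 * 10 ^ 12) := add_le_add hI hII
      _ = ENNReal.ofReal (3000000 + 7 * 10 ^ 12) := by
          rw [ENNReal.ofReal_add (by norm_num) (by norm_num)]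
      _ ≤ ENNReal.ofReal (10 ^ 13) := ENNReal.ofReal_le_ofReal (by norm_num)

end Pool.Agent.CRR
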