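import Pool.Agent.CRR.Targets
import Pool.Agent.CRN.P_ADFN
import Pool.Agent.CRN.P_HELN

set_option autoImplicit false

/-!
# CRR, SYM: the angular Laplacian is symmetric and `≤ 0`
-/

namespace Pool.Agent.CRR

open MeasureTheory FourierTransform Set Filter Topology
open scoped ENNReal NNReal ComplexConjugate
open Pool.Agent.MBS (E ex S Sstar)
open Pool.Agent.CAR (e1)
open Pool.Agent.CRN (IN sg rt Lam SH S1 Nice T_CARLS L2)

namespace SYM_

open Pool.Agent.CRN.ADFN_ (rt_rt rt_zero rtL sm sm_continuous sm_pres rt_apply)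
open Pool.Agent.CRN.HELN_ (int_hda int_of_cont)

variable {n : ℕ}

/-- the sphere -/
abbrev Sp (n : ℕ) : Type := Metric.sphere (0 : E n) 1

/-- the generator of the rotations -/
noncomputable def A (i j : Fin n) (y : E n) : E n :=
  WithLp.toLp 2 (fun k => if k = i then -y j else if k = j then y i else 0)

/-- the projection to the plane -/
noncomputable def Bp (i j : Fin n) (y : E n) : E n :=
  WithLp.toLp 2 (fun k => if k = i then y i else if k = j then y j else 0)

theorem rt_eq (i j : Fin n) (φ : ℝ) (y : E n) :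
    rt i j φ y = y + (Real.cos φ - 1) • Bp i j y + Real.sin φ • A i j y := by
  ext k
  rw [rt_apply]
  simp only [PiLp.add_apply, PiLp.smul_apply, smul_eq_mul, A, Bp]
  split_ifs with h1 h2
  · rw [h1]; ring
  · rw [h2]; ring
  · ring

theorem rt_hd (i j : Fin n) (y : E n) : HasDerivAt (fun φ : ℝ => rt i j φ y) (A i j y) 0 := by
  have h1 : HasDerivAt (fun φ : ℝ => y + (Real.cos φ - 1) • Bp i j y + Real.sin φ • A i j y)
      ((-Real.sin 0) • Bp i j y + Real.cos 0 • A i j y) 0 :=
    ((((Real.hasDerivAt_cos 0).sub_const 1).smul_const (Bp i j y)).const_add y).add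
      ((Real.hasDerivAt_sin 0).smul_const (A i j y))
  rw [Real.sin_zero, neg_zero, zero_smul, Real.cos_zero, one_smul, zero_add] at h1
  refine h1.congr_of_eventuallyEq (Eventually.of_forall fun φ => ?_)
  exact rt_eq i j φ y

theorem A_cd (i j : Fin n) (m : WithTop ℕ∞) : ContDiff ℝ m (A i j : E n → E n) := by
  rw [contDiff_euclidean]
  intro k
  simp only [A, PiLp.toLp_apply]
  split_ifs <;> fun_prop

/-- the derivative along the orbits -/
noncomputable def D (i j : Fin n) (u : E n → ℂ) (x : E n) : ℂ := fderiv ℝ u x (A i j x)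

theorem D_cont (i j : Fin n) {u : E n → ℂ} (hu : ContDiff ℝ 1 u) : Continuous (D i j u) := by
  unfold D
  exact (hu.continuous_fderiv one_ne_zero).clm_apply (A_cd i j 1).continuous

theorem D_cd (i j : Fin n) {u : E n → ℂ} (hu : ContDiff ℝ 2 u) : ContDiff ℝ 1 (D i j u) := by
  unfold D
  exact (hu.fderiv_right (m := 1) (by norm_num)).clm_apply (A_cd i j 1)

theorem orb {i j : Fin n} (h : i ≠ j) {u : E n → ℂ} (hu : ContDiff ℝ 1 u) (x : E n) (φ : ℝ) :
    HasDerivAt (fun φ : ℝ => u (rt i j φ x)) (D i j u (rt i j φ x)) φ := by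
  have h0 : HasDerivAt (fun s : ℝ => u (rt i j s (rt i j φ x))) (D i j u (rt i j φ x)) 0 := by
    have h1 : HasFDerivAt u (fderiv ℝ u (rt i j φ x)) (rt i j 0 (rt i j φ x)) := by
      rw [rt_zero]
      exact (hu.differentiable one_ne_zero _).hasFDerivAt
    exact h1.comp_hasDerivAt (0 : ℝ) (rt_hd i j (rt i j φ x))
  have h2 : HasDerivAt (fun t : ℝ => t - φ) 1 φ := (hasDerivAt_id φ).sub_const φ
  have h3 : HasDerivAt (fun s : ℝ => u (rt i j s (rt i j φ x))) (D i j u (rt i j φ x))
      (φ - φ) := by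
    rw [sub_self]
    exact h0
  have h4 := HasDerivAt.scomp (h := fun t : ℝ => t - φ) (h' := 1) φ h3 h2
  rw [one_smul] at h4
  refine h4.congr_of_eventuallyEq (Eventually.of_forall fun t => ?_)
  change u (rt i j t x) = u (rt i j (t - φ) (rt i j φ x))
  rw [rt_rt h, sub_add_cancel]

theorem rt_cont (i j : Fin n) : Continuous (fun p : ℝ × E n => rt i j p.1 p.2) := by
  simp only [rt_eq]
  have hA : Continuous (A i j : E n → E n) := (A_cd i j 1).continuous
  have hB : Continuous (Bp i j : E n → E n) := by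
    have : ContDiff ℝ 1 (Bp i j : E n → E n) := by
      rw [contDiff_euclidean]
      intro k
      simp only [Bp, PiLp.toLp_apply]
      split_ifs <;> fun_prop
    exact this.continuous
  exact (continuous_snd.add (((Real.continuous_cos.comp continuous_fst).sub
    continuous_const).smul (hB.comp continuous_snd))).add
      ((Real.continuous_sin.comp continuous_fst).smul (hA.comp continuous_snd))

/-- the integral of a derivative along the orbits is zero -/
theorem zero_int {i j : Fin n} (h : i ≠ j) {g gd : E n → ℂ} (hg : Continuous g)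
    (hgd : Continuous gd)
    (hd : ∀ (x : E n) (φ : ℝ), HasDerivAt (fun φ : ℝ => g (rt i j φ x)) (gd (rt i j φ x)) φ) :
    ∫ θ : Sp n, gd (θ : E n) ∂(sg n) = 0 := by
  have hr : Continuous (fun p : ℝ × Sp n => rt i j p.1 (p.2 : E n)) :=
    Continuous.comp (g := fun p : ℝ × E n => rt i j p.1 p.2)
      (f := fun p : ℝ × Sp n => ((p.1, (p.2 : E n)) : ℝ × E n)) (rt_cont i j)
      (continuous_fst.prodMk (continuous_subtype_val.comp continuous_snd))
  have c1 : Continuous (fun p : ℝ × Sp n => g (rt i j p.1 (p.2 : E n))) :=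
    Continuous.comp (g := g) (f := fun p : ℝ × Sp n => rt i j p.1 (p.2 : E n)) hg hr
  have c2 : Continuous (fun p : ℝ × Sp n => gd (rt i j p.1 (p.2 : E n))) :=
    Continuous.comp (g := gd) (f := fun p : ℝ × Sp n => rt i j p.1 (p.2 : E n)) hgd hr
  have c3 : ∀ (s : ℝ) (θ : Sp n), HasDerivAt (fun s => g (rt i j s (θ : E n)))
      (gd (rt i j s (θ : E n))) s := fun s θ => hd (θ : E n) s
  have h1 : HasDerivAt (fun φ : ℝ => ∫ θ : Sp n, g (rt i j φ (θ : E n)) ∂(sg n))
      (∫ θ : Sp n, gd (rt i j 0 (θ : E n)) ∂(sg n)) 0 :=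
    int_hda (F := fun (φ : ℝ) (θ : Sp n) => g (rt i j φ (θ : E n)))
      (F' := fun (φ : ℝ) (θ : Sp n) => gd (rt i j φ (θ : E n))) c1 c2 c3 0
  have h2 : (fun φ : ℝ => ∫ θ : Sp n, g (rt i j φ (θ : E n)) ∂(sg n)) =
      fun _ => ∫ θ : Sp n, g (θ : E n) ∂(sg n) := by
    funext φ
    have hp := sm_pres (rtL h φ)
    have h3 : ∫ θ : Sp n, g (θ : E n) ∂(Measure.map (sm (rtL h φ)) (sg n)) =
        ∫ θ : Sp n, g ((sm (rtL h φ) θ : Sp n) : E n) ∂(sg n) := by
      apply integral_map (sm_continuous _).measurable.aemeasurable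
      exact (hg.comp continuous_subtype_val).aestronglyMeasurable
    rw [hp.map_eq] at h3
    rw [h3]
    rfl
  rw [h2] at h1
  have h4 := h1.unique (hasDerivAt_const (0 : ℝ) (∫ θ : Sp n, g (θ : E n) ∂(sg n)))
  rw [← h4]
  refine integral_congr_ae (ae_of_all _ fun θ => ?_)
  simp only [rt_zero]

theorem L2_eq {i j : Fin n} (h : i ≠ j) {u : E n → ℂ} (hu : ContDiff ℝ 2 u) (x : E n) :
    L2 i j u x = D i j (D i j u) x := by
  unfold L2
  have h1 : deriv (fun φ : ℝ => u (rt i j φ x)) = fun φ => D i j u (rt i j φ x) := by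
    funext φ
    exact (orb h (hu.of_le (by norm_num)) x φ).deriv
  rw [h1, (orb h (D_cd i j hu) x 0).deriv, rt_zero]

theorem ibp {i j : Fin n} (h : i ≠ j) {u v : E n → ℂ} (hu : ContDiff ℝ 1 u)
    (hv : ContDiff ℝ 1 v) :
    ∫ θ : Sp n, D i j u (θ : E n) * conj (v (θ : E n)) ∂(sg n) =
      -∫ θ : Sp n, u (θ : E n) * conj (D i j v (θ : E n)) ∂(sg n) := by
  have hc : Continuous (conj : ℂ → ℂ) := Complex.continuous_conj
  have c1 : Continuous (fun x : E n => D i j u x * conj (v x)) :=
    (D_cont i j hu).mul (hc.comp hv.continuous)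
  have c2 : Continuous (fun x : E n => u x * conj (D i j v x)) :=
    hu.continuous.mul (hc.comp (D_cont i j hv))
  have h1 := zero_int h (g := fun x => u x * conj (v x))
    (gd := fun x => D i j u x * conj (v x) + u x * conj (D i j v x))
    (hu.continuous.mul (hc.comp hv.continuous)) (c1.add c2) (fun x φ => by
      have h2 := orb h hu x φ
      have h3 := orb h hv x φ
      exact h2.mul h3.star)
  have e1 : Integrable (fun θ : Sp n => D i j u (θ : E n) * conj (v (θ : E n))) (sg n) :=
    int_of_cont (c1.comp continuous_subtype_val)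
  have e2 : Integrable (fun θ : Sp n => u (θ : E n) * conj (D i j v (θ : E n))) (sg n) :=
    int_of_cont (c2.comp continuous_subtype_val)
  rw [integral_add e1 e2] at h1
  exact eq_neg_of_add_eq_zero_left h1

theorem one {i j : Fin n} (h : i ≠ j) {F G : E n → ℂ} (hF : ContDiff ℝ 2 F)
    (hG : ContDiff ℝ 2 G) :
    ∫ θ : Sp n, L2 i j F (θ : E n) * conj (G (θ : E n)) ∂(sg n) =
      -∫ θ : Sp n, D i j F (θ : E n) * conj (D i j G (θ : E n)) ∂(sg n) := by
  simp only [L2_eq h hF]
  exact ibp h (D_cd i j hF) (hG.of_le (by norm_num))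

theorem two {i j : Fin n} (h : i ≠ j) {F G : E n → ℂ} (hF : ContDiff ℝ 2 F)
    (hG : ContDiff ℝ 2 G) :
    ∫ θ : Sp n, F (θ : E n) * conj (L2 i j G (θ : E n)) ∂(sg n) =
      -∫ θ : Sp n, D i j F (θ : E n) * conj (D i j G (θ : E n)) ∂(sg n) := by
  simp only [L2_eq h hG]
  rw [ibp h (hF.of_le (by norm_num)) (D_cd i j hG), neg_neg]

theorem L2_cont {i j : Fin n} (h : i ≠ j) {F : E n → ℂ} (hF : ContDiff ℝ 2 F) :
    Continuous (L2 i j F) := by
  have : L2 i j F = D i j (D i j F) := funext fun x => L2_eq h hF x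
  rw [this]
  exact D_cont i j (D_cd i j hF)

theorem sum1 {F G : E n → ℂ} (hF : ContDiff ℝ 2 F) (hG : ContDiff ℝ 2 G) :
    ∫ θ : Sp n, Lam F (θ : E n) * conj (G (θ : E n)) ∂(sg n) =
      ∑ i : Fin n, ∑ j : Fin n, if i < j then
        ∫ θ : Sp n, L2 i j F (θ : E n) * conj (G (θ : E n)) ∂(sg n) else 0 := by
  have hi : ∀ i j : Fin n, Integrable (fun θ : Sp n =>
      (if i < j then L2 i j F (θ : E n) else 0) * conj (G (θ : E n))) (sg n) := by
    intro i j
    split_ifs with h
    · exact int_of_cont (((L2_cont h.ne hF).mul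
        (Complex.continuous_conj.comp hG.continuous)).comp continuous_subtype_val)
    · simp
  unfold Lam
  simp only [Finset.sum_mul]
  rw [integral_finsetSum _ fun i _ => integrable_finsetSum _ fun j _ => hi i j]
  refine Finset.sum_congr rfl fun i _ => ?_
  rw [integral_finsetSum _ fun j _ => hi i j]
  refine Finset.sum_congr rfl fun j _ => ?_
  split_ifs with h
  · rfl
  · simp

theorem sum2 {F G : E n → ℂ} (hF : ContDiff ℝ 2 F) (hG : ContDiff ℝ 2 G) :
    ∫ θ : Sp n, F (θ : E n) * conj (Lam G (θ : E n)) ∂(sg n) =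
      ∑ i : Fin n, ∑ j : Fin n, if i < j then
        ∫ θ : Sp n, F (θ : E n) * conj (L2 i j G (θ : E n)) ∂(sg n) else 0 := by
  have hi : ∀ i j : Fin n, Integrable (fun θ : Sp n =>
      F (θ : E n) * conj (if i < j then L2 i j G (θ : E n) else 0)) (sg n) := by
    intro i j
    split_ifs with h
    · exact int_of_cont ((hF.continuous.mul
        (Complex.continuous_conj.comp (L2_cont h.ne hG))).comp continuous_subtype_val)
    · simp
  unfold Lam
  simp only [map_sum, Finset.mul_sum]
  rw [integral_finsetSum _ fun i _ => integrable_finsetSum _ fun j _ => hi i j]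
  refine Finset.sum_congr rfl fun i _ => ?_
  rw [integral_finsetSum _ fun j _ => hi i j]
  refine Finset.sum_congr rfl fun j _ => ?_
  split_ifs with h
  · rfl
  · simp

end SYM_

open SYM_ in
theorem p_SYM : T_SYM := by
  intro n F G _ hF hG
  constructor
  · rw [sum1 hF hG, sum2 hF hG]
    refine Finset.sum_congr rfl fun i _ => Finset.sum_congr rfl fun j _ => ?_
    split_ifs with h
    · rw [one h.ne hF hG, two h.ne hF hG]
    · rfl
  · rw [sum1 hF hF, Complex.re_sum]
    refine Finset.sum_nonpos fun i _ => ?_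
    rw [Complex.re_sum]
    refine Finset.sum_nonpos fun j _ => ?_
    split_ifs with h
    · rw [one h.ne hF hF, Complex.neg_re, neg_nonpos]
      have hc : ∀ θ : Sp n, D i j F (θ : E n) * conj (D i j F (θ : E n)) =
          ((Complex.normSq (D i j F (θ : E n)) : ℝ) : ℂ) := fun θ => Complex.mul_conj _
      simp only [hc]
      rw [integral_complex_ofReal, Complex.ofReal_re]
      exact integral_nonneg fun θ => Complex.normSq_nonneg _
    · simp

end Pool.Agent.CRR
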