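import Pool.Agent.CRR.Defs

set_option autoImplicit false

/-!
# CRR: the Carleson theorem for the Hankel transform, uniformly in the order: targets

Every target `T_X` is to be proved as `theorem p_X : T_X` (other targets may be taken as hypotheses) in a
NEW file `Pool/Agent/CRR/P_X.lean` importing this one, namespace `Pool.Agent.CRR`, helper lemmas in
the sub-namespace `X_`. Landed and usable: everything in `Pool/Agent/CRN/P_*.lean` (polar coordinates `T_POLN`, `T_AHN`,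
`T_DSN`, `T_HELN`, `T_RAYN`), Abel summation `Pool.Agent.CRL.T_ABL` (`CRL/P_ABL.lean`), Plancherel
`Pool.Agent.H25.Plancherel.eLpNorm_fourier_eq`. In the proofs `P = PP ν x`, `a_k = aa ν k`, `δ_k = de ν k`,
`λ_k = la ν k`, `σ_k = si ν k`, `w_k = ww ν k`, `M_k = λ_k δ_k²`, `q = 9/10`, `|k-j|` = `k - j + (j - k)` in `ℕ`.
-/

namespace Pool.Agent.CRR

open MeasureTheory FourierTransform Set Filter Topology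
open scoped ENNReal NNReal ComplexConjugate
open Pool.Agent.MBS (E ex S Sstar)
open Pool.Agent.CAR (e1)
open Pool.Agent.CRN (IN sg rt Lam SH S1 Nice T_CARLS T_RAYN T_POLN T_AHN T_DSN T_HELN)

/-! ### A. Bessel's equation -/

/-- **SEQ** (60 min): the parameters. (1) for `x ≥ xc`: `100 e^{4x/3} ≤ P`. Let `t = e^x ≥ ν + 3000(1+ν)^{1/3} ≥ 3000`. If
`t ≤ 2(1+ν)`: `t - ν ≥ 3000 (t/2)^{1/3} ≥ 2000 t^{1/3}`; if `t > 2(1+ν)`: `t²-ν² ≥ 3t²/4`, `t^{2/3} ≥ 200`.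
(2) `P(a_k) = 2 e^{2a_k} δ_k`, `σ_k = √P(a_k)/2`, `M_k = P^{3/2} e^{-2a_k}/4 ≥ 250`. With `d = 2δ_k ∈ (0,1]`:
`P(a_{k+1})/P(a_k) = 1 + (e^d-1)/d ∈ [2, e]`, `M_{k+1}/M_k = (1+(e^d-1)/d)^{3/2} e^{-d} ≥ (2+d/2)^{3/2} e^{-d}`, which is
decreasing in `d`, `≥ 1.45` at `d = 1`. `a_k → ∞` (`δ_k` is increasing). -/
def T_SEQ : Prop := ∀ ν : ℝ, 0 ≤ ν →
  (∀ x, xc ν ≤ x → 100 * Real.exp (4 * x / 3) ≤ PP ν x ∧ 3000 ≤ Real.exp x) ∧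
  Tendsto (aa ν) atTop atTop ∧ ∀ k : ℕ, xc ν ≤ aa ν k ∧ 0 < de ν k ∧ de ν k ≤ 1 / 2 ∧
    aa ν (k + 1) = aa ν k + de ν k ∧ 0 < la ν k ∧ si ν k = Real.sqrt (PP ν (aa ν k)) / 2 ∧
    7 / 5 * si ν k ≤ si ν (k + 1) ∧ si ν (k + 1) ≤ 2 * si ν k ∧ 250 ≤ la ν k * de ν k ^ 2 ∧
    5 / 4 * (la ν k * de ν k ^ 2) ≤ la ν (k + 1) * de ν (k + 1) ^ 2 ∧
    ∀ x ∈ Icc (aa ν k) (aa ν (k + 1)), PP ν (aa ν k) ≤ PP ν x ∧ PP ν x ≤ 4 * PP ν (aa ν k) ∧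
      Real.exp x ≤ 2 * Real.exp (aa ν k)

/-- **INF** (60 min): behaviour at `-∞`. `|J| ≤ B`, so `|J''| ≤ (1+ν²)B` for `x ≤ 0` and `J'` is bounded
(`|J'(x)| ≤ |J(x+1)-J(x)| + sup|J''|`). `ν = 0`: `J'' = -e^{2x} J` is integrable, so `J'` has a limit, which is `0` since `J` is
bounded. `ν > 0`: `y = J²` has `y'' = 2J'² - 2PJ² ≥ ν² y` for `e^{2x} ≤ ν²/2`, so `y` is convex and bounded there, hence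
nondecreasing, with a limit `l ≥ 0` at `-∞`; `l > 0` would give `y'' ≥ ν² l`, unbounded. So `J → 0`, `J'' → 0`, `J' → 0`. -/
def T_INF : Prop := ∀ (ν : ℝ) (J J' : ℝ → ℝ), 0 ≤ ν → Sol ν J J' →
  Tendsto J' atBot (𝓝 0) ∧ Tendsto (fun x => ν * J x) atBot (𝓝 0)

/-- **UNI** (60 min; uses INF): uniqueness. The Wronskian `Z J' - Z' J` is constant and tends to `0` at `-∞`
(`Z`, `J` bounded). With `J x₀ ≠ 0` and `c = Z x₀ / J x₀` the function `Z - cJ` solves the equation with zero data at `x₀`, so it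
is `0` (Gronwall / `ODE_solution_unique`). -/
def T_UNI : Prop := ∀ (ν : ℝ) (Z Z' J J' : ℝ → ℝ), 0 ≤ ν → Sol ν Z Z' → Sol ν J J' →
  (∃ x, J x ≠ 0) → ∃ c : ℝ, ∀ x, Z x = c * J x ∧ Z' x = c * J' x

/-- **NRM** (45 min): normalisation. A solution which is not identically `0` has `E2 ν J J' (xc ν) > 0` (otherwise
`J = J' = 0` at `xc`); divide by its square root. -/
def T_NRM : Prop := T_SEQ → ∀ (ν : ℝ) (J J' : ℝ → ℝ), 0 ≤ ν → Sol ν J J' → (∃ x, J x ≠ 0) →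
  ∃ c : ℝ, c ≠ 0 ∧ NSol ν (fun x => c * J x) (fun x => c * J' x)

/-- **QID** (60 min; uses INF): `Q = J'² + P J²` has `Q' = 2e^{2x} J²` and tends to `0` at `-∞`. -/
def T_QID : Prop := ∀ (ν : ℝ) (J J' : ℝ → ℝ), 0 ≤ ν → Sol ν J J' → ∀ x : ℝ,
  0 ≤ J' x ^ 2 + PP ν x * J x ^ 2 ∧ IntegrableOn (fun y => Real.exp (2 * y) * J y ^ 2) (Iic x) ∧
  J' x ^ 2 + PP ν x * J x ^ 2 = 2 * ∫ y in Iic x, Real.exp (2 * y) * J y ^ 2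

/-- **FOR** (60 min; uses INF, QID): the forbidden region. For `s ≤ y`: `P ≤ 0`, `(J J')' = J'² - P J² ≥ 0` and
`J J' → 0` at `-∞`, so `J J' ≥ 0`; `J'² ≥ -P J²` by QID, so `J J' ≥ √(-P) J²` and
`J² exp(-2∫√(-P))` is nondecreasing. -/
def T_FOR : Prop := ∀ (ν : ℝ) (J J' : ℝ → ℝ) (x y : ℝ), 0 ≤ ν → Sol ν J J' → x ≤ y →
  PP ν y ≤ 0 → |J x| ≤ |J y| * Real.exp (-∫ s in x..y, Real.sqrt (-(PP ν s)))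

/-- **ENR** (75 min; uses SEQ): the energy. `E₂' = ½ (P'/P)(P^{1/2}J² - P^{-1/2}J'²)`. Let
`E₃ = E₂ + (P'/(2P^{3/2})) J J'`, then `E₃' = (P'/(2P^{3/2}))' J J'`. `|J J'| ≤ E₂/2`. By SEQ (1) `P^{3/2} ≥ 1000 e^{2x}`, so
`P'/(4P^{3/2}) ≤ 1/2000` and `E₃ ∈ [0.999, 1.001] E₂`. `|E₃'| ≤ ¼ |(P'P^{-3/2})'| E₂`, `P' = 2e^{2x}`, and
`|(P'P^{-3/2})'| ≤ 4e^{2x}P^{-3/2} + 6e^{4x}P^{-5/2}`; its integral over `[xc, ∞)` is at most (substitute `y = P`,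
`dy = 2e^{2x}dx`, `e^{2x} = y + ν²`) `4 P(xc)^{-1/2} + 6 P(xc)^{-1/2} + 2 ν² P(xc)^{-3/2} ≤ 1/10`. So `log E₃` varies by at
most `1/10`. -/
def T_ENR : Prop := ∀ (ν : ℝ) (J J' : ℝ → ℝ) (x y : ℝ), 0 ≤ ν → Sol ν J J' → xc ν ≤ x → xc ν ≤ y →
  E2 ν J J' x ≤ 2 * E2 ν J J' y

/-- **LOW** (90 min; uses SEQ, INF, QID, FOR): the kernel is integrable up to `xc`, uniformly. `N = 1+ν`,
`P(xc) = (t_c-ν)(t_c+ν) ≤ C N^{4/3}`, `Q(xc) = P(xc)^{1/2} ≤ C N^{2/3}` (E2 = 1), `J(xc)² ≤ P(xc)^{-1/2} ≤ C N^{-2/3}`. `ν ≥ 1`: on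
`[log ν, xc]` (length `log(t_c/ν) ≤ C N^{-2/3}`) `P ≥ 0`, so `J'² ≤ Q(x) ≤ Q(xc)` (QID: `Q` is nondecreasing) and
`|J| ≤ C N^{-1/3}`; the integral over this part is `≤ C N · N^{-1/3} · N^{-2/3}`. For `x = log ν - τ`: FOR with `y = log ν`,
`ν² - e^{2s} = ν²(1-e^{-2τ}) ≥ (2/3) ν² min(τ,1)`, so `|J| ≤ C N^{-1/3} exp(-ν min(τ^{3/2}, τ)/4)` and
`∫ e^x |J| ≤ C ν N^{-1/3} (∫_0^1 exp(-ντ^{3/2}/4) dτ + ∫_1^∞ exp(-ντ/4) dτ) ≤ C`. `ν < 1`: `t_c ≤ 4000`. On `[-1, xc]` `J'² ≤ Q + ν²J²`,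
`|J'| ≤ C + |J|`, Gronwall backwards: `|J| ≤ C`. Let `B = sup_{y ≤ -1} |J|` (finite): `Q(x) ≤ B² e^{2x}`; for `log ν ≤ y ≤ -1`:
`P ≥ 0`, `|J'| ≤ B e^x`, so `|J(y)| ≤ |J(-1)| + B e^{-1}`; for `y ≤ min(log ν, -1)` `|J(y)| ≤ |J(min(log ν, -1))|` (FOR). So
`B ≤ |J(-1)| + B/e`. (`ν = 0`: the region `P ≥ 0` is everything.) -/
def T_LOW : Prop := ∃ C : ℝ≥0, ∀ (ν : ℝ) (J J' : ℝ → ℝ), 0 ≤ ν → NSol ν J J' →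
  ∫⁻ x in Iic (xc ν), ‖kap J x‖ₑ ≤ C

/-- **WKB** (90 min; uses SEQ, ENR). `Θ(x) = ∫_{xc}^x √P/(2π)`, `Y = P^{1/4} J`, `Y₁ = Y'/√P = P^{-1/4} J' + ¼P^{-5/4}P'J`,
`B₁ = ½ e1(-Θ)(Y - iY₁)`, `B₂ = ½ e1(Θ)(Y + iY₁)`; then `Y = e1(Θ)B₁ + e1(-Θ)B₂`. `Y₁' = -√P Y - P^{-1/4}(P^{-1/4})''·Y`, so
`B₁' = (i/2) e1(-Θ) ψ Y`, `B₂' = -(i/2) e1(Θ) ψ Y`, `ψ = P^{-1/4}(P^{-1/4})'' = (5/16)P^{-5/2}P'² - ¼P^{-3/2}P''`,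
`|ψ| ≤ 3 e^{4x} P^{-5/2}` (`P ≤ e^{2x}`); `|Y|² ≤ E₂ ≤ 2`, `|Y₁| ≤ E₂^{1/2} (1 + small)` (ENR, SEQ (1)). -/
def T_WKB : Prop := ∃ C : ℝ, 0 < C ∧ ∀ (ν : ℝ) (J J' : ℝ → ℝ), 0 ≤ ν → NSol ν J J' →
  ∃ (Θ : ℝ → ℝ) (B1 B2 D1 D2 : ℝ → ℂ), ContinuousOn D1 (Ici (xc ν)) ∧
    ContinuousOn D2 (Ici (xc ν)) ∧ ∀ x, xc ν ≤ x →
    HasDerivAt Θ (Real.sqrt (PP ν x) / (2 * Real.pi)) x ∧ HasDerivAt B1 (D1 x) x ∧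
    HasDerivAt B2 (D2 x) x ∧ ‖B1 x‖ ≤ C ∧ ‖B2 x‖ ≤ C ∧
    ‖D1 x‖ ≤ C * Real.exp (4 * x) * PP ν x ^ (-(5 / 2) : ℝ) ∧
    ‖D2 x‖ ≤ C * Real.exp (4 * x) * PP ν x ^ (-(5 / 2) : ℝ) ∧
    (J x : ℂ) = ((PP ν x ^ (-(1 / 4) : ℝ) : ℝ) : ℂ) * (e1 (Θ x) * B1 x + e1 (-Θ x) * B2 x)

/-- **PHS** (90 min; uses SEQ, WKB): the strips. `a = a_k`, `δ = δ_k`, `λ = λ_k`, `√λ = e^a P(a)^{-1/4}`; on `[a, a+δ]`
`P(a) ≤ P ≤ 4P(a)`, `e^x ≤ 2e^a`. `b = λ^{-1/2} e^x P^{-1/4} B₁`, `c` with `B₂`: `|b| ≤ 2C`, `b' = λ^{-1/2}e^xP^{-1/4}((1-e^{2x}/(2P))B₁ + D₁)`,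
`e^{2x}/P ≤ 2/δ`, `e^{4x}P^{-5/2} ≤ 16 e^{4a}P(a)^{-5/2} ≤ 1/δ`. `Θ'' = e^{2x}/(2π√P)` is between `λ/(4π)` and `4λ/(2π)`,
`|Θ'''| ≤ C e^{4a}P(a)^{-3/2} ≤ C' λ/δ`. Extend `Θ` outside of `[a, a+δ]` by its second order Taylor polynomials at the end
points. `Θ'(a) = √P(a)/(2π) = λδ/π`, and on `[a-δ/16, a]` `Θ' ≥ λδ/π - (δ/16) λ/(2π)`. -/
def T_PHS : Prop := ∃ A : ℝ, 1 ≤ A ∧ ∀ (ν : ℝ) (J J' : ℝ → ℝ) (k : ℕ), 0 ≤ ν → NSol ν J J' →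
  StripD A (aa ν k) (de ν k) (la ν k) (kap J)

/-! ### B. One strip -/

/-- **DCAR** (60 min; uses RAYN): discrete frequencies with gaps. `g' = min(g, 1/(4w))`,
`κ(t) = (1/g') ∫_0^{g'} e1(tτ) dτ`, `|κ(t)| ≥ 1/5` for `|t| ≤ w`; `a_i e1(tη_i) = κ(t)^{-1} ∫ h(η) e1(tη) dη` over `[η_i, η_i+g']`,
`h = Σ a_i g'^{-1} 1_{(η_i, η_i+g']}` (disjoint), so each partial sum is `κ(t)^{-1}` times a partial integral of `h`: RAYN,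
`∫|h|² = Σ|a_i|²/g'`, `1/g' ≤ (A+4) w`. -/
def T_DCAR : Prop := T_CARLS → ∀ A : ℝ, 1 ≤ A → ∃ C : ℝ≥0, ∀ (w g : ℝ) (N : ℕ) (η : ℕ → ℝ)
  (a : ℕ → ℂ), 0 < w → 0 < g → 1 / A ≤ w * g → (∀ i, η i + g ≤ η (i + 1)) →
    ∫⁻ t in Icc (-w) w, (⨆ (j : ℕ) (_ : j ≤ N), ‖∑ i ∈ Finset.range j, a i * e1 (t * η i)‖ₑ) ^ 2 ≤
      C * ENNReal.ofReal w * ∑ i ∈ Finset.range N, ‖a i‖ₑ ^ 2

/-- **ACR** (75 min; uses DCAR): for `u = x+t`, `0 ≤ t ≤ w`, `y_i = y+iw`: `Θ(u+y_i) = Θ(x+y_i) + t Θ1(x+y_i) + E_i(t)`,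
`E_i(t) = ∫_0^t (t-s) Θ2(x+y_i+s) ds`, `|E_{i+1}-E_i| ≤ w²/2 · (A lam/d) w`, at most `2d/w` indices: total variation in `i` at
most `A` (`w² lam ≤ 1`), so by (discrete) Abel summation `e1(±E_i)` can be removed. The frequencies `Θ1(x+y_i)` have gaps
`≥ w lam/A`. `s = -1`: complex conjugates. -/
def T_ACR : Prop := T_CARLS → ∀ A : ℝ, 1 ≤ A → ∃ C : ℝ≥0, ∀ (lam d w : ℝ) (Θ Θ1 Θ2 : ℝ → ℝ)
  (s x y : ℝ) (N : ℕ) (a : ℕ → ℂ), Ph A lam d Θ Θ1 Θ2 → 0 < lam → 0 < d → 0 < w →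
  1 / A ≤ w ^ 2 * lam → w ^ 2 * lam ≤ 1 → (N : ℝ) * w ≤ 2 * d → (s = 1 ∨ s = -1) →
    ∫⁻ u in Icc x (x + w), (⨆ (j : ℕ) (_ : j ≤ N),
      ‖∑ i ∈ Finset.range j, a i * e1 (s * Θ (u + (y + i * w)))‖ₑ) ^ 2 ≤
      C * ENNReal.ofReal w * ∑ i ∈ Finset.range N, ‖a i‖ₑ ^ 2

/-- **WIN** (60 min; uses CRL.ABL): inside a window. With `y = iw`, `X = sΘ1(u+y)`:
`e1(sΘ(u+v)) b(u+v) = e1(s(Θ(u+y) - yΘ1(u+y))) · e1(vX) · [e1(sE(v)) b(u+v)]`, `E(v) = Θ(u+v) - Θ(u+y) - (v-y)Θ1(u+y)`,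
`|E'(v)| ≤ A lam w` on the window, so the bracket is bounded by `A` with total variation `≤ 2π A² lam w² + A ≤ C`; Abel summation
(CRL.ABL) against `∫_{(V1,s]} h(v) e1(Xv) dv`, which is a difference of two integrals in `NN`. -/
def T_WIN : Prop := Pool.Agent.CRL.T_ABL → ∀ A : ℝ, 1 ≤ A → ∃ C : ℝ≥0, ∀ (lam d w : ℝ)
  (Θ Θ1 Θ2 : ℝ → ℝ) (s u : ℝ) (i : ℤ) (V1 V2 : ℝ) (b b' h : ℝ → ℂ), Ph A lam d Θ Θ1 Θ2 →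
  0 < lam → 0 < d → 0 < w → w ≤ d → w ^ 2 * lam ≤ 1 → (s = 1 ∨ s = -1) → Continuous h →
  i * w ≤ V1 → V1 ≤ V2 → V2 ≤ (i + 1) * w →
  (∀ x ∈ Icc (u + V1) (u + V2), HasDerivAt b (b' x) x ∧ ‖b x‖ ≤ A ∧ ‖b' x‖ ≤ A / w) →
  ContinuousOn b' (Icc (u + V1) (u + V2)) →
    ‖∫ v in Ioc V1 V2, e1 (s * Θ (u + v)) * b (u + v) * h v‖ₑ ≤ C * NN w h i (s * Θ1 (u + i * w))

/-- **VCR** (120 min; uses WIN, ACR): one strip. Split `ℝ ∋ u` into `U_p = [pw, (p+1)w)`. For `u ∈ U_p` the strip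
`u+v ∈ [a,a+d)` meets only windows `(iw,(i+1)w]`, `i₀ ≤ i < i₁`, with `u + iw ∈ [a-2w, a+d+2w] ⊆ [a-d/16, a+d+d/16]`, at
most `d/w + 5` of them (`≤ 2d/w`). Let `I_p` be the `i` with `U_p + [iw,(i+1)w] ⊆ [a,a+d]` (an interval of integers; at most 6 windows are
missing). (i) For every `u`, `V1`, `V2`: the integral is the sum over the windows; those not in `I_p` and those which contain `V1` or `V2`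
(at most 8) are bounded by WIN (with `b` and `c`) by `C√lam (NN w h i X + NN w h i (-X))`, `X = Θ1(u+iw)`, `|X| ∈ [lam d/A, A lam d]`;
the square of their sum is `≤ C lam Σ_i (NN(X)² + NN(-X)²)`. (ii) The full windows `i ∈ I_p`, `j₁ ≤ i < j₂`: a difference of two sums
`Σ_{i<j}`; on the window write `b(u+v) = b(u+y_i) + ∫_{y_i}^v b'(u+s) ds`, `y_i = iw`. Second part: Fubini and WIN (with `b = 1`):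
`≤ (A/d) w C NN` for each `i`, and by Cauchy–Schwarz over the `≤ 2d/w` indices the sum is `≤ C (Σ_i NN²)^{1/2}`. First part:
`Σ_{i<j} e1(Θ(u+y_i)) b(u+y_i) A_i(u)`, `A_i(u) = ∫_{window} e1(Θ(u+v)-Θ(u+y_i)) h(v) dv`; `b(u+y_i)` has total variation `≤ 2A` in `i`
(Abel), so it is enough to bound `sup_j |Σ_{i<j} e1(Θ(u+y_i)) A_i(u)|`. For `u, u' ∈ U_p`: `A_i(u) = A_i(u') + ∫_{u'}^u A_i'`, so it is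
`≤ sup_j|Σ e1(Θ(u+y_i)) A_i(u')| + ∫_{U_p} sup_j|Σ e1(Θ(u+y_i)) A_i'(s)| ds`; square, integrate over `u` (ACR, for fixed `u'`, `s`),
average over `u'`: `∫_{U_p} ≤ C Σ_i ∫_{U_p} (|A_i|² + w²|A_i'|²)`, and `|A_i(u)| ≤ C NN w h i (Θ1(u+y_i))`,
`A_i'(u) = ∫ 2πi(Θ1(u+v)-Θ1(u+y_i)) e1(..) h(v) dv`, the factor is `≤ A lam w ≤ A/w` and monotone in `v`: WIN (with
`b = Θ1(u+v)-Θ1(u+y_i)` times `w/A`), `|A_i'| ≤ (C/w) NN`. The term with `c` in the same way (`s = -1`).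
(iii) `∫_{U_p} NN w h i (±Θ1(u+iw))² du ≤ (A/lam) ∫ NN w h i (X)² dX` over `X ∈ ±Θ1(U_p+iw)` (substitution, `Θ2 ≥ lam/A`), and for fixed `i`
these sets are disjoint for different `p`. -/
def T_VCR : Prop := T_CARLS → ∀ A : ℝ, 1 ≤ A → ∃ C : ℝ≥0, ∀ (a d lam w : ℝ) (κ h : ℝ → ℂ),
  0 < d → 0 < lam → StripD A a d lam κ → 0 < w → w ≤ d / 32 → 1 / A ≤ w ^ 2 * lam →
  w ^ 2 * lam ≤ 1 → Continuous h →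
    ∫⁻ u, (⨆ (V1 : ℝ) (V2 : ℝ), ‖FS κ a d h u V1 V2‖ₑ) ^ 2 ≤
      C * ∑' i : ℤ, ∫⁻ X in {X : ℝ | lam * d / A ≤ |X| ∧ |X| ≤ A * (lam * d)}, NN w h i X ^ 2

/-! ### C. Decay -/

/-- **OFD** (75 min): far frequencies. `h = fh H`, `Q_X(y) = ∫ H(s) (2πi(s+X))⁻¹ e1(sy) ds`;
`d/dy (e1(Xy) Q_X(y)) = e1(Xy) h(y)`, so `NN w h i X ≤ 2 sup_{[iw,(i+1)w]} |Q_X|`, and
`sup_W |Q|² ≤ w⁻¹ ∫_W |Q|² + 2 ∫_W |Q||Q'|`. Sum over `i`: `≤ w⁻¹‖Q‖² + 2‖Q‖‖Q'‖`, `‖Q‖ ≤ ‖H‖/D`, `‖Q'‖ ≤ G‖H‖` (Plancherel;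
if `H s s/(s+X)` is not integrable it is still in `L²`: truncate `H` to `|s| ≤ n` and let `n → ∞`, or use `|s/(s+X)| ≤ G`). -/
def T_OFD : Prop := ∃ C : ℝ≥0, ∀ (w D G : ℝ) (Om : Set ℝ) (H : ℝ → ℂ), 0 < w → 0 < D → 0 ≤ G →
  MeasurableSet Om → HH H → (∀ X ∈ Om, ∀ s, H s ≠ 0 → D ≤ |s + X| ∧ |s| ≤ G * |s + X|) →
    ∑' i : ℤ, ∫⁻ X in Om, NN w (fh H) i X ^ 2 ≤
      C * volume Om * ENNReal.ofReal ((w * D ^ 2)⁻¹ + G * D⁻¹) * ∫⁻ s, ‖H s‖ₑ ^ 2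

/-- **DIA** (45 min; uses RAYN): for each window RAYN with `B = fh H` on the window:
`∫_X NN w (fh H) i X ² ≤ C ∫_{window} |fh H|²`; sum over `i`, Plancherel. -/
def T_DIA : Prop := T_CARLS → ∃ C : ℝ≥0, ∀ (w : ℝ) (H : ℝ → ℂ), 0 < w → HH H →
  ∑' i : ℤ, ∫⁻ X : ℝ, NN w (fh H) i X ^ 2 ≤ C * ∫⁻ s, ‖H s‖ₑ ^ 2

/-- **DEC** (75 min; uses SEQ, OFD, DIA): decay between strip and band. `Ω = {σ_k/A ≤ |X| ≤ Aσ_k}`, `|Ω| ≤ 2Aσ_k`,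
`w_k⁻¹ = 4√λ_k`, `w_k⁻¹/σ_k = 4 M_k^{-1/2}`. If `j < k` and `σ_j ≤ σ_k/(2A)`: OFD with `D = σ_k/(2A)`, `G = 2Aσ_j/σ_k`: total
`≤ C (M_k^{-1/2} + σ_j/σ_k)`, `M_k ≥ (5/4)^{k-j}`, `σ_j/σ_k ≤ (5/7)^{k-j}`; `(4/5)^{1/2} ≤ 9/10`. If `k < j` and `σ_{j-1} ≥ 2Aσ_k`:
`D = σ_{j-1}/2`, `G = 2`: `≤ C σ_k/σ_{j-1} ≤ C (5/7)^{j-1-k}`. Otherwise `|k-j| ≤ C(A)`: DIA. -/
def T_DEC : Prop := T_CARLS → ∀ A : ℝ, 1 ≤ A → ∃ C : ℝ≥0, ∀ (ν : ℝ) (k j : ℕ) (H : ℝ → ℂ), 0 ≤ ν →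
  HH H → (∀ s, H s ≠ 0 → s ∈ band ν j) →
    ∑' i : ℤ, ∫⁻ X in {X : ℝ | si ν k / A ≤ |X| ∧ |X| ≤ A * si ν k}, NN (ww ν k) (fh H) i X ^ 2 ≤
      C * ENNReal.ofReal ((9 / 10) ^ (k - j + (j - k))) * ∫⁻ s, ‖H s‖ₑ ^ 2

/-- **SD** (45 min; uses SEQ, PHS, VCR, DEC): VCR with `w = w_k = λ_k^{-1/2}/4` (`w²λ = 1/16`, `w ≤ δ/32` since
`λδ² ≥ 250`), then DEC (`A := max A 16`; `StripD` is monotone in `A`). -/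
def T_SD : Prop := T_CARLS → ∃ C : ℝ≥0, ∀ (ν : ℝ) (J J' : ℝ → ℝ) (k j : ℕ) (H : ℝ → ℂ), 0 ≤ ν →
  NSol ν J J' → HH H → (∀ s, H s ≠ 0 → s ∈ band ν j) →
    ∫⁻ u, (⨆ (V1 : ℝ) (V2 : ℝ), ‖FS (kap J) (aa ν k) (de ν k) (fh H) u V1 V2‖ₑ) ^ 2 ≤
      C * ENNReal.ofReal ((9 / 10) ^ (k - j + (j - k))) * ∫⁻ s, ‖H s‖ₑ ^ 2

/-! ### D. Summation over the strips -/

/-- the multiplier of the `k`-th strip -/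
noncomputable def mk (ν : ℝ) (J : ℝ → ℝ) (k : ℕ) (s : ℝ) : ℂ :=
  ∫ x in Ico (aa ν k) (aa ν k + de ν k), kap J x * e1 (x * s)

/-- **MUL** (75 min; uses SEQ, SD). First: `v = x - u`, Fubini (bounded interval, `H ∈ L¹`). Second: `mk` is continuous; for `s₀`
in the interior of the band `j` take `H = 1_{[s₀-ε,s₀+ε]}`: `FA = FS` for large `V`, `-V`, so by Plancherel
`∫|H mk|² = ∫ |FA|² ≤ C q^{|k-j|} ∫ |H|²`; `ε → 0`. End points by continuity from inside the band. -/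
def T_MUL : Prop := T_CARLS → ∃ C : ℝ, 0 < C ∧ ∀ (ν : ℝ) (J J' : ℝ → ℝ) (k : ℕ), 0 ≤ ν →
  NSol ν J J' → Continuous (mk ν J k) ∧
  (∀ (H : ℝ → ℂ) (u : ℝ), HH H →
    FA (kap J) (aa ν k) (de ν k) (fh H) u = ∫ s, H s * mk ν J k s * e1 (-(u * s))) ∧
  ∀ (j : ℕ) (s : ℝ), s ∈ band ν j → ‖mk ν J k s‖ ^ 2 ≤ C * (9 / 10) ^ (k - j + (j - k))

/-- **PART** (60 min; uses SEQ, SD): `H = Σ_j H 1_{band j}`, `fh H = Σ_j fh (H 1_{band j})` uniformly (`H ∈ L¹`), so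
`FS[fh H] = Σ_j FS[fh H_j]`, `|FS_k| ≤ Σ_j A_{kj}`, `(Σ_j A_{kj})² ≤ (Σ_j q^{|k-j|/2}) (Σ_j q^{-|k-j|/2} A_{kj}²)`; integrate (SD) and
sum over `k`. (`σ_j → ∞`: the bands cover `ℝ`.) -/
def T_PART : Prop := T_CARLS → ∃ C : ℝ≥0, ∀ (ν : ℝ) (J J' : ℝ → ℝ) (H : ℝ → ℂ), 0 ≤ ν →
  NSol ν J J' → HH H →
    ∫⁻ u, ∑' k : ℕ, (⨆ (V1 : ℝ) (V2 : ℝ), ‖FS (kap J) (aa ν k) (de ν k) (fh H) u V1 V2‖ₑ) ^ 2 ≤
      C * ∫⁻ s, ‖H s‖ₑ ^ 2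

/-- **TAIL** (90 min; uses SEQ, SD, MUL, RAYN): sums of whole strips. `H_j = H 1_{band j}`, `F_k = FA` of the strip `k`,
`Σ_{k<n} F_k[H] = Σ_{j<n} Σ_k F_k[H_j] - Σ_{j<n} Σ_{k≥n} F_k[H_j] + Σ_{j≥n} Σ_{k<n} F_k[H_j]` (absolutely convergent by MUL:
`|F_k[H_j](u)| ≤ C q^{|k-j|/2} ‖H_j‖₁`). The first is `∫_{|s|<σ_{n-1}} H m e1(-us) ds` (`0` for `n = 0`), `m = Σ_k mk` bounded by MUL: a
difference of two one-sided partial integrals of `Hm` (in the variable `-u`), RAYN/T_CARLS. The second: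
`|Σ_{j<n≤k} F_k[H_j]|² ≤ (Σ_{j<n≤k} q^{(k-j)/2}) (Σ_{j<k} q^{-(k-j)/2} |F_k[H_j]|²)`, first factor `≤ Σ_d d q^{d/2}`, and the last sum
does not depend on `n`: integrate (SD). The third in the same way. -/
def T_TAIL : Prop := T_CARLS → ∃ C : ℝ≥0, ∀ (ν : ℝ) (J J' : ℝ → ℝ) (H : ℝ → ℂ), 0 ≤ ν →
  NSol ν J J' → HH H →
    ∫⁻ u, (⨆ n : ℕ, ‖∑ k ∈ Finset.range n, FA (kap J) (aa ν k) (de ν k) (fh H) u‖ₑ) ^ 2 ≤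
      C * ∫⁻ s, ‖H s‖ₑ ^ 2

/-- **HI** (75 min; uses SEQ, PART, TAIL): the oscillatory region. For given `u`, `V1 < V2` let `x₁ = max(u+V1, xc)`,
`x₂ = u+V2`; if `x₁ < x₂` they lie in the strips `k₁ ≤ k₂`; if `k₁ = k₂` the integral is an `FS`; otherwise it is
`FS_{k₁} + Σ_{k₁<k<k₂} FA_k + FS_{k₂}`, at most `2 (Σ_k sup|FS_k|²)^{1/2} + 2 sup_n|Σ_{k<n} FA_k|`. -/
def T_HI : Prop := T_CARLS → ∃ C : ℝ≥0, ∀ (ν : ℝ) (J J' : ℝ → ℝ) (H : ℝ → ℂ), 0 ≤ ν →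
  NSol ν J J' → HH H →
    ∫⁻ u, (⨆ (V1 : ℝ) (V2 : ℝ),
      ‖∫ v in Ioc V1 V2 ∩ {v | xc ν ≤ u + v}, kap J (u + v) * fh H v‖ₑ) ^ 2 ≤
      C * ∫⁻ s, ‖H s‖ₑ ^ 2

/-- **HANK** (90 min; uses LOW, HI): the Carleson theorem for the Hankel transform, uniformly in the order. We may
assume `g ∈ L²`. For `x = u+v < xc`: the supremum is `≤ ∫ |κ(u+v)| 1_{u+v<xc} |g(v)| dv`, `L²` norm `≤ C‖g‖` (Young / Schur, LOW). For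
`u+v ≥ xc`: for `g = fh H`, `H` a Schwartz function, HI and Plancherel; in general Schwartz functions `g_n = fh H_n → g` in `L²`; for each
`u`, `V1`, `V2` the integral over `(V1,V2]` converges (`κ` is bounded on bounded sets), so the supremum for `g` is at most the liminf of the suprema
for `g_n`: Fatou. (`V1 → -∞` only matters up to `xc - u`; `κ` is bounded by `Ce^x` near `-∞`, so `κ(u+·) g` is integrable on `(-∞,V]`.) -/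
def T_HANK : Prop := T_CARLS → ∃ C : ℝ≥0, ∀ (ν : ℝ) (J J' : ℝ → ℝ) (g : ℝ → ℂ), 0 ≤ ν →
  NSol ν J J' → Measurable g →
    ∫⁻ u, (⨆ V : ℝ, ‖∫ v in Iic V, kap J (u + v) * g v‖ₑ) ^ 2 ≤ C * ∫⁻ v, ‖g v‖ₑ ^ 2

/-! ### E. `ℝⁿ` -/

/-- finite orthonormal systems of eigenfunctions of the angular Laplacian (weak form) -/
structure EB (n : ℕ) {M : ℕ} (Y : Fin M → E n → ℂ) (lam : Fin M → ℝ) : Prop where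
  cont : ∀ m, Continuous (Y m)
  orth : ∀ m m', ∫ θ, Y m (θ : E n) * conj (Y m' (θ : E n)) ∂(sg n) = if m = m' then 1 else 0
  nonneg : ∀ m, 0 ≤ lam m
  eig : ∀ (m : Fin M) (F : E n → ℂ), ContDiff ℝ 2 F →
    ∫ θ, Lam F (θ : E n) * conj (Y m (θ : E n)) ∂(sg n) =
      -(lam m : ℂ) * ∫ θ, F (θ : E n) * conj (Y m (θ : E n)) ∂(sg n)

/-- squared norm of the projection onto the span of `Y` -/
noncomputable def pn {n M : ℕ} (Y : Fin M → E n → ℂ) (F : E n → ℂ) : ℝ≥0∞ :=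
  ∑ m, ‖∫ θ, F (θ : E n) * conj (Y m (θ : E n)) ∂(sg n)‖ₑ ^ 2

/-- coefficient of `SH h ρ (r ·)` -/
noncomputable def co {n : ℕ} (Y : E n → ℂ) (h : E n → ℂ) (ρ r : ℝ) : ℂ :=
  ∫ θ, SH h ρ (r • (θ : E n)) * conj (Y (θ : E n)) ∂(sg n)

/-- `r^{(n-2)/2} co(ρ, r)` at `2πρr = e^x` -/
noncomputable def ZZ {n : ℕ} (Y : E n → ℂ) (h : E n → ℂ) (ρ x : ℝ) : ℂ :=
  (((Real.exp x / (2 * Real.pi * ρ)) ^ (((n : ℝ) - 2) / 2) : ℝ) : ℂ) *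
    co Y h ρ (Real.exp x / (2 * Real.pi * ρ))

/-- the order of the Bessel function -/
noncomputable def nu (n : ℕ) (l : ℝ) : ℝ := Real.sqrt (l + (((n : ℝ) - 2) / 2) ^ 2)

/-- **SYM** (60 min): the angular Laplacian is symmetric and `≤ 0`. For each plane: `σ` is invariant under `rt i j φ`, so
`∫ F(rt φ θ) conj G(θ) dσ = ∫ F(θ) conj G(rt (-φ) θ) dσ`; second derivatives at `φ = 0` (differentiate under the integral; compact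
sphere). For `F = G`: `∫ F(rt φ θ) conj F(rt φ θ) dσ` is constant in `φ`; second derivative at `0`:
`2 Re ∫ (L2 F) conj F = -2 ∫ |L F|² ≤ 0`. -/
def T_SYM : Prop := ∀ (n : ℕ) (F G : E n → ℂ), 2 ≤ n → ContDiff ℝ 2 F → ContDiff ℝ 2 G →
  ∫ θ, Lam F (θ : E n) * conj (G (θ : E n)) ∂(sg n) =
    ∫ θ, F (θ : E n) * conj (Lam G (θ : E n)) ∂(sg n) ∧
  (∫ θ, Lam F (θ : E n) * conj (F (θ : E n)) ∂(sg n)).re ≤ 0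

/-- **EIG** (120 min; uses SYM): eigenfunctions. `V_K` = functions on the sphere which are restrictions of polynomials of degree `≤ K` in the
coordinates (a finite-dimensional subspace of `L²(σ)`). For a polynomial `p`, `L2 i j p` is a polynomial of degree `≤ K`
(`= (x_i∂_j - x_j∂_i)² p`), and on the sphere it depends only on `p` on the sphere (the orbits stay in the sphere). So `Lam` acts on `V_K`,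
symmetric and `≤ 0` by SYM: take an orthonormal eigenbasis `Y K` (`LinearMap.IsSymmetric.eigenvectorBasis`), `-Lam (Y K m) = lam Y K m`
on the sphere; `eig` by SYM (`Y K m` are restrictions of polynomials, which are smooth). `pn (Y K) F` = squared norm of the orthogonal projection
of `F` to `V_K`, increasing in `K`; the polynomials are dense in `C(S)` (Stone–Weierstrass), so in `L²(σ)` norm too. -/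
def T_EIG : Prop := ∀ n : ℕ, 2 ≤ n → ∃ (N : ℕ → ℕ) (Y : (K : ℕ) → Fin (N K) → E n → ℂ)
  (lam : (K : ℕ) → Fin (N K) → ℝ), (∀ K, EB n (Y K) (lam K)) ∧
  ∀ F : E n → ℂ, Continuous F → (∀ K, pn (Y K) F ≤ pn (Y (K + 1)) F) ∧
    ⨆ K, pn (Y K) F = ∫⁻ θ, ‖F (θ : E n)‖ₑ ^ 2 ∂(sg n)

/-- **ODEN** (90 min; uses HELN): the coefficients solve Bessel's equation. `a = (n-1)/2`, `w(s) = s^a co(ρ, s)`:
integrate HELN (with `R = ρ`) against `conj Y` over the sphere (differentiation under the integral; everything is continuous in `(s, θ)`):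
`w'' = -4π²ρ² w + s^{-2} ((n-1)(n-3)/4 + lam) w`, since `Lam (SH h ρ) (sθ) = Lam (fun y => SH h ρ (s • y)) θ` (rotations commute with
dilations), `EB.eig` (`x ↦ SH h ρ (s • x)` is smooth), `s^{a-2} = s^{-2} s^a`. `Z(x) = s^{-1/2} w(s)`, `s = e^x/(2πρ)`:
`Z'' = s^{3/2} w'' + ¼ s^{-1/2} w = -(e^{2x} - ν²) Z`, `ν² = (n-1)(n-3)/4 + ¼ + lam = ((n-2)/2)² + lam`. Bounded for `x ≤ 0`: `co` is
bounded for bounded `r`, and `(n-2)/2 ≥ 0`. -/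
def T_ODEN : Prop := ∀ (n M : ℕ) (Y : Fin M → E n → ℂ) (lam : Fin M → ℝ) (h : E n → ℂ) (m : Fin M)
  (ρ : ℝ), 2 ≤ n → EB n Y lam → Continuous h → 0 < ρ → ∃ Z1 : ℝ → ℂ,
    Sol (nu n (lam m)) (fun x => (ZZ (Y m) h ρ x).re) (fun x => (Z1 x).re) ∧
    Sol (nu n (lam m)) (fun x => (ZZ (Y m) h ρ x).im) (fun x => (Z1 x).im)

/-- **AHT** (45 min; uses AHN): scaling. `h'(ξ) = h(2ξ/T)`: `SH h' (TR/2) (2x/T) = (T/2)^{n-1} SH h R x`; change variables. -/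
def T_AHT : Prop := ∀ n : ℕ, 2 ≤ n → ∃ C : ℝ≥0, ∀ (T : ℝ) (h : E n → ℂ), 0 < T → Measurable h →
  ∫⁻ R in Ioi (0 : ℝ), ∫⁻ x in Metric.closedBall (0 : E n) T, ‖SH h R x‖ₑ ^ 2 ≤
    C * ENNReal.ofReal T * ∫⁻ ξ, ‖h ξ‖ₑ ^ 2

/-- **GM** (120 min; uses SEQ, UNI, NRM, QID, ENR, ODEN, AHT, POLN): separation of variables. Fix `m`, `Z_ρ = ZZ (Y m) h ρ`. If all `Z_ρ`
vanish take `G = 0`. Otherwise some `Re Z_ρ₀` or `Im Z_ρ₀` is not identically `0`; `J` = its normalisation (NRM). By UNI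
`Z_ρ = G(ρ) J` for all `ρ > 0`, `G(ρ) ∈ ℂ`; with `J(x*) ≠ 0`, `G(ρ) = Z_ρ(x*)/J(x*)` is continuous on `ρ > 0` (put `G = 0` for `ρ ≤ 0`):
`(ρ, r) ↦ co Y h ρ r` is continuous. Energy: Bessel's inequality on each sphere, POLN in `x` and AHT:
`Σ_m ∫_ρ ∫_0^T r^{n-1} |co(ρ,r)|² dr dρ ≤ ∫_ρ ∫_{|x| ≤ T} |SH h ρ x|² ≤ C T ∫|h|²`; `r^{n-1}|co|² = r |G|² J(log 2πrρ)²`,
`∫_0^T r J(log 2πrρ)² dr = (2πρ)^{-2} ∫_{-∞}^{X} e^{2x}J² dx = (2πρ)^{-2} Q(X)/2`, `X = log(2πρT)` (QID), and for `X ≥ xc+1`: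
`Q(X) = √P E₂ ≥ ½√P(X) ≥ ¼e^X` (ENR, `E₂(xc) = 1`), so it is `≥ c T/ρ` for `ρ ≥ e^{xc+1}/(2πT)`. `T → ∞`. -/
def T_GM : Prop := ∀ n : ℕ, 2 ≤ n → ∃ C : ℝ≥0, ∀ (M : ℕ) (Y : Fin M → E n → ℂ) (lam : Fin M → ℝ)
  (h : E n → ℂ), EB n Y lam → Continuous h →
  ∃ (J J' : Fin M → ℝ → ℝ) (G : Fin M → ℝ → ℂ), (∀ m, Measurable (G m)) ∧
    (∀ m, (∀ ρ, G m ρ = 0) ∨ NSol (nu n (lam m)) (J m) (J' m)) ∧
    (∀ m ρ r, 0 < ρ → 0 < r →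
      ((r ^ (((n : ℝ) - 2) / 2) : ℝ) : ℂ) * co (Y m) h ρ r =
        G m ρ * J m (Real.log (2 * Real.pi * r * ρ))) ∧
    ∑ m, ∫⁻ ρ in Ioi (0 : ℝ), ‖G m ρ‖ₑ ^ 2 * ENNReal.ofReal ρ⁻¹ ≤ C * ∫⁻ ξ, ‖h ξ‖ₑ ^ 2

/-- **RAD** (120 min; uses HANK, EIG, GM, POLN, DSN): the main theorem. `h = 𝓕 f`, `S f 0 = 0`, so `S f R (rθ) = ∫_0^R S1 f ρ (rθ) dρ`
(DSN), `S1 f = SH (𝓕 f)`, and `∫ S f R (rθ) conj (Y m θ) dσ = ∫_0^R co(ρ,r) dρ = r^{-(n-2)/2} ∫_0^R G_m(ρ) J_m(log 2πrρ) dρ`; with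
`r = e^u`, `ρ = e^v/(2π)`, `g_m(v) = G_m(e^v/(2π))` it is `r^{-(n-2)/2} (2πr)^{-1} ∫_{v ≤ V} κ_m(u+v) g_m(v) dv`. So `r^{n-1}` times its square is
`r^{-1} (2π)^{-2} |∫|²`, and `∫ dr/r = ∫ du`: HANK for each `m`, `Σ_m ∫ |g_m|² dv = Σ_m ∫ |G_m|² dρ/ρ ≤ C ∫ |𝓕f|²` (GM). So
`∫_r ⨆_R pn (Y K) (S f R (r·)) r^{n-1} ≤ C ∫|f|²` for all `K`, `C` independent of `K`; `K → ∞` by monotone convergence
(`⨆_R ⨆_K = ⨆_K ⨆_R`; the supremum over `R` may be taken over rational `R`: measurability). -/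
def T_RAD : Prop := T_CARLS → ∀ n : ℕ, 2 ≤ n → ∃ C : ℝ≥0, ∀ f : E n → ℂ, Nice f →
  ∫⁻ r in Ioi (0 : ℝ), (⨆ (R : ℝ) (_ : 0 < R), ∫⁻ θ, ‖S f R (r • (θ : E n))‖ₑ ^ 2 ∂(sg n)) *
    ENNReal.ofReal (r ^ (n - 1)) ≤ C * ∫⁻ x, ‖f x‖ₑ ^ 2

/-- **RLIN** (30 min; uses RAD, POLN): polar coordinates (`x ↦ S f (ρ ‖x‖) x` is measurable: `S f R x` is jointly continuous for `R > 0`). -/
def T_RLIN : Prop := T_CARLS → ∀ n : ℕ, 2 ≤ n → ∃ C : ℝ≥0, ∀ (f : E n → ℂ) (ρ : ℝ → ℝ), Nice f →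
  Measurable ρ → (∀ t, 0 < ρ t) → ∫⁻ x, ‖S f (ρ ‖x‖) x‖ₑ ^ 2 ≤ C * ∫⁻ x, ‖f x‖ₑ ^ 2

/-- **RAE** (75 min; uses RAD, POLN): convergence. `f_ε = f ∗ φ_ε`, `φ_ε(x) = ε^{-n}e^{-π|x|²/ε²}`, `𝓕 f_ε = 𝓕f e^{-πε²|ξ|²} ∈ L¹`, so
`S f_ε R → f_ε` uniformly in `x`; RAD for `f - f_ε`, `‖f-f_ε‖₂ → 0`, POLN: for each `ε` the limsup in `R` of the `L²(σ)` norm of
`S f R (r·) - f(r·)` is at most `2` (the supremum in RAD for `f-f_ε`)`^{1/2}` `+ ‖(f-f_ε)(r·)‖`, which tends to `0` in `L²(r^{n-1}dr)`. -/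
def T_RAE : Prop := T_CARLS → ∀ (n : ℕ) (f : E n → ℂ), 2 ≤ n → Nice f →
  ∀ᵐ r ∂(volume.restrict (Ioi (0 : ℝ))),
    Tendsto (fun R : ℝ => ∫⁻ θ, ‖S f R (r • (θ : E n)) - f (r • (θ : E n))‖ₑ ^ 2 ∂(sg n)) atTop (𝓝 0)

end Pool.Agent.CRR
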