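import Pool.Agent.CRR.Targets
import Pool.Agent.CRF.Targets

set_option autoImplicit false

/-!
# CRR, second group: radii with small oscillation on the spheres about the origin
-/

namespace Pool.Agent.CRR

open MeasureTheory FourierTransform Set Filter Topology
open scoped ENNReal NNReal ComplexConjugate
open Pool.Agent.MBS (E ex S Sstar)
open Pool.Agent.CAR (e1)
open Pool.Agent.CRN (IN sg SH S1 Nice sh T_CARLS T_POLN T_AHN T_DSN T_OFFN T_SHL)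

/-- **RMB** (45 min): Rademacher–Menshov for the annuli between the radii `b` and `b + j`, `j ≤ 2^M`; see
`CRF/P_RMG.lean` (there `b = 0`): binary expansion of `j`. -/
def T_RMB : Prop := ∀ n : ℕ, 1 ≤ n → ∃ C : ℝ≥0, ∀ (M b : ℕ) (g : E n → ℂ), Measurable g →
  ∫⁻ x, (⨆ (j : ℕ) (_ : j ≤ 2 ^ M), ‖∫ ξ in Metric.closedBall (0 : E n) ((b : ℝ) + j) \
      Metric.closedBall (0 : E n) b, g ξ * ex x ξ‖ₑ) ^ 2 ≤
    C * ((M : ℝ≥0∞) + 1) ^ 2 * ∫⁻ ξ in Metric.closedBall (0 : E n) ((b : ℝ) + 2 ^ M) \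
      Metric.closedBall (0 : E n) b, ‖g ξ‖ₑ ^ 2

/-- **WRM** (60 min; uses RMB, AHN, DSN): all windows of length `2^M`, on the ball `|x| ≤ 2`. Blocks
`[b, b+2^M]`, `b ∈ 2^M ℕ`. If `|R-R'| ≤ 2^M` then `R`, `R'` lie in the same or in two adjacent blocks, so the supremum is at most
`3 sup_b sup_{R in block b} |S f R - S f b|`; `|S f R - S f ⌊R⌋| ≤ ∫_{⌊R⌋}^{⌊R⌋+1} |S1 f r| dr`, whose square is at most
`∫_0^∞ |S1 f r|² dr` (DSN; AHN with `h = 𝓕f`); and `sup_b (..)² ≤ Σ_b (..)²`, RMB for each `b` with `g = 𝓕 f`, Plancherel. -/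
def T_WRM : Prop := ∀ n : ℕ, 2 ≤ n → ∃ C : ℝ≥0, ∀ (M : ℕ) (f : E n → ℂ), Nice f →
  ∫⁻ x in Metric.closedBall (0 : E n) 2,
    (⨆ (R : ℝ) (R' : ℝ) (_ : 0 ≤ R ∧ 0 ≤ R' ∧ |R - R'| ≤ 2 ^ M), ‖S f R x - S f R' x‖ₑ) ^ 2 ≤
    C * ((M : ℝ≥0∞) + 1) ^ 2 * ∫⁻ x, ‖f x‖ₑ ^ 2

/-- **OSC** (90 min; uses WRM, OFFN, SHL): oscillation over windows of length `A/|x|`, globally. `2^M ≥ 2A`, `M + 1 ≤ C log(2+A)`.
On the shell `sh n j` the windows have length `≤ A 2^{-j}`; by scaling (`f~(y) = f(2^j y)`, `S f~ R x = S f (R/2^j) (2^j x)`) WRM gives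
`∫_{sh j} ≤ C (M+1)² ∫|f|²` for every `f`. For `x ∈ sh j` split `f` as in SHL: near part (this estimate for
`1_{sh (j-1) ∪ sh j ∪ sh (j+1)} f`, sum over `j` by SHL), far parts: `|S R - S R'| ≤ 2 Sstar`, OFFN, as in `CRN/P_GLN.lean`. -/
def T_OSC : Prop := ∀ n : ℕ, 2 ≤ n → ∃ C : ℝ≥0, ∀ (A : ℝ) (f : E n → ℂ), 0 ≤ A → Nice f →
  ∫⁻ x, (⨆ (R : ℝ) (R' : ℝ) (_ : 0 < R ∧ 0 < R' ∧ |R - R'| ≤ A / ‖x‖),
      ‖S f R x - S f R' x‖ₑ) ^ 2 ≤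
    C * ENNReal.ofReal (Real.log (2 + A) ^ 2) * ∫⁻ x, ‖f x‖ₑ ^ 2

/-- **RCH** (45 min; uses RLIN, OSC): the final theorem. Fix a unit vector `e`, `ρ(t) = R(t e)`. RLIN for `ρ`,
`|R x - ρ ‖x‖| ≤ A/‖x‖` for `x ≠ 0`, OSC for the difference. -/
def T_RCH : Prop := T_CARLS → ∀ n : ℕ, 2 ≤ n → ∃ C : ℝ≥0, ∀ (A : ℝ) (f : E n → ℂ) (R : E n → ℝ),
  0 ≤ A → Nice f → Measurable R → (∀ x, 0 < R x) →
  (∀ x y, ‖x‖ = ‖y‖ → |R x - R y| ≤ A / ‖x‖) →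
    ∫⁻ x, ‖S f (R x) x‖ₑ ^ 2 ≤ C * ENNReal.ofReal (Real.log (2 + A) ^ 2) * ∫⁻ x, ‖f x‖ₑ ^ 2

end Pool.Agent.CRR
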